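import Pool.Agent.AVC.St2
import Pool.Agent.AVC.H31_St2
import Pool.Agent.AVC.St5
import Pool.Agent.AVC.Aff

/-!
# Vaught's conjecture for affine structures: the saturated structure, types in it, few types

Everything takes place in one countable saturated affine structure `U : Ad R`; its homogeneous reduct is
`U.md : Md R`. First order logic does not occur: `El U M` is the Tarski-Vaught test for sets given by
affine formulas and their negations, `InK U M` says that `M` is isomorphic to an elementary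
substructure, `FewT U` says that there are countably many types, level-one types, ages, .. in `K`.
The final statement is `St_CUA`.
-/

set_option autoImplicit false
set_option linter.unusedSectionVars false
set_option linter.unusedVariables false

namespace Pool.Agent.AVF

open Set Pool.Agent.AVC Pool.Agent.AVC.Ax

/-- `U` is an infinite countable saturated structure (homogeneous reading of the formulas) -/
structure MonM (R : Type) [RSig R] (U : Md R) : Prop where
  ctbl : Countable U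
  inf : Infinite U
  sat : ∀ (κ ι : Type) [Finite κ] [Finite ι] (b : κ → U) (P N : Set (PP R (κ ⊕ ι))),
    (∀ s t : Finset (PP R (κ ⊕ ι)), ↑s ⊆ P → ↑t ⊆ N → ∃ c : ι → U,
      (∀ φ ∈ s, Sat φ U (Sum.elim b c)) ∧ ∀ ψ ∈ t, ¬ Sat ψ U (Sum.elim b c)) →
    ∃ c : ι → U, (∀ φ ∈ P, Sat φ U (Sum.elim b c)) ∧ ∀ ψ ∈ N, ¬ Sat ψ U (Sum.elim b c)

/-- `U` is an infinite countable saturated affine structure -/
structure MonA (R : Type) [RSig R] (U : Ad R) : Prop where
  ctbl : Countable U
  inf : Infinite U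
  sat : ∀ (κ ι : Type) [Finite κ] [Finite ι] (b : κ → U) (P N : Set (PP R (κ ⊕ ι))),
    (∀ s t : Finset (PP R (κ ⊕ ι)), ↑s ⊆ P → ↑t ⊆ N → ∃ c : ι → U,
      (∀ φ ∈ s, ASat φ U (Sum.elim b c)) ∧ ∀ ψ ∈ t, ¬ ASat ψ U (Sum.elim b c)) →
    ∃ c : ι → U, (∀ φ ∈ P, ASat φ U (Sum.elim b c)) ∧ ∀ ψ ∈ N, ¬ ASat ψ U (Sum.elim b c)

/-- the homogeneous reduct of a saturated affine structure is saturated -/
theorem MonA.md {R : Type} [RSig R] {U : Ad R} (h : MonA R U) : MonM R U.md := by
  classical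
  refine ⟨h.ctbl, h.inf, ?_⟩
  intro κ ι _ _ b P N hf
  obtain ⟨c, h1, h2⟩ := h.sat κ ι b (hom '' P) (hom '' N) (by
    intro s t hs ht
    choose! f hf1 hf2 using fun ψ (hψ : ψ ∈ s) => hs hψ
    choose! g hg1 hg2 using fun ψ (hψ : ψ ∈ t) => ht hψ
    obtain ⟨c, hc1, hc2⟩ := hf (s.image f) (t.image g) (by
      intro φ hφ
      obtain ⟨ψ, hψ, rfl⟩ := Finset.mem_image.1 (Finset.mem_coe.1 hφ)
      exact hf1 ψ hψ) (by
      intro φ hφ
      obtain ⟨ψ, hψ, rfl⟩ := Finset.mem_image.1 (Finset.mem_coe.1 hφ)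
      exact hg1 ψ hψ)
    refine ⟨c, fun ψ hψ => ?_, fun ψ hψ => ?_⟩
    · rw [← hf2 ψ hψ, asat_hom]
      exact hc1 _ (Finset.mem_image_of_mem f hψ)
    · rw [← hg2 ψ hψ, asat_hom]
      exact hc2 _ (Finset.mem_image_of_mem g hψ))
  refine ⟨c, fun φ hφ => ?_, fun ψ hψ => ?_⟩
  · have h3 := h1 _ (mem_image_of_mem hom hφ)
    rwa [asat_hom] at h3
  · have h3 := h2 _ (mem_image_of_mem hom hψ)
    rwa [asat_hom] at h3

section

variable {R : Type} [RSig R]

/-- elementary substructures of `U`: the Tarski-Vaught test for one variable -/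
def El (U : Ad R) (M : Submodule R U) : Prop :=
  ∀ (n : ℕ) (a : Fin n → U) (φ : PP R (Fin n ⊕ Fin 1)) (s : Finset (PP R (Fin n ⊕ Fin 1))),
    (∀ i, a i ∈ M) →
    (∃ y : Fin 1 → U, ASat φ U (Sum.elim a y) ∧ ∀ ψ ∈ s, ¬ ASat ψ U (Sum.elim a y)) →
    ∃ y : Fin 1 → U, y 0 ∈ M ∧ ASat φ U (Sum.elim a y) ∧ ∀ ψ ∈ s, ¬ ASat ψ U (Sum.elim a y)

/-- the class `K` of the elementary substructures of `U`, up to isomorphism -/
def InK (U : Ad R) (M : Type) [AddCommGroup M] [AfS R M] : Prop :=
  ∃ N : Submodule R U, El U N ∧ Nonempty (AIe R M N)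

/-- pure maps into `U` -/
def Pur (U : Ad R) {M : Type} [AddCommGroup M] [AfS R M] (e : Hm R M U) : Prop :=
  e.PrQ ∧ ∀ (n : ℕ) (φ : PP R (Fin n)) (x : Fin n → M), ASat φ U (e ∘ x) → ASat φ M x

/-- an elementary embedding into `U` -/
def Emb (U : Ad R) {M : Type} [AddCommGroup M] [AfS R M] (e : Hm R M U) : Prop :=
  Pur U e ∧ El U (LinearMap.range e.toLinearMap)

variable {ι κ : Type}

/-- the group of the realisations of `S` (homogeneous reading) -/
def grp (U : Type) [AddCommGroup U] [MoS R U] (S : Set (PP R ι)) : AddSubgroup (ι → U) where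
  carrier := {x | Re S U x}
  add_mem' := fun h h' => Re.add h h'
  zero_mem' := Re.zero S
  neg_mem' := fun h => Re.neg h

theorem mem_grp {U : Type} [AddCommGroup U] [MoS R U] {S : Set (PP R ι)} {x : ι → U} :
    x ∈ grp U S ↔ Re S U x := Iff.rfl

/-- `S ∧ S'` has finite index in `S` -/
def FIn (U : Type) [AddCommGroup U] [MoS R U] (S S' : Set (PP R ι)) : Prop :=
  (grp U S').relIndex (grp U S) ≠ 0

/-- every formula contained in `S` is contained in `S'` -/
def PIn (U : Type) [AddCommGroup U] [MoS R U] (S S' : Set (PP R ι)) : Prop :=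
  ∀ χ : PP R ι, (∀ x : ι → U, Sat χ U x → Re S U x) → ∀ x : ι → U, Sat χ U x → Re S' U x

/-- `q^1`: the intersection of the subtypes of finite index which contain all formulas in `q` -/
def one (U : Type) [AddCommGroup U] [MoS R U] (S : Set (PP R ι)) : Set (PP R ι) :=
  {ψ | FIn U S {ψ} ∧ PIn U S {ψ}}

/-- `S` is full: `q = q^1` -/
def Full (U : Type) [AddCommGroup U] [MoS R U] (S : Set (PP R ι)) : Prop :=
  ∀ x : ι → U, Re S U x → Re (one U S) U x

/-- `S` is connected: no proper subtypes of finite index -/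
def Conn (U : Type) [AddCommGroup U] [MoS R U] (S : Set (PP R ι)) : Prop :=
  ∀ ψ : PP R ι, FIn U S {ψ} → ∀ x : ι → U, Re S U x → Sat ψ U x

/-- Claim A: `q^1` has finite index in `q` -/
def ClaimA (U : Md R) : Prop := ∀ (ι : Type) [Finite ι] (S : Set (PP R ι)), FIn U S (one U S)

/-- the fibre type of `z` over `c`, homogeneous -/
def fib (U : Type) [AddCommGroup U] [MoS R U] (c : κ → U) (z : ι → U) : Set (PP R ι) :=
  zer '' pp (R := R) U (Sum.elim c z)

/-- the fibre type of `z` over `c`, affine: the direction of the affine type of `z` over `c` (to be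
read homogeneously, with `Re`) -/
def afib (U : Type) [AddCommGroup U] [AfS R U] (c : κ → U) (z : ι → U) : Set (PP R ι) :=
  zer '' app (R := R) U (Sum.elim c z)

/-- `c` is isolated over `b` (homogeneous reading) -/
def Isol (U : Type) [AddCommGroup U] [MoS R U] (b : κ → U) (c : ι → U) : Prop :=
  ∃ (θ : PP R (κ ⊕ ι)) (s : Finset (PP R (κ ⊕ ι))), Sat θ U (Sum.elim b c) ∧
    (∀ ψ ∈ s, ¬ Sat ψ U (Sum.elim b c)) ∧ ∀ c' : ι → U, Sat θ U (Sum.elim b c') →
      (∀ ψ ∈ s, ¬ Sat ψ U (Sum.elim b c')) →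
      pp (R := R) U (Sum.elim b c') = pp (R := R) U (Sum.elim b c)

/-- `c` is isolated over `b` (affine reading): all tuples in a set which is defined over `b` by
affine formulas and their negations have the same affine type over `b` -/
def AIsol (U : Type) [AddCommGroup U] [AfS R U] (b : κ → U) (c : ι → U) : Prop :=
  ∃ (θ : PP R (κ ⊕ ι)) (s : Finset (PP R (κ ⊕ ι))), ASat θ U (Sum.elim b c) ∧
    (∀ ψ ∈ s, ¬ ASat ψ U (Sum.elim b c)) ∧ ∀ c' : ι → U, ASat θ U (Sum.elim b c') →
      (∀ ψ ∈ s, ¬ ASat ψ U (Sum.elim b c')) →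
      app (R := R) U (Sum.elim b c') = app (R := R) U (Sum.elim b c)

/-- the affine implications of `U` (`(AOwn U).AIn M`: they hold in `M`) -/
def AOwn (U : Ad R) : Ax R := {a | ∀ x : Fin a.1 → U, ASat a.2.1 U x → ASat a.2.2 U x}

theorem aown_in (U : Ad R) : (AOwn U).AIn U := fun a ha x hx => ha x hx

/-! ### Sequences of tuples -/

/-- index type of the first `m` tuples of a sequence of tuples of lengths `k 0, k 1, ..` -/
abbrev Sg (k : ℕ → ℕ) (m : ℕ) : Type := (j : Fin m) × Fin (k j)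

/-- the inclusion of the first `m` blocks -/
def inc (k : ℕ → ℕ) {m n : ℕ} (h : m ≤ n) : Sg k m → Sg k n :=
  fun p => ⟨Fin.castLE h p.1, p.2⟩

/-- index type of all blocks -/
abbrev Si (k : ℕ → ℕ) : Type := (j : ℕ) × Fin (k j)

/-- the first `m` blocks of an infinite sequence -/
def seg (k : ℕ → ℕ) (m : ℕ) : Sg k m → Si k := fun p => ⟨p.1, p.2⟩

instance (k : ℕ → ℕ) (m : ℕ) : Finite (Sg k m) := inferInstance

end

/-! ### Classes, level-one formulas relative to a class -/

/-- a class of affine structures -/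
structure Kl (R : Type) [RSig R] : Type 1 where
  In : ∀ (M : Type) [AddCommGroup M] [AfS R M], Prop

section

variable {R : Type} [RSig R] {ι κ : Type}

/-- implication between level-one formulas in the countable members of the class -/
def Kl.Le1 (X : Kl R) (V W : L1 R ι) : Prop :=
  ∀ (M : Type) [AddCommGroup M] [AfS R M], Countable M → X.In M → ∀ x : ι → M,
    ASat1 V M x → ASat1 W M x

/-- `x` is exact for `V`: `V` is the least level-one formula which `x` satisfies -/
def Kl.Exact (X : Kl R) (V : L1 R ι) (M : Type) [AddCommGroup M] [AfS R M] (x : ι → M) : Prop :=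
  ASat1 V M x ∧ ∀ W : L1 R ι, ASat1 W M x → X.Le1 V W

theorem Kl.Le1.refl {X : Kl R} (V : L1 R ι) : X.Le1 V V := fun M _ _ _ _ x h => h

theorem Kl.Le1.trans {X : Kl R} {U V W : L1 R ι} (h : X.Le1 U V) (h' : X.Le1 V W) : X.Le1 U W :=
  fun M _ _ hc hM x hx => h' M hc hM x (h M hc hM x hx)

/-- the class of the elementary substructures of `U` -/
def KU (U : Ad R) : Kl R := ⟨fun M _ _ => InK U M⟩

/-- the age of a tuple: the affine types of its finite extensions -/
def age (M : Type) [AddCommGroup M] [AfS R M] (a : ι → M) :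
    Set ((k : ℕ) × Set (PP R (ι ⊕ Fin k))) :=
  {σ | ∃ c : Fin σ.1 → M, app M (Sum.elim a c) = σ.2}

/-- the ages realised in a structure -/
def ages (R : Type) [RSig R] (M : Type) [AddCommGroup M] [AfS R M] :
    Set ((n : ℕ) × Set ((k : ℕ) × Set (PP R (Fin n ⊕ Fin k)))) :=
  {σ | ∃ a : Fin σ.1 → M, age M a = σ.2}

end

/-- few types over the structures in `K` -/
structure FewT (R : Type) [RSig R] (U : Ad R) : Prop where
  few0 : ∀ (ι : Type) [Finite ι], {p : Set (PP R ι) | ∃ M : Ad R, InK U M ∧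
    ∃ x : ι → M, app M x = p}.Countable
  few1 : ∀ (ι : Type) [Finite ι], {τ : Set (L1 R ι) | ∃ M : Ad R, InK U M ∧
    ∃ x : ι → M, atp1 M x = τ}.Countable
  few2 : {Θ : Set ((n : ℕ) × Set (L1 R (Fin n))) | ∃ M : Ad R, InK U M ∧
    areal1 M = Θ}.Countable
  few3 : ∀ (ι : Type) [Finite ι], {A : Set ((k : ℕ) × Set (PP R (ι ⊕ Fin k))) |
    ∃ M : Ad R, InK U M ∧ ∃ a : ι → M, age M a = A}.Countable
  few4 : {Θ : Set ((n : ℕ) × Set ((k : ℕ) × Set (PP R (Fin n ⊕ Fin k)))) |
    ∃ M : Ad R, InK U M ∧ ages R M = Θ}.Countable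

/-- every structure in `K` is isomorphic to one of countably many -/
def CtK (R : Type) [RSig R] (U : Ad R) : Prop :=
  ∃ M : ℕ → Ad R, ∀ N : Ad R, InK U N → ∃ n, Nonempty (AIe R N (M n))

/-- **the theorem for the countable saturated affine structure `U`** -/
def St_CUA : Prop := ∀ (R : Type) [RSig R] [Countable R] (U : Ad R), MonA R U → FewT R U →
  CtK R U

end Pool.Agent.AVF
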