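import Pool.Agent.AVF.COV
import Pool.Agent.AVF.Defs

/-!
# AVF: elementary submodules of `U` (helper21)

`El U M` is the Tarski-Vaught test for affine formulas in one variable; here: elementary submodules satisfy
the same affine formulas, the test holds in several variables.
-/

set_option autoImplicit false
set_option linter.unusedSectionVars false
set_option linter.unusedVariables false

namespace Pool.Agent.AVF

open Set Pool.Agent.AVC Pool.Agent.AVC.Ax

section

variable {R : Type} [RSig R] {ι κ : Type}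

/-! ### Affine atomic formulas -/

/-- atomic formulas in a submodule -/
theorem ahold_sub {M : Type} [AddCommGroup M] [AfS R M] {α : Type} (S : Submodule R M)
    (a : Atm R α) (x : α → S) : AHold a S x ↔ AHold a M (fun i => (x i : M)) := by
  have h0 : ∀ e : α →₀ R, ((Finsupp.linearCombination R x e : S) : M) =
      Finsupp.linearCombination R (fun i => (x i : M)) e := fun e => by
    rw [← Submodule.subtype_apply, Finsupp.apply_linearCombination]
    rfl
  rcases a with e | ⟨i, b, t⟩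
  · show Finsupp.linearCombination R x e = 0 ↔
      Finsupp.linearCombination R (fun i => (x i : M)) e = 0
    rw [← h0, Submodule.coe_eq_zero]
  · have h1 : (fun j => ((Finsupp.linearCombination R x (t j) : S) : M)) =
        fun j => Finsupp.linearCombination R (fun i => (x i : M)) (t j) := by
      funext j
      exact h0 _
    cases b
    · show (fun j => ((Finsupp.linearCombination R x (t j) : S) : M)) ∈ MoS.P (R := R) i ↔
        (fun j => Finsupp.linearCombination R (fun i => (x i : M)) (t j)) ∈ MoS.P i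
      rw [h1]
    · show (fun j => ((Finsupp.linearCombination R x (t j) : S) : M)) ∈ AfS.Q (R := R) i ↔
        (fun j => Finsupp.linearCombination R (fun i => (x i : M)) (t j)) ∈ AfS.Q i
      rw [h1]

/-- affine formulas: from the submodule to the whole structure -/
theorem asat_of_sub {M : Type} [AddCommGroup M] [AfS R M] (S : Submodule R M) (φ : PP R ι)
    (x : ι → S) (h : ASat φ S x) : ASat φ M (fun i => (x i : M)) := by
  obtain ⟨y, hy⟩ := h
  refine ⟨fun n => (y n : M), fun e he => ?_⟩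
  have h1 := (ahold_sub S e _).1 (hy e he)
  have h2 : (fun i => ((Sum.elim x y i : S) : M)) =
      Sum.elim (fun i => (x i : M)) (fun n => (y n : M)) := by
    funext i
    cases i <;> rfl
  rwa [h2] at h1

/-- the variables which occur in a formula: finitely many free ones -/
theorem pp_fv (φ : PP R ι) : ∃ F : Finset ι, ∀ e ∈ φ, ∀ i, Sum.inl i ∈ asup e → i ∈ F := by
  classical
  induction φ with
  | nil => exact ⟨∅, fun e he => absurd he List.not_mem_nil⟩
  | cons a l ih =>
    obtain ⟨F, hF⟩ := ih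
    refine ⟨F ∪ (asup a).preimage Sum.inl (Sum.inl_injective.injOn), fun e he n hn => ?_⟩
    rcases List.mem_cons.1 he with rfl | he
    · exact Finset.mem_union_right _ (Finset.mem_preimage.2 hn)
    · exact Finset.mem_union_left _ (hF e he n hn)

/-- elementary submodules satisfy the same affine formulas -/
theorem el_asat {U : Ad R} {M : Submodule R U} (h : El U M) (φ : PP R ι) (x : ι → M) :
    ASat φ M x ↔ ASat φ U (fun i => (x i : U)) := by
  classical
  refine ⟨asat_of_sub M φ x, fun hU => ?_⟩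
  obtain ⟨B, hB⟩ := pp_bd φ
  obtain ⟨F, hF⟩ := pp_fv φ
  obtain ⟨z0, hz0⟩ := hU
  -- solutions whose first coordinates are in `M`
  have key : ∀ m : ℕ, ∃ z : ℕ → U, (∀ j < m, z j ∈ M) ∧
      ∀ e ∈ φ, AHold e U (Sum.elim (fun i => (x i : U)) z) := by
    intro m
    induction m with
    | zero => exact ⟨z0, fun j hj => absurd hj (Nat.not_lt_zero j), hz0⟩
    | succ m ih =>
      obtain ⟨z, hz1, hz2⟩ := ih
      obtain ⟨n, ⟨g⟩⟩ := Finite.exists_equiv_fin (F ⊕ Fin m)
      let a : Fin n → U := fun k => Sum.elim (fun i : F => (x i : U)) (fun j : Fin m => z j)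
        (g.symm k)
      let r : ι ⊕ ℕ → (Fin n ⊕ Fin 1) ⊕ ℕ := Sum.elim
        (fun i => if hi : i ∈ F then Sum.inl (Sum.inl (g (Sum.inl ⟨i, hi⟩))) else Sum.inr 0)
        (fun j => if hj : j < m then Sum.inl (Sum.inl (g (Sum.inr ⟨j, hj⟩))) else
          if j = m then Sum.inl (Sum.inr 0) else Sum.inr j)
      let φ' : PP R (Fin n ⊕ Fin 1) := φ.map (amap r)
      have hr : ∀ (y : Fin 1 → U) (w : ℕ → U), ∀ e ∈ φ,
          (AHold (amap r e) U (Sum.elim (Sum.elim a y) w) ↔ AHold e U (Sum.elim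
            (fun i => (x i : U)) (fun j => if j < m then z j else if j = m then y 0 else w j))) := by
        intro y w e he
        rw [ahold_amap]
        refine ahold_congr fun s hs => ?_
        rcases s with i | j
        · have hi : i ∈ F := hF e he i hs
          simp only [r, Function.comp_apply, Sum.elim_inl, dif_pos hi, a, Equiv.symm_apply_apply]
        · by_cases hj : j < m
          · simp only [r, Function.comp_apply, Sum.elim_inr, dif_pos hj, Sum.elim_inl, a,
              Equiv.symm_apply_apply, if_pos hj]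
          · by_cases hj2 : j = m
            · simp only [r, Function.comp_apply, Sum.elim_inr, dif_neg hj, if_pos hj2,
                Sum.elim_inl, if_neg hj]
            · simp only [r, Function.comp_apply, Sum.elim_inr, dif_neg hj, if_neg hj2, if_neg hj]
      have ha : ∀ i, a i ∈ M := by
        intro i
        show Sum.elim (fun i : F => (x i : U)) (fun j : Fin m => z j) (g.symm i) ∈ M
        rcases g.symm i with i | j
        · exact (x i).2
        · exact hz1 j j.2
      obtain ⟨y, hyM, ⟨w, hw⟩, -⟩ := h n a φ' ∅ ha ⟨fun _ => z m, ⟨z, fun e' he' => by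
        obtain ⟨e, he, rfl⟩ := List.mem_map.mp he'
        rw [hr _ _ e he]
        have h1 : (fun j => if j < m then z j else if j = m then z m else z j) = z := by
          funext j
          by_cases hj : j < m
          · rw [if_pos hj]
          · by_cases hj2 : j = m
            · rw [if_neg hj, if_pos hj2, hj2]
            · rw [if_neg hj, if_neg hj2]
        rw [h1]
        exact hz2 e he⟩, by simp⟩
      refine ⟨fun j => if j < m then z j else if j = m then y 0 else w j, fun j hj => ?_,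
        fun e he => ?_⟩
      · by_cases hj1 : j < m
        · simp only [if_pos hj1]
          exact hz1 j hj1
        · have hj2 : j = m := by omega
          simp only [if_neg hj1, if_pos hj2]
          exact hyM
      · rw [← hr y w e he]
        exact hw _ (List.mem_map_of_mem he)
  obtain ⟨z, hz1, hz2⟩ := key B
  refine ⟨fun j => if hj : j < B then ⟨z j, hz1 j hj⟩ else 0, fun e he => ?_⟩
  rw [ahold_sub]
  refine (ahold_congr fun s hs => ?_).1 (hz2 e he)
  rcases s with i | j
  · rfl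
  · have hj : j < B := hB e he j hs
    simp only [Sum.elim_inr, dif_pos hj]

theorem el_app {U : Ad R} {M : Submodule R U} (h : El U M) (x : ι → M) :
    app (R := R) M x = app U (fun i => (x i : U)) := by
  ext φ
  exact el_asat h φ x

theorem el_are {U : Ad R} {M : Submodule R U} (h : El U M) (S : Set (PP R ι))
    (x : ι → M) : ARe S M x ↔ ARe S U (fun i => (x i : U)) :=
  forall₂_congr fun φ _ => el_asat h φ x

/-- elementary submodules are pure in the homogeneous sense -/
theorem el_sat {U : Ad R} {M : Submodule R U} (h : El U M) (φ : PP R ι) (x : ι → M) :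
    Sat φ M x ↔ Sat φ U (fun i => (x i : U)) := by
  rw [← asat_hom, ← asat_hom]
  exact el_asat h (hom φ) x

theorem el_pp {U : Ad R} {M : Submodule R U} (h : El U M) (x : ι → M) :
    pp (R := R) M x = pp U (fun i => (x i : U)) := by
  ext φ
  exact el_sat h φ x

theorem el_re {U : Ad R} {M : Submodule R U} (h : El U M) (S : Set (PP R ι))
    (x : ι → M) : Re S M x ↔ Re S U (fun i => (x i : U)) :=
  forall₂_congr fun φ _ => el_sat h φ x

/-! ### Types and renaming -/

theorem app_cmp {M N : Type} [AddCommGroup M] [AfS R M] [AddCommGroup N] [AfS R N]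
    (f : κ → ι) {x : ι → M} {y : ι → N} (h : app (R := R) M x = app N y) :
    app (R := R) M (x ∘ f) = app N (y ∘ f) := by
  ext φ
  have h1 : ren f φ ∈ app M x ↔ ren f φ ∈ app N y := by rw [h]
  have h2 : ASat (ren f φ) M x ↔ ASat (ren f φ) N y := h1
  rw [asat_ren, asat_ren] at h2
  exact h2

theorem asat_of_app {M N : Type} [AddCommGroup M] [AfS R M] [AddCommGroup N] [AfS R N]
    {x : ι → M} {y : ι → N} (h : app (R := R) M x = app N y) (φ : PP R ι) :
    ASat φ M x ↔ ASat φ N y := by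
  have h1 : φ ∈ app M x ↔ φ ∈ app N y := by rw [h]
  exact h1

/-- affine types determine homogeneous types -/
theorem pp_of_app {M N : Type} [AddCommGroup M] [AfS R M] [AddCommGroup N] [AfS R N]
    {x : ι → M} {y : ι → N} (h : app (R := R) M x = app N y) :
    pp (R := R) M x = pp N y := by
  ext φ
  have h1 := asat_of_app h (hom φ)
  rw [asat_hom, asat_hom] at h1
  exact h1

theorem ahold_P {K : Type} [AddCommGroup K] [AfS R K] (i : RSig.Ix R)
    (z : Fin (RSig.ar i) → K) :
    AHold (Sum.inr ⟨i, false, fun j => Finsupp.single j 1⟩ : Atm R (Fin (RSig.ar i))) K z ↔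
      z ∈ MoS.P (R := R) (M := K) i := by
  show (fun j => Finsupp.linearCombination R z (Finsupp.single j 1)) ∈
    MoS.P (R := R) (M := K) i ↔ _
  have h3 : (fun j => Finsupp.linearCombination R z (Finsupp.single j 1)) = z := by
    funext j
    rw [Finsupp.linearCombination_single, one_smul]
  rw [h3]

theorem ahold_Q {K : Type} [AddCommGroup K] [AfS R K] (i : RSig.Ix R)
    (z : Fin (RSig.ar i) → K) :
    AHold (Sum.inr ⟨i, true, fun j => Finsupp.single j 1⟩ : Atm R (Fin (RSig.ar i))) K z ↔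
      z ∈ AfS.Q (R := R) (M := K) i := by
  show (fun j => Finsupp.linearCombination R z (Finsupp.single j 1)) ∈
    AfS.Q (R := R) (M := K) i ↔ _
  have h3 : (fun j => Finsupp.linearCombination R z (Finsupp.single j 1)) = z := by
    funext j
    rw [Finsupp.linearCombination_single, one_smul]
  rw [h3]

/-- atomic formulas are decided by the type -/
theorem ahold_of_app {M N : Type} [AddCommGroup M] [AfS R M] [AddCommGroup N] [AfS R N]
    {x : ι → M} {y : ι → N} (h : app (R := R) M x = app N y) (a : Atm R ι) :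
    AHold a M x ↔ AHold a N y := by
  obtain ⟨φ, hφ, -⟩ := isAP_hold a
  exact (hφ M x).trans ((asat_of_app h φ).trans (hφ N y).symm)

theorem mem_P_of_app {M N : Type} [AddCommGroup M] [AfS R M] [AddCommGroup N] [AfS R N]
    {i : RSig.Ix R} {x : Fin (RSig.ar i) → M} {y : Fin (RSig.ar i) → N}
    (h : app (R := R) M x = app N y) :
    x ∈ MoS.P (R := R) (M := M) i ↔ y ∈ MoS.P (R := R) (M := N) i := by
  rw [← ahold_P, ← ahold_P]
  exact ahold_of_app h _

theorem mem_Q_of_app {M N : Type} [AddCommGroup M] [AfS R M] [AddCommGroup N] [AfS R N]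
    {i : RSig.Ix R} {x : Fin (RSig.ar i) → M} {y : Fin (RSig.ar i) → N}
    (h : app (R := R) M x = app N y) :
    x ∈ AfS.Q (R := R) (M := M) i ↔ y ∈ AfS.Q (R := R) (M := N) i := by
  rw [← ahold_Q, ← ahold_Q]
  exact ahold_of_app h _

/-! ### Elimination, Tarski-Vaught in several variables -/

/-- Whether `φ ∧ ¬ ψ_1 ∧ ..` has a solution over `a` depends only on which of the formulas
`∃ y, φ ∧ ψ_i ∧ ψ_j ∧ ..` hold for `a`. -/
theorem cov_fin {M : Type} [AddCommGroup M] [AfS R M] {a b : ι → M}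
    (φ : PP R (ι ⊕ κ)) (s : Finset (PP R (ι ⊕ κ)))
    (hP : ∀ J ⊆ s, (∃ y : κ → M, ASat φ M (Sum.elim a y) ∧
      ∀ ψ ∈ J, ASat ψ M (Sum.elim a y)) ↔ ∃ y : κ → M, ASat φ M (Sum.elim b y) ∧
      ∀ ψ ∈ J, ASat ψ M (Sum.elim b y))
    (h : ∃ y : κ → M, ASat φ M (Sum.elim a y) ∧ ∀ ψ ∈ s, ¬ ASat ψ M (Sum.elim a y)) :
    ∃ y : κ → M, ASat φ M (Sum.elim b y) ∧ ∀ ψ ∈ s, ¬ ASat ψ M (Sum.elim b y) := by
  classical
  obtain ⟨y, hy, hys⟩ := h
  obtain ⟨y₁, hy₁, -⟩ := (hP ∅ (Finset.empty_subset s)).mp ⟨y, hy, by simp⟩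
  by_contra hcon
  have hcov : ∀ z : κ → M, ASat φ M (Sum.elim b z) → ∃ ψ ∈ s, ASat ψ M (Sum.elim b z) := by
    intro z hz
    by_contra h
    exact hcon ⟨z, hz, fun ψ hψ hs => h ⟨ψ, hψ, hs⟩⟩
  have key := cover_iff (G := satGroup (zer φ) M) s
    (fun ψ => (satGroup (zer ψ) M).addSubgroupOf (satGroup (zer φ) M))
    (fun ψ => {t | ASat ψ M (Sum.elim b (y₁ + (t : κ → M)))})
    (fun ψ => {t | ASat ψ M (Sum.elim a (y + (t : κ → M)))})
    (fun ψ t ht u => by
      rw [AddSubgroup.mem_addSubgroupOf]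
      have h1 := asat_sub_iff ψ b _ (y₁ + (u : κ → M)) ht
      rw [add_sub_add_left_eq_sub] at h1
      exact h1)
    (fun ψ t ht u => by
      rw [AddSubgroup.mem_addSubgroupOf]
      have h1 := asat_sub_iff ψ a _ (y + (u : κ → M)) ht
      rw [add_sub_add_left_eq_sub] at h1
      exact h1)
    (by
      intro J hJ
      have hA : ∀ (c : ι → M) (z : κ → M), ASat φ M (Sum.elim c z) →
          ((∃ t : satGroup (zer φ) M, ∀ ψ ∈ J, ASat ψ M (Sum.elim c (z + (t : κ → M)))) ↔
            ∃ y : κ → M, ASat φ M (Sum.elim c y) ∧ ∀ ψ ∈ J, ASat ψ M (Sum.elim c y)) := by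
        intro c z hz
        constructor
        · rintro ⟨t, ht⟩
          refine ⟨z + t, ?_, ht⟩
          rw [asat_sub_iff φ c z _ hz, add_sub_cancel_left]
          exact t.2
        · rintro ⟨w, hw, hw'⟩
          refine ⟨⟨w - z, (asat_sub_iff φ c z w hz).mp hw⟩, fun ψ hψ => ?_⟩
          have h1 : z + (w - z) = w := add_sub_cancel _ _
          show ASat ψ M (Sum.elim c (z + (w - z)))
          rw [h1]
          exact hw' ψ hψ
      exact (hA b y₁ hy₁).trans ((hP J hJ).symm.trans (hA a y hy).symm))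
    (by
      intro t
      exact hcov _ ((asat_sub_iff φ b y₁ _ hy₁).mpr (by rw [add_sub_cancel_left]; exact t.2)))
  obtain ⟨ψ, hψ, h1⟩ := key 0
  refine hys ψ hψ ?_
  have h2 : ASat ψ M (Sum.elim a (y + 0)) := h1
  rwa [add_zero] at h2

/-- the test in several variables, for tuples indexed by `Fin` -/
private theorem el_tv_fin {U : Ad R} {M : Submodule R U} (h : El U M) (k : ℕ) :
    ∀ (n : ℕ) (a : Fin n → M) (φ : PP R (Fin n ⊕ Fin k)) (s : Finset (PP R (Fin n ⊕ Fin k))),
    (∃ y : Fin k → U, ASat φ U (Sum.elim (fun i => (a i : U)) y) ∧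
      ∀ ψ ∈ s, ¬ ASat ψ U (Sum.elim (fun i => (a i : U)) y)) →
    ∃ y : Fin k → M, ASat φ U (Sum.elim (fun i => (a i : U)) (fun i => (y i : U))) ∧
      ∀ ψ ∈ s, ¬ ASat ψ U (Sum.elim (fun i => (a i : U)) (fun i => (y i : U))) := by
  classical
  induction k with
  | zero =>
    rintro n a φ s ⟨y, hy⟩
    have h1 : y = fun i => (((fun i => i.elim0 : Fin 0 → M) i : M) : U) :=
      Subsingleton.elim _ _
    rw [h1] at hy
    exact ⟨_, hy⟩
  | succ k ih =>
    rintro n a φ s ⟨y, hy1, hy2⟩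
    let e : Fin n ⊕ Fin (k + 1) → Fin (n + 1) ⊕ Fin k :=
      Sum.elim (fun i => Sum.inl i.castSucc) (Fin.cases (Sum.inl (Fin.last n)) Sum.inr)
    have he : ∀ (a : Fin n → U) (z : U) (y : Fin k → U),
        Sum.elim (Fin.snoc a z : Fin (n + 1) → U) y ∘ e = Sum.elim a (Fin.cons z y) := by
      intro a z y
      funext i
      rcases i with i | i
      · simp [e]
      · refine Fin.cases ?_ (fun i => ?_) i <;> simp [e]
    -- the conditions in the new parameter
    have hχ : ∀ J : Finset (PP R (Fin (n + 1) ⊕ Fin k)), ∃ χ : PP R (Fin (n + 1)),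
        ∀ x : Fin (n + 1) → U, (∃ y : Fin k → U, ASat (ren e φ) U (Sum.elim x y) ∧
          ∀ ψ ∈ J, ASat ψ U (Sum.elim x y)) ↔ ASat χ U x := by
      intro J
      obtain ⟨χ, hχ, -⟩ := ((isAP_sat (ren e φ)).and (isAP_finset J)).ex
      exact ⟨χ, fun x => hχ U x⟩
    choose χ hχ using hχ
    let g : Fin (n + 1) → Fin n ⊕ Fin 1 := Fin.lastCases (Sum.inr 0) Sum.inl
    have hg : ∀ (a : Fin n → U) (z : Fin 1 → U),
        Sum.elim a z ∘ g = (Fin.snoc a (z 0) : Fin (n + 1) → U) := by
      intro a z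
      funext i
      refine Fin.lastCases ?_ (fun i => ?_) i <;> simp [g]
    let s₁ : Finset (PP R (Fin (n + 1) ⊕ Fin k)) := s.image (ren e)
    let x₀ : Fin (n + 1) → U := Fin.snoc (fun i => (a i : U)) (y 0)
    let T : Finset (Finset (PP R (Fin (n + 1) ⊕ Fin k))) := s₁.powerset
    let Tp := T.filter fun J => ASat (χ J) U x₀
    let Tn := T.filter fun J => ¬ ASat (χ J) U x₀
    obtain ⟨φ₂, hφ₂, -⟩ := isAP_finset (Tp.image fun J => ren g (χ J))
    obtain ⟨z, hzM, hz1, hz2⟩ := h n (fun i => (a i : U)) φ₂ (Tn.image fun J => ren g (χ J))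
      (fun i => (a i).2) ⟨fun _ => y 0, by
        rw [← hφ₂]
        intro ψ hψ
        obtain ⟨J, hJ, rfl⟩ := Finset.mem_image.mp hψ
        rw [asat_ren, hg]
        exact (Finset.mem_filter.mp hJ).2, by
        intro ψ hψ
        obtain ⟨J, hJ, rfl⟩ := Finset.mem_image.mp hψ
        rw [asat_ren, hg]
        exact (Finset.mem_filter.mp hJ).2⟩
    rw [← hφ₂] at hz1
    let x₁ : Fin (n + 1) → U := Fin.snoc (fun i => (a i : U)) (z 0)
    have hx : ∀ J ∈ T, (ASat (χ J) U x₀ ↔ ASat (χ J) U x₁) := by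
      intro J hJ
      by_cases h1 : ASat (χ J) U x₀
      · refine ⟨fun _ => ?_, fun _ => h1⟩
        have h2 := hz1 _ (Finset.mem_image_of_mem _ (Finset.mem_filter.mpr ⟨hJ, h1⟩))
        rw [asat_ren, hg] at h2
        exact h2
      · refine ⟨fun h => absurd h h1, fun h3 => ?_⟩
        have h2 := hz2 _ (Finset.mem_image_of_mem _ (Finset.mem_filter.mpr ⟨hJ, h1⟩))
        rw [asat_ren, hg] at h2
        exact absurd h3 h2
    have hy : y = Fin.cons (y 0) (fun i => y i.succ) := by
      funext i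
      refine Fin.cases ?_ (fun i => ?_) i <;> simp
    obtain ⟨y', hy'⟩ := cov_fin (a := x₀) (b := x₁) (ren e φ) s₁ (fun J hJ => by
      rw [hχ, hχ]
      exact hx J (Finset.mem_powerset.mpr hJ)) ⟨fun i => y i.succ, by
        rw [asat_ren, he, ← hy]
        exact hy1, by
        intro ψ hψ
        obtain ⟨ψ', hψ', rfl⟩ := Finset.mem_image.mp hψ
        rw [asat_ren, he, ← hy]
        exact hy2 ψ' hψ'⟩
    let a' : Fin (n + 1) → M := Fin.snoc a ⟨z 0, hzM⟩
    have ha' : (fun i => (a' i : U)) = x₁ := by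
      funext i
      refine Fin.lastCases ?_ (fun i => ?_) i <;> simp [a', x₁]
    obtain ⟨w, hw1, hw2⟩ := ih (n + 1) a' (ren e φ) s₁ ⟨y', by rw [ha']; exact hy'⟩
    rw [ha'] at hw1 hw2
    have hw : (fun i => (((Fin.cons ⟨z 0, hzM⟩ w : Fin (k + 1) → M) i : M) : U)) =
        Fin.cons (z 0) (fun i => (w i : U)) := by
      funext i
      refine Fin.cases ?_ (fun i => ?_) i <;> simp
    refine ⟨Fin.cons ⟨z 0, hzM⟩ w, ?_, fun ψ hψ => ?_⟩
    · rw [hw, ← he, ← asat_ren]
      exact hw1
    · rw [hw, ← he, ← asat_ren]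
      exact hw2 _ (Finset.mem_image_of_mem _ hψ)

/-- the Tarski-Vaught test in several variables -/
theorem el_tv [Finite ι] [Finite κ] {U : Ad R} {M : Submodule R U} (h : El U M) (a : κ → M)
    (φ : PP R (κ ⊕ ι)) (s : Finset (PP R (κ ⊕ ι)))
    (hex : ∃ y : ι → U, ASat φ U (Sum.elim (fun i => (a i : U)) y) ∧
      ∀ ψ ∈ s, ¬ ASat ψ U (Sum.elim (fun i => (a i : U)) y)) :
    ∃ y : ι → M, ASat φ U (Sum.elim (fun i => (a i : U)) (fun i => (y i : U))) ∧
      ∀ ψ ∈ s, ¬ ASat ψ U (Sum.elim (fun i => (a i : U)) (fun i => (y i : U))) := by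
  classical
  obtain ⟨n, ⟨f⟩⟩ := Finite.exists_equiv_fin κ
  obtain ⟨k, ⟨g⟩⟩ := Finite.exists_equiv_fin ι
  have h1 : ∀ (a : κ → U) (y : ι → U),
      Sum.elim (a ∘ f.symm) (y ∘ g.symm) ∘ Sum.map f g = Sum.elim a y := by
    intro a y
    funext i
    rcases i with i | i <;> simp
  obtain ⟨y, hy1, hy2⟩ := hex
  obtain ⟨w, hw1, hw2⟩ := el_tv_fin h k n (a ∘ f.symm) (ren (Sum.map f g) φ)
    (s.image (ren (Sum.map f g))) ⟨y ∘ g.symm, by
      rw [asat_ren]
      have h2 := h1 (fun i => (a i : U)) y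
      have h3 : (fun i => ((((a ∘ f.symm) i : M)) : U)) = (fun i => (a i : U)) ∘ f.symm := rfl
      rw [h3, h2]
      exact hy1, by
      intro ψ hψ
      obtain ⟨ψ', hψ', rfl⟩ := Finset.mem_image.mp hψ
      rw [asat_ren]
      have h2 := h1 (fun i => (a i : U)) y
      have h3 : (fun i => ((((a ∘ f.symm) i : M)) : U)) = (fun i => (a i : U)) ∘ f.symm := rfl
      rw [h3, h2]
      exact hy2 ψ' hψ'⟩
  have h3 : (fun i => ((((a ∘ f.symm) i : M)) : U)) = (fun i => (a i : U)) ∘ f.symm := rfl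
  have h4 : (fun i => ((w i : M) : U)) = (fun i => (((w ∘ g) i : M) : U)) ∘ g.symm := by
    funext i
    simp
  refine ⟨w ∘ g, ?_, fun ψ hψ => ?_⟩
  · rw [asat_ren, h3, h4, h1] at hw1
    exact hw1
  · have h5 := hw2 _ (Finset.mem_image_of_mem _ hψ)
    rw [asat_ren, h3, h4, h1] at h5
    exact h5

/-! ### The class `K` -/

theorem el_self (U : Ad R) : El U ⊤ := by
  intro n a φ s _ h
  obtain ⟨y, hy⟩ := h
  exact ⟨y, Submodule.mem_top, hy⟩

theorem el_inK {U : Ad R} {N : Submodule R U} (h : El U N) : InK U N :=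
  ⟨N, h, ⟨AIe.refl R N⟩⟩

theorem inK_iso {U : Ad R} {M N : Type} [AddCommGroup M] [AfS R M] [AddCommGroup N] [AfS R N]
    (e : AIe R M N) (h : InK U M) : InK U N := by
  obtain ⟨L, hL, ⟨f⟩⟩ := h
  exact ⟨L, hL, ⟨e.symm.trans f⟩⟩

theorem inK_ctbl {U : Ad R} (hU : MonA R U) {M : Type} [AddCommGroup M] [AfS R M]
    (h : InK U M) : Countable M := by
  obtain ⟨N, hN, ⟨e⟩⟩ := h
  have _ := hU.ctbl
  exact e.injective.countable

theorem el_in_own {U : Ad R} {N : Submodule R U} (h : El U N) : (Own R U).In N := by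
  intro a ha x hx
  have h1 : Sat a.2.1 U (fun i => (x i : U)) := (el_sat h _ x).1 hx
  exact (el_sat h _ x).2 (ha _ h1)

/-- members of `K` are members of the homogeneous class -/
theorem in_own_of_inK {U : Ad R} {M : Type} [AddCommGroup M] [AfS R M] (h : InK U M) :
    (Own R U).In M := by
  obtain ⟨N, hN, ⟨e⟩⟩ := h
  exact Ax.In.of_equiv e.symm.toIe (el_in_own hN)

/-- tuples of members of `K` have types which are realised in `U` -/
theorem inK_app {U : Ad R} {M : Type} [AddCommGroup M] [AfS R M] (h : InK U M)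
    (x : ι → M) : ∃ z : ι → U, app (R := R) U z = app M x := by
  obtain ⟨N, hN, ⟨e⟩⟩ := h
  refine ⟨fun i => ((e (x i) : N) : U), ?_⟩
  rw [← el_app hN]
  exact app_iso e x

/-- implications between affine formulas which hold in `U` hold in `K` -/
theorem inK_imp {U : Ad R} {M : Type} [AddCommGroup M] [AfS R M] (h : InK U M)
    (s : Finset (PP R ι)) (ψ : PP R ι) (hU : ∀ x : ι → U, (∀ φ ∈ s, ASat φ U x) → ASat ψ U x)
    (x : ι → M) (hx : ∀ φ ∈ s, ASat φ M x) : ASat ψ M x := by
  obtain ⟨z, hz⟩ := inK_app h x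
  exact (asat_of_app hz ψ).1 (hU z fun φ hφ => (asat_of_app hz φ).2 (hx φ hφ))

/-- a map from a member of `K` which preserves and reflects affine formulas has an elementary range -/
theorem el_of_pure {U : Ad R} {M : Type} [AddCommGroup M] [AfS R M] (hM : InK U M)
    (N : Submodule R U) (e : M → U) (he : range e = (N : Set U))
    (hp : ∀ (n : ℕ) (φ : PP R (Fin n)) (x : Fin n → M), ASat φ M x ↔ ASat φ U (e ∘ x)) :
    El U N := by
  intro n a φ s ha hex
  have h1 : ∀ i, ∃ m, e m = a i := fun i => by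
    have h2 : a i ∈ (N : Set U) := ha i
    rw [← he] at h2
    exact h2
  choose x hx using h1
  have hx' : e ∘ x = a := funext hx
  obtain ⟨L, hL, ⟨f⟩⟩ := hM
  -- the tuple of `L` has the same type
  have h3 : app (R := R) U a = app U (fun i => ((f (x i) : L) : U)) := by
    ext ψ
    show ASat ψ U a ↔ ASat ψ U (fun i => ((f (x i) : L) : U))
    rw [← hx', ← hp, ← el_asat hL]
    exact (asat_iso f).symm
  have h4 := acov h3 φ s hex
  obtain ⟨w, hw1, hw2⟩ := el_tv hL (fun i => f (x i)) φ s h4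
  let w' : Fin 1 → M := fun i => f.symm (w i)
  have h5 : ∀ ψ : PP R (Fin n ⊕ Fin 1), ASat ψ U (Sum.elim a (e ∘ w')) ↔
      ASat ψ U (Sum.elim (fun i => ((f (x i) : L) : U)) (fun i => ((w i : L) : U))) := by
    intro ψ
    obtain ⟨g⟩ : Nonempty (Fin (n + 1) ≃ Fin n ⊕ Fin 1) := ⟨finSumFinEquiv.symm⟩
    have h6 := hp (n + 1) (ren g.symm ψ) (Sum.elim x w' ∘ g)
    rw [asat_ren, asat_ren] at h6
    have h7 : (Sum.elim x w' ∘ g) ∘ g.symm = Sum.elim x w' := by
      funext i
      simp
    have h8 : (e ∘ (Sum.elim x w' ∘ g)) ∘ g.symm = Sum.elim a (e ∘ w') := by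
      funext i
      rcases i with i | i
      · simp [hx]
      · simp
    rw [h7, h8] at h6
    rw [← h6, ← asat_iso f]
    have h9 : (fun i => ((Sum.elim (fun i => f (x i)) w i : L) : U)) =
        Sum.elim (fun i => ((f (x i) : L) : U)) (fun i => ((w i : L) : U)) := by
      funext i
      rcases i with i | i <;> rfl
    rw [← h9, ← el_asat hL]
    have h10 : (f ∘ Sum.elim x w') = Sum.elim (fun i => f (x i)) w := by
      funext i
      rcases i with i | i
      · rfl
      · simp [w']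
    rw [h10]
  refine ⟨e ∘ w', ?_, (h5 φ).2 hw1, fun ψ hψ h => hw2 ψ hψ ((h5 ψ).1 h)⟩
  have h11 : e (w' 0) ∈ (N : Set U) := by
    rw [← he]
    exact ⟨_, rfl⟩
  exact h11

theorem inK_aown {U : Ad R} {M : Type} [AddCommGroup M] [AfS R M] (h : InK U M) :
    (AOwn U).AIn M := by
  intro a ha x hx
  obtain ⟨z, hz⟩ := inK_app h x
  exact (asat_of_app hz _).1 (ha z ((asat_of_app hz _).2 hx))

/-! ### Finitely many variables -/

/-- a formula has finitely many variables -/
theorem fin_vars (φ : PP R ι) : ∃ (F : Finset ι) (φ' : PP R F), φ = ren Subtype.val φ' := by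
  classical
  obtain ⟨F, hF⟩ := pp_fv φ
  have hinj : Function.Injective (Sum.map (Subtype.val : F → ι) (id : ℕ → ℕ)) :=
    Function.Injective.sumMap Subtype.val_injective Function.injective_id
  have hr : ∀ e : (ι ⊕ ℕ) →₀ R, (∀ i, Sum.inl i ∈ e.support → i ∈ F) →
      Finsupp.mapDomain (Sum.map (Subtype.val : F → ι) (id : ℕ → ℕ))
        (e.comapDomain (Sum.map (Subtype.val : F → ι) (id : ℕ → ℕ)) hinj.injOn) = e := by
    intro e he
    refine Finsupp.mapDomain_comapDomain _ hinj e ?_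
    intro z hz
    rcases z with i | j
    · exact ⟨Sum.inl ⟨i, he i hz⟩, rfl⟩
    · exact ⟨Sum.inr j, rfl⟩
  let c : Atm R (ι ⊕ ℕ) → Atm R (F ⊕ ℕ) := Sum.map
    (fun e => e.comapDomain (Sum.map (Subtype.val : F → ι) (id : ℕ → ℕ)) hinj.injOn)
    (fun p => ⟨p.1, p.2.1, fun j =>
      (p.2.2 j).comapDomain (Sum.map (Subtype.val : F → ι) (id : ℕ → ℕ)) hinj.injOn⟩)
  refine ⟨F, φ.map c, ?_⟩
  unfold ren
  rw [List.map_map]
  have h1 : ∀ e ∈ φ, (amap (Sum.map (Subtype.val : F → ι) (id : ℕ → ℕ)) ∘ c) e = e := by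
    intro a ha
    rcases a with e | ⟨i, b, t⟩
    · exact congrArg (Sum.inl : _ → Atm R (ι ⊕ ℕ)) (hr e fun i hi => hF _ ha i hi)
    · have h2 : (fun j => Finsupp.mapDomain (Sum.map (Subtype.val : F → ι) (id : ℕ → ℕ))
          ((t j).comapDomain (Sum.map (Subtype.val : F → ι) (id : ℕ → ℕ)) hinj.injOn)) = t := by
        funext j
        refine hr _ fun k hk => hF _ ha k ?_
        unfold asup
        simp only [Finset.mem_biUnion, Finset.mem_univ, true_and]
        exact ⟨j, hk⟩
      exact congrArg (fun t => (Sum.inr ⟨i, b, t⟩ : Atm R (ι ⊕ ℕ))) h2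
  rw [List.map_congr_left h1, List.map_id']

/-- types of all finite parts determine the type -/
theorem app_of_fin {M N : Type} [AddCommGroup M] [AfS R M] [AddCommGroup N] [AfS R N]
    {x : ι → M} {y : ι → N} (h : ∀ (n : ℕ) (f : Fin n → ι),
      app (R := R) M (x ∘ f) = app N (y ∘ f)) : app (R := R) M x = app N y := by
  ext φ
  obtain ⟨F, φ', rfl⟩ := fin_vars φ
  obtain ⟨n, ⟨e⟩⟩ := Finite.exists_equiv_fin F
  have h1 := asat_of_app (h n (Subtype.val ∘ e.symm)) (ren e φ')
  rw [asat_ren, asat_ren] at h1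
  show ASat _ M x ↔ ASat _ N y
  rw [asat_ren, asat_ren]
  have h2 : ∀ (K : Type) (x : ι → K), (x ∘ (Subtype.val ∘ e.symm)) ∘ e =
      x ∘ (Subtype.val : F → ι) := by
    intro K x
    funext i
    simp
  rw [h2, h2] at h1
  exact h1

/-! ### Pure maps, elementary embeddings -/

section emb

variable {M : Type} [AddCommGroup M] [AfS R M] {U : Ad R}

/-- a pure map preserves and reflects affine formulas -/
theorem Pur.app {e : Hm R M U} (h : Pur U e) (x : ι → M) :
    Pool.Agent.AVC.app (R := R) M x = Pool.Agent.AVC.app U (e ∘ x) := by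
  refine app_of_fin fun n f => ?_
  ext φ
  exact ⟨fun h1 => ASat.map h1 h.1, fun h1 => h.2 n φ (x ∘ f) h1⟩

theorem Pur.asat {e : Hm R M U} (h : Pur U e) (φ : PP R ι) (x : ι → M) :
    ASat φ M x ↔ ASat φ U (e ∘ x) := asat_of_app (h.app x) φ

theorem Pur.pp {e : Hm R M U} (h : Pur U e) (x : ι → M) :
    Pool.Agent.AVC.pp (R := R) M x = Pool.Agent.AVC.pp U (e ∘ x) := pp_of_app (h.app x)

theorem Pur.sat {e : Hm R M U} (h : Pur U e) (φ : PP R ι) (x : ι → M) :
    Sat φ M x ↔ Sat φ U (e ∘ x) := by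
  have h1 : φ ∈ Pool.Agent.AVC.pp M x ↔ φ ∈ Pool.Agent.AVC.pp U (e ∘ x) := by rw [h.pp x]
  exact h1

theorem Pur.are {e : Hm R M U} (h : Pur U e) (S : Set (PP R ι)) (x : ι → M) :
    ARe S M x ↔ ARe S U (e ∘ x) := forall₂_congr fun φ _ => h.asat φ x

theorem Pur.re {e : Hm R M U} (h : Pur U e) (S : Set (PP R ι)) (x : ι → M) :
    Re S M x ↔ Re S U (e ∘ x) := forall₂_congr fun φ _ => h.sat φ x

theorem Pur.inj {e : Hm R M U} (h : Pur U e) : Function.Injective e := by
  rw [injective_iff_map_eq_zero]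
  intro x hx
  obtain ⟨χ, hχ⟩ := isPP_zero (R := R) (ι := Fin 1)
  have h1 := (h.sat χ (fun _ => x)).2 ((hχ U _).1 (by
    funext i
    exact hx))
  exact congrFun ((hχ M _).2 h1) 0

/-- the isomorphism with the range -/
noncomputable def Pur.iso {e : Hm R M U} (h : Pur U e) :
    AIe R M (LinearMap.range e.toLinearMap) where
  toLinearEquiv := LinearEquiv.ofInjective e.toLinearMap h.inj
  pres i x := by
    show x ∈ MoS.P (R := R) (M := M) i ↔ (e ∘ x) ∈ MoS.P (R := R) (M := U) i
    exact mem_P_of_app (h.app x)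
  presQ i x := by
    show x ∈ AfS.Q (R := R) (M := M) i ↔ (e ∘ x) ∈ AfS.Q (R := R) (M := U) i
    exact mem_Q_of_app (h.app x)

@[simp] theorem Pur.iso_apply {e : Hm R M U} (h : Pur U e) (x : M) : (h.iso x : U) = e x := rfl

theorem Emb.app {e : Hm R M U} (h : Emb U e) (x : ι → M) :
    Pool.Agent.AVC.app (R := R) M x = Pool.Agent.AVC.app U (e ∘ x) := h.1.app x

theorem Emb.asat {e : Hm R M U} (h : Emb U e) (φ : PP R ι) (x : ι → M) :
    ASat φ M x ↔ ASat φ U (e ∘ x) := h.1.asat φ x

theorem Emb.pp {e : Hm R M U} (h : Emb U e) (x : ι → M) :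
    Pool.Agent.AVC.pp (R := R) M x = Pool.Agent.AVC.pp U (e ∘ x) := h.1.pp x

theorem Emb.sat {e : Hm R M U} (h : Emb U e) (φ : PP R ι) (x : ι → M) :
    Sat φ M x ↔ Sat φ U (e ∘ x) := h.1.sat φ x

theorem Emb.inj {e : Hm R M U} (h : Emb U e) : Function.Injective e := h.1.inj

theorem emb_inK {e : Hm R M U} (h : Emb U e) : InK U M := ⟨_, h.2, ⟨h.1.iso⟩⟩

/-- pure maps from members of `K` are elementary -/
theorem emb_of_pure {e : Hm R M U} (hM : InK U M) (h : Pur U e) : Emb U e :=
  ⟨h, el_of_pure hM _ e (by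
    rw [LinearMap.coe_range]
    rfl) fun n φ x => h.asat φ x⟩

/-- the inclusion of an elementary submodule -/
theorem emb_subtype {N : Submodule R U} (h : El U N) : Emb U (Hm.subtype N) := by
  refine ⟨⟨fun i x hx => hx, fun n φ x hx => (el_asat h φ x).2 hx⟩, ?_⟩
  have h1 : LinearMap.range (Hm.subtype N).toLinearMap = N := N.range_subtype
  rw [h1]
  exact h

theorem Pur.comp_iso {N : Type} [AddCommGroup N] [AfS R N] {e : Hm R M U} (h : Pur U e)
    (f : AIe R N M) : Pur U (e.comp f.hm) :=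
  ⟨h.1.comp f.prQ, fun n φ x hx => (asat_iso f).1 (h.2 n φ (f ∘ x) hx)⟩

theorem Emb.comp_iso {N : Type} [AddCommGroup N] [AfS R N] {e : Hm R M U} (h : Emb U e)
    (f : AIe R N M) : Emb U (e.comp f.hm) :=
  emb_of_pure (inK_iso f.symm (emb_inK h)) (h.1.comp_iso f)

theorem Pur.aut {e : Hm R M U} (h : Pur U e) (γ : AIe R U U) : Pur U (γ.hm.comp e) :=
  ⟨γ.prQ.comp h.1, fun n φ x hx => h.2 n φ x ((asat_iso γ).1 hx)⟩

/-- automorphisms -/
theorem Emb.aut {e : Hm R M U} (h : Emb U e) (γ : AIe R U U) : Emb U (γ.hm.comp e) :=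
  emb_of_pure (emb_inK h) (h.1.aut γ)

/-- the members of `K` have elementary embeddings -/
theorem inK_emb (h : InK U M) : ∃ e : Hm R M U, Emb U e := by
  obtain ⟨N, hN, ⟨f⟩⟩ := h
  exact ⟨_, (emb_subtype hN).comp_iso f⟩

end emb

end

end Pool.Agent.AVF
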