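import Pool.Agent.AVC.Aff

/-!
# Covering cosets of positive primitive groups by finitely many others, affine form (helper79)

Whether finitely many cosets cover a group depends only on which of them have common elements.
-/

set_option autoImplicit false
set_option linter.unusedSectionVars false
set_option linter.unusedVariables false

namespace Pool.Agent.AVF

open Set Pool.Agent.AVC
open scoped Pointwise

section grpcov

variable {G κ : Type} [AddCommGroup G]

/-- the set of classes modulo `N` -/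
private noncomputable def img (N : AddSubgroup G) [Finite (G ⧸ N)] (C : Set G) :
    Finset (G ⧸ N) :=
  (Set.toFinite (QuotientAddGroup.mk (s := N) '' C)).toFinset

private theorem mem_img (N : AddSubgroup G) [Finite (G ⧸ N)] (C : Set G) (q : G ⧸ N) :
    q ∈ img N C ↔ ∃ x ∈ C, (QuotientAddGroup.mk x : G ⧸ N) = q := by
  simp [img]

/-- the number of classes in a coset -/
private theorem card_coset (N H : AddSubgroup G) [Finite (G ⧸ N)] (C C' : Set G)
    (hC : ∀ x ∈ C, ∀ y, y ∈ C ↔ y - x ∈ H) (hC' : ∀ x ∈ C', ∀ y, y ∈ C' ↔ y - x ∈ H)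
    (h : C.Nonempty) (h' : C'.Nonempty) : (img N C).card = (img N C').card := by
  obtain ⟨x, hx⟩ := h
  obtain ⟨x', hx'⟩ := h'
  refine Finset.card_bij' (fun q _ => q + QuotientAddGroup.mk (x' - x))
    (fun q _ => q - QuotientAddGroup.mk (x' - x)) ?_ ?_ ?_ ?_
  · intro q hq
    obtain ⟨y, hy, rfl⟩ := (mem_img N C q).mp hq
    refine (mem_img N C' _).mpr ⟨y + (x' - x), (hC' x' hx' _).mpr ?_, rfl⟩
    have := (hC x hx y).mp hy
    have h2 : y + (x' - x) - x' = y - x := by abel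
    rw [h2]
    exact this
  · intro q hq
    obtain ⟨y, hy, rfl⟩ := (mem_img N C' q).mp hq
    refine (mem_img N C _).mpr ⟨y - (x' - x), (hC x hx _).mpr ?_, rfl⟩
    have := (hC' x' hx' y).mp hy
    have h2 : y - (x' - x) - x = y - x' := by abel
    rw [h2]
    exact this
  · intro q _
    simp
  · intro q _
    simp

/-- Whether finitely many cosets cover the group depends only on which of them intersect. -/
theorem cover_iff (s : Finset κ) (H : κ → AddSubgroup G) (C C' : κ → Set G)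
    (hC : ∀ i, ∀ x ∈ C i, ∀ y, y ∈ C i ↔ y - x ∈ H i)
    (hC' : ∀ i, ∀ x ∈ C' i, ∀ y, y ∈ C' i ↔ y - x ∈ H i)
    (hJ : ∀ J ⊆ s, (∃ x, ∀ i ∈ J, x ∈ C i) ↔ ∃ x, ∀ i ∈ J, x ∈ C' i)
    (hcov : ∀ x, ∃ i ∈ s, x ∈ C i) : ∀ x, ∃ i ∈ s, x ∈ C' i := by
  classical
  -- the nonempty ones
  let s₀ : Finset κ := s.filter fun i => ∃ x, x ∈ C i
  have hg : ∀ i, ∃ g : G, (∃ x, x ∈ C i) → g ∈ C i := by
    intro i
    by_cases h : ∃ x, x ∈ C i
    · obtain ⟨x, hx⟩ := h
      exact ⟨x, fun _ => hx⟩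
    · exact ⟨0, fun h' => absurd h' h⟩
  choose g hg using hg
  have hcov0 : ⋃ i ∈ s₀, g i +ᵥ (H i : Set G) = Set.univ := by
    rw [Set.eq_univ_iff_forall]
    intro x
    obtain ⟨i, hi, hx⟩ := hcov x
    refine Set.mem_biUnion (x := i) ?_ ?_
    · simp only [s₀, Finset.coe_filter, Set.mem_ofPred_eq]
      exact ⟨hi, x, hx⟩
    · rw [Set.mem_vadd_set_iff_neg_vadd_mem]
      have h1 := (hC i (g i) (hg i ⟨x, hx⟩) x).mp hx
      show -(g i) + x ∈ H i
      rw [neg_add_eq_sub]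
      exact h1
  have hcov1 := AddSubgroup.leftCoset_cover_filter_FiniteIndex (s := s₀) (H := H) (g := g) hcov0
  let s₁ : Finset κ := s₀.filter fun i => (H i).FiniteIndex
  let N : AddSubgroup G := ⨅ i ∈ s₁, H i
  have hNf : N.FiniteIndex := AddSubgroup.finiteIndex_iInf' _ <| by simp [s₁]
  have hfin : Finite (G ⧸ N) := AddSubgroup.finite_quotient_of_finiteIndex
  have hNle : ∀ i ∈ s₁, N ≤ H i := fun i hi => iInf₂_le i hi
  have hs₁ : s₁ ⊆ s := (Finset.filter_subset _ _).trans (Finset.filter_subset _ _)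
  have hcov2 : ∀ x, ∃ i ∈ s₁, x ∈ C i := by
    intro x
    have hx : x ∈ ⋃ i ∈ s₁, g i +ᵥ (H i : Set G) := by
      have : (⋃ i ∈ s₁, g i +ᵥ (H i : Set G)) = Set.univ := hcov1
      rw [this]
      trivial
    obtain ⟨i, hi, hx⟩ := Set.mem_iUnion₂.mp hx
    refine ⟨i, hi, ?_⟩
    have hi0 : i ∈ s₀ := Finset.filter_subset _ _ hi
    have hne : ∃ x, x ∈ C i := (Finset.mem_filter.mp hi0).2
    rw [Set.mem_vadd_set_iff_neg_vadd_mem] at hx
    refine (hC i (g i) (hg i hne) x).mpr ?_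
    have h1 : -(g i) + x ∈ H i := hx
    rwa [neg_add_eq_sub] at h1
  -- intersections of images
  have hinf : ∀ (D : κ → Set G), (∀ i, ∀ x ∈ D i, ∀ y, y ∈ D i ↔ y - x ∈ H i) →
      ∀ (t : Finset κ) (ht : t.Nonempty), t ⊆ s₁ →
      t.inf' ht (fun i => img N (D i)) = img N {x | ∀ i ∈ t, x ∈ D i} := by
    intro D hD t ht hts
    ext q
    rw [Finset.mem_inf']
    constructor
    · intro h
      obtain ⟨x, rfl⟩ := QuotientAddGroup.mk_surjective q
      refine (mem_img N _ _).mpr ⟨x, fun i hi => ?_, rfl⟩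
      obtain ⟨y, hy, hyx⟩ := (mem_img N _ _).mp (h i hi)
      rw [hD i y hy]
      have := QuotientAddGroup.eq.mp hyx
      rw [neg_add_eq_sub] at this
      exact hNle i (hts hi) this
    · intro h i hi
      obtain ⟨x, hx, rfl⟩ := (mem_img N _ _).mp h
      exact (mem_img N _ _).mpr ⟨x, hx i hi, rfl⟩
  have hcard : ∀ (t : Finset κ) (ht : t.Nonempty), t ⊆ s₁ →
      (t.inf' ht (fun i => img N (C i))).card = (t.inf' ht (fun i => img N (C' i))).card := by
    intro t ht hts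
    rw [hinf C hC t ht hts, hinf C' hC' t ht hts]
    have hJt := hJ t (hts.trans hs₁)
    have hco : ∀ (D : κ → Set G), (∀ i, ∀ x ∈ D i, ∀ y, y ∈ D i ↔ y - x ∈ H i) →
        ∀ x ∈ {x | ∀ i ∈ t, x ∈ D i}, ∀ y, y ∈ {x | ∀ i ∈ t, x ∈ D i} ↔ y - x ∈ ⨅ i ∈ t, H i := by
      intro D hD x hx y
      rw [AddSubgroup.mem_iInf]
      simp only [AddSubgroup.mem_iInf, Set.mem_ofPred_eq]
      exact forall₂_congr fun i hi => hD i x (hx i hi) y
    by_cases h : ∃ x, ∀ i ∈ t, x ∈ C i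
    · exact card_coset N (⨅ i ∈ t, H i) _ _ (hco C hC) (hco C' hC') h (hJt.mp h)
    · have h' : ¬ ∃ x, ∀ i ∈ t, x ∈ C' i := fun h' => h (hJt.mpr h')
      have e1 : {x | ∀ i ∈ t, x ∈ C i} = ∅ := by
        ext x
        simp only [Set.mem_ofPred_eq, Set.mem_empty_iff_false, iff_false]
        exact fun hx => h ⟨x, hx⟩
      have e2 : {x | ∀ i ∈ t, x ∈ C' i} = ∅ := by
        ext x
        simp only [Set.mem_ofPred_eq, Set.mem_empty_iff_false, iff_false]
        exact fun hx => h' ⟨x, hx⟩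
      rw [e1, e2]
  have h1 : ((s₁.biUnion fun i => img N (C i)).card : ℤ) =
      (s₁.biUnion fun i => img N (C' i)).card := by
    rw [Finset.inclusion_exclusion_card_biUnion, Finset.inclusion_exclusion_card_biUnion]
    refine Finset.sum_congr rfl fun t _ => ?_
    have := t.2
    rw [Finset.mem_filter, Finset.mem_powerset] at this
    rw [hcard t.1 this.2 this.1]
  let := Fintype.ofFinite (G ⧸ N)
  have h2 : (s₁.biUnion fun i => img N (C i)) = Finset.univ := by
    rw [Finset.eq_univ_iff_forall]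
    intro q
    obtain ⟨x, rfl⟩ := QuotientAddGroup.mk_surjective q
    obtain ⟨i, hi, hx⟩ := hcov2 x
    exact Finset.mem_biUnion.mpr ⟨i, hi, (mem_img N _ _).mpr ⟨x, hx, rfl⟩⟩
  have h3 : (s₁.biUnion fun i => img N (C' i)) = Finset.univ := by
    rw [← Finset.card_eq_iff_eq_univ]
    rw [← Finset.card_eq_iff_eq_univ] at h2
    have h4 : (s₁.biUnion fun i => img N (C i)).card =
      (s₁.biUnion fun i => img N (C' i)).card := by exact_mod_cast h1
    rw [← h4, h2]
  intro x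
  have hx : (QuotientAddGroup.mk x : G ⧸ N) ∈ s₁.biUnion fun i => img N (C' i) := by
    rw [h3]
    exact Finset.mem_univ _
  obtain ⟨i, hi, hxi⟩ := Finset.mem_biUnion.mp hx
  obtain ⟨y, hy, hyx⟩ := (mem_img N _ _).mp hxi
  refine ⟨i, hs₁ hi, (hC' i y hy x).mpr ?_⟩
  have := QuotientAddGroup.eq.mp hyx
  rw [neg_add_eq_sub] at this
  exact hNle i hi this

end grpcov

section ppcov

variable {R : Type} [RSig R] {ι κ : Type}

theorem asat_sub_iff {M : Type} [AddCommGroup M] [AfS R M] (θ : PP R (ι ⊕ κ)) (c : ι → M)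
    (u v : κ → M) (hu : ASat θ M (Sum.elim c u)) :
    ASat θ M (Sum.elim c v) ↔ Sat (zer θ) M (v - u) := by
  rw [sat_zer, hu.iff, ← elim_sub, sub_self]

/-- Tuples with the same affine type satisfy the same conditions `∃ y, φ ∧ ¬ ψ_1 ∧ ..` in affine
formulas. -/
theorem acov {M : Type} [AddCommGroup M] [AfS R M] [Countable κ] {a b : ι → M}
    (hab : app (R := R) M a = app M b) (φ : PP R (ι ⊕ κ)) (s : Finset (PP R (ι ⊕ κ)))
    (h : ∃ y : κ → M, ASat φ M (Sum.elim a y) ∧ ∀ ψ ∈ s, ¬ ASat ψ M (Sum.elim a y)) :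
    ∃ y : κ → M, ASat φ M (Sum.elim b y) ∧ ∀ ψ ∈ s, ¬ ASat ψ M (Sum.elim b y) := by
  classical
  have hP : ∀ J : Finset (PP R (ι ⊕ κ)), (∃ y : κ → M, ASat φ M (Sum.elim a y) ∧
      ∀ ψ ∈ J, ASat ψ M (Sum.elim a y)) ↔ ∃ y : κ → M, ASat φ M (Sum.elim b y) ∧
      ∀ ψ ∈ J, ASat ψ M (Sum.elim b y) := by
    intro J
    obtain ⟨χ, hχ, -⟩ := ((isAP_sat φ).and (isAP_finset J)).ex
    have h1 := hχ M a
    have h2 := hχ M b
    have h3 : ASat χ M a ↔ ASat χ M b := by
      have : χ ∈ app (R := R) M a ↔ χ ∈ app M b := by rw [hab]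
      exact this
    exact h1.trans (h3.trans h2.symm)
  obtain ⟨y, hy, hys⟩ := h
  obtain ⟨y₁, hy₁, -⟩ := (hP ∅).mp ⟨y, hy, by simp⟩
  by_contra hcon
  have hcov : ∀ z : κ → M, ASat φ M (Sum.elim b z) → ∃ ψ ∈ s, ASat ψ M (Sum.elim b z) := by
    intro z hz
    by_contra h
    exact hcon ⟨z, hz, fun ψ hψ hs => h ⟨ψ, hψ, hs⟩⟩
  have key := cover_iff (G := satGroup (zer φ) M) s
    (fun ψ => (satGroup (zer ψ) M).addSubgroupOf (satGroup (zer φ) M))
    (fun ψ => {t | ASat ψ M (Sum.elim b (y₁ + (t : κ → M)))})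
    (fun ψ => {t | ASat ψ M (Sum.elim a (y + (t : κ → M)))})
    (fun ψ t ht u => by
      rw [AddSubgroup.mem_addSubgroupOf]
      have h1 := asat_sub_iff ψ b _ (y₁ + (u : κ → M)) ht
      rw [add_sub_add_left_eq_sub] at h1
      exact h1)
    (fun ψ t ht u => by
      rw [AddSubgroup.mem_addSubgroupOf]
      have h1 := asat_sub_iff ψ a _ (y + (u : κ → M)) ht
      rw [add_sub_add_left_eq_sub] at h1
      exact h1)
    (by
      intro J hJ
      have hA : ∀ (c : ι → M) (z : κ → M), ASat φ M (Sum.elim c z) →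
          ((∃ t : satGroup (zer φ) M, ∀ ψ ∈ J, ASat ψ M (Sum.elim c (z + (t : κ → M)))) ↔
            ∃ y : κ → M, ASat φ M (Sum.elim c y) ∧ ∀ ψ ∈ J, ASat ψ M (Sum.elim c y)) := by
        intro c z hz
        constructor
        · rintro ⟨t, ht⟩
          refine ⟨z + t, ?_, ht⟩
          rw [asat_sub_iff φ c z _ hz, add_sub_cancel_left]
          exact t.2
        · rintro ⟨w, hw, hw'⟩
          refine ⟨⟨w - z, (asat_sub_iff φ c z w hz).mp hw⟩, fun ψ hψ => ?_⟩
          have h1 : z + (w - z) = w := add_sub_cancel _ _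
          show ASat ψ M (Sum.elim c (z + (w - z)))
          rw [h1]
          exact hw' ψ hψ
      exact (hA b y₁ hy₁).trans ((hP J).symm.trans (hA a y hy).symm))
    (by
      intro t
      exact hcov _ ((asat_sub_iff φ b y₁ _ hy₁).mpr (by rw [add_sub_cancel_left]; exact t.2)))
  obtain ⟨ψ, hψ, h1⟩ := key 0
  refine hys ψ hψ ?_
  have h2 : ASat ψ M (Sum.elim a (y + 0)) := h1
  rwa [add_zero] at h2

end ppcov

end Pool.Agent.AVF
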