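import Pool.Agent.AVF.CLG
import Pool.Agent.AVF.COV

/-!
# AVF: homogeneity of countable saturated affine structures (helper73)

`homA_of_sat`, `homU_of_sat`: back and forth, with `acov` of `AVF/COV.lean`.
-/

set_option autoImplicit false
set_option linter.unusedSectionVars false
set_option linter.unusedVariables false

namespace Pool.Agent.AVF

open Set Pool.Agent.AVC Pool.Agent.AVC.Ax
open scoped Pointwise

section

variable {R : Type} [RSig R] {ι κ : Type}

theorem app_comp {M N : Type} [AddCommGroup M] [AfS R M] [AddCommGroup N] [AfS R N]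
    (f : κ → ι) {x : ι → M} {y : ι → N} (h : app (R := R) M x = app (R := R) N y) :
    app (R := R) M (x ∘ f) = app (R := R) N (y ∘ f) := by
  ext φ
  have h1 : ren f φ ∈ app (R := R) M x ↔ ren f φ ∈ app (R := R) N y := by rw [h]
  have h2 : ASat (ren f φ) M x ↔ ASat (ren f φ) N y := h1
  rw [asat_ren, asat_ren] at h2
  exact h2

/-- the step of the back and forth -/
theorem step_app {U : Ad R} (hR : Countable R) (hs : SatA U) [Finite ι] [Finite κ]
    {a b : ι → U} (hab : app (R := R) U a = app (R := R) U b) (c : κ → U) :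
    ∃ d : κ → U, app (R := R) U (Sum.elim a c) = app (R := R) U (Sum.elim b d) := by
  classical
  have _ : Countable ι := Finite.to_countable
  have _ : Countable κ := Finite.to_countable
  obtain ⟨e, he⟩ := exists_surjective_nat (PP R (ι ⊕ κ))
  obtain ⟨d, hd⟩ := hs ι κ b e (fun j => ASat (e j) U (Sum.elim a c)) (fun n => by
    let F : Finset (PP R (ι ⊕ κ)) := (Finset.range n).image e
    obtain ⟨φ, hφ, -⟩ := isAP_finset (R := R) (F.filter fun ψ => ASat ψ U (Sum.elim a c))
    obtain ⟨y, hy1, hy2⟩ := acov hab φ (F.filter fun ψ => ¬ ASat ψ U (Sum.elim a c))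
      ⟨c, (hφ U _).1 fun ψ hψ => (Finset.mem_filter.1 hψ).2,
        fun ψ hψ => (Finset.mem_filter.1 hψ).2⟩
    refine ⟨y, fun j hj => ?_⟩
    have hF : e j ∈ F := Finset.mem_image_of_mem _ (Finset.mem_range.2 hj)
    constructor
    · intro h
      by_contra hn
      exact hy2 _ (Finset.mem_filter.2 ⟨hF, hn⟩) h
    · intro h
      exact (hφ U _).2 hy1 _ (Finset.mem_filter.2 ⟨hF, h⟩))
  refine ⟨d, ?_⟩
  ext φ
  obtain ⟨j, rfl⟩ := he φ
  exact (hd j).symm

/-- the isomorphism given by two enumerations with the same types -/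
theorem iso_of_enum {M N : Type} [AddCommGroup M] [AfS R M] [AddCommGroup N] [AfS R N]
    (x : ℕ → M) (y : ℕ → N) (hx : Function.Surjective x) (hy : Function.Surjective y)
    (h : ∀ n : ℕ, app (R := R) M (fun i : Fin n => x i) = app (R := R) N (fun i : Fin n => y i)) :
    ∃ γ : AIe R M N, ∀ i, γ (x i) = y i := by
  classical
  -- finitely many places
  have hf : ∀ (k : ℕ) (f : Fin k → ℕ), app (R := R) M (x ∘ f) = app (R := R) N (y ∘ f) := by
    intro k f
    obtain ⟨n, hn⟩ : ∃ n, ∀ i, f i < n :=
      ⟨Finset.univ.sup f + 1, fun i => Nat.lt_succ_of_le (Finset.le_sup (Finset.mem_univ i))⟩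
    exact app_comp (fun i => (⟨f i, hn i⟩ : Fin n)) (h n)
  -- atomic formulas
  have hat : ∀ (k : ℕ) (f : Fin k → ℕ) (a : Atm R (Fin k)),
      AHold a M (x ∘ f) ↔ AHold a N (y ∘ f) := by
    intro k f a
    obtain ⟨φ, hφ, -⟩ := isAP_hold a
    have h1 : φ ∈ app (R := R) M (x ∘ f) ↔ φ ∈ app (R := R) N (y ∘ f) := by rw [hf k f]
    exact (hφ M _).trans (h1.trans (hφ N _).symm)
  have hlin : ∀ (k : ℕ) (f : Fin k → ℕ) (e : Fin k →₀ R),
      Finsupp.linearCombination R (x ∘ f) e = 0 ↔ Finsupp.linearCombination R (y ∘ f) e = 0 :=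
    fun k f e => hat k f (Sum.inl e)
  have heq : ∀ i j, x i = x j ↔ y i = y j := by
    intro i j
    have h1 := hlin 2 ![i, j] (Finsupp.single 0 1 - Finsupp.single 1 1)
    simp only [map_sub, Finsupp.linearCombination_single, Function.comp, one_smul,
      Matrix.cons_val_zero, Matrix.cons_val_one] at h1
    rw [sub_eq_zero, sub_eq_zero] at h1
    exact h1
  choose s hs using hx
  choose t ht using hy
  have hxs : ∀ i, y (s (x i)) = y i := fun i => (heq _ _).1 (hs (x i))
  have hyt : ∀ i, x (t (y i)) = x i := fun i => (heq _ _).2 (ht (y i))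
  have hadd : ∀ i j k, x k = x i + x j ↔ y k = y i + y j := by
    intro i j k
    have h1 := hlin 3 ![i, j, k] (Finsupp.single 2 1 - Finsupp.single 0 1 - Finsupp.single 1 1)
    simp only [map_sub, Finsupp.linearCombination_single, Function.comp, one_smul,
      Matrix.cons_val_zero, Matrix.cons_val_one, Matrix.cons_val] at h1
    rw [sub_sub, sub_sub, sub_eq_zero, sub_eq_zero] at h1
    exact h1
  have hsm : ∀ (r : R) i k, x k = r • x i ↔ y k = r • y i := by
    intro r i k
    have h1 := hlin 2 ![i, k] (Finsupp.single 1 1 - Finsupp.single 0 r)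
    simp only [map_sub, Finsupp.linearCombination_single, Function.comp, one_smul,
      Matrix.cons_val_zero, Matrix.cons_val_one] at h1
    rw [sub_eq_zero, sub_eq_zero] at h1
    exact h1
  have hrel : ∀ (i : RSig.Ix R) (b : Bool) (f : Fin (RSig.ar i) → ℕ),
      AHold (Sum.inr ⟨i, b, fun j => Finsupp.single j 1⟩ : Atm R (Fin (RSig.ar i))) M (x ∘ f) ↔
      AHold (Sum.inr ⟨i, b, fun j => Finsupp.single j 1⟩ : Atm R (Fin (RSig.ar i))) N (y ∘ f) :=
    fun i b f => hat _ f _
  have hl : ∀ {K : Type} [AddCommGroup K] [AfS R K] (k : ℕ) (z : Fin k → K),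
      (fun j => Finsupp.linearCombination R z (Finsupp.single j 1)) = z := by
    intro K _ _ k z
    funext j
    rw [Finsupp.linearCombination_single, one_smul]
  have hP : ∀ (i : RSig.Ix R) (f : Fin (RSig.ar i) → ℕ), x ∘ f ∈ MoS.P (R := R) (M := M) i ↔
      y ∘ f ∈ MoS.P (R := R) (M := N) i := by
    intro i f
    have h1 := hrel i false f
    have h2 : (fun j => Finsupp.linearCombination R (x ∘ f) (Finsupp.single j 1)) ∈
        MoS.P (R := R) (M := M) i ↔
        (fun j => Finsupp.linearCombination R (y ∘ f) (Finsupp.single j 1)) ∈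
        MoS.P (R := R) (M := N) i := h1
    rw [hl, hl] at h2
    exact h2
  have hQ : ∀ (i : RSig.Ix R) (f : Fin (RSig.ar i) → ℕ), x ∘ f ∈ AfS.Q (R := R) (M := M) i ↔
      y ∘ f ∈ AfS.Q (R := R) (M := N) i := by
    intro i f
    have h1 := hrel i true f
    have h2 : (fun j => Finsupp.linearCombination R (x ∘ f) (Finsupp.single j 1)) ∈
        AfS.Q (R := R) (M := M) i ↔
        (fun j => Finsupp.linearCombination R (y ∘ f) (Finsupp.single j 1)) ∈
        AfS.Q (R := R) (M := N) i := h1
    rw [hl, hl] at h2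
    exact h2
  let γ : M ≃ₗ[R] N :=
    { toFun := fun u => y (s u)
      invFun := fun v => x (t v)
      left_inv := fun u => (hyt (s u)).trans (hs u)
      right_inv := fun v => (hxs (t v)).trans (ht v)
      map_add' := fun u v => by
        rw [← hadd, hs, hs, hs]
      map_smul' := fun r u => by
        show y (s (r • u)) = r • y (s u)
        rw [← hsm, hs, hs] }
  have hγ : ∀ {k : ℕ} (z : Fin k → M), (fun j => γ (z j)) = y ∘ (s ∘ z) := fun z => rfl
  have hz : ∀ {k : ℕ} (z : Fin k → M), x ∘ (s ∘ z) = z := fun z => funext fun j => hs (z j)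
  refine ⟨{ toLinearEquiv := γ
            pres := fun i z => ?_
            presQ := fun i z => ?_ }, fun i => hxs i⟩
  · rw [hγ, ← hP, hz]
  · show z ∈ AfS.Q (R := R) (M := M) i ↔ (fun j => γ (z j)) ∈ AfS.Q (R := R) (M := N) i
    rw [hγ, ← hQ, hz]

/-- **Homogeneity.** Tuples with the same affine type are conjugate. -/
theorem homA_of_sat {U : Ad R} (hR : Countable R) (hc : Countable U) (hs : SatA U) : HomA U := by
  classical
  intro ι _ a b hab
  obtain ⟨n, ⟨e⟩⟩ := Finite.exists_equiv_fin ι
  obtain ⟨u, hu⟩ := exists_surjective_nat (U : Type)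
  -- one step
  have key : ∀ (k : ℕ) (g h : ℕ → U), ∃ v w : U,
      (app (R := R) U (fun i : Fin k => g i) = app (R := R) U (fun i : Fin k => h i) →
        app (R := R) U (fun i : Fin (k + 1) => Function.update g k v i) =
          app (R := R) U (fun i : Fin (k + 1) => Function.update h k w i)) ∧
      (∀ j, k = n + 2 * j → v = u j) ∧ ∀ j, k = n + 2 * j + 1 → w = u j := by
    intro k g h
    have hup : ∀ (g : ℕ → U) (c : Fin 1 → U), (fun i : Fin (k + 1) => Function.update g k (c 0) i) =
        Sum.elim (fun i : Fin k => g i) c ∘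
          (fun i : Fin (k + 1) => if hi : (i : ℕ) < k then Sum.inl ⟨i, hi⟩ else Sum.inr 0) := by
      intro g c
      funext i
      by_cases hi : (i : ℕ) < k
      · simp [hi, hi.ne]
      · have h1 : (i : ℕ) = k := by have := i.2; omega
        simp [h1]
    by_cases hgh : app (R := R) U (fun i : Fin k => g i) = app (R := R) U (fun i : Fin k => h i)
    swap
    · exact ⟨if hj : ∃ j, k = n + 2 * j then u hj.choose else 0,
        if hj : ∃ j, k = n + 2 * j + 1 then u hj.choose else 0, fun h' => absurd h' hgh,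
        fun j hj => by
          have hex : ∃ j, k = n + 2 * j := ⟨j, hj⟩
          have h1 : hex.choose = j := by have := hex.choose_spec; omega
          rw [dif_pos hex, h1],
        fun j hj => by
          have hex : ∃ j, k = n + 2 * j + 1 := ⟨j, hj⟩
          have h1 : hex.choose = j := by have := hex.choose_spec; omega
          rw [dif_pos hex, h1]⟩
    by_cases hodd : ∃ j, k = n + 2 * j + 1
    · obtain ⟨j, hj⟩ := hodd
      obtain ⟨d, hd⟩ := step_app hR hs hgh.symm (fun _ : Fin 1 => u j)
      refine ⟨d 0, u j, fun _ => ?_, fun j' hj' => by omega, fun j' hj' => ?_⟩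
      · rw [hup g d, hup h (fun _ => u j)]
        exact app_comp _ hd.symm
      · have : j' = j := by omega
        rw [this]
    · let c : U := if hj : ∃ j, k = n + 2 * j then u hj.choose else 0
      obtain ⟨d, hd⟩ := step_app hR hs hgh (fun _ : Fin 1 => c)
      refine ⟨c, d 0, fun _ => ?_, fun j hj => ?_, fun j hj => absurd ⟨j, hj⟩ hodd⟩
      · rw [hup g (fun _ => c), hup h d]
        exact app_comp _ hd
      · have hex : ∃ j, k = n + 2 * j := ⟨j, hj⟩
        have h1 : hex.choose = j := by have := hex.choose_spec; omega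
        show (if hj : ∃ j, k = n + 2 * j then u hj.choose else 0) = u j
        rw [dif_pos hex, h1]
  choose v w hvw hv hw using key
  let a' : ℕ → U := fun i => if hi : i < n then a (e.symm ⟨i, hi⟩) else 0
  let b' : ℕ → U := fun i => if hi : i < n then b (e.symm ⟨i, hi⟩) else 0
  let s : ℕ → (ℕ → U) × (ℕ → U) := fun m => Nat.rec (a', b') (fun k p =>
    (Function.update p.1 (n + k) (v (n + k) p.1 p.2),
      Function.update p.2 (n + k) (w (n + k) p.1 p.2))) m
  have hs0 : s 0 = (a', b') := rfl
  have hs1 : ∀ k, s (k + 1) = (Function.update (s k).1 (n + k) (v (n + k) (s k).1 (s k).2),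
      Function.update (s k).2 (n + k) (w (n + k) (s k).1 (s k).2)) := fun k => rfl
  have hinv : ∀ k, app (R := R) U (fun i : Fin (n + k) => (s k).1 i) =
      app (R := R) U (fun i : Fin (n + k) => (s k).2 i) := by
    intro k
    induction k with
    | zero =>
      have h1 : (fun i : Fin (n + 0) => (s 0).1 i) = a ∘ (fun i : Fin (n + 0) =>
          e.symm ⟨i, i.2⟩) := by
        funext i
        show a' i = _
        exact dif_pos i.2
      have h2 : (fun i : Fin (n + 0) => (s 0).2 i) = b ∘ (fun i : Fin (n + 0) =>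
          e.symm ⟨i, i.2⟩) := by
        funext i
        show b' i = _
        exact dif_pos i.2
      rw [h1, h2]
      exact app_comp _ hab
    | succ k ih =>
      rw [hs1]
      exact hvw (n + k) (s k).1 (s k).2 ih
  -- stability
  have hst : ∀ k l i, i < n + k → (s (k + l)).1 i = (s k).1 i ∧ (s (k + l)).2 i = (s k).2 i := by
    intro k l i hi
    induction l with
    | zero => exact ⟨rfl, rfl⟩
    | succ l ih =>
      rw [← add_assoc, hs1]
      have hne : i ≠ n + (k + l) := by omega
      constructor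
      · show Function.update (s (k + l)).1 (n + (k + l)) _ i = _
        rw [Function.update_of_ne hne]
        exact ih.1
      · show Function.update (s (k + l)).2 (n + (k + l)) _ i = _
        rw [Function.update_of_ne hne]
        exact ih.2
  let x : ℕ → U := fun i => (s (i + 1)).1 i
  let y : ℕ → U := fun i => (s (i + 1)).2 i
  have hxs : ∀ k i, i < n + k → (s k).1 i = x i ∧ (s k).2 i = y i := by
    intro k i hi
    rcases le_total k (i + 1) with h | h
    · obtain ⟨l, hl⟩ := Nat.exists_eq_add_of_le h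
      have h1 := hst k l i hi
      rw [← hl] at h1
      exact ⟨h1.1.symm, h1.2.symm⟩
    · obtain ⟨l, hl⟩ := Nat.exists_eq_add_of_le h
      have h1 := hst (i + 1) l i (by omega)
      rw [← hl] at h1
      exact h1
  have hxy : ∀ m : ℕ, app (R := R) U (fun i : Fin m => x i) =
      app (R := R) U (fun i : Fin m => y i) := by
    intro m
    have h1 := app_comp (fun i : Fin m => (⟨i, by omega⟩ : Fin (n + m))) (hinv m)
    have h2 : (fun i : Fin m => x i) = (fun i : Fin (n + m) => (s m).1 i) ∘
        (fun i : Fin m => (⟨i, by omega⟩ : Fin (n + m))) := by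
      funext i
      exact (hxs m i (by omega)).1.symm
    have h3 : (fun i : Fin m => y i) = (fun i : Fin (n + m) => (s m).2 i) ∘
        (fun i : Fin m => (⟨i, by omega⟩ : Fin (n + m))) := by
      funext i
      exact (hxs m i (by omega)).2.symm
    rw [h2, h3]
    exact h1
  have hxu : ∀ j, x (n + 2 * j) = u j := by
    intro j
    have h1 := (hxs (2 * j + 1) (n + 2 * j) (by omega)).1
    rw [← h1, hs1]
    show Function.update (s (2 * j)).1 (n + 2 * j) _ (n + 2 * j) = u j
    rw [Function.update_self]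
    exact hv _ _ _ j rfl
  have hyu : ∀ j, y (n + 2 * j + 1) = u j := by
    intro j
    have h1 := (hxs (2 * j + 1 + 1) (n + 2 * j + 1) (by omega)).2
    rw [← h1]
    have h3 : (s (2 * j + 1 + 1)).2 = Function.update (s (2 * j + 1)).2 (n + (2 * j + 1))
      (w (n + (2 * j + 1)) (s (2 * j + 1)).1 (s (2 * j + 1)).2) := rfl
    have h2 : n + 2 * j + 1 = n + (2 * j + 1) := by omega
    rw [h3, h2, Function.update_self]
    exact hw _ _ _ j (by omega)
  obtain ⟨γ, hγ⟩ := iso_of_enum x y
    (fun z => by obtain ⟨j, rfl⟩ := hu z; exact ⟨_, hxu j⟩)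
    (fun z => by obtain ⟨j, rfl⟩ := hu z; exact ⟨_, hyu j⟩) hxy
  refine ⟨γ, fun i => ?_⟩
  have h1 : x (e i) = a i := by
    have h2 := (hxs 0 (e i) (by have := (e i).2; omega)).1
    rw [← h2]
    show a' (e i) = a i
    have h3 : a' (e i) = a (e.symm ⟨e i, (e i).2⟩) := dif_pos (e i).2
    rw [h3]
    simp
  have h2 : y (e i) = b i := by
    have h2 := (hxs 0 (e i) (by have := (e i).2; omega)).2
    rw [← h2]
    show b' (e i) = b i
    have h3 : b' (e i) = b (e.symm ⟨e i, (e i).2⟩) := dif_pos (e i).2
    rw [h3]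
    simp
  rw [← h1, ← h2]
  exact hγ (e i)

/-- homogeneity for homogeneous types -/
theorem homU_of_sat {N : Md R} (hR : Countable R) (hc : Countable N) (hs : SatU N) : HomU N := by
  let V : Ad R := @Ad.mk R _ N.car N.grp (triv R N)
  have hV : SatA V := by
    intro ι κ _ _ a φ b h
    obtain ⟨x, hx⟩ := hs ι κ a φ b (fun n => by
      obtain ⟨x, hx⟩ := h n
      exact ⟨x, fun j hj => (asat_triv (φ j) _).symm.trans (hx j hj)⟩)
    exact ⟨x, fun j => (asat_triv (φ j) _).trans (hx j)⟩
  intro ι _ a b hab
  obtain ⟨γ, hγ⟩ := homA_of_sat (U := V) hR hc hV ι a b (by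
    ext φ
    have h1 : φ ∈ pp (R := R) N a ↔ φ ∈ pp (R := R) N b := by rw [hab]
    exact (asat_triv φ a).trans (h1.trans (asat_triv φ b).symm))
  exact ⟨@AIe.toIe R _ V.car V.car V.grp V.afs V.grp V.afs γ, hγ⟩

end

end Pool.Agent.AVF
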