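import Pool.Agent.AVF.Defs
import Pool.Agent.AVF.HOM

/-!
# AVF: Claim A for the homogeneous reduct of a saturated affine structure with few types (helper73)

`St_CLA`, from (TLI) for affine types (`St_TLA`, block T).
-/

set_option autoImplicit false
set_option linter.unusedSectionVars false
set_option linter.unusedVariables false

namespace Pool.Agent.AVF

open Set Pool.Agent.AVC Pool.Agent.AVC.Ax

section

variable {R : Type} [RSig R] {ι κ : Type}

variable {U : Md R} {hR : Countable R} {hc : Countable U} {hh : HomU U} {hs : SatU U}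

/-- types are the groups of sets of formulas -/
theorem absU_isT {q : AddSubgroup (ι → U)} :
    (absU U hR hc hh hs).IsT q ↔ ∃ S : Set (PP R ι), q = grp U S := by
  constructor
  · rintro ⟨P, hP, rfl⟩
    refine ⟨{φ | satGroup φ U ∈ P}, ?_⟩
    ext x
    rw [AddSubgroup.mem_sInf, mem_grp]
    constructor
    · intro h φ hφ
      exact h _ hφ
    · intro h s hs'
      obtain ⟨φ, rfl⟩ := hP hs'
      exact h φ hs'
  · rintro ⟨S, rfl⟩
    refine ⟨{H | ∃ φ ∈ S, H = satGroup φ U}, ?_, ?_⟩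
    · rintro _ ⟨φ, -, rfl⟩
      exact ⟨φ, rfl⟩
    · ext x
      rw [AddSubgroup.mem_sInf, mem_grp]
      constructor
      · rintro h _ ⟨φ, hφ, rfl⟩
        exact h φ hφ
      · intro h φ hφ
        exact h _ ⟨φ, hφ, rfl⟩

theorem absU_pp (a : ι → U) : (absU U hR hc hh hs).pp a = grp U (pp (R := R) U a) := by
  ext x
  unfold VMA.Abs.pp
  rw [AddSubgroup.mem_sInf, mem_grp]
  constructor
  · intro h φ hφ
    exact h _ ⟨⟨φ, rfl⟩, hφ⟩
  · rintro h _ ⟨⟨φ, rfl⟩, hφ⟩
    exact h φ hφ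

/-- the type determines the group and conversely -/
theorem absU_pp_eq {a b : ι → U} (h : (absU U hR hc hh hs).pp a = (absU U hR hc hh hs).pp b) :
    pp (R := R) U a = pp (R := R) U b := by
  rw [absU_pp, absU_pp] at h
  have key : ∀ a b : ι → U, grp U (pp (R := R) U a) = grp U (pp (R := R) U b) →
      pp (R := R) U b ⊆ pp (R := R) U a := by
    intro a b h φ hφ
    have h1 : a ∈ grp U (pp (R := R) U a) := fun ψ hψ => hψ
    rw [h] at h1
    exact h1 φ hφ
  exact Subset.antisymm (key b a h.symm) (key a b h)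

theorem absU_FI {S : Set (PP R ι)} {p : AddSubgroup (ι → U)} :
    (absU U hR hc hh hs).FI p (grp U S) ↔
      ∃ S' : Set (PP R ι), p = grp U S' ∧ grp U S' ≤ grp U S ∧ FIn U S S' := by
  constructor
  · rintro ⟨h1, h2, h3⟩
    obtain ⟨S', rfl⟩ := absU_isT.1 h1
    exact ⟨S', rfl, h2, h3⟩
  · rintro ⟨S', rfl, h2, h3⟩
    exact ⟨absU_isT.2 ⟨S', rfl⟩, h2, h3⟩

/-- `q^1` of the two texts is the same (inside `q`) -/
theorem absU_q1 (S : Set (PP R ι)) :
    (absU U hR hc hh hs).q1 (grp U S) = grp U S ⊓ grp U (one U S) := by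
  apply le_antisymm
  · refine le_inf (sInf_le ⟨⟨absU_isT.2 ⟨S, rfl⟩, le_rfl, ?_⟩, fun χ _ h => h⟩) ?_
    · rw [AddSubgroup.relIndex_self]
      exact one_ne_zero
    · intro x hx ψ hψ
      unfold VMA.Abs.q1 at hx
      rw [AddSubgroup.mem_sInf] at hx
      have h1 := hx (grp U S ⊓ grp U {ψ}) ⟨⟨absU_isT.2 ⟨S ∪ {ψ}, by
        ext y
        rw [AddSubgroup.mem_inf, mem_grp, mem_grp, mem_grp]
        constructor
        · rintro ⟨h1, h2⟩ φ (hφ | hφ)
          · exact h1 φ hφ
          · exact h2 φ hφ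
        · intro h
          exact ⟨fun φ hφ => h φ (Or.inl hφ), fun φ hφ => h φ (Or.inr hφ)⟩⟩, inf_le_left, by
          rw [AddSubgroup.inf_relIndex_left]
          exact hψ.1⟩, by
        rintro _ ⟨χ, rfl⟩ hχ
        refine le_inf hχ fun y hy => ?_
        exact hψ.2 χ (fun z hz => hχ hz) y hy⟩
      exact h1.2 ψ rfl
  · refine le_sInf ?_
    rintro p ⟨⟨hp, hpS, hpi⟩, hχ⟩
    obtain ⟨S', rfl⟩ := absU_isT.1 hp
    rintro x ⟨hxS, hx1⟩ φ hφ
    refine hx1 φ ⟨?_, ?_⟩
    · intro h0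
      refine hpi (AddSubgroup.relIndex_eq_zero_of_le_left ?_ h0)
      intro y hy ψ hψ
      rw [Set.mem_singleton_iff] at hψ
      subst hψ
      exact hy ψ hφ
    · intro χ hχS y hy ψ hψ
      rw [Set.mem_singleton_iff] at hψ
      subst hψ
      exact hχ (satGroup χ U) ⟨χ, rfl⟩ (fun z hz => hχS z hz) hy ψ hφ

end

/-- saturation, sequence form -/
theorem satA_of {R : Type} [RSig R] {U : Ad R} (hM : MonA R U) : SatA U := by
  classical
  intro ι κ _ _ a φ b h
  obtain ⟨c, hc1, hc2⟩ := hM.sat ι κ a {ψ | ∃ j, b j ∧ φ j = ψ} {ψ | ∃ j, ¬ b j ∧ φ j = ψ}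
    (fun s t hs ht => by
      choose! f hf using fun ψ (hψ : ψ ∈ s) => hs hψ
      choose! g hg using fun ψ (hψ : ψ ∈ t) => ht hψ
      obtain ⟨x, hx⟩ := h ((s.sup f ⊔ t.sup g) + 1)
      refine ⟨x, fun ψ hψ => ?_, fun ψ hψ => ?_⟩
      · have h1 := hx (f ψ) (Nat.lt_succ_of_le ((Finset.le_sup hψ).trans le_sup_left))
        rw [(hf ψ hψ).2] at h1
        exact h1.2 (hf ψ hψ).1
      · have h1 := hx (g ψ) (Nat.lt_succ_of_le ((Finset.le_sup hψ).trans le_sup_right))
        rw [(hg ψ hψ).2] at h1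
        exact fun h2 => (hg ψ hψ).1 (h1.1 h2))
  refine ⟨c, fun j => ⟨fun h1 => ?_, fun h1 => hc1 _ ⟨j, h1, rfl⟩⟩⟩
  by_contra h2
  exact hc2 _ ⟨j, h2, rfl⟩ h1

/-- saturation of a homogeneous structure, sequence form -/
theorem satU_of {R : Type} [RSig R] {U : Md R} (hM : MonM R U) : SatU U := by
  classical
  intro ι κ _ _ a φ b h
  obtain ⟨c, hc1, hc2⟩ := hM.sat ι κ a {ψ | ∃ j, b j ∧ φ j = ψ} {ψ | ∃ j, ¬ b j ∧ φ j = ψ}
    (fun s t hs ht => by
      choose! f hf using fun ψ (hψ : ψ ∈ s) => hs hψ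
      choose! g hg using fun ψ (hψ : ψ ∈ t) => ht hψ
      obtain ⟨x, hx⟩ := h ((s.sup f ⊔ t.sup g) + 1)
      refine ⟨x, fun ψ hψ => ?_, fun ψ hψ => ?_⟩
      · have h1 := hx (f ψ) (Nat.lt_succ_of_le ((Finset.le_sup hψ).trans le_sup_left))
        rw [(hf ψ hψ).2] at h1
        exact h1.2 (hf ψ hψ).1
      · have h1 := hx (g ψ) (Nat.lt_succ_of_le ((Finset.le_sup hψ).trans le_sup_right))
        rw [(hg ψ hψ).2] at h1
        exact fun h2 => (hg ψ hψ).1 (h1.1 h2))
  refine ⟨c, fun j => ⟨fun h1 => ?_, fun h1 => hc1 _ ⟨j, h1, rfl⟩⟩⟩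
  by_contra h2
  exact hc2 _ ⟨j, h2, rfl⟩ h1

/-- tuples with the same affine type are conjugate -/
theorem homA_of {R : Type} [RSig R] [hR : Countable R] {U : Ad R} (hM : MonA R U) : HomA U :=
  homA_of_sat hR hM.ctbl (satA_of hM)

/-- tuples with the same homogeneous type are conjugate -/
theorem homU_of {R : Type} [RSig R] [hR : Countable R] {U : Md R} (hM : MonM R U) : HomU U :=
  homU_of_sat hR hM.ctbl (satU_of hM)

section

variable {R : Type} [RSig R]

/-- the ages determine the realised types -/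
theorem areal_of_ages {M M' : Type} [AddCommGroup M] [AfS R M] [AddCommGroup M'] [AfS R M']
    (h : ages R M = ages R M') : areal R M = areal R M' := by
  have key : ∀ {M M' : Type} [AddCommGroup M] [AfS R M] [AddCommGroup M'] [AfS R M'],
      ages R M = ages R M' → areal R M ⊆ areal R M' := by
    intro M M' _ _ _ _ h
    rintro ⟨n, p⟩ ⟨x, hx⟩
    have hx' : app (R := R) M x = p := hx
    have h1 : (⟨n, age M x⟩ : (n : ℕ) × Set ((k : ℕ) × Set (PP R (Fin n ⊕ Fin k)))) ∈
        ages R M := ⟨x, rfl⟩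
    rw [h] at h1
    obtain ⟨y, hy⟩ := h1
    have hy' : age (R := R) M' y = age (R := R) M x := hy
    have key2 : ∀ {M M' : Type} [AddCommGroup M] [AfS R M] [AddCommGroup M'] [AfS R M']
        {y : Fin n → M'} {z : Fin n → M}, age (R := R) M' y = age (R := R) M z →
        app (R := R) M' y ⊆ app (R := R) M z := by
      intro M M' _ _ _ _ y z hyz φ hφ
      have h3 : (⟨0, app M' (Sum.elim y Fin.elim0)⟩ : (k : ℕ) × Set (PP R (Fin n ⊕ Fin k))) ∈
          age (R := R) M' y := ⟨Fin.elim0, rfl⟩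
      rw [hyz] at h3
      obtain ⟨c, hc⟩ := h3
      have h4 : ren Sum.inl φ ∈ app (R := R) M' (Sum.elim y Fin.elim0) := by
        show ASat _ _ _
        rw [asat_ren]
        exact hφ
      have hc' : app (R := R) M (Sum.elim z c) = app (R := R) M' (Sum.elim y Fin.elim0) := hc
      rw [← hc'] at h4
      have h5 : ASat (ren Sum.inl φ) M (Sum.elim z c) := h4
      rw [asat_ren] at h5
      exact h5
    refine ⟨y, ?_⟩
    show app (R := R) M' y = p
    rw [← hx']
    exact Subset.antisymm (key2 hy') (key2 hy'.symm)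
  exact Subset.antisymm (key h) (key h.symm)

/-- affine formulas in elementary substructures: satisfied statement of block T -/
def St_ELS : Prop := ∀ (R : Type) [RSig R] (U : Ad R) (N : Submodule R U), El U N →
  ∀ (ι : Type) (φ : PP R ι) (x : ι → N), ASat φ N x ↔ ASat φ U (fun i => (x i : U))

/-- (TLI) for affine types -/
def St_TLA : Prop := ∀ (R : Type) [RSig R] [Countable R] (U : Ad R), MonA R U → TLQA U (El U)

/-- CLAIM A for the homogeneous reduct -/
def St_CLA : Prop := ∀ (R : Type) [RSig R] [Countable R] (U : Ad R), MonA R U → FewT R U →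
  ClaimA U.md

theorem thm_CLA (hE : St_ELS) (hT : St_TLA) : St_CLA := by
  classical
  intro R _ hR U hM hf ι _ S
  have hc : Countable U := hM.ctbl
  have hh : HomU U.md := homU_of hM.md
  have hs : SatA U := satA_of hM
  have hTy : (absU U.md hR hc hh hs.satU).IsT (grp U S) := absU_isT.2 ⟨S, rfl⟩
  have h1 := claim_gen U hR hc hh hs (homA_of hM) (El U) (fun N hN => hE R U N hN) (hT R U hM) (by
    have h2 := hf.few4
    have h3 : {Θ : Set ((n : ℕ) × Set (PP R (Fin n))) | ∃ N : Submodule R U, El U N ∧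
        areal R N = Θ} ⊆ (fun A => if h : ∃ M : Ad R, InK U M ∧ ages R M = A then
          areal R h.choose else ∅) '' {A | ∃ M : Ad R, InK U M ∧ ages R M = A} := by
      rintro _ ⟨N, hN, rfl⟩
      have hK : ∃ M : Ad R, InK U M ∧ ages R M = ages R N :=
        ⟨⟨N⟩, ⟨N, hN, ⟨AIe.refl R N⟩⟩, rfl⟩
      refine ⟨ages R N, hK, ?_⟩
      show (if h : ∃ M : Ad R, InK U M ∧ ages R M = ages R N then areal R h.choose else ∅) = _
      rw [dif_pos hK]
      exact areal_of_ages hK.choose_spec.2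
    exact (h2.image _).mono h3) ι (grp U S) hTy
  have h2 := h1.2.2
  have h3 : (absU U.md hR hc hh hs.satU).q1 (grp U S) = grp U S ⊓ grp U (one U S) := absU_q1 S
  rw [h3, AddSubgroup.inf_relIndex_left] at h2
  exact h2

end

end Pool.Agent.AVF
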