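import Pool.Agent.AVC.Api3
import Pool.Agent.VMA.Api

/-!
# AVF: the homogeneous reduct of the saturated structure as an instance of `VMA.Abs` (helper73)

Port of `VMF/ABS.lean`.
-/

set_option autoImplicit false
set_option linter.unusedSectionVars false
set_option linter.unusedVariables false

namespace Pool.Agent.AVF

open Set Pool.Agent.AVC Pool.Agent.AVC.Ax

section

variable {R : Type} [RSig R] {ι κ : Type}

/-- homogeneity for positive primitive types -/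
def HomU (U : Md R) : Prop := ∀ (ι : Type) [Finite ι] (a b : ι → U),
  pp (R := R) U a = pp (R := R) U b → ∃ γ : Ie R U U, ∀ i, γ (a i) = b i

/-- saturation for countably many positive primitive conditions and negations over a finite tuple -/
def SatU (U : Md R) : Prop := ∀ (ι κ : Type) [Finite ι] [Finite κ] (a : ι → U)
  (φ : ℕ → PP R (ι ⊕ κ)) (b : ℕ → Prop),
  (∀ n, ∃ x : κ → U, ∀ j < n, (Sat (φ j) U (Sum.elim a x) ↔ b j)) →
  ∃ x : κ → U, ∀ j, (Sat (φ j) U (Sum.elim a x) ↔ b j)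

theorem isPP_comap_isZ {U : Md R} [Finite ι] [Finite κ] {h : (ι → U) →+ (κ → U)}
    (hz : VMA.IsZ h) (φ : PP R κ) : ∃ ψ : PP R ι, (satGroup φ U).comap h = satGroup ψ U := by
  obtain ⟨A, hA⟩ := VMA.isZ_iff.1 hz
  obtain ⟨ψ, hψ⟩ := (isPP_sat φ).subst (fun k => (A k).mapRange (fun n : ℤ => (n : R)) (by simp))
  refine ⟨ψ, ?_⟩
  ext x
  rw [AddSubgroup.mem_comap, mem_satGroup, mem_satGroup, ← hψ U x]
  have h1 : h x = fun k => Finsupp.linearCombination R x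
      ((A k).mapRange (fun n : ℤ => (n : R)) (by simp)) := by
    funext k
    rw [hA, VMA.ev_apply, Finsupp.linearCombination_apply, Finsupp.sum_mapRange_index (by simp)]
    exact Finsupp.sum_congr fun i _ => (Int.cast_smul_eq_zsmul R _ _).symm
  rw [h1]

theorem isPP_map_isZ {U : Md R} [Finite ι] [Finite κ] {h : (ι → U) →+ (κ → U)}
    (hz : VMA.IsZ h) (φ : PP R ι) : ∃ ψ : PP R κ, (satGroup φ U).map h = satGroup ψ U := by
  -- {(y, x) | x in φ, h x - y = 0}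
  classical
  have hk : VMA.IsZ (h.comp (VMA.pR : (κ ⊕ ι → U) →+ (ι → U)) - VMA.pL) :=
    (hz.comp VMA.isZ_pR).sub VMA.isZ_pL
  have hzero : ∃ ζ : PP R κ, satGroup ζ U = (⊥ : AddSubgroup (κ → U)) := by
    obtain ⟨ζ, hζ⟩ := isPP_zero (R := R) (ι := κ)
    refine ⟨ζ, ?_⟩
    ext x
    rw [mem_satGroup, ← hζ U x, AddSubgroup.mem_bot]
  obtain ⟨ζ, hζ⟩ := hzero
  obtain ⟨η, hη⟩ := isPP_comap_isZ hk ζ
  obtain ⟨χ, hχ⟩ := (((isPP_sat φ).comap (Sum.inr : ι → κ ⊕ ι)).and (isPP_sat η)).ex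
  refine ⟨χ, ?_⟩
  ext y
  rw [mem_satGroup, ← hχ U y]
  constructor
  · rintro ⟨x, hx, rfl⟩
    refine ⟨x, hx, ?_⟩
    rw [← mem_satGroup, ← hη, hζ]
    show h x - h x ∈ (⊥ : AddSubgroup (κ → U))
    rw [sub_self]
    exact AddSubgroup.zero_mem _
  · rintro ⟨x, hx, hxy⟩
    rw [← mem_satGroup, ← hη, hζ] at hxy
    have h1 : h x - y ∈ (⊥ : AddSubgroup (κ → U)) := hxy
    rw [AddSubgroup.mem_bot, sub_eq_zero] at h1
    exact ⟨x, hx, h1⟩

theorem isPP_bot {U : Md R} [Finite ι] : ∃ ζ : PP R ι, satGroup ζ U = (⊥ : AddSubgroup (ι → U)) := by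
  obtain ⟨ζ, hζ⟩ := isPP_zero (R := R) (ι := ι)
  refine ⟨ζ, ?_⟩
  ext x
  rw [mem_satGroup, ← hζ U x, AddSubgroup.mem_bot]

/-- THE INSTANCE -/
def absU (U : Md R) (hR : Countable R) (hc : Countable U) (hh : HomU U) (hs : SatU U) :
    VMA.Abs U where
  PP ι := {H | ∃ φ : PP R ι, H = satGroup φ U}
  Gam := {γ | ∃ g : Ie R U U, γ = g.toLinearEquiv.toAddEquiv}
  g_refl := ⟨Ie.refl R U, rfl⟩
  g_symm := by
    rintro _ ⟨g, rfl⟩
    exact ⟨g.symm, rfl⟩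
  g_trans := by
    rintro _ ⟨g, rfl⟩ _ ⟨g', rfl⟩
    exact ⟨g.trans g', rfl⟩
  ctbl := hc
  cnt ι _ := by
    have h1 : Countable (PP R ι) := inferInstance
    have h2 : {H : AddSubgroup (ι → U) | ∃ φ : PP R ι, H = satGroup φ U} =
        Set.range (fun φ : PP R ι => satGroup φ (U : Type)) := by
      ext H
      constructor
      · rintro ⟨φ, rfl⟩
        exact ⟨φ, rfl⟩
      · rintro ⟨φ, rfl⟩
        exact ⟨φ, rfl⟩
    rw [h2]
    exact Set.countable_range _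
  top_mem ι _ := by
    obtain ⟨φ, hφ⟩ := isPP_true (R := R) (ι := ι)
    refine ⟨φ, ?_⟩
    ext x
    rw [mem_satGroup, ← hφ U x]
    simp
  bot_mem ι _ := by
    obtain ⟨ζ, hζ⟩ := isPP_bot (U := U) (ι := ι)
    exact ⟨ζ, hζ.symm⟩
  inf_mem ι _ := by
    rintro _ ⟨φ, rfl⟩ _ ⟨ψ, rfl⟩
    obtain ⟨χ, hχ⟩ := (isPP_sat φ).and (isPP_sat ψ)
    refine ⟨χ, ?_⟩
    ext x
    rw [mem_satGroup, ← hχ U x]
    exact Iff.rfl
  comap_mem ι κ _ _ h hz := by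
    rintro _ ⟨φ, rfl⟩
    obtain ⟨ψ, hψ⟩ := isPP_comap_isZ hz φ
    exact ⟨ψ, hψ⟩
  map_mem ι κ _ _ h hz := by
    rintro _ ⟨φ, rfl⟩
    obtain ⟨ψ, hψ⟩ := isPP_map_isZ hz φ
    exact ⟨ψ, hψ⟩
  inv ι _ := by
    rintro _ ⟨φ, rfl⟩ _ ⟨g, rfl⟩ x hx
    exact Sat.map hx (g : Hm R U U)
  sat ι κ _ _ a φ b hφ h := by
    choose ψ hψ using hφ
    obtain ⟨x, hx⟩ := hs ι κ a ψ b (fun n => by
      obtain ⟨x, hx⟩ := h n
      refine ⟨x, fun j hj => ?_⟩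
      rw [← hx j hj, hψ j]
      exact Iff.rfl)
    refine ⟨x, fun j => ?_⟩
    rw [← hx j, hψ j]
    exact Iff.rfl
  hom ι _ a b h := by
    obtain ⟨g, hg⟩ := hh ι a b (by
      ext φ
      exact h _ ⟨φ, rfl⟩)
    exact ⟨g.toLinearEquiv.toAddEquiv, ⟨g, rfl⟩, hg⟩

variable {U : Md R} {hR : Countable R} {hc : Countable U} {hh : HomU U} {hs : SatU U}

theorem absU_mem_PP {H : AddSubgroup (ι → U)} :
    H ∈ (absU U hR hc hh hs).PP ι ↔ ∃ φ : PP R ι, H = satGroup φ U := Iff.rfl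

end

end Pool.Agent.AVF
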