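import Pool.Agent.AVC.Aff
import Pool.Agent.AVF.ABS
import Pool.Agent.VMA.AFF

/-!
# AVF: the saturated affine structure as an instance of `VMA.AffF` (helper73)

`absU`: the homogeneous reduct (`ABS.lean`). `affU`: the affine formulas.
-/

set_option autoImplicit false
set_option linter.unusedSectionVars false
set_option linter.unusedVariables false

namespace Pool.Agent.AVF

open Set Pool.Agent.AVC Pool.Agent.AVC.Ax

section

variable {R : Type} [RSig R] {ι κ : Type}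

/-- saturation for countably many affine conditions and negations over a finite tuple -/
def SatA (U : Ad R) : Prop := ∀ (ι κ : Type) [Finite ι] [Finite κ] (a : ι → U)
  (φ : ℕ → PP R (ι ⊕ κ)) (b : ℕ → Prop),
  (∀ n, ∃ x : κ → U, ∀ j < n, (ASat (φ j) U (Sum.elim a x) ↔ b j)) →
  ∃ x : κ → U, ∀ j, (ASat (φ j) U (Sum.elim a x) ↔ b j)

/-- affine saturation implies homogeneous saturation -/
theorem SatA.satU {U : Ad R} (h : SatA U) : SatU U.md := by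
  intro ι κ _ _ a φ b hn
  obtain ⟨x, hx⟩ := h ι κ a (fun j => hom (φ j)) b (fun n => by
    obtain ⟨x, hx⟩ := hn n
    exact ⟨x, fun j hj => (asat_hom (φ j) _).trans (hx j hj)⟩)
  exact ⟨x, fun j => (asat_hom (φ j) _).symm.trans (hx j)⟩

theorem asat_comap_isZ {U : Ad R} [Finite ι] [Finite κ] {h : (ι → U) →+ (κ → U)}
    (hz : VMA.IsZ h) (φ : PP R κ) : ∃ ψ : PP R ι, ∀ x, ASat ψ U x ↔ ASat φ U (h x) := by
  obtain ⟨A, hA⟩ := VMA.isZ_iff.1 hz
  obtain ⟨ψ, hψ, -⟩ := (isAP_sat φ).subst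
    (fun k => (A k).mapRange (fun n : ℤ => (n : R)) (by simp))
  refine ⟨ψ, fun x => ?_⟩
  rw [← hψ U x]
  have h1 : h x = fun k => Finsupp.linearCombination R x
      ((A k).mapRange (fun n : ℤ => (n : R)) (by simp)) := by
    funext k
    rw [hA, VMA.ev_apply, Finsupp.linearCombination_apply, Finsupp.sum_mapRange_index (by simp)]
    exact Finsupp.sum_congr fun i _ => (Int.cast_smul_eq_zsmul R _ _).symm
  rw [h1]

theorem asat_map_isZ {U : Ad R} [Finite ι] [Finite κ] {h : (ι → U) →+ (κ → U)}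
    (hz : VMA.IsZ h) (φ : PP R ι) : ∃ ψ : PP R κ, ∀ y, ASat ψ U y ↔ ∃ x, ASat φ U x ∧ h x = y := by
  classical
  have hk : VMA.IsZ (h.comp (VMA.pR : (κ ⊕ ι → U) →+ (ι → U)) - VMA.pL) :=
    (hz.comp VMA.isZ_pR).sub VMA.isZ_pL
  obtain ⟨ζ, hζ⟩ := isPP_zero (R := R) (ι := κ)
  obtain ⟨η, hη⟩ := asat_comap_isZ hk (hom ζ)
  obtain ⟨χ, hχ, -⟩ := (((isAP_sat φ).comap (Sum.inr : ι → κ ⊕ ι)).and (isAP_sat η)).ex
  refine ⟨χ, fun y => ?_⟩
  rw [← hχ U y]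
  refine exists_congr fun x => and_congr Iff.rfl ?_
  rw [hη, asat_hom, ← hζ U]
  show h x - y = 0 ↔ _
  exact sub_eq_zero

/-- THE INSTANCE for the affine formulas -/
def affU (U : Ad R) (hR : Countable R) (hc : Countable U) (hh : HomU U.md) (hs : SatA U) :
    VMA.AffF (absU U.md hR hc hh hs.satU) where
  AF ι := {F | F.Nonempty ∧ ∃ φ : PP R ι, F = {x | ASat φ U x}}
  dir := by
    rintro ι _ _ ⟨-, φ, rfl⟩ w hw
    exact ⟨satGroup φ U, ⟨φ, rfl⟩, fun x => ASat.iff hw⟩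
  hom := by
    rintro ι _ _ ⟨φ, rfl⟩
    refine ⟨⟨0, (satGroup φ U).zero_mem⟩, AVC.hom φ, ?_⟩
    ext x
    exact (asat_hom φ x).symm
  inf := by
    rintro ι _ _ ⟨-, φ, rfl⟩ _ ⟨-, ψ, rfl⟩ hne
    obtain ⟨χ, hχ, -⟩ := (isAP_sat φ).and (isAP_sat ψ)
    refine ⟨hne, χ, ?_⟩
    ext x
    exact hχ U x
  comap := by
    rintro ι κ _ _ h hz _ ⟨-, φ, rfl⟩ hne
    obtain ⟨ψ, hψ⟩ := asat_comap_isZ hz φ
    refine ⟨hne, ψ, ?_⟩
    ext x
    exact (hψ x).symm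
  map := by
    rintro ι κ _ _ h hz _ ⟨⟨w, hw⟩, φ, rfl⟩
    obtain ⟨ψ, hψ⟩ := asat_map_isZ hz φ
    refine ⟨⟨h w, w, hw, rfl⟩, ψ, ?_⟩
    ext y
    exact (hψ y).symm
  sat := by
    intro ι κ _ _ a F b hF h
    choose φ hφ using fun j => (hF j).2
    obtain ⟨x, hx⟩ := hs ι κ a φ b (fun n => by
      obtain ⟨x, hx⟩ := h n
      refine ⟨x, fun j hj => ?_⟩
      rw [← hx j hj, hφ j]
      exact Iff.rfl)
    refine ⟨x, fun j => ?_⟩
    rw [← hx j, hφ j]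
    exact Iff.rfl

variable {U : Ad R} {hR : Countable R} {hc : Countable U} {hh : HomU U.md} {hs : SatA U}

theorem affU_mem {F : Set (ι → U)} :
    F ∈ (affU U hR hc hh hs).AF ι ↔ F.Nonempty ∧ ∃ φ : PP R ι, F = {x | ASat φ U x} := Iff.rfl

/-- affinely isolated tuples -/
theorem affU_iso [Finite ι] [Finite κ] {d : ι → U} {c : κ → U} {θ : PP R (ι ⊕ κ)}
    (hθ : ASat θ U (Sum.elim d c))
    (h : ∀ (x : ι → U) (y : κ → U), app (R := R) U d ⊆ app (R := R) U x →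
      ASat θ U (Sum.elim x y) → app (R := R) U (Sum.elim d c) ⊆ app (R := R) U (Sum.elim x y)) :
    (affU U hR hc hh hs).aff.Iso d c := by
  refine (affU U hR hc hh hs).iso_of (Θ := {z | ASat θ U z}) ⟨⟨_, hθ⟩, θ, rfl⟩ hθ ?_
  rintro x y hx hxy _ ⟨-, ψ, rfl⟩ hψ
  refine h x y (fun φ hφ => ?_) hxy hψ
  exact hx {z | ASat φ U z} ⟨⟨d, hφ⟩, φ, rfl⟩ hφ

end

end Pool.Agent.AVF
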