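import Pool.Agent.AVF.StD

/-!
# AVF, ACF: automorphisms which fix `a` move facts and their values
-/

set_option autoImplicit false
set_option linter.unusedSectionVars false
set_option linter.unusedVariables false

namespace Pool.Agent.AVF

open Set Pool.Agent.AVC Pool.Agent.AVC.Ax

private theorem ACF_elim {R : Type} [RSig R] (U : Ad R) {ι κ : Type} (a : ι → U) (t : κ → U)
    (γ : Gm U a) : (⇑(Gm.ae γ).hm ∘ Sum.elim a t) = Sum.elim a (fun i => γ.1 (t i)) := by
  funext x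
  cases x with
  | inl i => exact Gm.fix γ i
  | inr k => rfl

private theorem ACF_elim_symm {R : Type} [RSig R] (U : Ad R) {ι κ : Type} (a : ι → U) (t : κ → U)
    (γ : Gm U a) :
    (⇑(Gm.ae γ).symm.hm ∘ Sum.elim a t) = Sum.elim a (fun i => γ.1.symm (t i)) := by
  funext x
  cases x with
  | inl i =>
    show γ.1.symm (a i) = a i
    rw [LinearEquiv.symm_apply_eq, Gm.fix γ i]
  | inr k => rfl

private theorem ACF_fact {R : Type} [RSig R] (U : Ad R) {ι κ : Type} (a : ι → U)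
    (V : Set (PP R (ι ⊕ κ))) (ψ : PP R κ) (t : κ → U) (γ : Gm U a) (h : Fact U a V ψ t) :
    Fact U a V ψ (fun i => γ.1 (t i)) := by
  refine ⟨?_, h.fi, h.full⟩
  intro φ hφ
  have h1 := (h.re φ hφ).map (Gm.ae γ).prQ
  rwa [ACF_elim] at h1

private theorem ACF_val {R : Type} [RSig R] (U : Ad R) {ι κ : Type} (a : ι → U)
    (V : Set (PP R (ι ⊕ κ))) (ψ : PP R κ) (t : κ → U) (N : Md R) {Y : Md R} (g : κ → N)
    (v : Hm R Y N) (d : EF U a Y) (γ : Gm U a) (h : IsVal U a V ψ t N g v d) :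
    IsVal U a V ψ (fun i => γ.1 (t i)) N g v (actE U a Y γ d) := by
  intro p e hd
  obtain ⟨s, f, h1, h2, h3, h4⟩ := hd
  refine h (AM.act γ p) e ⟨s, f, ?_, ?_, h3, h4⟩
  · intro φ hφ
    obtain ⟨m₀, hm₀⟩ := h1 φ hφ
    refine ⟨m₀, fun m hm => ?_⟩
    have h5 := (hm₀ m hm).map (Gm.ae γ).symm.prQ
    rw [ACF_elim_symm] at h5
    exact h5
  · obtain ⟨m₀, hm₀⟩ := h2
    refine ⟨m₀, fun m hm => ?_⟩
    have h5 := (hm₀ m hm).map (Gm.ae γ).symm.hm
    have h6 : (⇑(Gm.ae γ).symm.hm ∘ ((fun i => p.1.2 (s i m)) - fun i => γ.1 (t i))) =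
        (fun i => (AM.act γ p).1.2 (s i m)) - t := by
      funext i
      show γ.1.symm (p.1.2 (s i m) - γ.1 (t i)) = γ.1.symm (p.1.2 (s i m)) - t i
      rw [map_sub, LinearEquiv.symm_apply_apply]
    rw [h6] at h5
    exact h5

theorem thm_ACF : St_ACF := by
  intro R _ U ι κ a V ψ t N Y g v d γ
  refine ⟨ACF_fact U a V ψ t γ, ACF_val U a V ψ t N g v d γ, ?_⟩
  intro d hd
  refine Submodule.span_induction (p := fun x _ => actE U a Y γ x ∈ TT U a Y) ?_ ?_ ?_ ?_ hd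
  · rintro x ⟨κ', hκ, V', ψ', t', N', g', v', hf, hh, hv⟩
    exact Submodule.subset_span ⟨κ', hκ, V', ψ', fun i => γ.1 (t' i), N', g', v',
      ACF_fact U a V' ψ' t' γ hf, hh, ACF_val U a V' ψ' t' N' g' v' x γ hv⟩
  · rw [map_zero]
    exact Submodule.zero_mem _
  · intro x y _ _ hx hy
    rw [map_add]
    exact Submodule.add_mem _ hx hy
  · intro q x _ hx
    rw [map_smul]
    exact Submodule.smul_mem _ q hx

end Pool.Agent.AVF
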