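import Pool.Agent.AVF.DIC
import Pool.Agent.AVF.BRI

/-!
# AVF, block T: the homogeneous reading of generation; parts and transfer (helper21)
-/

set_option autoImplicit false
set_option linter.unusedSectionVars false
set_option linter.unusedVariables false

namespace Pool.Agent.AVF

open Set Pool.Agent.AVC Pool.Agent.AVC.Ax

section

variable {R : Type} [RSig R] {ι κ : Type}

/-- an affine implication of `U` which is not void holds in the homogeneous reading -/
theorem imp_hom {U : Type} [AddCommGroup U] [AfS R U] {s : Finset (PP R ι)} {ψ : PP R ι}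
    (h : ∀ x : ι → U, (∀ φ ∈ s, ASat φ U x) → ASat ψ U x) {z : ι → U}
    (hz : ∀ φ ∈ s, ASat φ U z) (x : ι → U) (hx : ∀ φ ∈ s, Sat φ U x) : Sat ψ U x := by
  have h1 := (h (z + x) fun φ hφ => (hz φ hφ).add (hx φ hφ)).sub (h z hz)
  rwa [add_sub_cancel_left] at h1

theorem elim_inl_inr {M : Type} (z : κ ⊕ ι → M) :
    Sum.elim (fun i => z (Sum.inl i)) (fun i => z (Sum.inr i)) = z := by
  funext i
  cases i <;> rfl

/-- the formulas of an `AGen` as one finite set -/
theorem agen_imp {U : Type} [AddCommGroup U] [AfS R U] {s : Finset (PP R κ)}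
    {θ ψ : PP R (κ ⊕ ι)} (h : ∀ (x : κ → U) (y : ι → U),
      (∀ φ ∈ s, ASat φ U x) → ASat θ U (Sum.elim x y) → ASat ψ U (Sum.elim x y))
    (t : Finset (PP R (κ ⊕ ι))) (h1 : θ ∈ t) (h2 : ∀ φ ∈ s, ren Sum.inl φ ∈ t) (z : κ ⊕ ι → U)
    (hz : ∀ φ ∈ t, ASat φ U z) : ASat ψ U z := by
  have h3 := h (fun i => z (Sum.inl i)) (fun i => z (Sum.inr i)) (fun φ hφ => by
    have h4 := hz _ (h2 φ hφ)
    rw [asat_ren] at h4
    exact h4) (by
    rw [elim_inl_inr]
    exact hz θ h1)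
  rwa [elim_inl_inr] at h3

end

theorem thm_AGH : St_AGH := by
  intro R _ U κ ι _ _ S N _ _ g b θ hS ⟨z, hz⟩ h
  classical
  refine ⟨h.1, fun ψ hψ => ?_⟩
  obtain ⟨s, hs, h1⟩ := h.2 ψ hψ
  refine ⟨s, hs, h1, fun M _ _ hM x y hx hy => ?_⟩
  let t : Finset (PP R (κ ⊕ ι)) := insert θ (s.image (ren Sum.inl))
  have ht : ∀ φ ∈ s, ren Sum.inl φ ∈ t := fun φ hφ =>
    Finset.mem_insert_of_mem (Finset.mem_image_of_mem _ hφ)
  refine (thm_DIC R U.md (κ ⊕ ι)).2 t ψ (fun w hw => ?_) M hM (Sum.elim x y) ?_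
  · refine imp_hom (agen_imp h1 t (Finset.mem_insert_self _ _) ht) (z := z) ?_ w hw
    intro φ hφ
    rcases Finset.mem_insert.mp hφ with rfl | hφ
    · exact (asat_of_app hz _).2 h.1
    · obtain ⟨φ', hφ', rfl⟩ := Finset.mem_image.mp hφ
      refine (asat_of_app hz _).2 ?_
      rw [asat_ren]
      exact hS φ' (hs hφ')
  · intro φ hφ
    rcases Finset.mem_insert.mp hφ with rfl | hφ
    · exact hy
    · obtain ⟨φ', hφ', rfl⟩ := Finset.mem_image.mp hφ
      rw [sat_ren]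
      exact hx φ' hφ'

section

variable {R : Type} [RSig R] {ι κ l : Type}

/-- in an elementary submodule the tuples have types which are realised in `U` -/
theorem el_agh {U : Ad R} {N : Submodule R U} (hN : El U N) [Finite κ] [Finite ι]
    {S : Set (PP R κ)} {g : κ → N} {b : ι → N} {θ : PP R (κ ⊕ ι)} (hS : ∀ φ ∈ S, ASat φ N g)
    (h : AGen (R := R) U S N g b θ) : HGen (R := R) U S N g b θ :=
  thm_AGH R U κ ι S N g b θ hS ⟨fun i => ((Sum.elim g b i : N) : U), (el_app hN _).symm⟩ h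

theorem HGen.agen {U : Type} [AddCommGroup U] [AfS R U] {S : Set (PP R κ)} {N : Type}
    [AddCommGroup N] [AfS R N] {g : κ → N} {b : ι → N} {θ : PP R (κ ⊕ ι)}
    (h : HGen (R := R) U S N g b θ) : AGen (R := R) U S N g b θ :=
  ⟨h.1, fun ψ hψ => by
    obtain ⟨s, hs, h1, -⟩ := h.2 ψ hψ
    exact ⟨s, hs, h1⟩⟩

/-- generation depends only on the type of the tuple -/
theorem AGen.of_app {U : Type} [AddCommGroup U] [AfS R U] {S : Set (PP R κ)} {N N' : Type}
    [AddCommGroup N] [AfS R N] [AddCommGroup N'] [AfS R N'] {g : κ → N} {b : ι → N}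
    {g' : κ → N'} {b' : ι → N'} {θ : PP R (κ ⊕ ι)}
    (he : app (R := R) N (Sum.elim g b) = app N' (Sum.elim g' b'))
    (h : AGen (R := R) U S N g b θ) : AGen (R := R) U S N' g' b' θ :=
  ⟨(asat_of_app he θ).1 h.1, fun ψ hψ => h.2 ψ ((asat_of_app he ψ).2 hψ)⟩

theorem HGen.of_app {U : Type} [AddCommGroup U] [AfS R U] {S : Set (PP R κ)} {N N' : Type}
    [AddCommGroup N] [AfS R N] [AddCommGroup N'] [AfS R N'] {g : κ → N} {b : ι → N}
    {g' : κ → N'} {b' : ι → N'} {θ : PP R (κ ⊕ ι)}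
    (he : app (R := R) N (Sum.elim g b) = app N' (Sum.elim g' b'))
    (h : HGen (R := R) U S N g b θ) : HGen (R := R) U S N' g' b' θ :=
  ⟨(asat_of_app he θ).1 h.1, fun ψ hψ => h.2 ψ ((asat_of_app he ψ).2 hψ)⟩

/-- generation passes to parts of the tuple -/
theorem agen_sub [Countable ι] [Finite l] {U : Type} [AddCommGroup U] [AfS R U]
    {S : Set (PP R κ)} {N : Type} [AddCommGroup N] [AfS R N] {g : κ → N} {b : ι → N}
    {θ : PP R (κ ⊕ ι)} (h : AGen (R := R) U S N g b θ) (f : l → ι) :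
    ∃ θ' : PP R (κ ⊕ l), AGen (R := R) U S N g (b ∘ f) θ' := by
  have hp : ∃ θ' : PP R (κ ⊕ l), ∀ (M : Type) [AddCommGroup M] [AfS R M] (x : κ → M) (z : l → M),
      ASat θ' M (Sum.elim x z) ↔ ∃ y : ι → M, ASat θ M (Sum.elim x y) ∧ z = y ∘ f := by
    have h1 := (isAP_sat θ).comap (Sum.elim (Sum.inl ∘ Sum.inl) Sum.inr :
      κ ⊕ ι → (κ ⊕ l) ⊕ ι)
    have h2 := (isAP_hom (isPP_zero (R := R) (ι := l))).subst
      (fun i : l => Finsupp.single (Sum.inl (Sum.inr i) : (κ ⊕ l) ⊕ ι) (1 : R) -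
        Finsupp.single (Sum.inr (f i)) 1)
    obtain ⟨θ', hθ', -⟩ := (h1.and h2).ex
    refine ⟨θ', fun M _ _ x z => (hθ' M (Sum.elim x z)).symm.trans (exists_congr fun y =>
      and_congr (iff_of_eq ?_) ?_)⟩
    · congr 1
      funext i
      cases i <;> rfl
    · constructor
      · intro h3
        funext i
        have h4 := congrFun h3 i
        simp only [map_sub, Finsupp.linearCombination_single, one_smul, Sum.elim_inl,
          Sum.elim_inr, Pi.zero_apply] at h4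
        exact sub_eq_zero.mp h4
      · intro h3
        funext i
        simp only [map_sub, Finsupp.linearCombination_single, one_smul, Sum.elim_inl,
          Sum.elim_inr, Pi.zero_apply]
        rw [h3]
        exact sub_self _
  obtain ⟨θ', hθ'⟩ := hp
  refine ⟨θ', (hθ' N _ _).mpr ⟨b, h.1, rfl⟩, fun ψ hψ => ?_⟩
  obtain ⟨s, hs, h1⟩ := h.2 (ren (Sum.map id f) ψ) (by
    rw [asat_ren]
    have h2 : Sum.elim g b ∘ Sum.map id f = Sum.elim g (b ∘ f) := by
      funext i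
      cases i <;> rfl
    rw [h2]
    exact hψ)
  refine ⟨s, hs, fun x z hx hz => ?_⟩
  obtain ⟨y, hy, rfl⟩ := (hθ' U _ _).mp hz
  have h3 := h1 x y hx hy
  rw [asat_ren] at h3
  have h4 : Sum.elim x y ∘ Sum.map id f = Sum.elim x (y ∘ f) := by
    funext i
    cases i <;> rfl
  rwa [h4] at h3

end

end Pool.Agent.AVF
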