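import Pool.Agent.AVF.Asm
import Pool.Agent.AVC.AffL
import Pool.Agent.AFH.END

/-!
# The homogeneity theorem for the class of the elementary substructures of `U` (helper31)

The instance of `AFH.Lg`: models are the members `M` of `K`, formulas the affine level-one formulas; a formula
is homogeneous if both readings agree.
-/

set_option autoImplicit false
set_option linter.unusedSectionVars false
set_option linter.unusedVariables false

namespace Pool.Agent.AVF

open Set Pool.Agent.AVC Pool.Agent.AVC.Ax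

variable {R : Type} [RSig R] {ι κ : Type}

/-- both readings agree -/
def HomL (D : L1 R ι) : Prop :=
  ∀ (M : Type) [AddCommGroup M] [AfS R M] (x : ι → M), ASat1 D M x ↔ Sat1 D M x

theorem homL_hom1 (D : L1 R ι) : HomL (hom1 D) := by
  intro M _ _ x
  rw [asat1_hom1, sat1_hom1]

theorem homL_of_al {F : AFam R ι} {F₀ : HFam R ι} {V : L1 R ι}
    (h : ∀ (M : Type) [AddCommGroup M] [AfS R M] (x : ι → M), F M x ↔ ASat1 V M x)
    (h₀ : ∀ (M : Type) [AddCommGroup M] [MoS R M] (x : ι → M), F₀ M x ↔ Sat1 V M x)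
    (e : ∀ (M : Type) [AddCommGroup M] [AfS R M] (x : ι → M), F M x ↔ F₀ M x) : HomL V :=
  fun M _ _ x => (h M x).symm.trans ((e M x).trans (h₀ M x))

theorem lin_cast {M : Type} [AddCommGroup M] [MoS R M] (x : ι → M) (f : ι →₀ ℤ) :
    Finsupp.linearCombination R x (f.mapRange (Int.cast : ℤ → R) Int.cast_zero) =
      Finsupp.linearCombination ℤ x f := by
  rw [Finsupp.linearCombination_apply, Finsupp.linearCombination_apply,
    Finsupp.sum_mapRange_index (by intro i; rw [zero_smul])]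
  exact Finsupp.sum_congr fun i _ => Int.cast_smul_eq_zsmul R _ _

/-- the zero tuple -/
theorem exists_eqz (ι : Type) : ∃ D : L1 R ι, HomL D ∧
    ∀ (M : Type) [AddCommGroup M] [AfS R M] (x : ι → M), ASat1 D M x ↔ x = 0 := by
  choose f hf hf' using fun i : ι => isAP_lin (R := R) (Finsupp.single i (1 : R))
  refine ⟨ofRe (range f), ?_, ?_⟩
  · intro M _ _ x
    rw [asat1_ofRe, sat1_ofRe]
    constructor
    · rintro h _ ⟨i, rfl⟩
      rw [← hf']
      exact (hf i M x).2 (h _ ⟨i, rfl⟩)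
    · rintro h _ ⟨i, rfl⟩
      rw [← hf]
      exact (hf' i M x).2 (h _ ⟨i, rfl⟩)
  · intro M _ _ x
    rw [asat1_ofRe]
    have h1 : ∀ i, Finsupp.linearCombination R x (Finsupp.single i (1 : R)) = x i := fun i => by
      rw [Finsupp.linearCombination_single, one_smul]
    constructor
    · intro h
      funext i
      rw [← h1]
      exact (hf i M x).2 (h _ ⟨i, rfl⟩)
    · rintro rfl _ ⟨i, rfl⟩
      rw [← hf]
      exact h1 i

/-- the affine logic of `K` -/
def LgU (U : Ad R) : AFH.Lg where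
  K := {M : Ad R // InK U M}
  car M := M.1
  grp M := M.1.grp
  A ι := L1 R ι
  S D M x := ASat1 D M.1 x
  hom D := HomL D
  cos {ι} _ D M x y z h1 h2 h3 := by
    have h4 := h3.add (h1.sub h2)
    have h5 : z + (x - y) = x - y + z := add_comm _ _
    rw [h5] at h4
    exact h4
  zero {ι} _ D M h := (h M.1 0).2 (sat1Group D M.1).zero_mem
  dif {ι} _ D := ⟨hom1 D, homL_hom1 D, fun M x y h => by
    rw [asat1_hom1]
    exact h.iff⟩
  tru ι _ := by
    obtain ⟨V, h1, h2⟩ := isAL_true (R := R) (ι := ι)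
    exact ⟨V, homL_of_al h1 h2 fun _ _ _ _ => Iff.rfl, fun M x => (h1 M.1 x).1 trivial⟩
  eqz ι _ := by
    obtain ⟨D, h1, h2⟩ := exists_eqz (R := R) ι
    exact ⟨D, h1, fun M x => h2 M.1 x⟩
  and {ι} _ D E := by
    obtain ⟨V, h1, h2⟩ := (isAL_sat1 D).and (isAL_sat1 E)
    exact ⟨V, fun hD hE => homL_of_al h1 h2 fun M _ _ x => and_congr (hD M x) (hE M x),
      fun M x => (h1 M.1 x).symm⟩
  ex {ι κ} _ _ D := by
    obtain ⟨V, h1, h2⟩ := (isAL_sat1 D).ex
    exact ⟨V, fun hD => homL_of_al h1 h2 fun M _ _ x => exists_congr fun y => hD M _,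
      fun M x => (h1 M.1 x).symm⟩
  sub {ι κ} _ _ D f := by
    obtain ⟨V, h1, h2⟩ := (isAL_sat1 D).subst
      (fun k => (f k).mapRange (Int.cast : ℤ → R) Int.cast_zero)
    refine ⟨V, fun hD => homL_of_al h1 h2 fun M _ _ x => hD M _, fun M x => ?_⟩
    have h3 : (fun k => Finsupp.linearCombination R x
        ((f k).mapRange (Int.cast : ℤ → R) Int.cast_zero)) =
        fun k => Finsupp.linearCombination ℤ x (f k) := funext fun k => lin_cast x (f k)
    have h4 : ASat1 D M.1 (fun k => Finsupp.linearCombination R x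
        ((f k).mapRange (Int.cast : ℤ → R) Int.cast_zero)) ↔ ASat1 V M.1 x := h1 M.1 x
    rw [h3] at h4
    exact h4.symm

theorem lgU_T1 {U : Ad R} (h : BW.T1A U) : (LgU U).T1 := by
  intro α ι _ _ E hE D W hD hW hle hne hall
  obtain ⟨E', -, hE'⟩ := hE
  obtain ⟨D', hD1, hD2⟩ := hD
  choose W' hW1 hW2 using hW
  have eD : ∀ (M : Ad R) (hM : InK U M) (x : ι → M), D ⟨M, hM⟩ x ↔ Sat1 D' M x := fun M hM x =>
    (hD2 ⟨M, hM⟩ x).trans (hD1 trivial M x)
  have eW : ∀ j (M : Ad R) (hM : InK U M) (x : ι → M), W j ⟨M, hM⟩ x ↔ Sat1 (W' j) M x :=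
    fun j M hM x => (hW2 j ⟨M, hM⟩ x).trans (hW1 j trivial M x)
  have eE : ∀ (M : Ad R) (hM : InK U M), (∃ e : α → M, ASat1 E' M e) →
      (LgU U).NE E ⟨M, hM⟩ := fun M hM ⟨e, he⟩ => ⟨e, (hE' ⟨M, hM⟩ e).2 he⟩
  refine h α ι E' D' W' ?_ ?_ ?_
  · intro i M hM he x hx
    exact (eD M hM x).1 (hle i ⟨M, hM⟩ (eE M hM he) x ((eW i M hM x).2 hx))
  · intro i
    by_contra hcon
    refine hne i ?_
    rintro ⟨M, hM⟩ ⟨e, he⟩ x hx
    by_contra hx'
    exact hcon ⟨M, hM, ⟨e, (hE' ⟨M, hM⟩ e).1 he⟩, x, (eD M hM x).1 hx,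
      fun h => hx' ((eW i M hM x).2 h)⟩
  · intro i M hM he x hx
    obtain ⟨y, h1, h2, h3⟩ := hall i ⟨M, hM⟩ (eE M hM he) x ((eD M hM x).2 hx)
    exact ⟨y, (eW i M hM _).1 h1, (eD M hM y).1 h2, fun l hl => (eW l M hM y).1 (h3 l hl)⟩

theorem lgU_UML {U : Ad R} (h : UMLA U) : (LgU U).UML := by
  rintro ⟨M, hM⟩ ι _ (a : ι → M)
  obtain ⟨n, ⟨e⟩⟩ := Finite.exists_equiv_fin ι
  have he : ∀ {K : Type} (x : ι → K), (x ∘ e.symm) ∘ e = x := fun x =>
    funext fun i => congrArg x (e.symm_apply_apply i)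
  obtain ⟨V, hV1, hV2⟩ := h M hM n (a ∘ e.symm)
  refine ⟨fun N (x : ι → N.1) => ASat1 V N.1 (x ∘ e.symm), ?_, hV1, ?_⟩
  · exact ⟨ren1 e.symm V, fun h => h.elim, fun N x => (asat1_ren1 (M := N.1) e.symm V x).symm⟩
  · rintro W ⟨(W' : L1 R ι), -, hW'⟩ hWa ⟨N, hN⟩ (y : ι → N) hy
    have h0 : ASat1 W' M a := (hW' ⟨M, hM⟩ a).1 hWa
    have h1 : ASat1 (ren1 e W') M (a ∘ e.symm) := by
      refine (asat1_ren1 (M := M) e W' (a ∘ e.symm)).2 ?_
      rw [he]
      exact h0
    have h3 := (asat1_ren1 (M := N) e W' (y ∘ e.symm)).1 (hV2 _ h1 N hN _ hy)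
    rw [he] at h3
    exact (hW' ⟨N, hN⟩ y).2 h3

theorem inK_countable {U : Ad R} (hU : Countable U) {M : Ad R} (h : InK U M) : Countable M := by
  obtain ⟨N, -, ⟨e⟩⟩ := h
  exact e.injective.countable

/-- a formula for an atomic relation -/
theorem isAL_hold (a : Atm R ι) : IsAL (R := R) (fun M _ _ x => AHold a M x)
    (fun M _ _ x => Hold a M x) := (isAP_hold a).isAL

/-- **The homogeneity theorem for `K`.** -/
theorem thm_ISO : St_ISOU := by
  intro R _ _ U hU h1 h2 M N hM hN hr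
  have hctM := inK_countable hU.ctbl hM
  have hctN := inK_countable hU.ctbl hN
  let L := LgU U
  let M' : L.K := ⟨M, hM⟩
  let N' : L.K := ⟨N, hN⟩
  have key : ∀ (P Q : Ad R) (hP : InK U P) (hQ : InK U Q),
      areal1 (R := R) P = areal1 (R := R) Q → ∀ (n : ℕ) (D : L.Fam (Fin n)),
      (∃ x : Fin n → P, L.Exact D ⟨P, hP⟩ x) → ∃ x : Fin n → Q, L.Exact D ⟨Q, hQ⟩ x := by
    rintro P Q hP hQ h n D ⟨x, hD1, hD2, hD3⟩
    have h3 : (⟨n, atp1 (R := R) P x⟩ : (n : ℕ) × Set (L1 R (Fin n))) ∈ areal1 (R := R) P :=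
      ⟨x, rfl⟩
    rw [h] at h3
    obtain ⟨y, hy⟩ := h3
    have h4 : ∀ W : L.Fam (Fin n), L.Is False W → (W ⟨Q, hQ⟩ y ↔ W ⟨P, hP⟩ x) := by
      rintro W ⟨(W' : L1 R (Fin n)), -, hW'⟩
      have h5 : W' ∈ atp1 (R := R) Q y ↔ W' ∈ atp1 (R := R) P x := by
        have h6 : atp1 (R := R) Q y = atp1 (R := R) P x := hy
        rw [h6]
      exact (hW' ⟨Q, hQ⟩ y).trans (h5.trans (hW' ⟨P, hP⟩ x).symm)
    exact ⟨y, hD1, (h4 D hD1).2 hD2, fun W hW hWy => hD3 W hW ((h4 W hW).1 hWy)⟩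
  have hmain : ∃ g : M ≃+ N, ∀ (n : ℕ) (F : L.Fam (Fin n)), L.Is False F →
      ∀ x : Fin n → M, F M' x ↔ F N' (g ∘ x) :=
    AFH.thm_ISO_add (L := L) (lgU_T1 h1) (lgU_UML h2) M' N' hctM hctN
      (fun n D => ⟨key M N hM hN hr n D, key N M hN hM hr.symm n D⟩)
  obtain ⟨g, hg⟩ := hmain
  -- atomic formulas are preserved
  have hat : ∀ (n : ℕ) (a : Atm R (Fin n)) (x : Fin n → M),
      AHold a M x ↔ AHold a N (g ∘ x) := by
    intro n a x
    obtain ⟨V, hV, -⟩ := isAL_hold a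
    exact hg n (fun K x => AHold a K.1 x) ⟨V, fun h => h.elim, fun K x => hV K.1 x⟩ x
  have hone : ∀ {K : Type} [AddCommGroup K] [MoS R K] {n : ℕ} (x : Fin n → K) (j : Fin n),
      Finsupp.linearCombination R x (Finsupp.single j (1 : R)) = x j := fun x j => by
    rw [Finsupp.linearCombination_single, one_smul]
  have hsm : ∀ (r : R) (x : M), g (r • x) = r • g x := by
    intro r x
    have h3 := (hat 2 (Sum.inl (Finsupp.single 0 r - Finsupp.single 1 1)) ![x, r • x]).1 (by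
      show Finsupp.linearCombination R ![x, r • x] (Finsupp.single 0 r - Finsupp.single 1 1) = 0
      rw [map_sub, hone, Finsupp.linearCombination_single]
      exact sub_self _)
    have h4 : Finsupp.linearCombination R (g ∘ ![x, r • x])
        (Finsupp.single 0 r - Finsupp.single 1 1) = 0 := h3
    rw [map_sub, hone, Finsupp.linearCombination_single] at h4
    exact (sub_eq_zero.1 h4).symm
  let e : M ≃ₗ[R] N := { g with map_smul' := hsm }
  have hP : ∀ (i : RSig.Ix R) (x : Fin (RSig.ar i) → M), x ∈ MoS.P (R := R) (M := M) i ↔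
      (fun j => e (x j)) ∈ MoS.P (R := R) (M := N) i := by
    intro i x
    have h3 := hat _ (Sum.inr ⟨i, false, fun j => Finsupp.single j 1⟩) x
    have h4 : ((fun j => Finsupp.linearCombination R x (Finsupp.single j (1 : R))) ∈
        MoS.P (R := R) (M := M) i) ↔
        (fun j => Finsupp.linearCombination R (g ∘ x) (Finsupp.single j (1 : R))) ∈
          MoS.P (R := R) (M := N) i := h3
    have h5 : (fun j => Finsupp.linearCombination R x (Finsupp.single j (1 : R))) = x :=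
      funext fun j => hone x j
    have h6 : (fun j => Finsupp.linearCombination R (g ∘ x) (Finsupp.single j (1 : R))) = g ∘ x :=
      funext fun j => hone (g ∘ x) j
    rw [h5, h6] at h4
    exact h4
  refine ⟨{ e with pres := hP, presQ := ?_ }⟩
  intro i x
  have h3 := hat _ (Sum.inr ⟨i, true, fun j => Finsupp.single j 1⟩) x
  have h4 : ((fun j => Finsupp.linearCombination R x (Finsupp.single j (1 : R))) ∈
      AfS.Q (R := R) (M := M) i) ↔
      (fun j => Finsupp.linearCombination R (g ∘ x) (Finsupp.single j (1 : R))) ∈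
        AfS.Q (R := R) (M := N) i := h3
  have h5 : (fun j => Finsupp.linearCombination R x (Finsupp.single j (1 : R))) = x :=
    funext fun j => hone x j
  have h6 : (fun j => Finsupp.linearCombination R (g ∘ x) (Finsupp.single j (1 : R))) = g ∘ x :=
    funext fun j => hone (g ∘ x) j
  rw [h5, h6] at h4
  exact h4

end Pool.Agent.AVF
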