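import Pool.Agent.AVF.ALL1
import Pool.Agent.AVF.ISO

/-!
# Vaught's conjecture for weakly normal groups (helper31)

`all_CUA`, `all_FIN`, `all_PAR`: the class of the elementary substructures of a countable saturated affine
structure; affine structures without and with parameters; `all_WN` is the final theorem.
-/

set_option autoImplicit false

namespace Pool.Agent.AVF

/-- **Vaught's conjecture for weakly normal groups with any further structure.** -/
theorem all_WN : AFT.St_WN := wn_of_iso thm_ISO

end Pool.Agent.AVF
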