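import Pool.Agent.AVF.REA
import Pool.Agent.AVF.AGH
import Pool.Agent.AVC.COL

/-!
# AVF: the coding structures and their replacement by models (2.1, 3.2)
-/

set_option autoImplicit false
set_option linter.unusedSectionVars false
set_option linter.unusedVariables false

namespace Pool.Agent.AVF

open Set Pool.Agent.AVC Pool.Agent.AVC.Ax

section

variable {R : Type} [RSig R] {U : Ad R} {ι κ : Type}

/-- the affine implications of `U`, for finite sets of formulas -/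
theorem aown_imp [Finite κ] [Finite ι] {M : Type} [AddCommGroup M] [AfS R M]
    (hM : (AOwn U).AIn M) {s : Finset (PP R κ)} {θ ψ : PP R (κ ⊕ ι)}
    (h : ∀ (x : κ → U) (y : ι → U), (∀ φ ∈ s, ASat φ U x) → ASat θ U (Sum.elim x y) →
      ASat ψ U (Sum.elim x y)) (x : κ → M) (y : ι → M) (hx : ∀ φ ∈ s, ASat φ M x)
    (hy : ASat θ M (Sum.elim x y)) : ASat ψ M (Sum.elim x y) := by
  obtain ⟨n, ⟨e⟩⟩ := Finite.exists_equiv_fin (κ ⊕ ι)
  obtain ⟨χ, hχ, -⟩ := ((isAP_finset s).comap (Sum.inl : κ → κ ⊕ ι)).and (isAP_sat θ)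
  have he : ∀ (K : Type) (w : κ ⊕ ι → K), (w ∘ e.symm) ∘ e = w := by
    intro K w
    funext i
    simp
  have h1 := hM ⟨n, ren e χ, ren e ψ⟩ (by
    intro z hz
    show ASat (ren e ψ) U z
    have hz' : ASat (ren e χ) U z := hz
    rw [asat_ren] at hz' ⊢
    obtain ⟨h2, h3⟩ := (hχ U _).2 hz'
    have h4 := h ((z ∘ e) ∘ Sum.inl) ((z ∘ e) ∘ Sum.inr) h2 (by
      rw [Sum.elim_comp_inl_inr]
      exact h3)
    rwa [Sum.elim_comp_inl_inr] at h4) (Sum.elim x y ∘ e.symm) (by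
    show ASat (ren e χ) M _
    rw [asat_ren, he]
    exact (hχ M _).1 ⟨by
      show ∀ φ ∈ s, ASat φ M (Sum.elim x y ∘ Sum.inl)
      rw [Sum.elim_comp_inl]
      exact hx, hy⟩)
  have h2 : ASat (ren e ψ) M (Sum.elim x y ∘ e.symm) := h1
  rwa [asat_ren, he] at h2

/-- the affine implications of `U` hold in the coding structures -/
theorem TB.code (hU : TB U) {M : Submodule R U} (hM : El U M) {Y : ℕ → Md R}
    (hY : ∀ k, (Own R U).In (Y k)) {a : ∀ k, Hm R (Y k) (Y (k + 1))}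
    {c : ∀ k, ℕ → Hm R (Y k) M} {c0 : ∀ k, c k 0 = 0}
    (Λ : (⟨⟨M⟩, Y, a, c, c0⟩ : ASys R).sys.Lim) (σ : ℕ → ℕ) :
    (AOwn U).AIn ((⟨⟨M⟩, Y, a, c, c0⟩ : ASys R).L Λ σ) := by
  classical
  refine ASys.L_aIn (⟨⟨M⟩, Y, a, c, c0⟩ : ASys R) Λ σ (AOwn U) (hU.aow ⟨M⟩ (hU.elk M hM)) ?_
  rintro ax hax ⟨x, hx⟩ k y hy
  refine hY k ax ?_ y hy
  intro z hz
  have hx' : ASat ax.2.1 U (fun i => ((x i : M) : U)) := (hU.pur M hM _ _ x).1 hx
  exact imp_hom (s := {ax.2.1}) (fun w hw => hax w (hw _ (Finset.mem_singleton_self _)))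
    (z := fun i => ((x i : M) : U)) (fun φ hφ => by
      rw [Finset.mem_singleton.1 hφ]
      exact hx') z (fun φ hφ => by
      rw [Finset.mem_singleton.1 hφ]
      exact hz)

end

/-- [DCH] -/
theorem thm_DCH : St_DCH := by
  classical
  intro R _ _ U hU hF n u p Y g a hu0 hu hY hag hC m M q hM c c0
  let D : ASys R := ⟨⟨M⟩, Y, a, c, c0⟩
  choose L of hL using fun σ => thm_COL R D.sys.G (D.sys.t σ)
  let Λ : D.sys.Lim := ⟨L, of, hL⟩
  have hUc := hU.ctbl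
  have hMc : Countable M := inferInstance
  have hL1 : ∀ σ, (AOwn U).AIn (D.L Λ σ) := fun σ => hU.code hM (fun k => (hY k).mem) Λ σ
  -- the elements
  let x : ∀ σ : ℕ → ℕ, M ⊕ Si n → D.L Λ σ := fun σ =>
    Sum.elim (fun m => Λ.inM σ m) (fun p => Λ.inY σ p.1 (g p.1 p.2))
  choose N z hN1 hN3 hN4 using fun σ => hU.tl (M ⊕ Si n) (D.L Λ σ) (x σ)
    (fun A => thm_REA R U hU n u p Y g a hu0 hu hY hag hC M c c0 hM Λ σ A)
  let f0 : Fin m ⊕ Fin (n 0) → M ⊕ Si n :=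
    Sum.elim (fun i => Sum.inl (q i)) (fun i => Sum.inr ⟨0, i⟩)
  have hf0 : ∀ σ, (fun i => x σ (f0 i)) =
      (Sum.elim (fun i => Λ.inM σ (q i)) (fun i => Λ.inY σ 0 (g 0 i)) :
        Fin m ⊕ Fin (n 0) → D.L Λ σ) := by
    intro σ
    funext i
    rcases i with i | i <;> rfl
  refine ⟨Λ, fun σ => atp1 (R := R) (N σ) (fun i => z σ (f0 i)), ?_, fun σ => ?_, ?_⟩
  · -- countable
    refine (hF.few1 (Fin m ⊕ Fin (n 0))).mono ?_
    rintro _ ⟨σ, rfl⟩
    exact ⟨N σ, hN1 σ, _, rfl⟩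
  · -- the facts of the model hold in the coding structure
    rintro V ⟨t, ht⟩
    obtain ⟨A, hA, θ, hθ, hθ2⟩ := hN4 σ (Fin V.1) t (Finset.univ.image f0)
    have hA' : ∀ i, f0 i ∈ A := fun i => hA (Finset.mem_image_of_mem f0 (Finset.mem_univ i))
    have hpp : app (R := R) (N σ) (fun i : A => z σ i) =
        app (R := R) (D.L Λ σ) (fun i : A => x σ i) := hN3 σ (A) (fun i => i.1)
    -- solvability
    obtain ⟨θ', hθ', -⟩ := (isAP_sat θ).ex
    have h1 : θ' ∈ app (R := R) (N σ) (fun i : A => z σ i.1) :=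
      (hθ' (N σ) _).1 ⟨t, hθ⟩
    rw [hpp] at h1
    obtain ⟨t', ht'⟩ := (hθ' (D.L Λ σ) (fun i : A => x σ i.1)).2 h1
    show ASat1 V (D.L Λ σ) (Sum.elim (fun i => Λ.inM σ (q i)) (fun i => Λ.inY σ 0 (g 0 i)) :
        Fin m ⊕ Fin (n 0) → D.L Λ σ)
    rw [← hf0 σ]
    refine ⟨t', fun φ hφ => ?_⟩
    have h2 := ht φ hφ
    have h3 : (Sum.elim (fun i => z σ (f0 i)) t : (Fin m ⊕ Fin (n 0)) ⊕ Fin V.1 → N σ) =
        Sum.elim (fun i : A => z σ i.1) t ∘
          Sum.map (fun i => (⟨f0 i, hA' i⟩ : A)) id := by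
      funext i
      rcases i with i | i <;> rfl
    rw [h3, ← asat_ren] at h2
    obtain ⟨s, hs1, hs2, -⟩ := hθ2 _ h2
    have h4 := aown_imp (hL1 σ) hs2 (fun i : A => x σ i.1) t' (fun φ hφ => by
      have h5 : φ ∈ app (R := R) (N σ) (fun i : A => z σ i) := hs1 hφ
      rw [hpp] at h5
      exact h5) ht'
    rw [asat_ren] at h4
    have h5 : (Sum.elim (fun i => x σ (f0 i)) t' : (Fin m ⊕ Fin (n 0)) ⊕ Fin V.1 → D.L Λ σ) =
        Sum.elim (fun i : A => x σ i.1) t' ∘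
          Sum.map (fun i => (⟨f0 i, hA' i⟩ : A)) id := by
      funext i
      rcases i with i | i <;> rfl
    rw [h5]
    exact h4
  · -- explicit witnesses
    intro σ k V t ht hV
    have h1 : ∀ i, ∃ w : M ⊕ Si n, t i = x σ w := by
      intro i
      rcases ht i with ⟨u, hu⟩ | ⟨j, i', hi'⟩
      · exact ⟨Sum.inl u, hu⟩
      · exact ⟨Sum.inr ⟨j, i'⟩, hi'⟩
    choose w hw using h1
    refine ⟨fun i => z σ (w i), fun φ hφ => ?_⟩
    have h2 := hV φ hφ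
    have h3 := hN3 σ ((Fin m ⊕ Fin (n 0)) ⊕ Fin k) (Sum.elim f0 w)
    have h4 : x σ ∘ Sum.elim f0 w = (Sum.elim (Sum.elim (fun i => Λ.inM σ (q i))
        (fun i => Λ.inY σ 0 (g 0 i))) t : (Fin m ⊕ Fin (n 0)) ⊕ Fin k → D.L Λ σ) := by
      rw [← hf0 σ]
      funext i
      rcases i with i | i
      · rfl
      · exact (hw i).symm
    rw [h4] at h3
    have h5 : φ ∈ app (R := R) (N σ) (z σ ∘ Sum.elim f0 w) := by
      rw [h3]
      exact h2
    have h6 : z σ ∘ Sum.elim f0 w =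
        Sum.elim (fun i => z σ (f0 i)) (fun i => z σ (w i)) := by
      funext i
      rcases i with i | i <;> rfl
    rw [h6] at h5
    exact h5

end Pool.Agent.AVF
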