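import Pool.Agent.AVF.StC

/-!
# AVF (port of VMF) 1.1: the normal form of a chain of honest modules (helper4)

`thm_NFC`: from `St_HNX` we get families `ĝ k` of all generators of the stages `≤ k` in the `k`-th
module of a chain, compatible with the maps of the chain, and honest for their types.
-/

set_option autoImplicit false
set_option linter.unusedSectionVars false
set_option linter.unusedVariables false

namespace Pool.Agent.AVF

open Set Pool.Agent.AVC Pool.Agent.AVC.Ax

section

variable {R : Type} [RSig R] {n : ℕ → ℕ} {N : ℕ → Md R}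

/-- the new block: the value of `g l` on a generator of stage `j = l` -/
private def NFC_new (g : ∀ k, Fin (n k) → N k) (l : ℕ) (p : Si n) (h : p.1 = l) : N l :=
  g l (h ▸ p.2)

/-- the families of all generators of the stages `≤ k` -/
private def NFC_G (g : ∀ k, Fin (n k) → N k) (a : ∀ k, Hm R (N k) (N (k + 1))) :
    ∀ k, Jk n k → N k
  | 0, p => NFC_new g 0 p.1 (Nat.le_zero.1 p.2)
  | k + 1, p =>
    if h : p.1.1 ≤ k then a k (NFC_G g a k ⟨p.1, h⟩)
    else NFC_new g (k + 1) p.1 (le_antisymm p.2 (Nat.lt_of_not_le h))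

private theorem NFC_new_eq (g : ∀ k, Fin (n k) → N k) (l : ℕ) (i : Fin (n l))
    (h : (⟨l, i⟩ : Si n).1 = l) : NFC_new g l ⟨l, i⟩ h = g l i := rfl

private theorem NFC_nJ (g : ∀ k, Fin (n k) → N k) (a : ∀ k, Hm R (N k) (N (k + 1))) (k : ℕ)
    (i : Fin (n k)) : NFC_G g a k (nJ n k i) = g k i := by
  cases k with
  | zero => rfl
  | succ k =>
    have h : ¬ (nJ n (k + 1) i).1.1 ≤ k := Nat.not_succ_le_self k
    rw [NFC_G, dif_neg h]
    rfl

private theorem NFC_uJ (g : ∀ k, Fin (n k) → N k) (a : ∀ k, Hm R (N k) (N (k + 1))) (k : ℕ)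
    (p : Jk n k) : a k (NFC_G g a k p) =
      NFC_G g a (k + 1) (uJ n k (k + 1) (Nat.le_succ k) p) := by
  have h : (uJ n k (k + 1) (Nat.le_succ k) p).1.1 ≤ k := p.2
  rw [NFC_G, dif_pos h]
  rfl

end

/-- 1.1 normal form of a chain -/
theorem thm_NFC (h : St_HNX) : St_NFC := by
  intro R _ X n S N g a hon
  refine ⟨NFC_G g a, NFC_nJ g a, NFC_uJ g a, fun k => ?_⟩
  exact h R X (Fin (n k)) (Jk n k) (S k) (N k) (g k) (NFC_G g a k) (nJ n k) (NFC_nJ g a k) (hon k)

end Pool.Agent.AVF
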