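import Pool.Agent.AVF.Defs

/-!
# VMF: finite index shrinking of a chain of types to a connected chain (1.2)
-/

set_option autoImplicit false
set_option linter.unusedSectionVars false
set_option linter.unusedVariables false

namespace Pool.Agent.AVF

open Set Pool.Agent.AVC Pool.Agent.AVC.Ax

section

variable {R : Type} [RSig R]

/-- renaming of the variables of an atomic formula along the identity -/
theorem amap_id {α : Type} (a : Atm R α) : amap id a = a := by
  rcases a with e | ⟨i, b, t⟩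
  · simp only [amap, Sum.map_inl, Finsupp.mapDomain_id]
  · simp only [amap, Sum.map_inr, Finsupp.mapDomain_id]

/-- renaming twice -/
theorem amap_amap {α β γ : Type} (f : α → β) (g : β → γ) (a : Atm R α) :
    amap g (amap f a) = amap (g ∘ f) a := by
  rcases a with e | ⟨i, b, t⟩
  · simp only [amap, Sum.map_inl, Finsupp.mapDomain_comp]
  · simp only [amap, Sum.map_inr, Finsupp.mapDomain_comp]

/-- countable saturation, without parameters -/
def SATU (R : Type) [RSig R] (U : Type) [AddCommGroup U] [MoS R U] : Prop :=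
  ∀ (ι : Type) [Finite ι] (A B : Set (PP R ι)),
  (∀ s t : Finset (PP R ι), ↑s ⊆ A → ↑t ⊆ B → ∃ x : ι → U, (∀ φ ∈ s, Sat φ U x) ∧
    ∀ ψ ∈ t, ¬ Sat ψ U x) →
  ∃ x : ι → U, Re A U x ∧ ∀ ψ ∈ B, ¬ Sat ψ U x

variable {ι κ : Type} {U : Type} [AddCommGroup U] [MoS R U]

/-- restriction of tuples -/
def rst (U : Type) [AddCommGroup U] (f : κ → ι) : (ι → U) →+ (κ → U) where
  toFun x := x ∘ f
  map_zero' := rfl
  map_add' _ _ := rfl

theorem grp_ren (f : κ → ι) (S : Set (PP R κ)) :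
    grp U (ren f '' S) = (grp U S).comap (rst U f) := by
  ext x
  constructor
  · intro h φ hφ
    have h1 := h (ren f φ) ⟨φ, hφ, rfl⟩
    rwa [sat_ren] at h1
  · rintro h _ ⟨φ, hφ, rfl⟩
    rw [sat_ren]
    exact h φ hφ

theorem grp_union (S T : Set (PP R ι)) : grp U (S ∪ T) = grp U S ⊓ grp U T := by
  ext x
  constructor
  · intro h
    exact ⟨fun φ hφ => h φ (Or.inl hφ), fun φ hφ => h φ (Or.inr hφ)⟩
  · rintro ⟨h1, h2⟩ φ (hφ | hφ)
    · exact h1 φ hφ
    · exact h2 φ hφ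

theorem grp_anti {S T : Set (PP R ι)} (h : S ⊆ T) : grp U T ≤ grp U S :=
  fun x hx φ hφ => hx φ (h hφ)

theorem FIn.of_le {S T T' : Set (PP R ι)} (h : FIn U S T) (hT : grp U T ≤ grp U T') :
    FIn U S T' := fun h0 => h (AddSubgroup.relIndex_eq_zero_of_le_left hT h0)

theorem FIn.of_ge {S S' T : Set (PP R ι)} (h : FIn U S T) (hS : grp U S' ≤ grp U S) :
    FIn U S' T := fun h0 => h (AddSubgroup.relIndex_eq_zero_of_le_right hS h0)

theorem FIn.ren {S T : Set (PP R κ)} (h : FIn U S T) (f : κ → ι) {S' : Set (PP R ι)}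
    (hS : ∀ x : ι → U, Re S' U x → Re S U (x ∘ f)) : FIn U S' (ren f '' T) := by
  unfold FIn at h ⊢
  rw [grp_ren, AddSubgroup.relIndex_comap]
  intro h0
  refine h (AddSubgroup.relIndex_eq_zero_of_le_right ?_ h0)
  rintro _ ⟨x, hx, rfl⟩
  exact hS x hx

theorem FIn.trans' {S T T' : Set (PP R ι)} (h : FIn U S T) (h' : FIn U (S ∪ T) T') :
    FIn U S (T ∪ T') := by
  unfold FIn at h h' ⊢
  rw [grp_union] at h' ⊢
  have h1 := AddSubgroup.relIndex_inf_mul_relIndex (H := grp U T') (K := grp U T) (L := grp U S)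
  rw [inf_comm (grp U T) (grp U T'), ← h1]
  refine mul_ne_zero ?_ h
  rwa [inf_comm (grp U T) (grp U S)]

theorem FIn.union {S T : Set (PP R ι)} (h : FIn U S T) : FIn U S (S ∪ T) := by
  unfold FIn at h ⊢
  rw [grp_union, AddSubgroup.inf_relIndex_left]
  exact h

/-- the difference of two blocks -/
theorem exists_diff (ρ : PP R κ) {N : ℕ} (a b : Fin N) : ∃ φ : PP R (Fin N × κ),
    ∀ (M : Type) [AddCommGroup M] [MoS R M] (x : Fin N × κ → M),
      Sat φ M x ↔ Sat ρ M (fun i => x (a, i) - x (b, i)) := by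
  obtain ⟨φ, hφ⟩ := (isPP_sat ρ).subst (ι := Fin N × κ) (fun i : κ =>
    Finsupp.single (a, i) (1 : R) - Finsupp.single (b, i) 1)
  refine ⟨φ, fun M _ _ x => (hφ M x).symm.trans (iff_of_eq ?_)⟩
  show Sat ρ M (fun i => Finsupp.linearCombination R x
    (Finsupp.single (a, i) (1 : R) - Finsupp.single (b, i) 1)) = _
  congr 1
  funext i
  simp [map_sub]

theorem many_of_relIndex {G : Type} [AddCommGroup G] {K H : AddSubgroup G} (h : K.relIndex H = 0)
    (N : ℕ) : ∃ y : Fin N → G, (∀ a, y a ∈ H) ∧ ∀ a b, a ≠ b → y a - y b ∉ K := by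
  have h1 : Infinite (H ⧸ K.addSubgroupOf H) := AddSubgroup.index_eq_zero_iff_infinite.1 h
  obtain ⟨f⟩ : Nonempty (Fin N ↪ (H ⧸ K.addSubgroupOf H)) :=
    ⟨(Fin.valEmbedding).trans (Infinite.natEmbedding _)⟩
  choose y hy using fun a => QuotientAddGroup.mk_surjective (f a)
  refine ⟨fun a => y a, fun a => (y a).2, fun a b hab hK => hab (f.injective ?_)⟩
  rw [← hy a, ← hy b]
  symm
  rw [QuotientAddGroup.eq, AddSubgroup.mem_addSubgroupOf]
  show -(y b : G) + (y a : G) ∈ K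
  rwa [neg_add_eq_sub]

theorem relIndex_many {G : Type} [AddCommGroup G] {K H : AddSubgroup G} (h : K.relIndex H ≠ 0)
    (y : Fin (K.relIndex H + 1) → G) (hy : ∀ a, y a ∈ H) : ∃ a b, a ≠ b ∧ y a - y b ∈ K := by
  by_contra hn
  push Not at hn
  have h1 : Finite (H ⧸ K.addSubgroupOf H) := by
    have h2 : (K.addSubgroupOf H).index ≠ 0 := h
    by_contra h3
    rw [not_finite_iff_infinite] at h3
    exact h2 (AddSubgroup.index_eq_zero_iff_infinite.2 h3)
  have : Fintype (H ⧸ K.addSubgroupOf H) := Fintype.ofFinite _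
  have h2 : Function.Injective (fun a => (QuotientAddGroup.mk (⟨y a, hy a⟩ : H) :
      H ⧸ K.addSubgroupOf H)) := by
    intro a b hab
    by_contra hne
    refine hn a b hne ?_
    have h3 : (QuotientAddGroup.mk (⟨y b, hy b⟩ : H) : H ⧸ K.addSubgroupOf H) =
      QuotientAddGroup.mk ⟨y a, hy a⟩ := hab.symm
    rw [QuotientAddGroup.eq, AddSubgroup.mem_addSubgroupOf] at h3
    have h4 : -(y b) + y a ∈ K := h3
    rwa [neg_add_eq_sub] at h4
  have h3 := Fintype.card_le_of_injective _ h2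
  rw [Fintype.card_fin] at h3
  have h4 : K.relIndex H = Fintype.card (H ⧸ K.addSubgroupOf H) := by
    rw [← Nat.card_eq_fintype_card]
    rfl
  omega

/-- a formula which has infinite index in all later types of a chain has infinite index in the
limit -/
theorem limit_index [Finite κ] (hS : SATU R U) {J : ℕ → Type} (f : ∀ l, κ → J l)
    (q : ∀ l, Set (PP R (J l))) (G : Set (PP R κ)) (k : ℕ)
    (hq : ∀ l l', k ≤ l → l ≤ l' → ∀ x : J l' → U, Re (q l') U x →
      ∃ y : J l → U, Re (q l) U y ∧ y ∘ f l = x ∘ f l')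
    (hG : ∀ φ ∈ G, ∃ l, k ≤ l ∧ ∀ x : J l → U, Re (q l) U x → Sat φ U (x ∘ f l))
    (ρ : PP R κ) (hρ : FIn U G {ρ}) : ∃ l, k ≤ l ∧ FIn U (q l) (ren (f l) '' {ρ}) := by
  classical
  by_contra hn
  push Not at hn
  set N := (grp U ({ρ} : Set (PP R κ))).relIndex (grp U G) with hN
  have hbig : ∀ l, k ≤ l → ∀ m : ℕ, ∃ y : Fin m → κ → U,
      (∀ a, ∃ z : J l → U, Re (q l) U z ∧ y a = z ∘ f l) ∧
      ∀ a b, a ≠ b → ¬ Sat ρ U (y a - y b) := by
    intro l hl m
    have h1 := hn l hl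
    unfold FIn at h1
    rw [not_not] at h1
    obtain ⟨y, hy1, hy2⟩ := many_of_relIndex h1 m
    refine ⟨fun a => y a ∘ f l, fun a => ⟨y a, hy1 a, rfl⟩, fun a b hab hs => hy2 a b hab ?_⟩
    rintro _ ⟨φ, hφ, rfl⟩
    rw [mem_singleton_iff] at hφ
    subst hφ
    rw [sat_ren]
    exact hs
  choose d hd using fun p : Fin (N + 1) × Fin (N + 1) => exists_diff (R := R) ρ p.1 p.2
  obtain ⟨x, hx1, hx2⟩ := hS (Fin (N + 1) × κ)
    {φ | ∃ (a : Fin (N + 1)) (ψ : PP R κ), ψ ∈ G ∧ φ = ren (fun i => (a, i)) ψ}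
    {φ | ∃ a b : Fin (N + 1), a ≠ b ∧ φ = d (a, b)} (by
      intro s t hs ht
      choose! L hL1 hL2 using hG
      have hs' : ∀ φ ∈ s, ∃ (a : Fin (N + 1)) (ψ : PP R κ), ψ ∈ G ∧
        φ = ren (fun i => (a, i)) ψ := fun φ hφ => hs hφ
      choose! A Ψ hΨ1 hΨ2 using hs'
      let l := s.sup (fun φ => L (Ψ φ)) + k
      obtain ⟨y, hy1, hy2⟩ := hbig l (by omega) (N + 1)
      refine ⟨fun p => y p.1 p.2, fun φ hφ => ?_, fun ψ hψ => ?_⟩
      · rw [hΨ2 φ hφ, sat_ren]
        obtain ⟨z, hz1, hz2⟩ := hy1 (A φ)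
        have h1 : L (Ψ φ) ≤ l := (Finset.le_sup (f := fun φ => L (Ψ φ)) hφ).trans (by omega)
        obtain ⟨w, hw1, hw2⟩ := hq (L (Ψ φ)) l (hL1 _ (hΨ1 φ hφ)) h1 z hz1
        have h2 := hL2 (Ψ φ) (hΨ1 φ hφ) w hw1
        have h3 : ((fun p : Fin (N + 1) × κ => y p.1 p.2) ∘ fun i => (A φ, i)) = w ∘ f _ := by
          rw [hw2, ← hz2]
          rfl
        rw [h3]
        exact h2
      · obtain ⟨a, b, hab, rfl⟩ := ht hψ
        rw [hd]
        exact hy2 a b hab)
  obtain ⟨a, b, hab, h1⟩ := relIndex_many hρ (fun a i => x (a, i)) (fun a φ hφ => by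
    have h2 := hx1 _ ⟨a, φ, hφ, rfl⟩
    rw [sat_ren] at h2
    exact h2)
  refine hx2 _ ⟨a, b, hab, rfl⟩ ?_
  rw [hd]
  exact h1 ρ rfl

/-- 1.2: finite index shrinking to a connected chain -/
theorem shrink [Countable R] (hS : SATU R U) (J : ℕ → Type) [∀ k, Finite (J k)]
    (u : ∀ k l, k ≤ l → J k → J l) (hu0 : ∀ k (h : k ≤ k) (i : J k), u k k h i = i)
    (hu : ∀ k l m (h : k ≤ l) (h' : l ≤ m) (i : J k), u l m h' (u k l h i) = u k m (h.trans h') i)
    (p : ∀ k, Set (PP R (J k))) (hp : ∀ k l (h : k ≤ l), ren (u k l h) '' p k ⊆ p l) :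
    ∃ p' : ∀ k, Set (PP R (J k)), (∀ k, p k ⊆ p' k) ∧ (∀ k, (p' k \ p k).Finite) ∧
      (∀ k, FIn U (p k) (p' k)) ∧ (∀ k l (h : k ≤ l), ren (u k l h) '' p' k ⊆ p' l) ∧
      ∀ k, Conn U {ρ : PP R (J k) | ∃ (l : ℕ) (h : k ≤ l), ∀ x : J l → U, Re (p' l) U x →
        Sat ρ U (x ∘ u k l h)} := by
  classical
  have hc : Countable ((k : ℕ) × PP R (J k)) := inferInstance
  have hne : Nonempty ((k : ℕ) × PP R (J k)) := ⟨⟨0, []⟩⟩
  obtain ⟨e0, he0⟩ := exists_surjective_nat ((k : ℕ) × PP R (J k))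
  let e : ℕ → (k : ℕ) × PP R (J k) := fun i => e0 (Nat.unpair i).1
  have he : ∀ (a : (k : ℕ) × PP R (J k)) (N : ℕ), ∃ i, N ≤ i ∧ e i = a := by
    intro a N
    obtain ⟨j, hj⟩ := he0 a
    exact ⟨Nat.pair j N, Nat.right_le_pair j N, by simp only [e, Nat.unpair_pair, hj]⟩
  let T : ∀ k, Set (PP R (J k)) → Set (PP R (J (k + 1))) := fun k s =>
    {φ | ∃ h : (e k).1 ≤ k + 1, φ = ren (u _ _ h) (e k).2 ∧
      FIn U (p (k + 1)) (ren (u k (k + 1) (Nat.le_succ k)) '' s ∪ {φ})}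
  let s : ∀ k, Set (PP R (J k)) := fun k => Nat.rec ∅ (fun k s =>
    ren (u k (k + 1) (Nat.le_succ k)) '' s ∪ T k s) k
  have hs1 : ∀ k, s (k + 1) = ren (u k (k + 1) (Nat.le_succ k)) '' s k ∪ T k (s k) :=
    fun k => rfl
  have hT : ∀ k s, T k s = ∅ ∨ ∃ φ, T k s = {φ} ∧
      FIn U (p (k + 1)) (ren (u k (k + 1) (Nat.le_succ k)) '' s ∪ {φ}) := by
    intro k s
    rcases (T k s).eq_empty_or_nonempty with h | ⟨φ, hφ⟩
    · exact Or.inl h
    · refine Or.inr ⟨φ, ?_, hφ.choose_spec.2⟩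
      obtain ⟨h, rfl, h2⟩ := hφ
      ext ψ
      constructor
      · rintro ⟨h', rfl, -⟩
        rfl
      · intro hψ
        rw [mem_singleton_iff] at hψ
        subst hψ
        exact ⟨h, rfl, h2⟩
  have hpr : ∀ k l (h : k ≤ l) (x : J l → U), Re (p l) U x → Re (p k) U (x ∘ u k l h) := by
    intro k l h x hx φ hφ
    have h1 := hx _ (hp k l h ⟨φ, hφ, rfl⟩)
    rwa [sat_ren] at h1
  have hs2 : ∀ k, FIn U (p k) (s k) := by
    intro k
    induction k with
    | zero =>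
      show (grp U (∅ : Set (PP R (J 0)))).relIndex (grp U (p 0)) ≠ 0
      have h1 : grp U (∅ : Set (PP R (J 0))) = ⊤ := by
        ext x
        exact ⟨fun _ => trivial, fun _ φ hφ => absurd hφ (notMem_empty φ)⟩
      rw [h1, AddSubgroup.relIndex_top_left]
      exact one_ne_zero
    | succ k ih =>
      rw [hs1]
      rcases hT k (s k) with h | ⟨φ, h, h2⟩
      · rw [h, union_empty]
        exact ih.ren _ (hpr k (k + 1) (Nat.le_succ k))
      · rw [h]
        exact h2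
  have hs3 : ∀ k, (s k).Finite := by
    intro k
    induction k with
    | zero => exact finite_empty
    | succ k ih =>
      rw [hs1]
      refine (ih.image _).union ?_
      rcases hT k (s k) with h | ⟨φ, h, -⟩
      · rw [h]
        exact finite_empty
      · rw [h]
        exact finite_singleton φ
  have hrr : ∀ k l m (h : k ≤ l) (h' : l ≤ m) (φ : PP R (J k)),
      ren (u l m h') (ren (u k l h) φ) = ren (u k m (h.trans h')) φ := by
    intro k l m h h' φ
    unfold ren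
    rw [List.map_map]
    refine List.map_congr_left fun e _ => ?_
    rw [Function.comp_apply, amap_amap]
    congr 1
    funext i
    rcases i with i | i
    · show Sum.inl (u l m h' (u k l h i)) = _
      rw [hu]
      rfl
    · rfl
  have hr0 : ∀ k (h : k ≤ k) (φ : PP R (J k)), ren (u k k h) φ = φ := by
    intro k h φ
    unfold ren
    have h1 : Sum.map (u k k h) (id : ℕ → ℕ) = id := by
      funext i
      rcases i with i | i
      · show Sum.inl (u k k h i) = _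
        rw [hu0]
        rfl
      · rfl
    rw [h1]
    have h2 : (amap (id : J k ⊕ ℕ → J k ⊕ ℕ) : Atm R (J k ⊕ ℕ) → _) = id := by
      funext e
      exact amap_id e
    rw [h2, List.map_id]
  have hs4 : ∀ k l (h : k ≤ l), ren (u k l h) '' s k ⊆ s l := by
    intro k l h
    induction l, h using Nat.le_induction with
    | base =>
      rintro _ ⟨φ, hφ, rfl⟩
      rw [hr0]
      exact hφ
    | succ l h ih =>
      rintro _ ⟨φ, hφ, rfl⟩
      rw [← hrr k l (l + 1) h (Nat.le_succ l), hs1]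
      exact Or.inl ⟨_, ih ⟨φ, hφ, rfl⟩, rfl⟩
  have hp'1 : ∀ k l (h : k ≤ l), ren (u k l h) '' (p k ∪ s k) ⊆ p l ∪ s l := by
    intro k l h
    rw [image_union]
    exact union_subset_union (hp k l h) (hs4 k l h)
  have hpr' : ∀ k l (h : k ≤ l) (x : J l → U), Re (p l ∪ s l) U x →
      Re (p k ∪ s k) U (x ∘ u k l h) := by
    intro k l h x hx φ hφ
    have h1 := hx _ (hp'1 k l h ⟨φ, hφ, rfl⟩)
    rwa [sat_ren] at h1
  refine ⟨fun k => p k ∪ s k, fun k => subset_union_left, fun k => (hs3 k).subset ?_,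
    fun k => (hs2 k).union, hp'1, fun k ρ hρ x hx => hx ρ ?_⟩
  · rintro φ ⟨h1 | h1, h2⟩
    · exact absurd h1 h2
    · exact h1
  obtain ⟨l, -, hl⟩ := limit_index (κ := J k) hS (J := fun l => J (k + l))
    (fun l => u k (k + l) (Nat.le_add_right k l)) (fun l => p (k + l) ∪ s (k + l))
    {ρ : PP R (J k) | ∃ (l : ℕ) (h : k ≤ l), ∀ x : J l → U, Re (p l ∪ s l) U x →
        Sat ρ U (x ∘ u k l h)} 0 (by
      intro l l' _ hll x hx
      refine ⟨x ∘ u (k + l) (k + l') (by omega), hpr' _ _ _ x hx, ?_⟩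
      funext i
      show x (u _ _ _ (u _ _ _ i)) = x (u _ _ _ i)
      rw [hu]) (by
      rintro φ ⟨l, h, hl⟩
      refine ⟨l - k, Nat.zero_le _, fun x hx => ?_⟩
      have h1 : ∀ (m : ℕ) (hm : l ≤ m) (h' : k ≤ m) (x : J m → U), Re (p m ∪ s m) U x →
          Sat φ U (x ∘ u k m h') := by
        intro m hm h' x hx
        have h2 := hl _ (hpr' l m hm x hx)
        have h3 : (x ∘ u l m hm) ∘ u k l h = x ∘ u k m h' := by
          funext i
          show x (u _ _ _ (u _ _ _ i)) = x (u _ _ _ i)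
          rw [hu]
        rwa [h3] at h2
      exact h1 (k + (l - k)) (by omega) _ x hx) ρ hρ
  obtain ⟨i, hi, hei⟩ := he ⟨k, ρ⟩ (k + l)
  have hki : k ≤ i + 1 := by omega
  have h1 : ren (u k (i + 1) hki) ρ ∈ T i (s i) := by
    show ∃ h : (e i).1 ≤ i + 1, ren (u k (i + 1) hki) ρ = ren (u _ _ h) (e i).2 ∧
      FIn U (p (i + 1)) (ren (u i (i + 1) (Nat.le_succ i)) '' s i ∪
        {ren (u k (i + 1) hki) ρ})
    rw [hei]
    refine ⟨hki, rfl, FIn.trans' ((hs2 i).ren _ (hpr i (i + 1) (Nat.le_succ i))) ?_⟩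
    have h2 := hl.ren (u (k + l) (i + 1) (by omega)) (S' := p (i + 1) ∪
      ren (u i (i + 1) (Nat.le_succ i)) '' s i) (by
        intro x hx φ hφ
        rcases hφ with hφ | hφ
        · exact hpr (k + l) (i + 1) (by omega) x (fun ψ hψ => hx ψ (Or.inl hψ)) φ hφ
        · have h3 := hx _ (Or.inr ⟨_, hs4 (k + l) i hi ⟨φ, hφ, rfl⟩, rfl⟩)
          rw [hrr, sat_ren] at h3
          exact h3)
    rw [image_singleton, image_singleton, hrr] at h2
    exact h2
  refine ⟨i + 1, hki, fun x hx => ?_⟩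
  have h2 := hx _ (Or.inr (by rw [hs1]; exact Or.inr h1))
  rwa [sat_ren] at h2

end

end Pool.Agent.AVF
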