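import Pool.Agent.AVF.StC
import Pool.Agent.AVF.SHR
import Pool.Agent.AVF.HNX
import Pool.Agent.AVF.NFC
import Pool.Agent.AVC.EXT
import Pool.Agent.AVC.HEX
import Pool.Agent.AVC.NULM

/-!
# AVF: the descending chain condition for maps between honest modules of full types (3.3)
-/

set_option autoImplicit false
set_option linter.unusedSectionVars false
set_option linter.unusedVariables false

namespace Pool.Agent.AVF

open Set Pool.Agent.AVC Pool.Agent.AVC.Ax

/-- recursive choice of a sequence with prescribed initial segment -/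
private theorem DCT_seq {M : Type} [Nonempty M] (P : ℕ → (ℕ → M) → Prop)
    (hloc : ∀ n w w', (∀ i < n, w i = w' i) → P n w → P n w') (w₀ : ℕ → M)
    (h0 : P 0 w₀) (hs : ∀ n w, P n w → ∃ v, P (n + 1) (Function.update w n v)) :
    ∃ W : ℕ → M, ∀ n, P n W := by
  choose! v hv using hs
  let q : ℕ → ℕ → M := fun m => Nat.rec w₀ (fun m w => Function.update w m (v m w)) m
  have q0 : q 0 = w₀ := rfl
  have qs : ∀ m, q (m + 1) = Function.update (q m) m (v m (q m)) := fun m => rfl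
  have hP : ∀ m, P m (q m) := by
    intro m
    induction m with
    | zero => exact h0
    | succ m ih =>
      rw [qs]
      exact hv m (q m) ih
  have hq : ∀ m l i, i < m → q (m + l) i = q m i := by
    intro m l
    induction l with
    | zero => intro i _; rfl
    | succ l ih =>
      intro i hi
      rw [← ih i hi, ← add_assoc, qs, Function.update_of_ne (by omega)]
  refine ⟨fun i => q (i + 1) i, fun n => ?_⟩
  refine hloc _ _ _ (fun i hi => ?_) (hP n)
  show q n i = q (i + 1) i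
  have h2 := hq (i + 1) (n - (i + 1)) i (by omega)
  rw [← h2]
  congr 1
  omega

/-- extension of maps from affine structures which are generated by a tuple -/
theorem exists_hm_of_gen {R : Type} [RSig R] (X : Ax R) {κ : Type} (S : Set (PP R κ))
    (N : Type) [AddCommGroup N] [AfS R N] [Countable N] (g : κ → N)
    (h0 : ∀ ψ : PP R κ, ASat ψ N g → ψ ∈ S)
    (hgen : ∀ (k : ℕ) (b : Fin k → N), ∃ θ : PP R (κ ⊕ Fin k), ASat θ N (Sum.elim g b) ∧
      ∀ ψ : PP R (κ ⊕ Fin k), ASat ψ N (Sum.elim g b) → ∃ s : Finset (PP R κ), ↑s ⊆ S ∧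
        ∀ (M : Type) [AddCommGroup M] [MoS R M], X.In M → ∀ (x : κ → M) (y : Fin k → M),
          (∀ φ ∈ s, Sat φ M x) → Sat θ M (Sum.elim x y) → Sat ψ M (Sum.elim x y))
    (M : Md R) (hM : X.In M) (a : κ → M) (ha : Re S M a) :
    ∃ f : Hm R N M, ∀ i, f (g i) = a i := by
  obtain ⟨z, hzs⟩ := exists_surjective_nat N
  let G : ∀ n : ℕ, PP R (κ ⊕ Fin n) → Prop := fun n θ =>
    ASat θ N (Sum.elim g (fun i : Fin n => z i)) ∧ ∀ ψ : PP R (κ ⊕ Fin n),
      ASat ψ N (Sum.elim g (fun i : Fin n => z i)) → ∃ s : Finset (PP R κ), ↑s ⊆ S ∧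
        ∀ (M : Type) [AddCommGroup M] [MoS R M], X.In M → ∀ (x : κ → M) (y : Fin n → M),
          (∀ φ ∈ s, Sat φ M x) → Sat θ M (Sum.elim x y) → Sat ψ M (Sum.elim x y)
  let P : ℕ → (ℕ → M) → Prop := fun n w => ∃ θ : PP R (κ ⊕ Fin n),
    G n θ ∧ Sat θ M (Sum.elim a (fun i : Fin n => w i))
  obtain ⟨W, hW⟩ := DCT_seq P
    (by
      rintro n w w' h ⟨θ, h1, h2⟩
      refine ⟨θ, h1, ?_⟩
      have h3 : (fun i : Fin n => w' i) = fun i : Fin n => w i := funext fun i => (h i i.2).symm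
      rw [h3]
      exact h2) (fun _ => 0)
    (by
      obtain ⟨θ, h1, h2⟩ := hgen 0 (fun i : Fin 0 => z i)
      refine ⟨θ, ⟨h1, h2⟩, ?_⟩
      obtain ⟨ψ, hψ1, hψ2⟩ := (isAP_sat θ).comap (Sum.elim id Fin.elim0 : κ ⊕ Fin 0 → κ)
      have h4 : ∀ (K : Type) (x : κ → K) (y : Fin 0 → K),
          x ∘ (Sum.elim id Fin.elim0 : κ ⊕ Fin 0 → κ) = Sum.elim x y := by
        intro K x y
        funext i
        rcases i with i | i
        · rfl
        · exact i.elim0
      have h5 : ASat ψ N g := by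
        refine (hψ1 N g).1 ?_
        show ASat θ N (g ∘ (Sum.elim id Fin.elim0 : κ ⊕ Fin 0 → κ))
        rw [h4 N g (fun i : Fin 0 => z i)]
        exact h1
      have h6 : Sat θ M (a ∘ (Sum.elim id Fin.elim0 : κ ⊕ Fin 0 → κ)) :=
        (hψ2 M a).2 (ha ψ (h0 ψ h5))
      rw [h4 M a (fun i : Fin 0 => (0 : M))] at h6
      exact h6)
    (by
      rintro n w ⟨θ₁, h1, h2⟩
      obtain ⟨θ', h3, h4⟩ := hgen (n + 1) (fun i : Fin (n + 1) => z i)
      let r : κ ⊕ Fin (n + 1) → (κ ⊕ Fin n) ⊕ Unit :=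
        Sum.elim (fun i => Sum.inl (Sum.inl i))
          (fun j => if h : (j : ℕ) < n then Sum.inl (Sum.inr ⟨j, h⟩) else Sum.inr ())
      have hr : ∀ (K : Type) (x : κ → K) (u : ℕ → K) (y : Unit → K),
          Sum.elim (Sum.elim x (fun i : Fin n => u i)) y ∘ r =
            Sum.elim x (fun i : Fin (n + 1) => Function.update u n (y ()) i) := by
        intro K x u y
        funext i
        rcases i with i | j
        · rfl
        · by_cases h : (j : ℕ) < n
          · simp only [r, Function.comp, Sum.elim_inr, dif_pos h, Sum.elim_inl]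
            rw [Function.update_of_ne (by omega)]
          · have hj : (j : ℕ) = n := by omega
            simp only [r, Function.comp, Sum.elim_inr, dif_neg h]
            rw [hj, Function.update_self]
      obtain ⟨ψ, hψ1, hψ2⟩ := ((isAP_sat θ').comap r).ex
      have h5 : ASat ψ N (Sum.elim g (fun i : Fin n => z i)) := by
        refine (hψ1 N _).1 ⟨fun _ => z n, ?_⟩
        rw [hr, Function.update_eq_self]
        exact h3
      obtain ⟨s, hs1, hs2⟩ := h1.2 ψ h5
      obtain ⟨y, hy⟩ := (hψ2 M _).2 (hs2 M hM a (fun i : Fin n => w i)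
        (fun φ hφ => ha φ (hs1 hφ)) h2)
      rw [hr] at hy
      exact ⟨y (), θ', ⟨h3, h4⟩, hy⟩)
  -- linear relations are preserved
  have key : ∀ (r₁ r₂ : R) (p q s : κ ⊕ ℕ),
      r₁ • Sum.elim g z p + r₂ • Sum.elim g z q = Sum.elim g z s →
      r₁ • Sum.elim a W p + r₂ • Sum.elim a W q = Sum.elim a W s := by
    intro r₁ r₂ p q s h
    let ix : κ ⊕ ℕ → ℕ := Sum.elim (fun _ => 0) id
    obtain ⟨n, hn⟩ : ∃ n, n = ix p + ix q + ix s + 1 := ⟨_, rfl⟩
    have hn0 : 0 < n := by omega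
    let lf : κ ⊕ ℕ → κ ⊕ Fin n :=
      Sum.map id (fun j => if h : j < n then ⟨j, h⟩ else ⟨0, hn0⟩)
    have hlf : ∀ (K : Type) (x : κ → K) (u : ℕ → K) (t : κ ⊕ ℕ), ix t < n →
        Sum.elim x (fun i : Fin n => u i) (lf t) = Sum.elim x u t := by
      intro K x u t ht
      rcases t with i | j
      · rfl
      · have hj : j < n := ht
        simp [lf, hj]
    have hlc : ∀ (K : Type) [AddCommGroup K] [Module R K] (x : κ → K) (u : ℕ → K),
        Finsupp.linearCombination R (Sum.elim x (fun i : Fin n => u i))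
          (Finsupp.single (lf p) r₁ + Finsupp.single (lf q) r₂ - Finsupp.single (lf s) 1) = 0 ↔
          r₁ • Sum.elim x u p + r₂ • Sum.elim x u q = Sum.elim x u s := by
      intro K _ _ x u
      rw [map_sub, map_add, Finsupp.linearCombination_single,
        Finsupp.linearCombination_single, Finsupp.linearCombination_single, one_smul,
        hlf K x u p (by omega), hlf K x u q (by omega), hlf K x u s (by omega), sub_eq_zero]
    obtain ⟨ψ, hψ1, hψ2⟩ := isAP_lin (R := R)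
      (Finsupp.single (lf p) r₁ + Finsupp.single (lf q) r₂ - Finsupp.single (lf s) 1)
    obtain ⟨θ', h1, h2⟩ := hW n
    have h3 : ASat ψ N (Sum.elim g (fun i : Fin n => z i)) := (hψ1 N _).1 ((hlc N g z).2 h)
    obtain ⟨s', hs1, hs2⟩ := h1.2 ψ h3
    exact (hlc M a W).1 ((hψ2 M _).2 (hs2 M hM a _ (fun φ hφ => ha φ (hs1 hφ)) h2))
  -- predicates are preserved
  have keyP : ∀ (i : RSig.Ix R) (p : Fin (RSig.ar i) → ℕ),
      (fun j => z (p j)) ∈ MoS.P (R := R) (M := N) i →
        (fun j => W (p j)) ∈ MoS.P (R := R) (M := M) i := by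
    intro i p h
    obtain ⟨n, hn⟩ : ∃ n, n = Finset.univ.sup p + 1 := ⟨_, rfl⟩
    have hpn : ∀ j, p j < n := fun j => by
      have := Finset.le_sup (f := p) (Finset.mem_univ j)
      omega
    have hlc : ∀ (K : Type) [AddCommGroup K] [Module R K] (x : κ → K) (u : ℕ → K),
        (fun j => Finsupp.linearCombination R (Sum.elim x fun i : Fin n => u i)
          (Finsupp.single (Sum.inr ⟨p j, hpn j⟩) (1 : R))) = fun j => u (p j) := by
      intro K _ _ x u
      funext j
      rw [Finsupp.linearCombination_single, one_smul]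
      rfl
    obtain ⟨ψ, hψ1, hψ2⟩ := isAP_hold (R := R) (ι := κ ⊕ Fin n)
      (Sum.inr ⟨i, false, fun j => Finsupp.single (Sum.inr ⟨p j, hpn j⟩) 1⟩)
    obtain ⟨θ', h1, h2⟩ := hW n
    have h3 : ASat ψ N (Sum.elim g (fun i : Fin n => z i)) := by
      refine (hψ1 N _).1 ?_
      show (fun j => Finsupp.linearCombination R (Sum.elim g fun i : Fin n => z i)
          (Finsupp.single (Sum.inr ⟨p j, hpn j⟩) (1 : R))) ∈ MoS.P (R := R) (M := N) i
      rw [hlc]
      exact h
    obtain ⟨s', hs1, hs2⟩ := h1.2 ψ h3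
    have h4 := (hψ2 M _).2 (hs2 M hM a _ (fun φ hφ => ha φ (hs1 hφ)) h2)
    have h5 : (fun j => Finsupp.linearCombination R (Sum.elim a fun i : Fin n => W i)
          (Finsupp.single (Sum.inr ⟨p j, hpn j⟩) (1 : R))) ∈ MoS.P (R := R) (M := M) i := h4
    rw [hlc] at h5
    exact h5
  choose ix hix using hzs
  have hwd : ∀ j, W (ix (z j)) = W j := by
    intro j
    have := key 1 0 (Sum.inr j) (Sum.inr j) (Sum.inr (ix (z j))) (by simp [hix])
    simpa using this.symm
  refine ⟨⟨{ toFun := fun x => W (ix x), map_add' := fun x y => ?_, map_smul' := fun r x => ?_ },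
    fun i x h => ?_⟩, fun i => ?_⟩
  · have := key 1 1 (Sum.inr (ix x)) (Sum.inr (ix y)) (Sum.inr (ix (x + y))) (by simp [hix])
    simpa using this.symm
  · have := key r 0 (Sum.inr (ix x)) (Sum.inr (ix x)) (Sum.inr (ix (r • x))) (by simp [hix])
    simpa using this.symm
  · refine keyP i (fun j => ix (x j)) ?_
    have h1 : (fun j => z (ix (x j))) = x := funext fun j => hix (x j)
    rw [h1]
    exact h
  · have := key 1 0 (Sum.inr (ix (g i))) (Sum.inr (ix (g i))) (Sum.inl i) (by simp [hix])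
    show W (ix (g i)) = a i
    simpa using this

/-- countable saturation, homogeneous reading -/
private theorem DCT_satu {R : Type} [RSig R] {U : Ad R} (hU : TB U) : SATU R U := by
  classical
  intro ι _ A B hf
  have key : ∀ (φ : PP R ι) (x : ι → U),
      ASat (hom (ren Sum.inr φ) : PP R (Empty ⊕ ι)) U (Sum.elim (fun i => i.elim) x) ↔
        Sat φ U x := by
    intro φ x
    rw [asat_hom, sat_ren]
    exact Iff.rfl
  obtain ⟨c, h1, h2⟩ := hU.sat Empty ι (fun i => i.elim) ((fun φ => hom (ren Sum.inr φ)) '' A)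
    ((fun φ => hom (ren Sum.inr φ)) '' B) (by
      intro s t hs ht
      choose! f hf1 hf2 using fun ψ (hψ : ψ ∈ s) => hs hψ
      choose! g hg1 hg2 using fun ψ (hψ : ψ ∈ t) => ht hψ
      obtain ⟨c, hc1, hc2⟩ := hf (s.image f) (t.image g) (by
        intro φ hφ
        obtain ⟨ψ, hψ, rfl⟩ := Finset.mem_image.1 (Finset.mem_coe.1 hφ)
        exact hf1 ψ hψ) (by
        intro φ hφ
        obtain ⟨ψ, hψ, rfl⟩ := Finset.mem_image.1 (Finset.mem_coe.1 hφ)
        exact hg1 ψ hψ)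
      refine ⟨c, fun ψ hψ => ?_, fun ψ hψ => ?_⟩
      · rw [← hf2 ψ hψ]
        exact (key _ _).2 (hc1 _ (Finset.mem_image_of_mem f hψ))
      · rw [← hg2 ψ hψ]
        exact fun h => hc2 _ (Finset.mem_image_of_mem g hψ) ((key _ _).1 h))
  exact ⟨c, fun φ hφ => (key φ c).1 (h1 _ (mem_image_of_mem _ hφ)),
    fun ψ hψ h => h2 _ (mem_image_of_mem _ hψ) ((key ψ c).2 h)⟩

/-- DCT. -/
theorem thm_DCT (hH : St_DCH) (hD : St_DCF) : St_DCT := by
  classical
  intro R _ _ U hU hQB hF n S N g a m T Q q hS hN hT hq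
  -- the normal form, with generators indexed by `Fin`
  obtain ⟨g', -, hg2, hg3⟩ := thm_NFC thm_HNX R (Own R U) n S N g a hN
  choose n' e using fun k => Finite.exists_equiv_fin (Jk n k)
  let e' : ∀ k, Jk n k ≃ Fin (n' k) := fun k => (e k).some
  let G : ∀ k, Fin (n' k) → N k := fun k i => g' k ((e' k).symm i)
  let u : ∀ k l : ℕ, k ≤ l → Fin (n' k) → Fin (n' l) := fun k l h i =>
    e' l (uJ n k l h ((e' k).symm i))
  have hu0 : ∀ k (h : k ≤ k) i, u k k h i = i := by
    intro k h i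
    show e' k (uJ n k k h ((e' k).symm i)) = i
    have h1 : uJ n k k h ((e' k).symm i) = (e' k).symm i := rfl
    rw [h1, Equiv.apply_symm_apply]
  have hu : ∀ k l m (h : k ≤ l) (h' : l ≤ m) i, u l m h' (u k l h i) = u k m (h.trans h') i := by
    intro k l m h h' i
    show e' m (uJ n l m h' ((e' l).symm (e' l (uJ n k l h ((e' k).symm i))))) = _
    rw [Equiv.symm_apply_apply]
    rfl
  have haG : ∀ k i, a k (G k i) = G (k + 1) (u k (k + 1) (Nat.le_succ k) i) := by
    intro k i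
    show a k (g' k ((e' k).symm i)) = g' (k + 1) ((e' (k + 1)).symm (e' (k + 1) _))
    rw [hg2, Equiv.symm_apply_apply]
  have hGh : ∀ k, (Own R U).Honest (pp (R := R) (N k) (G k)) (N k) (G k) := fun k =>
    thm_HNX R (Own R U) (Jk n k) (Fin (n' k)) (pp (R := R) (N k) (g' k)) (N k) (g' k) (G k) (e' k)
      (fun i => by
        show g' k ((e' k).symm (e' k i)) = g' k i
        rw [Equiv.symm_apply_apply]) (hg3 k)
  let p : ∀ k, Set (PP R (Fin (n' k))) := fun k => pp (R := R) (N k) (G k)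
  have hpF : ∀ k, Full (R := R) U (p k) := fun k =>
    hQB.rff (Fin (n k)) (Fin (n' k)) (S k) (p k) (N k) (N k) (g k) (G k) (hS k) (hN k) (hGh k)
      ⟨Hm.id, Hm.id, Eqv.refl _⟩
  have hmono : ∀ k l (h : k ≤ l) (φ : PP R (Fin (n' k))), Sat φ (N k) (G k) →
      Sat φ (N l) (G l ∘ u k l h) := by
    intro k l h φ hφ
    induction l, h using Nat.le_induction with
    | base =>
      have h1 : G k ∘ u k k le_rfl = G k := by
        funext i
        show G k (u k k le_rfl i) = G k i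
        rw [hu0]
      rw [h1]
      exact hφ
    | succ l hl ih =>
      have h1 := ih.map (a l)
      have h2 : (a l : N l → N (l + 1)) ∘ (G l ∘ u k l hl) =
          G (l + 1) ∘ u k (l + 1) (hl.trans (Nat.le_succ l)) := by
        funext i
        show a l (G l (u k l hl i)) = G (l + 1) (u k (l + 1) _ i)
        rw [haG, hu]
      rw [h2] at h1
      exact h1
  have hp : ∀ k l (h : k ≤ l), ren (u k l h) '' p k ⊆ p l := by
    rintro k l h _ ⟨φ, hφ, rfl⟩
    show Sat (ren (u k l h) φ) (N l) (G l)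
    rw [sat_ren]
    exact hmono k l h φ hφ
  -- the connected chain
  obtain ⟨p', hp1, -, hp3, hp4, hp5⟩ := shrink (DCT_satu hU) (fun k => Fin (n' k)) u hu0 hu p hp
  choose Y y hY using fun k => thm_HEX R (Own R U) (Fin (n' k)) (p' k)
  choose r hr using fun k => thm_EX0 R (Own R U) (Fin (n' k)) (p k) (N k) (Y k) (G k) (y k)
    (hGh k) (hY k).mem (fun φ hφ => (hY k).sat φ (hp1 k hφ))
  choose s hs1 hs2 using fun k => hQB.qis (Fin (n' k)) (p k) (p' k) (N k) (Y k) (G k) (y k)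
    (hpF k) (hp3 k) (fun x hx φ hφ => hx φ (hp1 k hφ)) (hGh k) (hY k) (r k) (hr k)
  choose b hb using fun k => thm_EX0 R (Own R U) (Fin (n' k)) (p' k) (Y k) (Y (k + 1)) (y k)
    (fun i => y (k + 1) (u k (k + 1) (Nat.le_succ k) i)) (hY k) (hY (k + 1)).mem
    (fun φ hφ => by
      have h1 := (hY (k + 1)).sat _ (hp4 k (k + 1) (Nat.le_succ k) ⟨φ, hφ, rfl⟩)
      rw [sat_ren] at h1
      exact h1)
  -- the squares commute
  have hsq : ∀ k, (Own R U).Eqv (Hm.comp (b k) (r k)) (Hm.comp (r (k + 1)) (a k)) := by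
    intro k
    refine thm_NUZ R (Own R U) (Fin (n' k)) (p k) (N k) (Y (k + 1)) (G k) _ (hGh k) fun i => ?_
    show b k (r k (G k i)) - r (k + 1) (a k (G k i)) = 0
    rw [hr, hb, haG, hr, sub_self]
  have hcmp : ∀ j, (Own R U).Eqv (Hm.comp (cmp b j) (r 0)) (Hm.comp (r j) (cmp a j)) := by
    intro j
    induction j with
    | zero => exact Eqv.refl _
    | succ j ih =>
      have h1 : (Own R U).Eqv (Hm.comp (b j) (Hm.comp (cmp b j) (r 0)))
          (Hm.comp (b j) (Hm.comp (r j) (cmp a j))) := Eqv.comp ih (Eqv.refl _)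
      have h2 : (Own R U).Eqv (Hm.comp (Hm.comp (b j) (r j)) (cmp a j))
          (Hm.comp (Hm.comp (r (j + 1)) (a j)) (cmp a j)) := Eqv.comp (Eqv.refl _) (hsq j)
      exact Eqv.trans h1 h2
  -- the target
  obtain ⟨z, hz1, hz2⟩ := hU.gen4 Empty (Fin m) (fun i => i.elim) 0 T
  rw [sub_zero] at hz1
  have hz3 : FIn U T (app (R := R) U z) := by
    refine hz2.of_le ?_
    intro x hx ψ hψ
    have h1 : zer (ren Sum.inr ψ : PP R (Empty ⊕ Fin m)) ∈
        afib (R := R) U (fun i : Empty => i.elim) z := by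
      refine ⟨ren Sum.inr ψ, ?_, rfl⟩
      show ASat (ren Sum.inr ψ) U _
      rw [asat_ren]
      exact hψ
    have h2 := hx _ h1
    rw [sat_zer, sat_ren] at h2
    exact h2
  have hz4 : ∀ x : Fin m → U, Re (app (R := R) U z) U x → Re T U x := by
    intro x hx φ hφ
    exact (sat_hom φ U x).1 (hx (hom φ) ((asat_hom φ z).2 (hz1 φ hφ)))
  obtain ⟨M, b', hM, hb', hgen⟩ := hU.prb (Fin m) z
  have hctU : Countable U := hU.ctbl
  have hbz : (fun i => (b' i : U)) = z := funext hb'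
  have hMin : (Own R U).In M := hU.mem ⟨M⟩ (hU.elk M hM)
  have happ : ∀ ψ : PP R (Fin m), ASat ψ M b' → ψ ∈ app (R := R) U z := by
    intro ψ hψ
    have h1 := (hU.pur M hM (Fin m) ψ b').1 hψ
    rw [hbz] at h1
    exact h1
  obtain ⟨α, hα⟩ := thm_EX0 R (Own R U) (Fin m) T Q ⟨M⟩ q b' hq hMin
    (fun φ hφ => by
      refine (asat_hom φ b').1 ((hU.pur M hM (Fin m) (hom φ) b').2 ?_)
      rw [hbz, asat_hom]
      exact hz1 φ hφ)
  obtain ⟨Q2, q2, hQ2⟩ := thm_HEX R (Own R U) (Fin m) (app (R := R) U z)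
  obtain ⟨γ, hγ⟩ := exists_hm_of_gen (Own R U) (app (R := R) U z) M b' happ
    (fun k t => by
      obtain ⟨θ, h1, h2⟩ := hgen (Fin k) t
      refine ⟨θ, h1, fun ψ hψ => ?_⟩
      obtain ⟨s, hs, -, h3⟩ := h2 ψ hψ
      exact ⟨s, hs, h3⟩) Q2 hQ2.mem q2 hQ2.sat
  obtain ⟨β, hβ, -⟩ := hQB.qis (Fin m) T (app (R := R) U z) Q Q2 q q2 hT hz3 hz4 hq hQ2
    (Hm.comp γ α) (fun i => by
      show γ (α (q i)) = q2 i
      rw [hα, hγ])
  -- the chain condition for the connected chain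
  obtain ⟨j₀, hj₀⟩ := hD R (Own R U) n' p' Y y b m ⟨M⟩ b' hY hMin
    (inferInstanceAs (Countable M))
    (fun k t => by
      obtain ⟨θ, h1, h2⟩ := hgen (Fin k) t
      refine ⟨θ, h1, fun ψ hψ K _ _ hK x hx => ?_⟩
      obtain ⟨s, hs, -, h3⟩ := h2 (hom (ren Sum.inr ψ)) (by
        rw [asat_hom, sat_ren]
        exact hψ)
      have h4 := h3 K hK 0 x (fun φ _ => Sat.zero φ) ((sat_zer θ x).1 hx)
      rw [sat_hom, sat_ren] at h4
      exact h4)
    (fun c c0 => hH R U hU hF n' u p' Y y b hu0 hu hY hb hp5 m M b' hM c c0)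
  refine ⟨j₀, fun j hj c => ?_⟩
  obtain ⟨c', hc'⟩ := hj₀ j hj (Hm.comp α (Hm.comp c (s j)))
  refine ⟨Hm.comp (Hm.comp β γ) (Hm.comp c' (r (j + 1))), ?_⟩
  have h1 : (Own R U).Eqv (Hm.comp c (cmp a j))
      (Hm.comp (Hm.comp (Hm.comp β γ) α) (Hm.comp c (Hm.comp (Hm.comp (s j) (r j)) (cmp a j)))) := by
    have h2 : (Own R U).Eqv (Hm.comp c (cmp a j))
        (Hm.comp (Hm.comp (Hm.comp β γ) α) (Hm.comp c (cmp a j))) := by
      have h3 := Eqv.comp (Eqv.refl (X := Own R U) (Hm.comp c (cmp a j))) (Eqv.symm hβ)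
      exact h3
    refine Eqv.trans h2 ?_
    refine Eqv.comp ?_ (Eqv.refl _)
    refine Eqv.comp ?_ (Eqv.refl _)
    have h3 := Eqv.comp (Eqv.refl (X := Own R U) (cmp a j)) (Eqv.symm (hs1 j))
    exact h3
  have h4 : (Own R U).Eqv (Hm.comp (Hm.comp β γ) (Hm.comp (Hm.comp α (Hm.comp c (s j)))
        (Hm.comp (r j) (cmp a j))))
      (Hm.comp (Hm.comp β γ) (Hm.comp (Hm.comp α (Hm.comp c (s j)))
        (Hm.comp (cmp b j) (r 0)))) :=
    Eqv.comp (Eqv.comp (Eqv.symm (hcmp j)) (Eqv.refl _)) (Eqv.refl _)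
  have h5 : (Own R U).Eqv (Hm.comp (Hm.comp β γ) (Hm.comp (Hm.comp
        (Hm.comp α (Hm.comp c (s j))) (cmp b j)) (r 0)))
      (Hm.comp (Hm.comp β γ) (Hm.comp (Hm.comp c' (cmp b (j + 1))) (r 0))) :=
    Eqv.comp (Eqv.comp (Eqv.refl _) hc') (Eqv.refl _)
  have h6 : (Own R U).Eqv (Hm.comp (Hm.comp β γ) (Hm.comp c' (Hm.comp (cmp b (j + 1)) (r 0))))
      (Hm.comp (Hm.comp β γ) (Hm.comp c' (Hm.comp (r (j + 1)) (cmp a (j + 1))))) :=
    Eqv.comp (Eqv.comp (hcmp (j + 1)) (Eqv.refl _)) (Eqv.refl _)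
  exact Eqv.trans h1 (Eqv.trans h4 (Eqv.trans h5 h6))

/-- DQT. -/
theorem thm_DQT (h : St_DCT) : St_DQT := by
  intro R _ _ U hU hQ hF C hC f
  choose a ha using fun i => qm_surjective (X := Own R U) (N := C.N) (f i)
  let w : ℕ → Hm R C.N C.N := fun j => cmp (G := fun _ => C.N) a j
  have key : ∀ j, prs f j = qm (Own R U) C.N (w j) := by
    intro j
    induction j with
    | zero => exact (map_one (qm (Own R U) C.N)).symm
    | succ j ih =>
      have h1 : w (j + 1) = a j * w j := rfl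
      rw [h1, map_mul, ha, ← ih]
      rfl
  obtain ⟨j₀, hj⟩ := h R U hU hQ hF (fun _ => C.n) (fun _ => C.S) (fun _ => C.N) (fun _ => C.g)
    a C.n C.S C.N C.g (fun _ => hC) (fun _ => C.hon) hC C.hon
  obtain ⟨c', hc'⟩ : ∃ c' : Hm R C.N C.N, (Own R U).Eqv (w j₀) (c' * w (j₀ + 1)) :=
    hj j₀ le_rfl Hm.id
  refine ⟨j₀, qm (Own R U) C.N c', ?_⟩
  rw [key, key, ← map_mul]
  exact qm_eq.2 hc'

end Pool.Agent.AVF
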