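import Pool.Agent.AVF.StC
import Pool.Agent.AVC.EXT
import Pool.Agent.AVC.HEX

/-!
# AVF, block C: finite type for full honest modules (FNT; helper58, after VMF/FNT)
-/

set_option autoImplicit false
set_option linter.unusedSectionVars false
set_option linter.unusedVariables false

namespace Pool.Agent.AVF

open Set Pool.Agent.AVC Pool.Agent.AVC.Ax

/-- retracts of retracts -/
private theorem FNT_trans {R : Type} [RSig R] {X : Ax R} {M N K : Type} [AddCommGroup M] [MoS R M]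
    [AddCommGroup N] [MoS R N] [AddCommGroup K] [MoS R K] (h : X.Retr M N)
    (h' : X.Retr N K) : X.Retr M K := by
  obtain ⟨a, b, h1⟩ := h
  obtain ⟨c, d, h2⟩ := h'
  refine ⟨Hm.comp c a, Hm.comp b d, ?_⟩
  have h3 : X.Eqv (Hm.comp b (Hm.comp (Hm.comp d c) a)) (Hm.comp b (Hm.comp Hm.id a)) :=
    Eqv.comp (Eqv.comp (Eqv.refl a) h2) (Eqv.refl b)
  exact Eqv.trans h3 h1

/-- the direction of the affine type of `z` over `c` is contained in the direction of the affine type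
of `z` -/
private theorem FNT_fib {R : Type} [RSig R] {κ ι : Type} (U : Type) [AddCommGroup U] [AfS R U]
    (c : κ → U) (z : ι → U) : grp U (afib (R := R) U c z) ≤ grp U (app (R := R) U z) := by
  intro x hx φ hφ
  have h1 : ren Sum.inr φ ∈ app (R := R) U (Sum.elim c z) := by
    show ASat (ren Sum.inr φ) U (Sum.elim c z)
    rw [asat_ren, Sum.elim_comp_inr]
    exact hφ
  have h2 : Sat (zer (ren Sum.inr φ)) U x := hx _ ⟨_, h1, rfl⟩
  rw [sat_zer, sat_ren, Sum.elim_comp_inr] at h2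
  exact h2

/-- the statement for sequences which are not bundled -/
private theorem FNT_core (h1 : St_GSQ) (h2 : St_GFI) (h3 : St_MDZ) (h4 : St_FT1) (h5 : St_FT2)
    (h6 : St_GIS) (R : Type) [RSig R] [Countable R] (U : Ad R) (hT : TB U) (hQ : QB U.md)
    (hF : FewT R U) (n : ℕ → ℕ) (S : ∀ k, Set (PP R (Fin (n k)))) (N : ℕ → Md R)
    (g : ∀ k, Fin (n k) → N k) (hS : ∀ k, Full U (S k))
    (hN : ∀ k, (Own R U).Honest (S k) (N k) (g k)) :
    ∃ (k : ℕ) (F : Finset ℕ), k ∉ F ∧ (Own R U).Retr (N k) (∀ i : F, N i) := by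
  by_contra hno
  obtain ⟨y, hy, hyf⟩ := h1 R U hT n S
  have hFI := h2 R U hT n S y hy hyf
  -- the models over the tuples and the honest modules for their affine types
  choose P b hP hb hgen using fun k => hT.prb (Fin (n k)) (fun i => y ⟨k, i⟩)
  choose N' g' hN' using fun k => thm_HEX R (Own R U) (Fin (n k))
    (app (R := R) U (fun i : Fin (n k) => y ⟨k, i⟩))
  have hSy : ∀ k, ∀ φ ∈ S k, hom φ ∈ app (R := R) U (fun i : Fin (n k) => y ⟨k, i⟩) :=
    fun k φ hφ => (asat_hom φ _).2 (hy k φ hφ)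
  have hNP : ∀ k, (Own R U).Retr (N k) (N' k) := by
    intro k
    obtain ⟨ρ, hρ⟩ := thm_EX0 R (Own R U) (Fin (n k)) (S k) (N k) (N' k) (g k) (g' k) (hN k)
      (hN' k).mem (fun φ hφ => (sat_hom φ _ _).1 ((hN' k).sat (hom φ) (hSy k φ hφ)))
    obtain ⟨j, hj, -⟩ := hQ.qis (Fin (n k)) (S k)
      (app (R := R) U (fun i : Fin (n k) => y ⟨k, i⟩))
      (N k) (N' k) (g k) (g' k) (hS k)
      (fun h0 => hyf k (AddSubgroup.relIndex_eq_zero_of_le_left (FNT_fib U _ _) h0))
      (fun x hx φ hφ => (sat_hom φ _ x).1 (hx (hom φ) (hSy k φ hφ))) (hN k) (hN' k) ρ hρ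
    exact ⟨ρ, j, hj⟩
  choose M c hM using fun Z : Set ℕ => h3 R U hT n y Z
  have key : ∀ (Z : Set ℕ) (k : ℕ),
      (⟨n k, atp1 (R := R) (P k) (b k)⟩ : (n : ℕ) × Set (L1 R (Fin n))) ∈
        areal1 (R := R) (M Z) ↔ k ∈ Z := by
    intro Z k
    constructor
    · rintro ⟨x, hx⟩
      obtain ⟨F, hFZ, hPF⟩ := h5 R U hT n y Z (M Z) (c Z) (hM Z) k (P k) (b k) (hP k) (hb k)
        (hgen k) x hx
      by_contra hk
      obtain ⟨Q, q, hQh⟩ := thm_HEX R (Own R U) (SZ n (F : Set ℕ))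
        (app (R := R) U (fun p : SZ n (F : Set ℕ) => y p.1))
      have h7 := h6 R U hT hQ n S N g y hS hN F (hFI F) hy Q q hQh
      exact hno ⟨k, F, fun h => hk (hFZ h),
        FNT_trans (hNP k) (FNT_trans (hPF (N' k) (g' k) Q q (hN' k) hQh) h7.1)⟩
    · intro hk
      exact ⟨fun i => c Z ⟨⟨k, i⟩, hk⟩, h4 R U hT hQ n S y hS hy hFI Z (M Z) (c Z) (hM Z) k hk (P k)
        (b k) (hP k) (hb k) (hgen k)⟩
  -- injection of the sets of numbers
  let φ : Set ℕ → {Θ : Set ((n : ℕ) × Set (L1 R (Fin n))) | ∃ M : Ad R, InK U M ∧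
      areal1 M = Θ} := fun Z => ⟨areal1 (R := R) (M Z), ⟨M Z, (hM Z).ink, rfl⟩⟩
  have hφ : Function.Injective φ := by
    intro Z T h
    ext k
    have h8 : areal1 (R := R) (M Z) = areal1 (R := R) (M T) := congrArg Subtype.val h
    rw [← key Z k, ← key T k, h8]
  have := hF.few2.to_subtype
  have : Countable (Set ℕ) := hφ.countable
  obtain ⟨f, hf⟩ := exists_surjective_nat (Set ℕ)
  exact Function.cantor_surjective f hf

/-- 4.1 finite type for full honest modules -/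
theorem thm_FNT (h1 : St_GSQ) (h2 : St_GFI) (h3 : St_MDZ) (h4 : St_FT1) (h5 : St_FT2)
    (h6 : St_GIS) : St_FNT := by
  intro R _ _ U hT hQ hF Z hZ
  exact FNT_core h1 h2 h3 h4 h5 h6 R U hT hQ hF (fun k => (Z k).n) (fun k => (Z k).S)
    (fun k => (Z k).N) (fun k => (Z k).g) hZ (fun k => (Z k).hon)

end Pool.Agent.AVF
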