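import Pool.Agent.AVF.StC

/-!
# AVF (affine form): the level-one type of a member of a generic sequence (4.1, `St_FT1`; helper58, after VMF/FT1)
-/

set_option autoImplicit false
set_option linter.unusedSectionVars false
set_option linter.unusedVariables false

namespace Pool.Agent.AVF

open Set Pool.Agent.AVC Pool.Agent.AVC.Ax

/-- extension by zero in the block `k` -/
private def FT1_zx (n : ℕ → ℕ) (F G : Set ℕ) (k : ℕ) (hG : ∀ j ∈ F, j ≠ k → j ∈ G)
    (M : Type) [AddCommGroup M] : (SZ n G → M) →+ (SZ n F → M) := by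
  classical
  exact
  { toFun := fun x p => if h : p.1.1 = k then 0 else x ⟨p.1, hG _ p.2 h⟩
    map_zero' := by
      funext p
      by_cases h : p.1.1 = k <;> simp [h]
    map_add' := by
      intro x x'
      funext p
      by_cases h : p.1.1 = k <;> simp [h] }

private theorem FT1_zx_pos (n : ℕ → ℕ) (F G : Set ℕ) (k : ℕ) (hG : ∀ j ∈ F, j ≠ k → j ∈ G)
    (M : Type) [AddCommGroup M] (x : SZ n G → M) (p : SZ n F) (h : p.1.1 = k) :
    FT1_zx n F G k hG M x p = 0 := by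
  show (if h : p.1.1 = k then (0 : M) else x ⟨p.1, hG _ p.2 h⟩) = 0
  rw [dif_pos h]

private theorem FT1_zx_neg (n : ℕ → ℕ) (F G : Set ℕ) (k : ℕ) (hG : ∀ j ∈ F, j ≠ k → j ∈ G)
    (M : Type) [AddCommGroup M] (x : SZ n G → M) (p : SZ n F) (h : p.1.1 ≠ k) :
    FT1_zx n F G k hG M x p = x ⟨p.1, hG _ p.2 h⟩ := by
  show (if h : p.1.1 = k then (0 : M) else x ⟨p.1, hG _ p.2 h⟩) = _
  rw [dif_neg h]

section

variable {R : Type} [RSig R]

/-- the type of the tuples whose extension by zero satisfies a given type -/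
private theorem FT1_sub (n : ℕ → ℕ) (F G : Set ℕ) (k : ℕ) (hG : ∀ j ∈ F, j ≠ k → j ∈ G)
    (T : Set (PP R (SZ n F))) : ∃ T' : Set (PP R (SZ n G)),
    ∀ (M : Type) [AddCommGroup M] [MoS R M] (x : SZ n G → M),
      Re T' M x ↔ Re T M (FT1_zx n F G k hG M x) := by
  classical
  obtain ⟨T', hT'⟩ := exists_subst_set (ι := SZ n G) T
    (fun p => if h : p.1.1 = k then 0 else Finsupp.single ⟨p.1, hG _ p.2 h⟩ (1 : R))
  refine ⟨T', fun M _ _ x => (hT' M x).trans (iff_of_eq (congrArg (Re T M) ?_))⟩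
  funext p
  by_cases h : p.1.1 = k
  · rw [FT1_zx_pos n F G k hG M x p h, dif_pos h, map_zero]
  · rw [FT1_zx_neg n F G k hG M x p h, dif_neg h, Finsupp.linearCombination_single, one_smul]

/-- extensions by zero realise the product -/
private theorem FT1_prod (n : ℕ → ℕ) (S : ∀ k, Set (PP R (Fin (n k)))) (F G : Set ℕ) (k : ℕ)
    (hG : ∀ j ∈ F, j ≠ k → j ∈ G) (M : Type) [AddCommGroup M] [MoS R M] (x : SZ n G → M)
    (hx : Re (prodF n S G) M x) : Re (prodF n S F) M (FT1_zx n F G k hG M x) := by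
  rw [re_prodF] at hx ⊢
  intro j hj
  by_cases h : j = k
  · have h1 : (fun i => FT1_zx n F G k hG M x ⟨⟨j, i⟩, hj⟩) = 0 := by
      funext i
      exact FT1_zx_pos n F G k hG M x ⟨⟨j, i⟩, hj⟩ h
    rw [h1]
    exact Re.zero _
  · have h1 : (fun i => FT1_zx n F G k hG M x ⟨⟨j, i⟩, hj⟩) =
        fun i => x ⟨⟨j, i⟩, hG j hj h⟩ := by
      funext i
      exact FT1_zx_neg n F G k hG M x ⟨⟨j, i⟩, hj⟩ h
    rw [h1]
    exact hx j (hG j hj h)

/-- the finite index of the fibre -/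
private theorem FT1_fin (U : Type) [AddCommGroup U] [MoS R U] (n : ℕ → ℕ) (S : ∀ k, Set (PP R (Fin (n k)))) (F G : Set ℕ)
    (k : ℕ) (hG : ∀ j ∈ F, j ≠ k → j ∈ G) (T : Set (PP R (SZ n F)))
    (T' : Set (PP R (SZ n G)))
    (hT' : ∀ x : SZ n G → U, Re T' U x ↔ Re T U (FT1_zx n F G k hG U x))
    (hT : FIn U (prodF n S F) T) : FIn U (prodF n S G) T' := by
  have h1 : grp U T' = (grp U T).comap (FT1_zx n F G k hG U) := by
    ext x
    exact hT' x
  unfold FIn at hT ⊢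
  rw [h1, AddSubgroup.relIndex_comap]
  intro h0
  refine hT (AddSubgroup.relIndex_eq_zero_of_le_right ?_ h0)
  rintro _ ⟨x, hx, rfl⟩
  exact FT1_prod n S F G k hG U x hx

private theorem FT1_un (U : Type) [AddCommGroup U] [MoS R U] {ι : Type} {S T : Set (PP R ι)}
    (h : FIn U S T) : FIn U S (S ∪ T) := by
  have h1 : grp U (S ∪ T) = grp U S ⊓ grp U T := by
    ext x
    exact re_union
  unfold FIn at h ⊢
  rw [h1, AddSubgroup.inf_relIndex_left]
  exact h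

/-- members of the class `K` are pure in `U` -/
private theorem FT1_pur [Countable R] {U : Ad R} (tb : TB U) (M : Ad R) (hM : InK U M) :
    ∃ e : M → U, ∀ (κ : Type) [Finite κ] (φ : PP R κ) (x : κ → M),
      ASat φ M x ↔ ASat φ U (e ∘ x) := by
  obtain ⟨N, hN, ⟨j⟩⟩ := hM
  refine ⟨fun m => (j m : U), fun κ _ φ x => ?_⟩
  exact (asat_iso j).symm.trans (tb.pur N hN κ φ (j ∘ x))

end

theorem thm_FT1 (hP : St_PFF) : St_FT1 := by
  classical
  intro R _ _ U tb qb n S y hFull hRe hFI Z M c hG k hk P b hEl hb hH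
  obtain ⟨e, he⟩ := FT1_pur tb M hG.ink
  have hc : app (R := R) M (fun i => c ⟨⟨k, i⟩, hk⟩) = app U (fun i : Fin (n k) => y ⟨k, i⟩) :=
    hG.app_eq (Fin (n k)) (fun i => ⟨⟨k, i⟩, hk⟩)
  have hbU : (fun i => (b i : U)) = fun i : Fin (n k) => y ⟨k, i⟩ := funext hb
  apply Subset.antisymm
  · rintro V ⟨t, ht⟩
    obtain ⟨A, hA, θ, hθ⟩ := hG.gen (Fin V.1) t
      (Finset.univ.image (fun i : Fin (n k) => (⟨⟨k, i⟩, hk⟩ : SZ n Z)))
    set F : Finset ℕ := insert k (A.image (fun p => p.1.1)) with hF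
    set G : Finset ℕ := F.erase k with hGd
    have hFG : ∀ j ∈ (F : Set ℕ), j ≠ k → j ∈ (G : Set ℕ) := fun j hj hjk =>
      Finset.mem_coe.2 (Finset.mem_erase.2 ⟨hjk, Finset.mem_coe.1 hj⟩)
    have hkF : k ∈ (F : Set ℕ) := Finset.mem_coe.2 (Finset.mem_insert_self _ _)
    have hAF : ∀ a : A, a.1.1.1 ∈ (F : Set ℕ) := fun a =>
      Finset.mem_coe.2 (Finset.mem_insert_of_mem (Finset.mem_image.2 ⟨a.1, a.2, rfl⟩))
    obtain ⟨T', hT'⟩ := FT1_sub n (F : Set ℕ) (G : Set ℕ) k hFG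
      (app (R := R) U (fun p : SZ n (F : Set ℕ) => y p.1))
    have hfin : FIn U (prodF n S (G : Set ℕ)) T' :=
      FT1_fin U n S _ _ k hFG _ T' (hT' U) (hFI F)
    obtain ⟨v, -, hv⟩ := tb.tf6 P hEl (SZ n (G : Set ℕ)) (prodF n S (G : Set ℕ))
      (prodF n S (G : Set ℕ) ∪ T') (hP R U tb qb n S G fun j _ => hFull j) (FT1_un U hfin)
      (fun x hx => (re_union.1 hx).1) (fun p => y p.1)
      ((re_prodF n S (G : Set ℕ) _).2 fun j _ => hRe j)
    have hv2 := (hT' U _).1 (re_union.1 hv).2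
    have hw0 : ∀ p : SZ n (F : Set ℕ), ∃ w : P, (w : U) = y p.1 +
        FT1_zx n (F : Set ℕ) (G : Set ℕ) k hFG U (fun i => (v i : U) - y i.1) p := by
      intro p
      by_cases h : p.1.1 = k
      · rw [FT1_zx_pos _ _ _ _ _ _ _ _ h, add_zero]
        obtain ⟨⟨j, i⟩, hj⟩ := p
        dsimp only at h
        subst h
        exact ⟨b i, hb i⟩
      · rw [FT1_zx_neg _ _ _ _ _ _ _ _ h]
        exact ⟨v ⟨p.1, hFG _ p.2 h⟩, (add_sub_cancel _ _).symm⟩
    choose w hw using hw0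
    have hwk : ∀ i, w ⟨⟨k, i⟩, hkF⟩ = b i := by
      intro i
      apply Subtype.ext
      have h1 : FT1_zx n (F : Set ℕ) (G : Set ℕ) k hFG U (fun i => (v i : U) - y i.1)
          ⟨⟨k, i⟩, hkF⟩ = 0 := FT1_zx_pos _ _ _ _ _ _ _ ⟨⟨k, i⟩, hkF⟩ rfl
      rw [hw, h1, add_zero, hb]
    have hwU : ARe (app (R := R) U (fun p : SZ n (F : Set ℕ) => y p.1)) U
        (fun p => (w p : U)) := by
      have h1 : (fun p => (w p : U)) = (fun p : SZ n (F : Set ℕ) => y p.1) +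
          FT1_zx n (F : Set ℕ) (G : Set ℕ) k hFG U (fun i => (v i : U) - y i.1) := by
        funext p
        exact hw p
      rw [h1]
      exact ARe.add (fun φ hφ => hφ) hv2
    have hA' : ∀ φ : PP R A, ASat φ U (fun a : A => y a.1.1) →
        ASat φ U (fun a : A => (w ⟨a.1.1, hAF a⟩ : U)) := by
      intro φ hφ
      have h1 := hwU (ren (fun a : A => (⟨a.1.1, hAF a⟩ : SZ n (F : Set ℕ))) φ)
        ((asat_ren _ _ _).2 hφ)
      rw [asat_ren] at h1
      exact h1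
    obtain ⟨φ₀, hφ₀, -⟩ := (isAP_sat (R := R) θ).ex
    have h1 : ASat φ₀ M (fun a : A => c a) := (hφ₀ M _).1 ⟨t, hθ.1⟩
    have h2 : ASat φ₀ U (fun a : A => y a.1.1) := by
      have h3 : φ₀ ∈ app (R := R) M (c ∘ (Subtype.val : A → SZ n Z)) := h1
      rw [hG.app_eq A Subtype.val] at h3
      exact h3
    obtain ⟨t', ht'⟩ := (hφ₀ P _).2 ((tb.pur P hEl A φ₀ _).2 (hA' φ₀ h2))
    refine ⟨t', fun ψ hψ => ?_⟩
    have hAk : ∀ i : Fin (n k), (⟨⟨k, i⟩, hk⟩ : SZ n Z) ∈ A := fun i =>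
      hA (Finset.mem_image_of_mem _ (Finset.mem_univ i))
    let g : Fin (n k) ⊕ Fin V.1 → A ⊕ Fin V.1 :=
      Sum.map (fun i => (⟨⟨⟨k, i⟩, hk⟩, hAk i⟩ : A)) id
    have h4 : ASat (ren g ψ) M (Sum.elim (fun a : A => c a) t) := by
      rw [asat_ren]
      have h5 := ht ψ hψ
      have h6 : (Sum.elim (fun a : A => c a) t) ∘ g =
          Sum.elim (fun i => c ⟨⟨k, i⟩, hk⟩) t := by
        funext i
        cases i <;> rfl
      rw [h6]
      exact h5
    obtain ⟨s, hs, h7, -⟩ := hθ.2 (ren g ψ) h4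
    have h9 : ASat θ U (Sum.elim (fun a : A => (w ⟨a.1.1, hAF a⟩ : U)) (fun i => (t' i : U))) := by
      have h10 := (tb.pur P hEl _ θ _).1 ht'
      refine (iff_of_eq ?_).mp h10
      congr 1
      funext i
      cases i <;> rfl
    have h8 := h7 (fun a : A => (w ⟨a.1.1, hAF a⟩ : U)) (fun i => (t' i : U))
      (fun φ hφ => hA' φ (hs hφ)) h9
    rw [asat_ren] at h8
    rw [tb.pur P hEl]
    refine (iff_of_eq ?_).mp h8
    congr 1
    funext i
    cases i with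
    | inl i => exact congrArg Subtype.val (hwk i)
    | inr i => rfl
  · rintro V ⟨t, ht⟩
    obtain ⟨θ, hθ⟩ := hH (Fin V.1) t
    obtain ⟨φ₀, hφ₀, -⟩ := (isAP_sat (R := R) θ).ex
    have h1 : ASat φ₀ M (fun i => c ⟨⟨k, i⟩, hk⟩) := by
      have h2 : ASat φ₀ P b := (hφ₀ P b).1 ⟨t, hθ.1⟩
      rw [tb.pur P hEl, hbU] at h2
      have h3 : φ₀ ∈ app (R := R) M (fun i => c ⟨⟨k, i⟩, hk⟩) := by
        rw [hc]
        exact h2
      exact h3
    obtain ⟨t', ht'⟩ := (hφ₀ M _).2 h1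
    refine ⟨t', fun ψ hψ => ?_⟩
    obtain ⟨s, hs, h7, -⟩ := hθ.2 ψ (ht ψ hψ)
    rw [he]
    have h8 := h7 (e ∘ fun i => c ⟨⟨k, i⟩, hk⟩) (e ∘ t') (fun φ hφ => by
      rw [← he]
      have h3 : φ ∈ app (R := R) M (fun i => c ⟨⟨k, i⟩, hk⟩) := by
        rw [hc]
        exact hs hφ
      exact h3) (by
      rw [he] at ht'
      rw [Sum.comp_elim] at ht'
      exact ht')
    rw [Sum.comp_elim]
    exact h8

end Pool.Agent.AVF
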