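import Pool.Agent.AVF.StC
import Pool.Agent.AVC.EXT
import Pool.Agent.AVC.NULM

/-!
# AVF, block C, module FT2 (helper58, after VMF/FT2 and helper8's affine proof)
-/

set_option autoImplicit false
set_option linter.unusedSectionVars false
set_option linter.unusedVariables false

namespace Pool.Agent.AVF

open Set Pool.Agent.AVC Pool.Agent.AVC.Ax

/-- tuples with the same affine level-one type have the same affine type -/
private theorem FT2_pp {R : Type} [RSig R] {ι : Type} {M N : Type} [AddCommGroup M] [AfS R M]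
    [AddCommGroup N] [AfS R N] {x : ι → M} {y : ι → N} (h : atp1 (R := R) M x = atp1 N y)
    (φ : PP R ι) : ASat φ M x ↔ ASat φ N y := by
  have h1 : ASat1 (ofRe {φ}) M x ↔ ASat1 (ofRe {φ}) N y := by
    have h2 : (ofRe {φ} ∈ atp1 (R := R) M x) ↔ (ofRe {φ} ∈ atp1 (R := R) N y) := by rw [h]
    exact h2
  rw [asat1_ofRe, asat1_ofRe] at h1
  constructor
  · intro h2
    refine h1.mp (fun ψ hψ => ?_) φ (mem_singleton φ)
    rw [mem_singleton_iff] at hψ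
    rw [hψ]
    exact h2
  · intro h2
    refine h1.mpr (fun ψ hψ => ?_) φ (mem_singleton φ)
    rw [mem_singleton_iff] at hψ
    rw [hψ]
    exact h2

theorem thm_FT2 : St_FT2 := by
  classical
  intro R _ _ U hU n y Z M c hG k P b hEl hb hH x hx
  have hbU : (fun i => (b i : U)) = fun i : Fin (n k) => y ⟨k, i⟩ := funext hb
  obtain ⟨A, -, θ, hθ, hgen⟩ := hG.gen (Fin (n k)) x ∅
  let F : Finset ℕ := A.image fun p => p.1.1
  have hF : (F : Set ℕ) ⊆ Z := by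
    intro j hj
    rw [Finset.mem_coe, Finset.mem_image] at hj
    obtain ⟨p, -, rfl⟩ := hj
    exact p.2
  let ξ : A → SZ n (F : Set ℕ) := fun i =>
    ⟨i.1.1, Finset.mem_coe.mpr (Finset.mem_image.mpr ⟨i.1, i.2, rfl⟩)⟩
  refine ⟨F, hF, fun Nk gk NF gF hNk hNF => ?_⟩
  have hM1 : app (R := R) M (fun i : A => c i) = app U (fun i : A => y i.1.1) :=
    hG.app_eq A (fun i => i.1)
  -- the level-one formula
  obtain ⟨V, hV, -⟩ := (((isAL_are (app (R := R) U (fun p : SZ n (F : Set ℕ) => y p.1))).comap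
      (Sum.inr : SZ n (F : Set ℕ) → Fin (n k) ⊕ SZ n (F : Set ℕ))).and
      ((isAP_sat (R := R) θ).isAL.comap (Sum.elim (fun i => Sum.inr (ξ i)) Sum.inl :
          A ⊕ Fin (n k) → Fin (n k) ⊕ SZ n (F : Set ℕ)))).ex
  have helim : ∀ (K : Type) (z : Fin (n k) → K) (v : SZ n (F : Set ℕ) → K),
      Sum.elim z v ∘ (Sum.elim (fun i => Sum.inr (ξ i)) Sum.inl :
          A ⊕ Fin (n k) → Fin (n k) ⊕ SZ n (F : Set ℕ)) = Sum.elim (v ∘ ξ) z := by
    intro K z v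
    funext i
    cases i <;> rfl
  have hVx : ASat1 V M x := by
    refine (hV M x).mp ⟨fun p => c ⟨p.1, hF p.2⟩, ?_, ?_⟩
    · intro φ hφ
      have h1 := hG.app_eq (SZ n (F : Set ℕ)) (fun p => ⟨p.1, hF p.2⟩)
      have h2 : φ ∈ app (R := R) M (c ∘ fun p : SZ n (F : Set ℕ) => ⟨p.1, hF p.2⟩) := by
        rw [h1]
        exact hφ
      exact h2
    · rw [helim]
      exact hθ
  have hVb : ASat1 V P b := by
    have h1 : V ∈ atp1 (R := R) P b := by
      rw [← hx]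
      exact hVx
    exact h1
  obtain ⟨v, hv1, hv2⟩ := (hV P b).mpr hVb
  rw [helim] at hv2
  obtain ⟨θ₁, hθ₁, hgen₁⟩ := hH (SZ n (F : Set ℕ)) v
  -- the formulas of the part `A` hold in `NF`
  have hA : ∀ φ ∈ app (R := R) U (fun i : A => y i.1.1), Sat φ NF (gF ∘ ξ) := by
    intro φ hφ
    rw [← sat_ren]
    refine hNF.sat _ ?_
    show ASat (ren ξ φ) U (fun p : SZ n (F : Set ℕ) => y p.1)
    rw [asat_ren]
    exact hφ
  obtain ⟨ρ, hρ, hρ0⟩ := (isAP_sat (R := R) θ).ex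
  obtain ⟨x', hx'⟩ : ∃ x' : Fin (n k) → NF, Sat θ NF (Sum.elim (gF ∘ ξ) x') := by
    refine (hρ0 NF _).mpr (hA ρ ?_)
    rw [← hM1]
    exact (hρ M _).mp ⟨x, hθ⟩
  -- all formulas of `x` follow from `θ`
  have key : ∀ φ : PP R (Fin (n k)), ASat φ M x → ∃ s : Finset (PP R A),
      ↑s ⊆ app (R := R) U (fun i : A => y i.1.1) ∧
      ∀ (K : Type) [AddCommGroup K] [MoS R K], (Own R U).In K → ∀ (u : A → K)
        (z : Fin (n k) → K), (∀ φ ∈ s, Sat φ K u) → Sat θ K (Sum.elim u z) → Sat φ K z := by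
    intro φ hφ
    obtain ⟨s, hs, -, h1⟩ := hgen (ren Sum.inr φ) (by
      rw [asat_ren]
      exact hφ)
    refine ⟨s, hs, fun K _ _ hK u z hu hz => ?_⟩
    have h2 := h1 K hK u z hu hz
    rw [sat_ren] at h2
    exact h2
  have hSx : ∀ φ ∈ app (R := R) U (fun i : Fin (n k) => y ⟨k, i⟩), ASat φ M x := by
    intro φ hφ
    rw [FT2_pp hx φ, hU.pur P hEl, hbU]
    exact hφ
  have hRe : Re (app (R := R) U (fun i : Fin (n k) => y ⟨k, i⟩)) NF x' := by
    intro φ hφ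
    obtain ⟨s, hs, h1⟩ := key φ (hSx φ hφ)
    exact h1 NF hNF.mem _ _ (fun φ hφ => hA φ (hs hφ)) hx'
  obtain ⟨f, hf⟩ := thm_EX0 R (Own R U) (Fin (n k)) _ Nk NF gk x' hNk hNF.mem hRe
  -- the second map
  obtain ⟨ρ₁, hρ₁, hρ₁0⟩ := (isAP_sat (R := R) θ₁).ex
  obtain ⟨ν, hν⟩ : ∃ ν : SZ n (F : Set ℕ) → Nk, Sat θ₁ Nk (Sum.elim gk ν) := by
    refine (hρ₁0 Nk _).mpr (hNk.sat ρ₁ ?_)
    have h1 : ASat ρ₁ P b := (hρ₁ P _).mp ⟨v, hθ₁⟩
    rw [hU.pur P hEl, hbU] at h1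
    exact h1
  have key₁ : ∀ ψ : PP R (Fin (n k) ⊕ SZ n (F : Set ℕ)), ASat ψ P (Sum.elim b v) →
      Sat ψ Nk (Sum.elim gk ν) := by
    intro ψ hψ
    obtain ⟨s, hs, -, h1⟩ := hgen₁ ψ hψ
    exact h1 Nk hNk.mem gk ν (fun φ hφ => hNk.sat φ (hs hφ)) hν
  have hνF : Re (app (R := R) U (fun p : SZ n (F : Set ℕ) => y p.1)) Nk ν := by
    intro φ hφ
    have h1 := key₁ (ren Sum.inr φ) (by
      rw [asat_ren]
      exact hv1 φ hφ)
    rw [sat_ren] at h1
    exact h1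
  obtain ⟨h, hh⟩ := thm_EX0 R (Own R U) (SZ n (F : Set ℕ)) _ NF Nk gF ν hNF hNk.mem hνF
  have hνθ : Sat θ Nk (Sum.elim (ν ∘ ξ) gk) := by
    have h1 := key₁ (ren (Sum.elim (fun i => Sum.inr (ξ i)) Sum.inl :
          A ⊕ Fin (n k) → Fin (n k) ⊕ SZ n (F : Set ℕ)) θ) (by
      rw [asat_ren, helim]
      exact hv2)
    rw [sat_ren, helim] at h1
    exact h1
  refine ⟨f, h, thm_NUP R (Own R U) (Fin (n k)) _ Nk Nk gk _ hNk ⟨zer θ,
    fun ψ hψ K _ _ hK z hz => ?_, ?_⟩⟩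
  · rw [sat_zer] at hz
    obtain ⟨s, hs, h1⟩ := key ψ (hSx ψ hψ)
    exact h1 K hK 0 z (fun φ _ => Sat.zero φ) hz
  · rw [sat_zer]
    have h1 := (hx'.map h).sub hνθ
    refine (iff_of_eq ?_).mp h1
    congr 1
    funext i
    cases i with
    | inl i =>
      show h (gF (ξ i)) - ν (ξ i) = 0
      rw [hh, sub_self]
    | inr i =>
      show h (x' i) - gk i = h (f (gk i)) - gk i
      rw [hf]

end Pool.Agent.AVF
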