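import Pool.Agent.AVF.Defs

/-!
# AVF, block T: isolated tuples, honest models, coherent families of types (statements, helper21)

The affine form of VMF/StT.lean. `U` is the countable saturated affine structure, types are affine types
`app`, elementary submodules are given by the Tarski-Vaught test for affine formulas. Generation `AGen` is
stated inside `U`; it holds then in all elementary submodules, and its homogeneous reading holds in all
members of the homogeneous class `Own R U` (`St_AGH`).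
-/

set_option autoImplicit false
set_option linter.unusedSectionVars false
set_option linter.unusedVariables false

namespace Pool.Agent.AVF

open Set Pool.Agent.AVC Pool.Agent.AVC.Ax

section

variable {R : Type} [RSig R] {ι κ : Type}

/-- the affine formula `θ` generates, together with `S`, the affine type of `b` over `g`; the
implications hold in `U` -/
def AGen (U : Type) [AddCommGroup U] [AfS R U] (S : Set (PP R κ)) (N : Type) [AddCommGroup N]
    [AfS R N] (g : κ → N) (b : ι → N) (θ : PP R (κ ⊕ ι)) : Prop :=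
  ASat θ N (Sum.elim g b) ∧ ∀ ψ : PP R (κ ⊕ ι), ASat ψ N (Sum.elim g b) →
    ∃ s : Finset (PP R κ), ↑s ⊆ S ∧ ∀ (x : κ → U) (y : ι → U),
      (∀ φ ∈ s, ASat φ U x) → ASat θ U (Sum.elim x y) → ASat ψ U (Sum.elim x y)

/-- the homogeneous reading of `AGen`, in the members of the class `Own R U` -/
def HGen (U : Type) [AddCommGroup U] [AfS R U] (S : Set (PP R κ)) (N : Type) [AddCommGroup N]
    [AfS R N] (g : κ → N) (b : ι → N) (θ : PP R (κ ⊕ ι)) : Prop :=
  ASat θ N (Sum.elim g b) ∧ ∀ ψ : PP R (κ ⊕ ι), ASat ψ N (Sum.elim g b) →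
    ∃ s : Finset (PP R κ), ↑s ⊆ S ∧
      (∀ (x : κ → U) (y : ι → U), (∀ φ ∈ s, ASat φ U x) → ASat θ U (Sum.elim x y) →
        ASat ψ U (Sum.elim x y)) ∧
      ∀ (M : Type) [AddCommGroup M] [MoS R M], (Own R U).In M → ∀ (x : κ → M) (y : ι → M),
        (∀ φ ∈ s, Sat φ M x) → Sat θ M (Sum.elim x y) → Sat ψ M (Sum.elim x y)

end

/-- (HOM) tuples with the same affine type are conjugate. By `cov`, SATP and back and forth. -/
def St_HOMP : Prop := ∀ (R : Type) [RSig R] [Countable R] (U : Ad R), MonA R U →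
  ∀ (ι : Type) [Finite ι] (a b : ι → U), app (R := R) U a = app (R := R) U b →
  ∃ γ : AIe R U U, ∀ i, γ (a i) = b i

/-- (DIC) homogeneous implications which hold in `U` hold in all members of the class `Own R U` -/
def St_DIC : Prop := ∀ (R : Type) [RSig R] (U : Md R) (ι : Type) [Finite ι],
  (∀ φ ψ : PP R ι, (∀ x : ι → U, Sat φ U x → Sat ψ U x) → (Own R U).Le φ ψ) ∧
  (∀ (s : Finset (PP R ι)) (ψ : PP R ι), (∀ x : ι → U, (∀ φ ∈ s, Sat φ U x) → Sat ψ U x) →
    ∀ (M : Type) [AddCommGroup M] [MoS R M], (Own R U).In M → ∀ x : ι → M,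
      (∀ φ ∈ s, Sat φ M x) → Sat ψ M x)

/-- (AGH) generation over a type which is realised in `U` holds also in the homogeneous reading:
`φ ∈ s` hold at `c₀`, `θ, ψ` at `(c₀, b₀)`; for `x, y` in `U` with `Sat φ x`, `Sat θ (x, y)` apply the affine
implication to `(c₀ + x, b₀ + y)` and subtract; then `St_DIC`. (`N` may be any structure in which the
tuple lies, `(c₀, b₀)` is a tuple of `U` with the same type.) -/
def St_AGH : Prop := ∀ (R : Type) [RSig R] (U : Ad R) (κ ι : Type) [Finite κ] [Finite ι]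
  (S : Set (PP R κ)) (N : Type) [AddCommGroup N] [AfS R N] (g : κ → N) (b : ι → N)
  (θ : PP R (κ ⊕ ι)), (∀ φ ∈ S, ASat φ N g) →
  (∃ z : κ ⊕ ι → U, app (R := R) U z = app (R := R) N (Sum.elim g b)) →
  AGen (R := R) U S N g b θ → HGen (R := R) U S N g b θ

/-- (ISD) Isolated tuples are dense. -/
def St_ISD : Prop := ∀ (R : Type) [RSig R] [Countable R] (U : Ad R), MonA R U →
  ∀ (κ ι : Type) [Finite κ] [Finite ι] (b : κ → U) (θ : PP R (κ ⊕ ι)) (s : Finset (PP R (κ ⊕ ι))),
  (∃ c : ι → U, ASat θ U (Sum.elim b c) ∧ ∀ ψ ∈ s, ¬ ASat ψ U (Sum.elim b c)) →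
  ∃ c : ι → U, (ASat θ U (Sum.elim b c) ∧ ∀ ψ ∈ s, ¬ ASat ψ U (Sum.elim b c)) ∧
    AIsol (R := R) U b c

/-- (ISG) The affine type of an isolated tuple `c` over `b` is generated by one affine formula. The proof
is the one of VMF/ISG.lean: the groups are `Sat ψ (0, .)`, the sets `ASat ψ (b, c + .)` are empty or cosets of
them; Neumann's lemma. -/
def St_ISG : Prop := ∀ (R : Type) [RSig R] [Countable R] (U : Ad R), MonA R U →
  ∀ (κ ι : Type) [Finite κ] [Finite ι] (b : κ → U) (c : ι → U), AIsol (R := R) U b c →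
  ∃ θ' : PP R (κ ⊕ ι), AGen (R := R) U (app (R := R) U b) U b c θ'

/-- (TLY) Coherent families of affine types along an exhaustion `A 0 ⊆ A 1 ⊆ ..` of a countable set `ι` of
variables are realised in elementary submodules in which each tuple is generated over the `A k`-part, for
all large `k`; with prescribed values on `A 0`. -/
def St_TLY : Prop := ∀ (R : Type) [RSig R] [Countable R] (U : Ad R), MonA R U →
  ∀ (ι : Type) [Countable ι] (P : ∀ A : Finset ι, Set (PP R A)) (A : ℕ → Finset ι), Monotone A →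
  (∀ i, ∃ k, i ∈ A k) →
  (∀ A : Finset ι, ∃ c : A → U, app (R := R) U c = P A) →
  (∀ (A B : Finset ι) (h : A ⊆ B) (φ : PP R A), φ ∈ P A ↔
    ren (fun i : A => (⟨i.1, h i.2⟩ : B)) φ ∈ P B) →
  ∀ x0 : ι → U, app (R := R) U (fun i : A 0 => x0 i) = P (A 0) →
  ∃ (N : Submodule R U) (c : ι → N), (∀ i ∈ A 0, (c i : U) = x0 i) ∧ El U N ∧
    (∀ B : Finset ι, app (R := R) N (fun i : B => c i) = P B) ∧
    ∀ (l : Type) [Finite l] (b : l → N), ∃ k0, ∀ k, k0 ≤ k → ∃ θ : PP R (A k ⊕ l),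
      HGen (R := R) U (P (A k)) N (fun i : A k => c i) b θ

/-- (TLX) without prescribed values -/
def St_TLX : Prop := ∀ (R : Type) [RSig R] [Countable R] (U : Ad R), MonA R U →
  ∀ (ι : Type) [Countable ι] (P : ∀ A : Finset ι, Set (PP R A)) (A : ℕ → Finset ι), Monotone A →
  (∀ i, ∃ k, i ∈ A k) →
  (∀ A : Finset ι, ∃ c : A → U, app (R := R) U c = P A) →
  (∀ (A B : Finset ι) (h : A ⊆ B) (φ : PP R A), φ ∈ P A ↔
    ren (fun i : A => (⟨i.1, h i.2⟩ : B)) φ ∈ P B) →
  ∃ (N : Submodule R U) (c : ι → N), El U N ∧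
    (∀ B : Finset ι, app (R := R) N (fun i : B => c i) = P B) ∧
    ∀ (l : Type) [Finite l] (b : l → N), ∃ k0, ∀ k, k0 ≤ k → ∃ θ : PP R (A k ⊕ l),
      HGen (R := R) U (P (A k)) N (fun i : A k => c i) b θ

/-- (TLQ) with a cofinal family `Q` of finite sets -/
def St_TLQ : Prop := ∀ (R : Type) [RSig R] [Countable R] (U : Ad R), MonA R U →
  ∀ (ι : Type) [Countable ι] (P : ∀ A : Finset ι, Set (PP R A)) (Q : Finset ι → Prop),
  (∀ A, ∃ B, A ⊆ B ∧ Q B) →
  (∀ A : Finset ι, ∃ c : A → U, app (R := R) U c = P A) →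
  (∀ (A B : Finset ι) (h : A ⊆ B) (φ : PP R A), φ ∈ P A ↔
    ren (fun i : A => (⟨i.1, h i.2⟩ : B)) φ ∈ P B) →
  ∃ (N : Submodule R U) (c : ι → N), El U N ∧
    (∀ A : Finset ι, app (R := R) N (fun i : A => c i) = P A) ∧
    ∀ (l : Type) [Finite l] (b : l → N) (A₀ : Finset ι), ∃ A : Finset ι, A₀ ⊆ A ∧ Q A ∧
      ∃ θ : PP R (A ⊕ l), HGen (R := R) U (P A) N (fun i : A => c i) b θ

/-- (TLI) -/
def St_TLI : Prop := ∀ (R : Type) [RSig R] [Countable R] (U : Ad R), MonA R U →
  ∀ (ι : Type) [Countable ι] (P : ∀ A : Finset ι, Set (PP R A)),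
  (∀ A : Finset ι, ∃ c : A → U, app (R := R) U c = P A) →
  (∀ (A B : Finset ι) (h : A ⊆ B) (φ : PP R A), φ ∈ P A ↔
    ren (fun i : A => (⟨i.1, h i.2⟩ : B)) φ ∈ P B) →
  ∃ (N : Submodule R U) (c : ι → N), El U N ∧
    (∀ A : Finset ι, app (R := R) N (fun i : A => c i) = P A) ∧
    ∀ (l : Type) [Finite l] (b : l → N) (A₀ : Finset ι), ∃ A : Finset ι, A₀ ⊆ A ∧
      ∃ θ : PP R (A ⊕ l), HGen (R := R) U (P A) N (fun i : A => c i) b θ

/-- (PRM) Honest models over finite tuples: each finite tuple is generated over `b`. -/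
def St_PRM : Prop := ∀ (R : Type) [RSig R] [Countable R] (U : Ad R), MonA R U →
  ∀ (κ : Type) [Finite κ] (b : κ → U), ∃ (N : Submodule R U) (c : κ → N), El U N ∧
    (∀ i, (c i : U) = b i) ∧ ∀ (l : Type) [Finite l] (d : l → N), ∃ θ : PP R (κ ⊕ l),
      HGen (R := R) U (app (R := R) U b) N c d θ

end Pool.Agent.AVF
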