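import Pool.Agent.AVF.StF
import Pool.Agent.AVF.StT

/-!
# AVF, block D: decorated facts and the least affine level-one formula (statements, helper8)

The affine form of `VMF/StD.lean`. `X := Own R U` is the class of the homogeneous reduct of the countable
saturated affine structure `U`; models are elementary submodules of `U` with the induced sets.

A FACT about the tuple `a` of `U` is given by a set `V(x, t)` of affine formulas, a homogeneous formula
`ψ(t)` and a tuple `t` of `U` with `V(a, t)` (affine reading), such that `q_V ∧ ψ` (`q_V = zer '' V` in the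
homogeneous reading) is full and of finite index in `q_V`. It stands for the coset `t + (q_V ∧ ψ)(U)` in
`V(a, U)`; it is REALISED in a model `M ⊆ U` (`a` in `M`) if this coset contains a tuple of `M`. Its value
in `M` is the class in `e_{q_V ∧ ψ}(M)` of the map `g ↦ (sh - 1)T`, where `T` is a sequence in `M` which
satisfies `V(a, T)` and `ψ(T - t)` eventually.
-/

set_option autoImplicit false
set_option linter.unusedSectionVars false
set_option linter.unusedVariables false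

namespace Pool.Agent.AVF

open Set Pool.Agent.AVC Pool.Agent.AVC.Ax

section

variable {R : Type} [RSig R]

/-- the models with an elementary embedding into `U` whose image contains the tuple `a` -/
def AM (U : Ad R) {ι : Type} (a : ι → U) : Type 1 :=
  {p : (M : Ad R) × (Hm R M U) // Emb U p.2 ∧ ∀ i, ∃ m, p.2 m = a i}

/-- the product of all groups `e_Y(M)`, `a` in `M ⊆ U` -/
abbrev EF (U : Ad R) {ι : Type} (a : ι → U) (Y : Md R) : Type 1 :=
  ∀ p : AM U a, (Own R U).ex Y p.1.1.md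

/-- decorated facts -/
structure Fact (U : Ad R) {ι κ : Type} (a : ι → U) (V : Set (PP R (ι ⊕ κ))) (ψ : PP R κ)
    (t : κ → U) : Prop where
  re : ARe V U (Sum.elim a t)
  fi : FIn U (zer '' V) {ψ}
  full : Full U (zer '' V ∪ {ψ})

/-- the element `e` of `e_{q_V ∧ ψ}(M)` is the value of the fact `(V, ψ, t)` in the model `p` -/
def IsDelF (U : Ad R) {ι κ : Type} (a : ι → U) (V : Set (PP R (ι ⊕ κ))) (ψ : PP R κ) (t : κ → U)
    (N : Md R) (g : κ → N) (p : AM U a) (e : (Own R U).ex N p.1.1.md) : Prop :=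
  ∃ (s : κ → ℕ → p.1.1) (f : Hm R N (MI p.1.1.md)),
    (∀ φ ∈ V, ∃ m₀, ∀ m ≥ m₀, ASat φ U (Sum.elim a (fun i => p.1.2 (s i m)))) ∧
    (∃ m₀, ∀ m ≥ m₀, Sat ψ U ((fun i => p.1.2 (s i m)) - t)) ∧
    (∀ i, f (g i) = MI.mk p.1.1.md (fun m => s i (m + 1)) - MI.mk p.1.1.md (s i)) ∧
    e = (Own R U).exMk N p.1.1.md f

/-- `d` is the family of the values of the fact `(V, ψ, t)`, pulled back along `v : Y → N` -/
def IsVal (U : Ad R) {ι κ : Type} (a : ι → U) (V : Set (PP R (ι ⊕ κ))) (ψ : PP R κ) (t : κ → U)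
    (N : Md R) (g : κ → N) {Y : Md R} (v : Hm R Y N) (d : EF U a Y) : Prop :=
  ∀ (p : AM U a) (e : (Own R U).ex N p.1.1.md), IsDelF U a V ψ t N g p e →
    d p = (Own R U).exMap v p.1.1.md e

/-- values of facts in `e_Y` -/
def FV (U : Ad R) {ι : Type} (a : ι → U) (Y : Md R) : Set (EF U a Y) :=
  {d | ∃ (κ : Type) (_ : Finite κ) (V : Set (PP R (ι ⊕ κ))) (ψ : PP R κ) (t : κ → U) (N : Md R)
    (g : κ → N) (v : Hm R Y N), Fact U a V ψ t ∧ (Own R U).Honest (zer '' V ∪ {ψ}) N g ∧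
      IsVal U a V ψ t N g v d}

/-- the module of all values of facts -/
def TT (U : Ad R) {ι : Type} (a : ι → U) (Y : Md R) :
    Submodule ((Own R U).Q Y)ᵐᵒᵖ (EF U a Y) := Submodule.span _ (FV U a Y)

/-- the values which are realised in the model `p` -/
def TR (U : Ad R) {ι : Type} (a : ι → U) (Y : Md R) (p : AM U a) :
    Submodule ((Own R U).Q Y)ᵐᵒᵖ (EF U a Y) where
  carrier := {d | d ∈ TT U a Y ∧ d p = 0}
  add_mem' := by
    rintro d d' ⟨h1, h2⟩ ⟨h3, h4⟩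
    refine ⟨Submodule.add_mem _ h1 h3, ?_⟩
    show d p + d' p = 0
    rw [h2, h4, add_zero]
  zero_mem' := ⟨Submodule.zero_mem _, rfl⟩
  smul_mem' := by
    rintro q d ⟨h1, h2⟩
    refine ⟨Submodule.smul_mem _ q h1, ?_⟩
    show q • d p = 0
    rw [h2, smul_zero]

/-! ### The group of the automorphisms which fix `a` -/

/-- the automorphisms of the affine structure `U` which fix `a` -/
def Gm (U : Ad R) {ι : Type} (a : ι → U) : Subgroup (U ≃ₗ[R] U) where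
  carrier := {γ | (∀ (i : RSig.Ix R) (x : Fin (RSig.ar i) → U),
    (fun j => γ (x j)) ∈ MoS.P (R := R) (M := U) i ↔ x ∈ MoS.P (R := R) (M := U) i) ∧
    (∀ (i : RSig.Ix R) (x : Fin (RSig.ar i) → U),
    (fun j => γ (x j)) ∈ AfS.Q (R := R) (M := U) i ↔ x ∈ AfS.Q (R := R) (M := U) i) ∧
    ∀ i, γ (a i) = a i}
  mul_mem' := by
    rintro γ δ ⟨h1, h2, h3⟩ ⟨h1', h2', h3'⟩
    refine ⟨fun i x => (h1 i (fun j => δ (x j))).trans (h1' i x),
      fun i x => (h2 i (fun j => δ (x j))).trans (h2' i x), fun i => ?_⟩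
    show γ (δ (a i)) = a i
    rw [h3' i, h3 i]
  one_mem' := ⟨fun i x => Iff.rfl, fun i x => Iff.rfl, fun i => rfl⟩
  inv_mem' := by
    rintro γ ⟨h1, h2, h3⟩
    have key : ∀ {k : ℕ} (x : Fin k → U), (fun j => γ (γ.symm (x j))) = x := fun x => by
      funext j
      exact γ.apply_symm_apply (x j)
    refine ⟨fun i x => ?_, fun i x => ?_, fun i => ?_⟩
    · have h4 := h1 i (fun j => γ.symm (x j))
      rw [key] at h4
      exact h4.symm
    · have h4 := h2 i (fun j => γ.symm (x j))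
      rw [key] at h4
      exact h4.symm
    · show γ.symm (a i) = a i
      rw [LinearEquiv.symm_apply_eq, h3 i]

/-- the automorphism as an isomorphism of affine structures -/
def Gm.ae {U : Ad R} {ι : Type} {a : ι → U} (γ : Gm U a) : AIe R U U :=
  ⟨⟨γ.1, fun i x => (γ.2.1 i x).symm⟩, fun i x => (γ.2.2.1 i x).symm⟩

@[simp] theorem Gm.ae_apply {U : Ad R} {ι : Type} {a : ι → U} (γ : Gm U a) (x : U) :
    Gm.ae γ x = γ.1 x := rfl

theorem Gm.fix {U : Ad R} {ι : Type} {a : ι → U} (γ : Gm U a) (i : ι) : γ.1 (a i) = a i :=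
  γ.2.2.2 i

/-- an isomorphism which fixes `a` -/
def Gm.mk {U : Ad R} {ι : Type} {a : ι → U} (e : AIe R U U) (h : ∀ i, e (a i) = a i) : Gm U a :=
  ⟨e.toIe.toLinearEquiv, fun i x => (e.toIe.pres i x).symm, fun i x => (e.presQ i x).symm, h⟩

@[simp] theorem Gm.mk_apply {U : Ad R} {ι : Type} {a : ι → U} (e : AIe R U U)
    (h : ∀ i, e (a i) = a i) (x : U) : (Gm.mk e h).1 x = e x := rfl

/-- images of elementary submodules under automorphisms -/
theorem El.map {U : Ad R} {N : Submodule R U} (h : El U N) (e : AIe R U U) :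
    El U (N.map e.toIe.toLinearEquiv.toLinearMap) := by
  intro n a φ s ha hy
  obtain ⟨y, hy1, hy2⟩ := hy
  have hmem : ∀ z : U, e.symm z ∈ N ↔ z ∈ N.map e.toIe.toLinearEquiv.toLinearMap := by
    intro z
    constructor
    · intro h1
      exact ⟨e.symm z, h1, e.apply_symm_apply z⟩
    · rintro ⟨w, hw, rfl⟩
      have h2 : e.symm (e w) = w := e.symm_apply_apply w
      have h3 : e.symm (e.toIe.toLinearEquiv.toLinearMap w) = w := h2
      rw [h3]
      exact hw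
  have key : ∀ (ψ : PP R (Fin n ⊕ Fin 1)) (z : Fin 1 → U),
      ASat ψ U (Sum.elim (e.symm ∘ a) z) ↔ ASat ψ U (Sum.elim a (e ∘ z)) := by
    intro ψ z
    rw [← asat_iso e]
    have h2 : (e ∘ Sum.elim (e.symm ∘ a) z : Fin n ⊕ Fin 1 → U) = Sum.elim a (e ∘ z) := by
      funext j
      cases j with
      | inl j => exact e.apply_symm_apply (a j)
      | inr j => rfl
    rw [h2]
  have hc : (e ∘ (e.symm ∘ y) : Fin 1 → U) = y := by
    funext j
    exact e.apply_symm_apply (y j)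
  obtain ⟨z, hz1, hz2, hz3⟩ := h n (e.symm ∘ a) φ s (fun i => (hmem _).2 (ha i))
    ⟨e.symm ∘ y, by rw [key, hc]; exact hy1, fun ψ hψ => by rw [key, hc]; exact hy2 ψ hψ⟩
  refine ⟨e ∘ z, ⟨z 0, hz1, rfl⟩, (key _ _).1 hz2, fun ψ hψ h3 => hz3 ψ hψ ((key _ _).2 h3)⟩

/-- composition of an elementary embedding with an automorphism -/
theorem Emb.act {U : Ad R} {M : Type} [AddCommGroup M] [AfS R M] {f : Hm R M U} (h : Emb U f)
    (e : AIe R U U) : Emb U (Hm.comp e.hm f) := by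
  refine ⟨⟨e.prQ.comp h.1.1, fun n φ x hx => h.1.2 n φ x ?_⟩, ?_⟩
  · have h1 := hx.map e.symm.prQ
    have h2 : (e.symm.hm ∘ (Hm.comp e.hm f) ∘ x : Fin n → U) = f ∘ x := by
      funext i
      exact e.symm_apply_apply (f (x i))
    rw [h2] at h1
    exact h1
  · have h1 : LinearMap.range (Hm.comp e.hm f).toLinearMap =
        (LinearMap.range f.toLinearMap).map e.toIe.toLinearEquiv.toLinearMap :=
      LinearMap.range_comp _ _
    rw [h1]
    exact h.2.map e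

/-- the action on the models: the embedding is composed with the inverse -/
def AM.act {U : Ad R} {ι : Type} {a : ι → U} (γ : Gm U a) (p : AM U a) : AM U a :=
  ⟨⟨p.1.1, Hm.comp (Gm.ae γ).symm.hm p.1.2⟩, p.2.1.act _, by
    intro i
    obtain ⟨m, hm⟩ := p.2.2 i
    refine ⟨m, ?_⟩
    show γ.1.symm (p.1.2 m) = a i
    rw [hm, LinearEquiv.symm_apply_eq, Gm.fix]⟩

/-- the action on the families -/
def actE (U : Ad R) {ι : Type} (a : ι → U) (Y : Md R) (γ : Gm U a) :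
    EF U a Y →ₗ[((Own R U).Q Y)ᵐᵒᵖ] EF U a Y where
  toFun := fun d p => d (AM.act γ p)
  map_add' := fun d d' => rfl
  map_smul' := fun q d => rfl

theorem actE_mul (U : Ad R) {ι : Type} (a : ι → U) (Y : Md R) (γ δ : Gm U a) (d : EF U a Y) :
    actE U a Y (γ * δ) d = actE U a Y γ (actE U a Y δ d) := rfl

theorem actE_one (U : Ad R) {ι : Type} (a : ι → U) (Y : Md R) (d : EF U a Y) :
    actE U a Y 1 d = d := rfl

/-- an orbit class of tuples: all tuples of which a conjugate lies in `D` -/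
def OrbS (U : Ad R) {ι : Type} (a : ι → U) (Y : Md R)
    (D : Submodule ((Own R U).Q Y)ᵐᵒᵖ (EF U a Y)) : Set ((h : ℕ) × (Fin h → EF U a Y)) :=
  {p | ∃ γ : Gm U a, ∀ i, actE U a Y γ (p.2 i) ∈ D}

/-! ### Affine entailment (in `U`) -/

/-- finitely many formulas of the affine type `S` imply `ψ` in `U` -/
def AEnt (U : Ad R) {κ : Type} (S : Set (PP R κ)) (ψ : PP R κ) : Prop :=
  ∃ s : Finset (PP R κ), ↑s ⊆ S ∧ ∀ x : κ → U, (∀ φ ∈ s, ASat φ U x) → ASat ψ U x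

end

/-! ### Facts used from the blocks T and Q -/

/-- the models are countable members of `X`, the embeddings are elementary for formulas in both
readings -/
def St_AMP : Prop := ∀ (R : Type) [RSig R] [Countable R] (U : Ad R), MonA R U →
  ∀ (ι : Type) (a : ι → U) (p : AM U a), (Own R U).In p.1.1 ∧ Countable p.1.1 ∧
    Function.Injective p.1.2 ∧ (∀ (κ : Type) [Finite κ] (φ : PP R κ) (x : κ → p.1.1),
      Sat φ U (fun i => p.1.2 (x i)) ↔ Sat φ p.1.1 x) ∧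
    ∀ (κ : Type) [Finite κ] (φ : PP R κ) (x : κ → p.1.1),
      ASat φ U (fun i => p.1.2 (x i)) ↔ ASat φ p.1.1 x

/-- cosets of finite index have points in each model (`St_COS` for the image of `p`) -/
def St_COM : Prop := ∀ (R : Type) [RSig R] [Countable R] (U : Ad R), MonA R U →
  ∀ (ι κ : Type) [Finite ι] [Finite κ] (a : ι → U) (p : AM U a) (φ : PP R (ι ⊕ κ)) (ψ : PP R κ)
  (t : κ → U), ASat φ U (Sum.elim a t) → FIn U {zer φ} {ψ} →
  ∃ y : κ → p.1.1, ASat φ U (Sum.elim a (fun i => p.1.2 (y i))) ∧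
    Sat ψ U ((fun i => p.1.2 (y i)) - t)

/-- compactness for affine types: an inclusion in `U` is an entailment (saturation) -/
def St_ENA : Prop := ∀ (R : Type) [RSig R] [Countable R] (U : Ad R), MonA R U →
  ∀ (κ : Type) [Finite κ] (S : Set (PP R κ)) (ψ : PP R κ),
  (∀ x : κ → U, ARe S U x → ASat ψ U x) → AEnt U S ψ

/-! ### 5.1 the values -/

/-- `St_EXZ` for arbitrary finite index types -/
def St_EXG : Prop := ∀ (R : Type) [RSig R] [Countable R] (X : Ax R) (κ : Type) [Finite κ]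
  (S : Set (PP R κ)) (N M : Md R) (g : κ → N) (f : Hm R N (MI M)), X.Honest S N g →
  X.In M → (X.exMk N M f = 0 ↔ ∃ y : κ → MI M, Re S (MI M) y ∧
    ∀ i, f (g i) = MI.sh M (y i) - y i)

/-- a map from an honest module which sends the generators into `χ(M)`, `χ ≤ S` a formula, represents
zero -/
def St_EXP : Prop := ∀ (R : Type) [RSig R] [Countable R] (X : Ax R) (κ : Type) [Finite κ]
  (S : Set (PP R κ)) (N M : Md R) (g : κ → N) (f : Hm R N (MI M)), X.Honest S N g →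
  X.P S (MI M) (fun i => f (g i)) → X.exMk N M f = 0

/-- 5.1 the sequences -/
def St_SEQ : Prop := ∀ (R : Type) [RSig R] [Countable R] (U : Ad R), MonA R U →
  ∀ (ι κ : Type) [Finite ι] [Finite κ] (a : ι → U) (V : Set (PP R (ι ⊕ κ))) (ψ : PP R κ)
  (t : κ → U) (p : AM U a), ARe V U (Sum.elim a t) → FIn U (zer '' V) {ψ} →
  ∃ s : κ → ℕ → p.1.1,
    (∀ φ ∈ V, ∃ m₀, ∀ m ≥ m₀, ASat φ U (Sum.elim a (fun i => p.1.2 (s i m)))) ∧
    ∃ m₀, ∀ m ≥ m₀, Sat ψ U ((fun i => p.1.2 (s i m)) - t)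

/-- 5.1 existence, uniqueness, vanishing of the value. The difference of two sequences satisfies the
homogeneous formulas `zer φ`, `φ ∈ V` (`ASat.sub`), so the proof of `VMF/DLX.lean` applies. -/
def St_DLX : Prop := ∀ (R : Type) [RSig R] [Countable R] (U : Ad R), MonA R U →
  ∀ (ι κ : Type) [Finite ι] [Finite κ] (a : ι → U) (V : Set (PP R (ι ⊕ κ))) (ψ : PP R κ)
  (t : κ → U) (N : Md R) (g : κ → N) (p : AM U a), ARe V U (Sum.elim a t) →
  FIn U (zer '' V) {ψ} → (Own R U).Honest (zer '' V ∪ {ψ}) N g →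
  (∃ e, IsDelF U a V ψ t N g p e) ∧
  (∀ e e', IsDelF U a V ψ t N g p e → IsDelF U a V ψ t N g p e' → e = e') ∧
  ∀ e, IsDelF U a V ψ t N g p e → (e = 0 ↔ ∃ y : κ → p.1.1,
    ARe V U (Sum.elim a (fun i => p.1.2 (y i))) ∧ Sat ψ U ((fun i => p.1.2 (y i)) - t))

/-! ### 5.2 restriction, products, action of the automorphisms -/

/-- 5.2 (i) restriction. The affine entailments `V' ⊢ φ(x, t ∘ f)` are finite implications in `U`; as
`V'` is satisfied by `(a, t')` they imply the homogeneous ones for `zer '' V'` (subtract). -/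
def St_DRS : Prop := ∀ (R : Type) [RSig R] [Countable R] (U : Ad R), MonA R U →
  ∀ (ι κ κ' : Type) [Finite ι] [Finite κ] [Finite κ'] (a : ι → U) (V : Set (PP R (ι ⊕ κ)))
  (V' : Set (PP R (ι ⊕ κ'))) (ψ : PP R κ) (ψ' : PP R κ') (t' : κ' → U) (N N' : Md R) (g : κ → N)
  (g' : κ' → N') (f : κ → κ'), (Own R U).Honest (zer '' V ∪ {ψ}) N g →
  (Own R U).Honest (zer '' V' ∪ {ψ'}) N' g' → ARe V' U (Sum.elim a t') →
  (∀ φ ∈ V, AEnt U V' (ren (Sum.map id f) φ)) →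
  (Own R U).Ent (zer '' V' ∪ {ψ'}) (ren f ψ) →
  ∃ ρ : Hm R N N', (∀ i, ρ (g i) = g' (f i)) ∧ ∀ (p : AM U a) (e' : (Own R U).ex N' p.1.1.md),
    IsDelF U a V' ψ' t' N' g' p e' →
    IsDelF U a V ψ (t' ∘ f) N g p ((Own R U).exMap ρ p.1.1.md e')

/-- 5.2 products of two facts -/
def St_PRD : Prop := ∀ (R : Type) [RSig R] [Countable R] (U : Ad R), MonA R U →
  ∀ (ι κ₁ κ₂ : Type) [Finite ι] [Finite κ₁] [Finite κ₂] (a : ι → U)
  (V₁ : Set (PP R (ι ⊕ κ₁))) (V₂ : Set (PP R (ι ⊕ κ₂))) (ψ₁ : PP R κ₁) (ψ₂ : PP R κ₂)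
  (t₁ : κ₁ → U) (t₂ : κ₂ → U) (N₁ N₂ Y : Md R) (g₁ : κ₁ → N₁) (g₂ : κ₂ → N₂)
  (v₁ : Hm R Y N₁) (v₂ : Hm R Y N₂) (d₁ d₂ : EF U a Y), Fact U a V₁ ψ₁ t₁ → Fact U a V₂ ψ₂ t₂ →
  (Own R U).Honest (zer '' V₁ ∪ {ψ₁}) N₁ g₁ → (Own R U).Honest (zer '' V₂ ∪ {ψ₂}) N₂ g₂ →
  IsVal U a V₁ ψ₁ t₁ N₁ g₁ v₁ d₁ → IsVal U a V₂ ψ₂ t₂ N₂ g₂ v₂ d₂ → d₁ + d₂ ∈ FV U a Y

/-- Every element of `TT` is the value of one fact. -/
def St_TTS : Prop := ∀ (R : Type) [RSig R] [Countable R] (U : Ad R), MonA R U →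
  ∀ (ι : Type) [Finite ι] (a : ι → U) (Y : Md R), ∀ d ∈ TT U a Y, d ∈ FV U a Y

/-- Automorphisms which fix `a` move facts and their values. -/
def St_ACF : Prop := ∀ (R : Type) [RSig R] (U : Ad R)
  (ι κ : Type) (a : ι → U) (V : Set (PP R (ι ⊕ κ))) (ψ : PP R κ)
  (t : κ → U) (N Y : Md R) (g : κ → N) (v : Hm R Y N) (d : EF U a Y) (γ : Gm U a),
  (Fact U a V ψ t → Fact U a V ψ (fun i => γ.1 (t i))) ∧
  (IsVal U a V ψ t N g v d → IsVal U a V ψ (fun i => γ.1 (t i)) N g v (actE U a Y γ d)) ∧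
  (∀ d ∈ TT U a Y, actE U a Y γ d ∈ TT U a Y)

/-- The value depends only on the coset `t + (q_V ∧ ψ)(U)`. -/
def St_CSF : Prop := ∀ (R : Type) [RSig R] (U : Ad R)
  (ι κ : Type) (a : ι → U) (V : Set (PP R (ι ⊕ κ))) (ψ : PP R κ)
  (t t' : κ → U) (N Y : Md R) (g : κ → N) (v : Hm R Y N) (d : EF U a Y),
  Re (zer '' V ∪ {ψ}) U (t' - t) → (Fact U a V ψ t → Fact U a V ψ t') ∧
  (IsVal U a V ψ t N g v d → IsVal U a V ψ t' N g v d)

/-- Finite orbits. -/
def St_ORF : Prop := ∀ (R : Type) [RSig R] [Countable R] (U : Ad R), MonA R U →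
  ∀ (ι : Type) [Finite ι] (a : ι → U) (Y : Md R), ∀ d ∈ TT U a Y,
    {d' | ∃ γ : Gm U a, d' = actE U a Y γ d}.Finite

/-! ### 5.3 representation -/

/-- 5.3 (REP) each value of a fact is the value of a fact along an isomorphism. As `VMF/RPF.lean`:
`V'_n(x, t₀, y) := ∃ t_n, e : V_0(x, t₀) ∧ V_n(x, t_n) ∧ ψ(t_n - t₀) ∧ θ(t_n - t₀, e) ∧ ζ_n(y - e)` with `V_0`,
`V_n` read affinely and `ψ`, `θ`, `ζ_n` homogeneously (`hom`); use `IsAP` (pairs of readings). -/
def St_RPF : Prop := ∀ (R : Type) [RSig R] [Countable R] (U : Ad R), MonA R U →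
  ∀ (ι κ l : Type) [Finite ι] [Finite κ] [Finite l] (a : ι → U) (V : Set (PP R (ι ⊕ κ)))
  (ψ : PP R κ) (t : κ → U) (N : Md R) (g : κ → N) (Z : Set (PP R l)) (Nz : Md R) (gz : l → Nz)
  (v : Hm R Nz N), Fact U a V ψ t → (Own R U).Honest (zer '' V ∪ {ψ}) N g → Full U Z →
  (Own R U).Honest Z Nz gz →
  ∃ (κ' : Type) (_ : Finite κ') (V' : Set (PP R (ι ⊕ κ'))) (ψ' : PP R κ') (t' : κ' → U) (N' : Md R)
    (g' : κ' → N') (i : Hm R Nz N') (j : Hm R N' Nz), Fact U a V' ψ' t' ∧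
    (Own R U).Honest (zer '' V' ∪ {ψ'}) N' g' ∧ (Own R U).Eqv (Hm.comp j i) Hm.id ∧
    (Own R U).Eqv (Hm.comp i j) Hm.id ∧
    ∀ (p : AM U a) (e : (Own R U).ex N p.1.1.md) (e' : (Own R U).ex N' p.1.1.md),
      IsDelF U a V ψ t N g p e → IsDelF U a V' ψ' t' N' g' p e' →
      (Own R U).exMap v p.1.1.md e = (Own R U).exMap i p.1.1.md e'

/-- 5.2 (iii) each fact may be replaced by one with `PIn U (zer '' V) {ψ₁}` -/
def St_PRE : Prop := ∀ (R : Type) [RSig R] [Countable R] (U : Ad R), MonA R U → ClaimA U.md →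
  ∀ (ι κ : Type) [Finite ι] [Finite κ] (a : ι → U) (V : Set (PP R (ι ⊕ κ)))
  (ψ : PP R κ) (t : κ → U) (N : Md R) (g : κ → N), Fact U a V ψ t →
  (Own R U).Honest (zer '' V ∪ {ψ}) N g →
  ∃ (ψ₁ : PP R κ) (N₁ : Md R) (g₁ : κ → N₁) (ρ : Hm R N₁ N) (j : Hm R N N₁),
    Fact U a V ψ₁ t ∧ PIn U (zer '' V) {ψ₁} ∧ (Own R U).Honest (zer '' V ∪ {ψ₁}) N₁ g₁ ∧
    (Own R U).Eqv (Hm.comp j ρ) Hm.id ∧ (Own R U).Eqv (Hm.comp ρ j) Hm.id ∧
    ∀ (p : AM U a) (e : (Own R U).ex N p.1.1.md), IsDelF U a V ψ t N g p e →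
      IsDelF U a V ψ₁ t N₁ g₁ p ((Own R U).exMap ρ p.1.1.md e)

/-- the facts with given `(V, t)` -/
def St_FEX : Prop := ∀ (R : Type) [RSig R] [Countable R] (U : Ad R), MonA R U → ClaimA U.md →
  ∀ (ι κ : Type) [Finite ι] [Finite κ] (a : ι → U) (V : Set (PP R (ι ⊕ κ))) (t : κ → U),
  ARe V U (Sum.elim a t) → ∃ ψ : PP R κ, Fact U a V ψ t ∧ PIn U (zer '' V) {ψ}

/-! ### 5.5 exactly -/

/-- 5.5 (one fact over another). `St_KIL` for the type `zer '' W ∪ {ψW}`, `W = app(a, t)`, and the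
homogeneous formula `θ(0, u, y)`: `(0, u, y)` satisfies the homogeneous type of `(a, t, b)` by
subtraction. For a model `p` let `T` be a sequence for `(W, ψW, t)`; for large `m` choose `B_m` in `M` with
`θ(a, T_m, B_m)` (affine reading; the formula `∃ y θ(x, t, y)` is in `W`). -/
def St_EXA : Prop := ∀ (R : Type) [RSig R] [Countable R] (U : Ad R), MonA R U →
  ∀ (ι κ l : Type) [Finite ι] [Finite κ] [Finite l] (a : ι → U) (t : κ → U) (ψW : PP R κ)
  (NW : Md R) (gW : κ → NW) (b : l → U) (θ : PP R ((ι ⊕ κ) ⊕ l)) (V : Set (PP R (ι ⊕ l)))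
  (ψ : PP R l) (N : Md R) (g : l → N), Fact U a (app U (Sum.elim a t)) ψW t →
  (Own R U).Honest (zer '' app U (Sum.elim a t) ∪ {ψW}) NW gW →
  HGen (R := R) U (app (R := R) U (Sum.elim a t)) U (Sum.elim a t) b θ → Fact U a V ψ b →
  PIn U (zer '' V) {ψ} → (Own R U).Honest (zer '' V ∪ {ψ}) N g →
  ∃ μ : Hm R N NW, ∀ (p : AM U a) (e : (Own R U).ex N p.1.1.md)
    (e' : (Own R U).ex NW p.1.1.md),
    IsDelF U a V ψ b N g p e → IsDelF U a (app U (Sum.elim a t)) ψW t NW gW p e' →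
    e = (Own R U).exMap μ p.1.1.md e'

/-- 5.5 (a generic tuple of facts) -/
def St_EXB : Prop := ∀ (R : Type) [RSig R] [Countable R] (U : Ad R), MonA R U →
  ∀ (ι : Type) [Finite ι] (a : ι → U) (m : ℕ) (κ : Fin m → Type) [∀ j, Finite (κ j)]
  (V : ∀ j, Set (PP R (ι ⊕ κ j))) (ψ : ∀ j, PP R (κ j)) (t : ((j : Fin m) × κ j) → U)
  (N : Fin m → Md R) (g : ∀ j, κ j → N j), (∀ j, Fact U a (V j) (ψ j) (fun i => t ⟨j, i⟩)) →
  (∀ j, (Own R U).Honest (zer '' V j ∪ {ψ j}) (N j) (g j)) →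
  FIn U (cup fun j => zer '' V j ∪ {ψ j}) (zer '' app (R := R) U (Sum.elim a t)) →
  ∃ ψW : PP R ((j : Fin m) × κ j), Fact U a (app U (Sum.elim a t)) ψW t ∧
    ∀ (NW : Md R) (gW : ((j : Fin m) × κ j) → NW),
      (Own R U).Honest (zer '' app U (Sum.elim a t) ∪ {ψW}) NW gW →
      ∃ μ : ∀ j, Hm R NW (N j), ∀ (p : AM U a) (e : (Own R U).ex NW p.1.1.md)
        (ee : ∀ j, (Own R U).ex (N j) p.1.1.md),
        IsDelF U a (app U (Sum.elim a t)) ψW t NW gW p e →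
        (∀ j, IsDelF U a (V j) (ψ j) (fun i => t ⟨j, i⟩) (N j) (g j) p (ee j)) →
        e = ∑ j, (Own R U).exMap (μ j) p.1.1.md (ee j)

/-- 5.5 (the models `M_D`): from the affine forms of (TL), (TF4) and homogeneity -/
def St_MDL : Prop := ∀ (R : Type) [RSig R] [Countable R] (U : Ad R), MonA R U → ClaimA U.md →
  ∀ (ι : Type) [Finite ι] (a : ι → U) (κ : ℕ → Type) [∀ j, Finite (κ j)]
  (V : ∀ j, Set (PP R (ι ⊕ κ j))) (ψ : ∀ j, PP R (κ j)) (t : ∀ j, κ j → U),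
  (∀ j, Fact U a (V j) (ψ j) (t j)) →
  ∃ (p : AM U a) (t' : ∀ j, κ j → U), (∀ j i, ∃ m, p.1.2 m = t' j i) ∧
    (∀ m, ∃ γ : Gm U a, ∀ j < m, Re (zer '' V j ∪ {ψ j}) U
      (fun i => t' j i - γ.1 (t j i))) ∧
    (∀ m, FIn U (cup fun j : Fin m => zer '' V j ∪ {ψ j})
      (zer '' app (R := R) U (Sum.elim a (fun q : (j : Fin m) × κ j => t' q.1 q.2)))) ∧
    ∀ (l : Type) [Finite l] (b : l → p.1.1), ∃ (m : ℕ) (θ : PP R ((ι ⊕ (j : Fin m) × κ j) ⊕ l)),
      HGen (R := R) U (app (R := R) U (Sum.elim a (fun q : (j : Fin m) × κ j => t' q.1 q.2))) U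
        (Sum.elim a (fun q : (j : Fin m) × κ j => t' q.1 q.2)) (fun i => p.1.2 (b i)) θ

/-- 5.5 (EXACTLY) -/
def St_SPN : Prop := ∀ (R : Type) [RSig R] [Countable R] (U : Ad R), MonA R U → ClaimA U.md →
  ∀ (ι l : Type) [Finite ι] [Finite l] (a : ι → U) (Z : Set (PP R l)) (Y : Md R) (y : l → Y),
  Full U Z → (Own R U).Honest Z Y y → ∀ d : ℕ → EF U a Y, (∀ j, d j ∈ TT U a Y) →
  ∃ (p : AM U a) (d' : ℕ → EF U a Y),
    (∀ m, ∃ γ : Gm U a, ∀ j < m, actE U a Y γ (d j) = d' j) ∧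
    Submodule.span ((Own R U).Q Y)ᵐᵒᵖ (range d') = TR U a Y p

/-! ### 6 the least level-one formula -/

/-- 6.1 the age of a model over `a` determines the orbits of the realised values -/
def St_AGF : Prop := ∀ (R : Type) [RSig R] [Countable R] (U : Ad R), MonA R U →
  ∀ (n : ℕ) (l : Type) [Finite l] (a : Fin n → U) (Z : Set (PP R l)) (Y : Md R) (y : l → Y),
  Full U Z → (Own R U).Honest Z Y y → ∀ p p' : AM U a,
  (∀ (k : ℕ) (b : Fin k → p.1.1), ∃ b' : Fin k → p'.1.1,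
    app (R := R) U (Sum.elim a (fun i => p'.1.2 (b' i))) =
      app (R := R) U (Sum.elim a (fun i => p.1.2 (b i)))) →
  OrbS U a Y (TR U a Y p) ⊆ OrbS U a Y (TR U a Y p')

/-- one full type of which all others are retracts, and the chain condition (homogeneous) -/
def FTY {R : Type} [RSig R] (U : Ad R) (Y : Md R) : Prop :=
  (∃ (l : Type) (_ : Finite l) (Z : Set (PP R l)) (y : l → Y), Full U Z ∧
    (Own R U).Honest Z Y y) ∧ DCCR ((Own R U).Q Y) ∧
  ∀ (κ : Type) [Finite κ] (S : Set (PP R κ)) (N : Md R) (g : κ → N), Full U S →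
    (Own R U).Honest S N g → ∃ r : ℕ, (Own R U).Retr N (Fin r → Y)

/-- the ages of the pairs `(M, a)`, affine types -/
def AgeC {R : Type} [RSig R] (U : Ad R) : Prop := ∀ n : ℕ,
  {A : Set ((k : ℕ) × Set (PP R (Fin n ⊕ Fin k))) | ∃ (M : Ad R) (x : Fin n → M), InK U M ∧
    A = {q | ∃ c : Fin q.1 → M, q.2 = app M (Sum.elim x c)}}.Countable

/-- 6.2, 6.3: all submodules of `TT` are finitely generated -/
def St_NTH : Prop := ∀ (R : Type) [RSig R] [Countable R] (U : Ad R), MonA R U → ClaimA U.md →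
  AgeC U → ∀ Y : Md R, FTY U Y → ∀ (n : ℕ) (a : Fin n → U), ∀ D ≤ TT U a Y, D.FG

/-- 6.4: every tuple of a model is exact for an affine level-one formula, over all models of `K` -/
def St_UMT : Prop := ∀ (R : Type) [RSig R] [Countable R] (U : Ad R), MonA R U → ClaimA U.md →
  AgeC U → (∃ Y : Md R, FTY U Y) → ∀ (M : Ad R), InK U M → ∀ (n : ℕ) (a : Fin n → M),
    ∃ V : L1 R (Fin n), ASat1 V M a ∧ ∀ W : L1 R (Fin n), ASat1 W M a →
      ∀ (M' : Ad R), InK U M' → ∀ x : Fin n → M', ASat1 V M' x → ASat1 W M' x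

end Pool.Agent.AVF
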