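import Pool.Agent.AVF.StC

/-!
# AVF, block C: finite index of the type of a finite part of a generic sequence (GFI, helper58)
-/

set_option autoImplicit false
set_option linter.unusedSectionVars false
set_option linter.unusedVariables false

namespace Pool.Agent.AVF

open Set Pool.Agent.AVC Pool.Agent.AVC.Ax

/-- a subgroup whose image and whose kernel have finite index has finite index -/
private theorem GFI_relIndex {A B : Type} [AddCommGroup A] [AddCommGroup B] (π : A →+ B)
    (X H : AddSubgroup A) (h1 : (AddSubgroup.map π (H ⊓ X)).relIndex (AddSubgroup.map π X) ≠ 0)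
    (h2 : H.relIndex (X ⊓ π.ker) ≠ 0) : H.relIndex X ≠ 0 := by
  have e1 : (AddSubgroup.comap π (AddSubgroup.map π (H ⊓ X)) ⊓ X).relIndex X ≠ 0 := by
    rw [AddSubgroup.inf_relIndex_right, AddSubgroup.relIndex_comap]
    exact h1
  have e0 : AddSubgroup.comap π (AddSubgroup.map π (H ⊓ X)) ⊓ X = (X ⊓ π.ker) ⊔ (H ⊓ X) := by
    ext x
    rw [AddSubgroup.mem_inf, AddSubgroup.mem_comap, AddSubgroup.mem_sup]
    constructor
    · rintro ⟨⟨y, hy, hxy⟩, hx⟩
      refine ⟨x - y, ⟨X.sub_mem hx hy.2, ?_⟩, y, hy, by abel⟩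
      show π (x - y) = 0
      rw [map_sub, hxy, sub_self]
    · rintro ⟨y, hy, z, hz, rfl⟩
      refine ⟨⟨z, hz, ?_⟩, X.add_mem hy.1 hz.2⟩
      have h3 : π y = 0 := hy.2
      rw [map_add, h3, zero_add]
  have e2 : (H ⊓ X).relIndex (AddSubgroup.comap π (AddSubgroup.map π (H ⊓ X)) ⊓ X) ≠ 0 := by
    rw [e0, AddSubgroup.relIndex_sup_right]
    have h4 : H ⊓ (X ⊓ π.ker) ≤ (H ⊓ X) ⊓ (X ⊓ π.ker) := fun x hx => ⟨⟨hx.1, hx.2.1⟩, hx.2⟩
    intro h5
    refine h2 ?_
    rw [← AddSubgroup.inf_relIndex_right]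
    rw [← AddSubgroup.inf_relIndex_right] at h5
    exact AddSubgroup.relIndex_eq_zero_of_le_left h4 h5
  have e3 := AddSubgroup.relIndex_ne_zero_trans e2 e1
  rwa [AddSubgroup.inf_relIndex_right] at e3

section

variable {R : Type} [RSig R] [Countable R] {U : Ad R}

/-- extension of realisations of affine types of tuples -/
private theorem GFI_ext (hU : TB U) {α β : Type} [Finite α] [Finite β] (c : α → U) (d : β → U)
    (x : α → U) (hx : ARe (app (R := R) U c) U x) :
    ∃ y : β → U, ARe (app (R := R) U (Sum.elim c d)) U (Sum.elim x y) := by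
  obtain ⟨y, hy, -⟩ := hU.sat α β x (app (R := R) U (Sum.elim c d)) ∅ fun s t hs ht => by
    obtain ⟨χ, hχ, -⟩ := (isAP_finset s).ex
    obtain ⟨z, hz⟩ := (hχ U x).mpr (hx χ ((hχ U c).mp ⟨d, fun φ hφ => hs hφ⟩))
    exact ⟨z, hz, fun ψ hψ => absurd (ht hψ) (Set.notMem_empty ψ)⟩
  exact ⟨y, hy⟩

/-- the variables of the smaller blocks and of the last one -/
private def GFI_g (n : ℕ → ℕ) (k : ℕ) (F : Finset ℕ) :
    SZ n (F : Set ℕ) ⊕ Fin (n k) → SZ n ((insert k F : Finset ℕ) : Set ℕ) :=
  Sum.elim (fun p => ⟨p.1, Finset.mem_insert_of_mem p.2⟩)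
    (fun i => ⟨⟨k, i⟩, Finset.mem_insert_self k F⟩)

private theorem GFI_surj (n : ℕ → ℕ) (k : ℕ) (F : Finset ℕ) :
    Function.Surjective (GFI_g n k F) := by
  rintro ⟨⟨j, i⟩, h⟩
  rcases Finset.mem_insert.mp h with h1 | h1
  · have h2 : j = k := h1
    subst h2
    exact ⟨Sum.inr i, rfl⟩
  · exact ⟨Sum.inl ⟨⟨j, i⟩, h1⟩, rfl⟩

private theorem GFI_inj (n : ℕ → ℕ) (k : ℕ) (F : Finset ℕ) (hk : k ∉ F) :
    Function.Injective (GFI_g n k F) := by
  rintro (p | i) (q | j) h
  · have h1 : p.1 = q.1 := congrArg (fun z : SZ n ((insert k F : Finset ℕ) : Set ℕ) => z.1) h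
    exact congrArg Sum.inl (Subtype.ext h1)
  · have h1 : p.1 = ⟨k, j⟩ := congrArg Subtype.val h
    have h2 : p.1.1 = k := congrArg Sigma.fst h1
    exact absurd (h2 ▸ p.2) hk
  · have h1 : ⟨k, i⟩ = q.1 := congrArg Subtype.val h
    have h2 : k = q.1.1 := congrArg Sigma.fst h1
    exact absurd (h2 ▸ q.2) hk
  · have h1 : (⟨k, i⟩ : Si n) = ⟨k, j⟩ := congrArg Subtype.val h
    exact congrArg Sum.inr (eq_of_heq (Sigma.mk.inj h1).2)

/-- restriction to the smaller blocks -/
private def GFI_pi (U : Type) [AddCommGroup U] (n : ℕ → ℕ) (k : ℕ) (F : Finset ℕ) :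
    (SZ n ((insert k F : Finset ℕ) : Set ℕ) → U) →+ (SZ n (F : Set ℕ) → U) where
  toFun := fun x => x ∘ GFI_g n k F ∘ Sum.inl
  map_zero' := rfl
  map_add' := fun x y => rfl

/-- restriction to the last block -/
private def GFI_la (U : Type) [AddCommGroup U] (n : ℕ → ℕ) (k : ℕ) (F : Finset ℕ) :
    (SZ n ((insert k F : Finset ℕ) : Set ℕ) → U) →+ (Fin (n k) → U) where
  toFun := fun x => x ∘ GFI_g n k F ∘ Sum.inr
  map_zero' := rfl
  map_add' := fun x y => rfl

/-- the direction of the affine type of a tuple, along a surjection of the variables -/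
private theorem GFI_surj_re {α β : Type} (f : α → β) (hf : Function.Surjective f) (c x : β → U) :
    Re (app (R := R) U c) U x ↔ Re (app (R := R) U (c ∘ f)) U (x ∘ f) := by
  constructor
  · intro h φ hφ
    have h1 : ren f φ ∈ app (R := R) U c := (asat_ren f φ c).mpr hφ
    exact (sat_ren f φ x).mp (h _ h1)
  · intro h φ hφ
    have e1 : ∀ y : β → U, (y ∘ f) ∘ Function.surjInv hf = y := by
      intro y
      funext i
      exact congrArg y (Function.surjInv_eq hf i)
    have h1 : ren (Function.surjInv hf) φ ∈ app (R := R) U (c ∘ f) := by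
      show ASat _ U _
      rw [asat_ren, e1]
      exact hφ
    have h2 := h _ h1
    rwa [sat_ren, e1] at h2

end

theorem thm_GFI : St_GFI := by
  intro R _ _ U hU n S y hy hfib F
  induction F using Finset.induction_on_max with
  | empty =>
    have h1 : grp U (prodF n S ((∅ : Finset ℕ) : Set ℕ)) ≤
        grp (R := R) U (app (R := R) U (fun p : SZ n ((∅ : Finset ℕ) : Set ℕ) => y p.1)) := by
      intro x _
      have h2 : x = 0 := by
        funext p
        exact absurd p.2 (by simp)
      rw [h2]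
      exact AddSubgroup.zero_mem _
    unfold FIn
    rw [AddSubgroup.relIndex_eq_one.mpr h1]
    exact one_ne_zero
  | insert k F hlt ih =>
    have hk : k ∉ F := fun h => lt_irrefl k (hlt k h)
    let g := GFI_g n k F
    let yF : SZ n ((insert k F : Finset ℕ) : Set ℕ) → U := fun p => y p.1
    let yG : SZ n (F : Set ℕ) → U := fun p => y p.1
    let yk : Fin (n k) → U := fun i => y ⟨k, i⟩
    have hyg : yF ∘ g = Sum.elim yG yk := by
      funext p
      rcases p with p | i <;> rfl
    let π := GFI_pi U n k F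
    let lam := GFI_la U n k F
    let X : AddSubgroup (SZ n ((insert k F : Finset ℕ) : Set ℕ) → U) :=
      grp U (prodF n S ((insert k F : Finset ℕ) : Set ℕ))
    let H : AddSubgroup (SZ n ((insert k F : Finset ℕ) : Set ℕ) → U) :=
      grp U (app (R := R) U yF)
    have hxg : ∀ x : SZ n ((insert k F : Finset ℕ) : Set ℕ) → U,
        x ∘ g = Sum.elim (π x) (lam x) := by
      intro x
      funext p
      rcases p with p | i <;> rfl
    have hH : ∀ x : SZ n ((insert k F : Finset ℕ) : Set ℕ) → U, x ∈ H ↔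
        Re (app (R := R) U (Sum.elim yG yk)) U (Sum.elim (π x) (lam x)) := by
      intro x
      rw [← hxg x, ← hyg, ← GFI_surj_re g (GFI_surj n k F)]
      exact Iff.rfl
    have hHX : H ≤ X := by
      intro x hx
      rintro φ ⟨j, h, ψ, hψ, rfl⟩
      have h1 : hom (ren (fun i => ⟨⟨j, i⟩, h⟩) ψ) ∈ app (R := R) U yF := by
        show ASat _ U _
        rw [asat_hom, sat_ren]
        exact hy j ψ hψ
      exact (sat_hom _ _ x).mp (hx _ h1)
    show H.relIndex X ≠ 0
    refine GFI_relIndex π X H ?_ ?_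
    · have h1 : AddSubgroup.map π X ≤ grp U (prodF n S (F : Set ℕ)) := by
        rintro _ ⟨x, hx, rfl⟩
        rintro φ ⟨j, h, ψ, hψ, rfl⟩
        have h2 := hx (ren (fun i => ⟨⟨j, i⟩, Finset.mem_insert_of_mem h⟩) ψ)
          ⟨j, Finset.mem_insert_of_mem h, ψ, hψ, rfl⟩
        rw [sat_ren] at h2
        rw [sat_ren]
        exact h2
      have h2 : grp (R := R) U (app (R := R) U yG) ≤ AddSubgroup.map π (H ⊓ X) := by
        intro x hx
        obtain ⟨z, hz⟩ := GFI_ext hU yG yk (yG + x) (fun φ hφ => ASat.add hφ (hx φ hφ))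
        let w : SZ n ((insert k F : Finset ℕ) : Set ℕ) → U :=
          Function.extend g (Sum.elim x (z - yk)) 0
        have hw : w ∘ g = Sum.elim x (z - yk) := by
          funext p
          exact (GFI_inj n k F hk).extend_apply _ _ p
        have hw1 : π w = x := by
          funext p
          exact congrFun hw (Sum.inl p)
        have hw2 : lam w = z - yk := by
          funext i
          exact congrFun hw (Sum.inr i)
        have hw3 : w ∈ H := by
          rw [hH, hw1, hw2]
          intro φ hφ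
          have h3 := (hz φ hφ).sub (show ASat φ U (Sum.elim yG yk) from hφ)
          rw [← elim_sub, add_sub_cancel_left] at h3
          exact h3
        exact ⟨w, ⟨hw3, hHX hw3⟩, hw1⟩
      intro h3
      refine ih (AddSubgroup.relIndex_eq_zero_of_le_left h2 ?_)
      exact AddSubgroup.relIndex_eq_zero_of_le_right h1 h3
    · have h2 : ((grp U (afib (R := R) U (fun p : {p : Si n // p.1 < k} => y p.1)
          yk)).comap lam).relIndex (X ⊓ π.ker) ≠ 0 := by
        rw [AddSubgroup.relIndex_comap]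
        intro h8
        refine hfib k (AddSubgroup.relIndex_eq_zero_of_le_right ?_ h8)
        rintro _ ⟨x, hx, rfl⟩
        intro ψ hψ
        have h3 := hx.1 (ren (fun i => ⟨⟨k, i⟩, Finset.mem_insert_self k F⟩) ψ)
          ⟨k, Finset.mem_insert_self k F, ψ, hψ, rfl⟩
        rw [sat_ren] at h3
        exact h3
      intro h8
      rw [← AddSubgroup.inf_relIndex_right] at h2
      refine h2 (AddSubgroup.relIndex_eq_zero_of_le_left ?_ h8)
      rintro x ⟨hx1, -, hx2⟩
      have h3 : π x = 0 := hx2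
      rw [hH, h3]
      have h4 : Re (afib (R := R) U (fun p : {p : Si n // p.1 < k} => y p.1) yk) U
        (lam x) := hx1
      unfold afib at h4
      rw [re_zer] at h4
      intro φ hφ
      let f : SZ n (F : Set ℕ) → {p : Si n // p.1 < k} := fun p => ⟨p.1, hlt p.1.1 p.2⟩
      have h6 : ren (Sum.map f id) φ ∈ app (R := R) U
          (Sum.elim (fun p : {p : Si n // p.1 < k} => y p.1) yk) := by
        show ASat _ U _
        rw [asat_ren]
        have h5 : ASat φ U (Sum.elim yG yk) := hφ
        refine (iff_of_eq ?_).mp h5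
        congr 1
        funext i
        rcases i with i | i <;> rfl
      have h7 := h4 _ h6
      rw [sat_ren] at h7
      refine (iff_of_eq ?_).mp h7
      congr 1
      funext i
      rcases i with i | i <;> rfl

end Pool.Agent.AVF
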