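import Pool.Agent.AVF.StC
import Pool.Agent.AVC.HDS
import Pool.Agent.AVC.HPI
import Pool.Agent.AVC.EXT

/-!
# AVF (port of VMF), block C: the honest module of a finite part of a generic sequence (GIS)
-/

set_option autoImplicit false
set_option linter.unusedSectionVars false
set_option linter.unusedVariables false

namespace Pool.Agent.AVF

open Set Pool.Agent.AVC Pool.Agent.AVC.Ax

/-- the variables of a finite part of the sequence -/
private def GIS_e (n : ℕ → ℕ) (F : Finset ℕ) :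
    ((a : F) × Fin (n a)) ≃ SZ n (F : Set ℕ) where
  toFun := fun p => ⟨⟨p.1.1, p.2⟩, p.1.2⟩
  invFun := fun q => ⟨⟨q.1.1, q.2⟩, q.1.2⟩
  left_inv := fun p => rfl
  right_inv := fun q => rfl

private theorem GIS_re {R : Type} [RSig R] (n : ℕ → ℕ) (S : ∀ k, Set (PP R (Fin (n k))))
    (F : Finset ℕ) {M : Type} [AddCommGroup M] [MoS R M] (x : SZ n (F : Set ℕ) → M) :
    Re (ren (GIS_e n F) '' (⋃ a : F, ren (Sigma.mk a) '' S a)) M x ↔
      Re (prodF n S (F : Set ℕ)) M x := by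
  rw [re_ren, re_prodF]
  constructor
  · intro h k hk
    have h1 : Re (ren (Sigma.mk (⟨k, hk⟩ : F)) '' S k) M (x ∘ GIS_e n F) :=
      h.mono (subset_iUnion_of_subset (⟨k, hk⟩ : F) (Subset.refl _))
    rw [re_ren] at h1
    exact h1
  · intro h φ hφ
    obtain ⟨a, ha⟩ := mem_iUnion.mp hφ
    have h1 : Re (ren (Sigma.mk a) '' S a) M (x ∘ GIS_e n F) := by
      rw [re_ren]
      exact h a.1 a.2
    exact h1 φ ha

theorem thm_GIS (hP : St_PFF) : St_GIS := by
  classical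
  intro R _ _ U hT hQ n S N g y hS hN F hfi hy P b hPb
  have hpf := hP R U hT hQ n S F (fun k _ => hS k)
  have hD := (thm_HDS R (Own R U) F (fun a => Fin (n a)) (fun a => S a) (fun a => N a)
    (fun a => g a) (fun a => hN a))
  let D : Md R := ⟨Π₀ a : F, N a⟩
  have hD2 := thm_REI R (Own R U) _ _ (GIS_e n F) _ D _ hD
  have hgr : grp (R := R) U (ren (GIS_e n F) '' (⋃ a : F, ren (Sigma.mk a) '' S a)) =
      grp U (prodF n S (F : Set ℕ)) := by
    ext x
    exact GIS_re n S F x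
  have hf1 : Full U (ren (GIS_e n F) '' (⋃ a : F, ren (Sigma.mk a) '' S a)) := by
    refine hQ.fui _ _ _ hpf ?_ (fun x hx => (GIS_re n S F x).mp hx)
    unfold FIn
    rw [hgr, AddSubgroup.relIndex_self]
    exact one_ne_zero
  have hf2 : FIn U (ren (GIS_e n F) '' (⋃ a : F, ren (Sigma.mk a) '' S a))
      (app (R := R) U (fun p : SZ n (F : Set ℕ) => y p.1)) := by
    unfold FIn at hfi ⊢
    rw [hgr]
    exact hfi
  have hre : Re (ren (GIS_e n F) '' (⋃ a : F, ren (Sigma.mk a) '' S a)) U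
      (fun p : SZ n (F : Set ℕ) => y p.1) := by
    rw [GIS_re, re_prodF]
    exact fun k _ => hy k
  obtain ⟨ρ, hρ⟩ := thm_EX0 R (Own R U) _ _ D P _ b hD2 hPb.mem
    (fun φ hφ => (sat_hom φ P b).1 (hPb.sat (hom φ) ((asat_hom φ _).2 (hre φ hφ))))
  obtain ⟨j, h1, h2⟩ := hQ.qis _ _ _ D P _ b hf1 hf2
    (fun x hx φ hφ => (sat_hom φ _ x).1 (hx (hom φ) ((asat_hom φ _).2 (hre φ hφ)))) hD2 hPb ρ hρ
  let E : Ie R D (∀ i : F, N i) :=
    ⟨DFinsupp.linearEquivFunOnFintype (R := R) (M := fun a : F => (N a).car),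
      fun i x => Iff.rfl⟩
  constructor
  · refine ⟨Hm.comp E.hm j, Hm.comp ρ E.symm.hm, ?_⟩
    have h3 : Hm.comp (Hm.comp ρ E.symm.hm) (Hm.comp E.hm j) = Hm.comp ρ j := by
      ext x
      show ρ (E.symm (E (j x))) = ρ (j x)
      rw [E.symm_apply_apply]
    rw [h3]
    exact h2
  · refine ⟨Hm.comp ρ E.symm.hm, Hm.comp E.hm j, ?_⟩
    have h3 : Hm.comp (Hm.comp E.hm j) (Hm.comp ρ E.symm.hm) - Hm.id =
        Hm.comp (Hm.comp E.hm (Hm.comp j ρ - Hm.id)) E.symm.hm := by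
      refine Hm.ext fun x => ?_
      show E (j (ρ (E.symm x))) - x = E (j (ρ (E.symm x)) - E.symm x)
      rw [map_sub, E.apply_symm_apply]
    unfold Ax.Eqv
    rw [h3]
    exact Null.comp_right (Null.comp_left h1 _) _

end Pool.Agent.AVF
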