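import Pool.Agent.AVF.StC

/-!
# AVF (port of VMF) [GNP]: a generator for a class of honest modules (MVC/GEN of helper25, with a predicate; helper71)
-/

set_option autoImplicit false
set_option linter.unusedSectionVars false
set_option linter.unusedVariables false

namespace Pool.Agent.AVF

open Set Pool.Agent.AVC Pool.Agent.AVC.Ax

section

variable {R : Type} [RSig R] {X : Ax R}
variable {M N K : Type} [AddCommGroup M] [MoS R M] [AddCommGroup N] [MoS R N]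
  [AddCommGroup K] [MoS R K]

private theorem GNP_sum {ι : Type} (s : Finset ι) {u v : ι → Hm R M N}
    (h : ∀ i ∈ s, X.Eqv (u i) (v i)) : X.Eqv (∑ i ∈ s, u i) (∑ i ∈ s, v i) := by
  classical
  induction s using Finset.induction_on with
  | empty =>
    rw [Finset.sum_empty, Finset.sum_empty]
    exact Eqv.refl _
  | insert i s hi ih =>
    rw [Finset.sum_insert hi, Finset.sum_insert hi]
    exact Eqv.add (h i (Finset.mem_insert_self i s))
      (ih fun j hj => h j (Finset.mem_insert_of_mem hj))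

private theorem GNP_zero {u : Hm R M N} : X.Eqv u 0 ↔ X.Null u := by
  unfold Ax.Eqv
  rw [sub_zero]

private theorem GNP_triv (h : X.Null (Hm.id : Hm R M M)) : X.Retr M N := by
  refine ⟨0, 0, ?_⟩
  rw [Hm.comp_zero]
  exact (GNP_zero.2 h).symm

private theorem GNP_trans (h : X.Retr M N) (h' : X.Retr N K) : X.Retr M K := by
  obtain ⟨a, b, h1⟩ := h
  obtain ⟨c, d, h2⟩ := h'
  refine ⟨Hm.comp c a, Hm.comp b d, ?_⟩
  have h3 : X.Eqv (Hm.comp b (Hm.comp (Hm.comp d c) a)) (Hm.comp b (Hm.comp Hm.id a)) :=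
    Eqv.comp (Eqv.comp (Eqv.refl a) h2) (Eqv.refl b)
  exact Eqv.trans h3 h1

/-- the inclusions of the factors of a product -/
private def GNP_sg {ι : Type} [DecidableEq ι] (Q : ι → Type) [∀ i, AddCommGroup (Q i)]
    [∀ i, MoS R (Q i)] (a : ι) : Hm R (Q a) (∀ i, Q i) :=
  ⟨LinearMap.single R Q a, fun i x h b => by
    by_cases hb : b = a
    · subst hb
      have h1 : (fun j => (LinearMap.single R Q b (x j)) b) = x := by
        funext j
        exact Pi.single_eq_same b (x j)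
      rw [h1]
      exact h
    · have h1 : (fun j => (LinearMap.single R Q a (x j)) b) = 0 := by
        funext j
        exact Pi.single_eq_of_ne hb (x j)
      rw [h1]
      exact (MoS.P i).zero_mem⟩

private theorem GNP_sg_apply {ι : Type} [DecidableEq ι] (Q : ι → Type)
    [∀ i, AddCommGroup (Q i)] [∀ i, MoS R (Q i)] (a : ι) (x : Q a) :
    GNP_sg (R := R) Q a x = Pi.single a x := rfl

/-- sums of homomorphisms are computed pointwise -/
private theorem GNP_sa {ι : Type} (s : Finset ι) (u : ι → Hm R M N) (x : M) :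
    (∑ i ∈ s, u i) x = ∑ i ∈ s, u i x := by
  classical
  induction s using Finset.induction_on with
  | empty =>
    rw [Finset.sum_empty, Finset.sum_empty]
    rfl
  | insert i s hi ih =>
    rw [Finset.sum_insert hi, Finset.sum_insert hi, Hm.add_apply, ih]

/-- left invertible sums in a local ring -/
private theorem GNP_loc (hA : ∀ f : Hm R M M, (∃ g : Hm R M M, X.Eqv (Hm.comp g f) Hm.id) ∨
    ∃ g : Hm R M M, X.Eqv (Hm.comp g (Hm.id - f)) Hm.id)
    (hn : ¬ X.Null (Hm.id : Hm R M M)) {ι : Type} (a : ι → Hm R M M) (s : Finset ι) :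
    ∀ g : Hm R M M, X.Eqv (Hm.comp g (∑ i ∈ s, a i)) Hm.id →
      ∃ i ∈ s, ∃ g : Hm R M M, X.Eqv (Hm.comp g (a i)) Hm.id := by
  classical
  induction s using Finset.induction_on with
  | empty =>
    intro g hg
    rw [Finset.sum_empty, Hm.comp_zero] at hg
    exact absurd (GNP_zero.1 hg.symm) hn
  | insert i s hi ih =>
    intro g hg
    rw [Finset.sum_insert hi, Hm.comp_add] at hg
    rcases hA (Hm.comp g (a i)) with ⟨g', hg'⟩ | ⟨g', hg'⟩
    · exact ⟨i, Finset.mem_insert_self i s, Hm.comp g' g, hg'⟩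
    · have h1 : X.Eqv (Hm.id - Hm.comp g (a i)) (Hm.comp g (∑ i ∈ s, a i)) := by
        have h2 : X.Eqv (Hm.comp g (a i) + Hm.comp g (∑ i ∈ s, a i) + -(Hm.comp g (a i)))
            (Hm.id + -(Hm.comp g (a i))) := Eqv.add hg (Eqv.refl _)
        have h3 : Hm.comp g (a i) + Hm.comp g (∑ i ∈ s, a i) + -(Hm.comp g (a i)) = Hm.comp g (∑ i ∈ s, a i) := by abel
        rw [h3, ← sub_eq_add_neg] at h2
        exact h2.symm
      have h4 : X.Eqv (Hm.comp g' (Hm.comp g (∑ i ∈ s, a i))) (Hm.comp g' (Hm.id - Hm.comp g (a i))) :=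
        Eqv.comp h1.symm (Eqv.refl g')
      have h6 : X.Eqv (Hm.comp g' (Hm.comp g (∑ i ∈ s, a i))) Hm.id := Eqv.trans h4 hg'
      rw [← Hm.comp_assoc] at h6
      obtain ⟨j, hj, g'', h5⟩ := ih (Hm.comp g' g) h6
      exact ⟨j, Finset.mem_insert_of_mem hj, g'', h5⟩

/-- a local object which is a retract of a finite product is a retract of a factor -/
private theorem GNP_fac (hA : ∀ f : Hm R M M, (∃ g : Hm R M M, X.Eqv (Hm.comp g f) Hm.id) ∨
    ∃ g : Hm R M M, X.Eqv (Hm.comp g (Hm.id - f)) Hm.id)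
    (hn : ¬ X.Null (Hm.id : Hm R M M)) {ι : Type} [Fintype ι] (Q : ι → Type)
    [∀ i, AddCommGroup (Q i)] [∀ i, MoS R (Q i)] (h : X.Retr M (∀ i, Q i)) :
    ∃ i, X.Retr M (Q i) := by
  classical
  obtain ⟨α, β, h1⟩ := h
  have h2 : Hm.comp β α = ∑ i ∈ (Finset.univ : Finset ι),
      Hm.comp (Hm.comp β (GNP_sg Q i)) (Hm.comp (Hm.proj i) α) := by
    ext x
    rw [GNP_sa]
    show β (α x) = ∑ i, β (Pi.single i (α x i))
    rw [← map_sum, Finset.univ_sum_single]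
  rw [h2] at h1
  obtain ⟨i, -, g, h3⟩ := GNP_loc hA hn
    (fun i => Hm.comp (Hm.comp β (GNP_sg Q i)) (Hm.comp (Hm.proj i) α)) Finset.univ
    Hm.id h1
  exact ⟨i, Hm.comp (Hm.proj i) α, Hm.comp g (Hm.comp β (GNP_sg Q i)), h3⟩

/-- retracts between local objects go both ways -/
private theorem GNP_sym (hn : ¬ X.Null (Hm.id : Hm R M M))
    (hB : ∀ f : Hm R N N, (∃ g : Hm R N N, X.Eqv (Hm.comp g f) Hm.id) ∨
      ∃ g : Hm R N N, X.Eqv (Hm.comp g (Hm.id - f)) Hm.id)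
    (h : X.Retr M N) : X.Retr N M := by
  obtain ⟨α, β, h1⟩ := h
  have h2 : X.Eqv (Hm.comp (Hm.comp α β) (Hm.comp α β)) (Hm.comp α β) := by
    have h3 : X.Eqv (Hm.comp α (Hm.comp (Hm.comp β α) β)) (Hm.comp α (Hm.comp Hm.id β)) :=
      Eqv.comp (Eqv.comp (Eqv.refl β) h1) (Eqv.refl α)
    exact h3
  rcases hB (Hm.comp α β) with ⟨g, hg⟩ | ⟨g, hg⟩
  · refine ⟨β, α, ?_⟩
    have h4 : X.Eqv (Hm.comp (Hm.comp g (Hm.comp α β)) (Hm.comp α β)) (Hm.comp Hm.id (Hm.comp α β)) :=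
      Eqv.comp (Eqv.refl _) hg
    have h5 : X.Eqv (Hm.comp g (Hm.comp (Hm.comp α β) (Hm.comp α β))) (Hm.comp g (Hm.comp α β)) := Eqv.comp h2 (Eqv.refl g)
    exact Eqv.trans (Eqv.trans h4.symm h5) hg
  · exfalso
    apply hn
    have h4 : X.Eqv (Hm.comp (Hm.id - Hm.comp α β) (Hm.comp α β)) 0 := by
      rw [Hm.sub_comp, Hm.id_comp]
      have h5 : X.Eqv (-(Hm.comp (Hm.comp α β) (Hm.comp α β)) + Hm.comp α β)
          (-(Hm.comp (Hm.comp α β) (Hm.comp α β)) + Hm.comp (Hm.comp α β) (Hm.comp α β)) := Eqv.add (Eqv.refl _) h2.symm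
      rw [neg_add_cancel, neg_add_eq_sub] at h5
      exact h5
    have h6 : X.Eqv (Hm.comp α β) 0 := by
      have h7 : X.Eqv (Hm.comp (Hm.comp g (Hm.id - Hm.comp α β)) (Hm.comp α β)) (Hm.comp Hm.id (Hm.comp α β)) :=
        Eqv.comp (Eqv.refl _) hg
      have h8 : X.Eqv (Hm.comp g (Hm.comp (Hm.id - Hm.comp α β) (Hm.comp α β))) (Hm.comp g (0 : Hm R N N)) :=
        Eqv.comp h4 (Eqv.refl g)
      rw [Hm.comp_zero] at h8
      exact Eqv.trans h7.symm h8
    have h9 : X.Eqv (Hm.comp β (Hm.comp (Hm.comp α β) α)) (Hm.comp β (Hm.comp (0 : Hm R N N) α)) :=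
      Eqv.comp (Eqv.comp (Eqv.refl α) h6) (Eqv.refl β)
    rw [Hm.zero_comp, Hm.comp_zero] at h9
    have h10 : X.Eqv (Hm.comp (Hm.comp β α) (Hm.comp β α)) (Hm.comp Hm.id Hm.id) := Eqv.comp h1 h1
    exact GNP_zero.1 (Eqv.trans h10.symm h9)

/-- a factor of a product is a retract -/
private theorem GNP_pi {ι : Type} (Q : ι → Type)
    [∀ i, AddCommGroup (Q i)] [∀ i, MoS R (Q i)] (e : Ie R M (∀ i, Q i)) (j : ι) :
    X.Retr (Q j) M := by
  classical
  refine ⟨Hm.comp e.symm.hm (GNP_sg Q j), Hm.comp (Hm.proj j) e.hm, ?_⟩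
  have h4 : Hm.comp (Hm.comp (Hm.proj j) e.hm) (Hm.comp e.symm.hm (GNP_sg Q j)) = Hm.id := by
    ext y
    show e (e.symm (Pi.single j y)) j = y
    rw [Ie.apply_symm_apply, Pi.single_eq_same]
  rw [h4]
  exact Eqv.refl _

private theorem GNP_sumc {ι : Type} [Fintype ι] (u : ι → Hm R N K) (a : Hm R M N) :
    Hm.comp (∑ i, u i) a = ∑ i, Hm.comp (u i) a := by
  ext x
  rw [Hm.comp_apply, GNP_sa, GNP_sa]
  rfl

/-- a sum of retracts of `N` is a retract of a power of `N` -/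
private theorem GNP_pow {m : ℕ} (Q : Fin m → Type)
    [∀ i, AddCommGroup (Q i)] [∀ i, MoS R (Q i)] (ρ : ∀ i, Hm R M (Q i)) (ι : ∀ i, Hm R (Q i) M)
    (hsum : X.Eqv (∑ i, Hm.comp (ι i) (ρ i)) Hm.id) (α : ∀ i, Hm R (Q i) N) (β : ∀ i, Hm R N (Q i))
    (h : ∀ i, X.Eqv (Hm.comp (β i) (α i)) Hm.id) : X.Retr M (Fin m → N) := by
  have h1 : ∀ i, X.Eqv (Hm.comp (Hm.comp (ι i) (Hm.comp (β i) (Hm.proj i : Hm R (Fin m → N) N))) (Hm.pi fun i => Hm.comp (α i) (ρ i))) (Hm.comp (ι i) (ρ i)) := by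
    intro i
    have h2 : Hm.comp (Hm.comp (ι i) (Hm.comp (β i) (Hm.proj i : Hm R (Fin m → N) N))) (Hm.pi fun i => Hm.comp (α i) (ρ i)) = Hm.comp (ι i) (Hm.comp (Hm.comp (β i) (α i)) (ρ i)) := by
      ext x
      rfl
    rw [h2]
    have h3 : X.Eqv (Hm.comp (ι i) (Hm.comp (Hm.comp (β i) (α i)) (ρ i))) (Hm.comp (ι i) (Hm.comp Hm.id (ρ i))) :=
      Eqv.comp (Eqv.comp (Eqv.refl (ρ i)) (h i)) (Eqv.refl (ι i))
    rw [Hm.id_comp] at h3
    exact h3
  refine ⟨Hm.pi fun i => Hm.comp (α i) (ρ i),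
    ∑ i, Hm.comp (ι i) (Hm.comp (β i) (Hm.proj i : Hm R (Fin m → N) N)), ?_⟩
  rw [GNP_sumc]
  exact Eqv.trans (GNP_sum Finset.univ fun i _ => h1 i) hsum

end

/-- finitely many local modules -/
private theorem GNP_fin {R : Type} [RSig R] (X : Ax R) (Pr : Hon X → Prop)
    (hfin : ∀ Z : ℕ → Hon X, (∀ k, Pr (Z k)) →
      ∃ (k : ℕ) (F : Finset ℕ), k ∉ F ∧ X.Retr (Z k).N (∀ i : F, (Z i).N)) :
    ∃ s : Finset (Hon X), (∀ x ∈ s, Pr x) ∧ ∀ y : Hon X,
      (Pr y ∧ Loc y ∧ ¬ X.Null (Hm.id : Hm R y.N y.N)) → ∃ x ∈ s, X.Retr y.N x.N := by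
  classical
  by_contra hcon
  push Not at hcon
  obtain ⟨f, hf, hr⟩ := exists_seq_of_forall_finset_exists
    (fun y : Hon X => Pr y ∧ Loc y ∧ ¬ X.Null (Hm.id : Hm R y.N y.N))
    (fun x y => ¬ X.Retr y.N x.N) (fun s hs => hcon s fun x hx => (hs x hx).1)
  obtain ⟨k, F, hk, hR⟩ := hfin f fun k => (hf k).1
  obtain ⟨i, hi⟩ := GNP_fac (X := X) (M := (f k).N) (hf k).2.1 (hf k).2.2
    (fun i : F => ((f i).N : Type)) hR
  have hik : (i : ℕ) ≠ k := fun h => hk (h ▸ i.2)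
  rcases Nat.lt_or_gt_of_ne hik with h | h
  · exact hr i k h hi
  · exact hr k i h (GNP_sym (hf k).2.2 (hf i).2.1 hi)

/-- [GNP] -/
theorem thm_GNP : St_GNP := by
  intro R _ _ X Pr hprod hfin hdec
  classical
  obtain ⟨s, hsP, hs⟩ := GNP_fin X Pr hfin
  obtain ⟨Y, hY, ⟨e⟩⟩ := hprod s.card (fun j => (s.equivFin.symm j).1)
    fun j => hsP _ (s.equivFin.symm j).2
  have h2 : ∀ x ∈ s, X.Retr x.N Y.N := by
    intro x hx
    have h5 : X.Retr ((s.equivFin.symm (s.equivFin ⟨x, hx⟩)).1).N Y.N :=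
      GNP_pi (X := X) (M := Y.N) (fun j => ((s.equivFin.symm j).1.N : Type)) e
        (s.equivFin ⟨x, hx⟩)
    rw [Equiv.symm_apply_apply] at h5
    exact h5
  have h3 : ∀ y : Hon X, Pr y → Loc y → X.Retr y.N Y.N := by
    intro y hP hy
    by_cases hn : X.Null (Hm.id : Hm R y.N y.N)
    · exact GNP_triv hn
    · obtain ⟨x, hx, h⟩ := hs y ⟨hP, hy, hn⟩
      exact GNP_trans h (h2 x hx)
  refine ⟨Y, hY, fun C hC => ?_⟩
  obtain ⟨m, A, ρ, ι, hP, hA, hρι, hsum⟩ := hdec C hC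
  choose α β hαβ using fun i => h3 (A i) (hP i) (hA i)
  exact ⟨m, GNP_pow (X := X) (M := C.N) (N := Y.N) (fun i => ((A i).N : Type)) ρ ι hsum α β hαβ⟩

end Pool.Agent.AVF
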