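import Pool.Agent.AVF.StC

/-!
# AVF (port of VMF) [MDZ]: the model generated by a part of a sequence of tuples (helper91)
-/

set_option autoImplicit false
set_option linter.unusedSectionVars false
set_option linter.unusedVariables false

namespace Pool.Agent.AVF

open Set Pool.Agent.AVC Pool.Agent.AVC.Ax

theorem thm_MDZ : St_MDZ := by
  intro R _ _ U hT n y Z
  obtain ⟨M, c, h1, h3, h4⟩ := hT.tl (SZ n Z) U (fun p => y p.1) (fun A =>
    ⟨fun i => y i.1.1, rfl⟩)
  refine ⟨M, c, h1, fun κ _ f => h3 κ f, fun l _ b A₀ => ?_⟩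
  obtain ⟨A, hA, θ, hθ⟩ := h4 l b A₀
  refine ⟨A, hA, θ, ?_⟩
  have h5 : app (R := R) M (fun i : A => c i) = app U (fun i : A => y i.1.1) :=
    h3 A (fun i : A => i.1)
  rw [h5] at hθ
  exact hθ

end Pool.Agent.AVF
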