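import Pool.Agent.AVF.StC

/-!
# AVF (port of VMF): finite products of full types in a sequence (helper6)
-/

set_option autoImplicit false
set_option linter.unusedSectionVars false
set_option linter.unusedVariables false

namespace Pool.Agent.AVF

open Set Pool.Agent.AVC Pool.Agent.AVC.Ax

section

variable {R : Type} [RSig R]

/-- the graph of a bijection of the variables is a formula -/
theorem PFF_graph {κ ι : Type} [Finite ι] (e : κ ≃ ι) : ∃ θ : PP R (κ ⊕ ι),
    ∀ (M : Type) [AddCommGroup M] [MoS R M] (x : κ → M) (y : ι → M),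
      Sat θ M (Sum.elim x y) ↔ y = x ∘ e.symm := by
  obtain ⟨θ, hθ⟩ := (isPP_zero (R := R) (ι := ι)).subst
    (fun i : ι => (Finsupp.single (Sum.inr i) (1 : R) : (κ ⊕ ι) →₀ R) -
      Finsupp.single (Sum.inl (e.symm i)) 1)
  refine ⟨θ, fun M _ _ x y => ?_⟩
  rw [← hθ]
  constructor
  · intro h
    funext i
    have h1 := congrFun h i
    simp only [map_sub, Finsupp.linearCombination_single, one_smul, Sum.elim_inr,
      Sum.elim_inl, Pi.zero_apply] at h1
    exact sub_eq_zero.1 h1
  · rintro rfl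
    funext i
    simp

/-- fullness is invariant under bijections of the variables -/
theorem PFF_reidx {U : Md R} (hQ : QB U) {κ ι : Type} [Finite κ] [Finite ι] (e : κ ≃ ι)
    {S : Set (PP R κ)} {S' : Set (PP R ι)} (hS : Full U S)
    (h : ∀ y : ι → U, Re S' U y ↔ Re S U (y ∘ e)) : Full U S' := by
  obtain ⟨θ, hθ⟩ := PFF_graph (R := R) e
  refine hQ.fut κ ι S θ S' hS (fun x _ => ⟨x ∘ e.symm, (hθ U _ _).2 rfl⟩) fun y => ?_
  constructor
  · intro hy
    refine ⟨y ∘ e, (h y).1 hy, (hθ U _ _).2 ?_⟩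
    funext i
    simp
  · rintro ⟨x, hx, hxy⟩
    have h1 := (hθ U _ _).1 hxy
    subst h1
    rw [h]
    have h2 : (x ∘ e.symm) ∘ e = x := by
      funext i
      simp
    rw [h2]
    exact hx

/-- the variables of the product for `insert k F` -/
noncomputable def PFF_e (n : ℕ → ℕ) (F : Finset ℕ) (k : ℕ) (hk : k ∉ F) :
    {p : Si n // p.1 ∈ (F : Set ℕ)} ⊕ Fin (n k) ≃
      {p : Si n // p.1 ∈ ((insert k F : Finset ℕ) : Set ℕ)} := by
  refine Equiv.ofBijective (Sum.elim (fun p => ⟨p.1, ?_⟩) (fun i => ⟨⟨k, i⟩, ?_⟩)) ⟨?_, ?_⟩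
  · rw [Finset.coe_insert]
    exact Or.inr p.2
  · rw [Finset.coe_insert]
    exact Or.inl rfl
  · rintro (⟨⟨a, i⟩, ha⟩ | i) (⟨⟨b, j⟩, hb⟩ | j) h
    · simp only [Sum.elim_inl, Subtype.mk.injEq] at h
      simp_all
    · simp only [Sum.elim_inl, Sum.elim_inr, Subtype.mk.injEq, Sigma.mk.injEq] at h
      exact absurd (h.1 ▸ ha) hk
    · simp only [Sum.elim_inl, Sum.elim_inr, Subtype.mk.injEq, Sigma.mk.injEq] at h
      exact absurd (h.1 ▸ hb) hk
    · simp only [Sum.elim_inr, Subtype.mk.injEq, Sigma.mk.injEq, heq_eq_eq, true_and] at h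
      rw [h]
  · rintro ⟨⟨a, i⟩, ha⟩
    rw [Finset.coe_insert] at ha
    rcases ha with ha | ha
    · have ha' : a = k := ha
      subst ha'
      exact ⟨Sum.inr i, rfl⟩
    · exact ⟨Sum.inl ⟨⟨a, i⟩, ha⟩, rfl⟩

end

theorem thm_PFF : St_PFF := by
  intro R _ _ U hT hQ n S F
  induction F using Finset.induction_on with
  | empty =>
    intro _ x hx
    have h0 : x = 0 := by
      funext p
      exact absurd p.2 (by simp)
    rw [h0]
    exact Re.zero _
  | insert k F hk ih =>
    intro h
    have h1 := ih fun j hj => h j (Finset.mem_insert_of_mem hj)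
    have h2 := h k (Finset.mem_insert_self k F)
    have h3 := hQ.fup _ _ _ _ h1 h2
    refine PFF_reidx hQ (PFF_e n F k hk) h3 fun y => ?_
    rw [re_prodF, re_union, re_ren, re_ren, re_prodF]
    constructor
    · intro hy
      refine ⟨fun j hj => ?_, ?_⟩
      · have h4 := hy j (by
          rw [Finset.coe_insert]
          exact Or.inr hj)
        exact h4
      · have h4 := hy k (by
          rw [Finset.coe_insert]
          exact Or.inl rfl)
        exact h4
    · rintro ⟨h4, h5⟩ j hj
      have hj' := hj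
      rw [Finset.coe_insert] at hj'
      rcases hj' with hj' | hj'
      · have e : j = k := hj'
        subst e
        exact h5
      · exact h4 j hj'

end Pool.Agent.AVF
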