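import Pool.Agent.AVF.COV
import Pool.Agent.AVF.Defs

/-!
# AVF: the Tarski-Vaught test for tuples (helper68)

`El.tv`: if `M` is an elementary submodule of `U` (test for one variable), then each condition
`φ ∧ ¬ ψ₁ ∧ ..` over a finite tuple of `M`, in finitely many variables, which is satisfied in `U`, is
satisfied in `M`.  `El.tvp` is the form without negations, `El.asat`, `El.sat`: the affine and the
homogeneous formulas have the same meaning in `M` and in `U`.
-/

set_option autoImplicit false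
set_option linter.unusedSectionVars false
set_option linter.unusedVariables false

namespace Pool.Agent.AVF

open Set Pool.Agent.AVC Pool.Agent.AVC.Ax

section

variable {R : Type} [RSig R] {ι κ : Type}

/-- Two tuples for which the same intersections of `φ` with formulas of `s` are not empty satisfy the
same condition `∃ y, φ ∧ ¬ ψ₁ ∧ ..` -/
theorem tvt_cov_fin {M : Type} [AddCommGroup M] [AfS R M] [Countable κ] {a b : ι → M}
    (φ : PP R (ι ⊕ κ)) (s : Finset (PP R (ι ⊕ κ)))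
    (hP : ∀ J ⊆ s, (∃ y : κ → M, ASat φ M (Sum.elim a y) ∧
      ∀ ψ ∈ J, ASat ψ M (Sum.elim a y)) ↔ ∃ y : κ → M, ASat φ M (Sum.elim b y) ∧
      ∀ ψ ∈ J, ASat ψ M (Sum.elim b y))
    (h : ∃ y : κ → M, ASat φ M (Sum.elim a y) ∧ ∀ ψ ∈ s, ¬ ASat ψ M (Sum.elim a y)) :
    ∃ y : κ → M, ASat φ M (Sum.elim b y) ∧ ∀ ψ ∈ s, ¬ ASat ψ M (Sum.elim b y) := by
  classical
  obtain ⟨y, hy, hys⟩ := h
  obtain ⟨y₁, hy₁, -⟩ := (hP ∅ (Finset.empty_subset _)).mp ⟨y, hy, by simp⟩
  by_contra hcon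
  have hcov : ∀ z : κ → M, ASat φ M (Sum.elim b z) → ∃ ψ ∈ s, ASat ψ M (Sum.elim b z) := by
    intro z hz
    by_contra h
    exact hcon ⟨z, hz, fun ψ hψ hs => h ⟨ψ, hψ, hs⟩⟩
  have key := cover_iff (G := satGroup (zer φ) M) s
    (fun ψ => (satGroup (zer ψ) M).addSubgroupOf (satGroup (zer φ) M))
    (fun ψ => {t | ASat ψ M (Sum.elim b (y₁ + (t : κ → M)))})
    (fun ψ => {t | ASat ψ M (Sum.elim a (y + (t : κ → M)))})
    (fun ψ t ht u => by
      rw [AddSubgroup.mem_addSubgroupOf]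
      have h1 := asat_sub_iff ψ b _ (y₁ + (u : κ → M)) ht
      rw [add_sub_add_left_eq_sub] at h1
      exact h1)
    (fun ψ t ht u => by
      rw [AddSubgroup.mem_addSubgroupOf]
      have h1 := asat_sub_iff ψ a _ (y + (u : κ → M)) ht
      rw [add_sub_add_left_eq_sub] at h1
      exact h1)
    (by
      intro J hJ
      have hA : ∀ (c : ι → M) (z : κ → M), ASat φ M (Sum.elim c z) →
          ((∃ t : satGroup (zer φ) M, ∀ ψ ∈ J, ASat ψ M (Sum.elim c (z + (t : κ → M)))) ↔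
            ∃ y : κ → M, ASat φ M (Sum.elim c y) ∧ ∀ ψ ∈ J, ASat ψ M (Sum.elim c y)) := by
        intro c z hz
        constructor
        · rintro ⟨t, ht⟩
          refine ⟨z + t, ?_, ht⟩
          rw [asat_sub_iff φ c z _ hz, add_sub_cancel_left]
          exact t.2
        · rintro ⟨w, hw, hw'⟩
          refine ⟨⟨w - z, (asat_sub_iff φ c z w hz).mp hw⟩, fun ψ hψ => ?_⟩
          have h1 : z + (w - z) = w := add_sub_cancel _ _
          show ASat ψ M (Sum.elim c (z + (w - z)))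
          rw [h1]
          exact hw' ψ hψ
      exact (hA b y₁ hy₁).trans ((hP J hJ).symm.trans (hA a y hy).symm))
    (by
      intro t
      exact hcov _ ((asat_sub_iff φ b y₁ _ hy₁).mpr (by rw [add_sub_cancel_left]; exact t.2)))
  obtain ⟨ψ, hψ, h1⟩ := key 0
  refine hys ψ hψ ?_
  have h2 : ASat ψ M (Sum.elim a (y + 0)) := h1
  rwa [add_zero] at h2

/-- the test for one variable over a tuple with any finite index type -/
theorem El.tv1 {U : Ad R} {M : Submodule R U} (hM : El U M) [Finite ι] (a : ι → U)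
    (ha : ∀ i, a i ∈ M) (φ : PP R (ι ⊕ Fin 1)) (s : Finset (PP R (ι ⊕ Fin 1)))
    (h : ∃ y : Fin 1 → U, ASat φ U (Sum.elim a y) ∧ ∀ ψ ∈ s, ¬ ASat ψ U (Sum.elim a y)) :
    ∃ y : Fin 1 → U, y 0 ∈ M ∧ ASat φ U (Sum.elim a y) ∧ ∀ ψ ∈ s, ¬ ASat ψ U (Sum.elim a y) := by
  classical
  obtain ⟨n, ⟨e⟩⟩ := Finite.exists_equiv_fin ι
  have hr : ∀ (ρ : PP R (ι ⊕ Fin 1)) (y : Fin 1 → U),
      ASat (ren (Sum.map e id) ρ) U (Sum.elim (a ∘ e.symm) y) ↔ ASat ρ U (Sum.elim a y) := by
    intro ρ y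
    rw [asat_ren]
    have h1 : (Sum.elim (a ∘ e.symm) y : Fin n ⊕ Fin 1 → U) ∘ Sum.map e id = Sum.elim a y := by
      funext i
      rcases i with i | i
      · show a (e.symm (e i)) = a i
        rw [Equiv.symm_apply_apply]
      · rfl
    rw [h1]
  obtain ⟨y, hy, hys⟩ := h
  obtain ⟨z, hz0, hz1, hz2⟩ := hM n (a ∘ e.symm) (ren (Sum.map e id) φ)
    (s.image (ren (Sum.map e id))) (fun i => ha _) ⟨y, (hr φ y).2 hy, fun ψ hψ => by
      obtain ⟨ρ, hρ, rfl⟩ := Finset.mem_image.1 hψ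
      rw [hr]
      exact hys ρ hρ⟩
  refine ⟨z, hz0, (hr φ z).1 hz1, fun ψ hψ => ?_⟩
  rw [← hr]
  exact hz2 _ (Finset.mem_image_of_mem _ hψ)

/-- the test for `Fin n` -/
theorem El.tvn {U : Ad R} {M : Submodule R U} (hM : El U M) (n : ℕ) :
    ∀ (ι : Type) [Finite ι] (a : ι → U), (∀ i, a i ∈ M) → ∀ (φ : PP R (ι ⊕ Fin n))
    (s : Finset (PP R (ι ⊕ Fin n))),
    (∃ y : Fin n → U, ASat φ U (Sum.elim a y) ∧ ∀ ψ ∈ s, ¬ ASat ψ U (Sum.elim a y)) →
    ∃ y : Fin n → U, (∀ i, y i ∈ M) ∧ ASat φ U (Sum.elim a y) ∧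
      ∀ ψ ∈ s, ¬ ASat ψ U (Sum.elim a y) := by
  classical
  induction n with
  | zero =>
    rintro ι _ a ha φ s ⟨y, hy, hys⟩
    exact ⟨y, fun i => i.elim0, hy, hys⟩
  | succ n ih =>
    rintro ι _ a ha φ s ⟨y, hy, hys⟩
    let e : ι ⊕ Fin (n + 1) → (ι ⊕ Fin 1) ⊕ Fin n :=
      Sum.elim (fun i => Sum.inl (Sum.inl i)) (Fin.cases (Sum.inl (Sum.inr 0)) Sum.inr)
    have he : ∀ (b : Fin 1 → U) (z : Fin n → U),
        (Sum.elim (Sum.elim a b) z : (ι ⊕ Fin 1) ⊕ Fin n → U) ∘ e =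
          Sum.elim a (Fin.cons (b 0) z) := by
      intro b z
      funext i
      rcases i with i | i
      · rfl
      · refine Fin.cases ?_ (fun i => ?_) i
        · rfl
        · rfl
    have hr : ∀ (ρ : PP R (ι ⊕ Fin (n + 1))) (b : Fin 1 → U) (z : Fin n → U),
        ASat (ren e ρ) U (Sum.elim (Sum.elim a b) z) ↔ ASat ρ U (Sum.elim a (Fin.cons (b 0) z)) := by
      intro ρ b z
      rw [asat_ren, he]
    let φ' := ren e φ
    let s' := s.image (ren e)
    have hex : ∀ J : Finset (PP R ((ι ⊕ Fin 1) ⊕ Fin n)), ∃ ρ : PP R (ι ⊕ Fin 1),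
        ∀ x : ι ⊕ Fin 1 → U, ASat ρ U x ↔ ∃ z : Fin n → U, ASat φ' U (Sum.elim x z) ∧
          ∀ ψ ∈ J, ASat ψ U (Sum.elim x z) := by
      intro J
      obtain ⟨χ, hχ, -⟩ := ((isAP_sat φ').and (isAP_finset J)).ex
      exact ⟨χ, fun x => (hχ U x).symm⟩
    choose ρ hρ using hex
    let b : Fin 1 → U := fun _ => y 0
    obtain ⟨χ, hχ, -⟩ := isAP_finset (R := R)
      ((s'.powerset.filter fun J => ASat (ρ J) U (Sum.elim a b)).image ρ)
    obtain ⟨c, hc0, hc1, hc2⟩ := hM.tv1 a ha χ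
      ((s'.powerset.filter fun J => ¬ ASat (ρ J) U (Sum.elim a b)).image ρ) ⟨b, by
        rw [← hχ]
        intro ψ hψ
        obtain ⟨J, hJ, rfl⟩ := Finset.mem_image.1 hψ
        exact (Finset.mem_filter.1 hJ).2, fun ψ hψ => by
        obtain ⟨J, hJ, rfl⟩ := Finset.mem_image.1 hψ
        exact (Finset.mem_filter.1 hJ).2⟩
    rw [← hχ] at hc1
    obtain ⟨z, hz1, hz2⟩ := tvt_cov_fin (a := Sum.elim a b) (b := Sum.elim a c) φ' s' (by
      intro J hJ
      rw [← hρ, ← hρ]
      constructor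
      · intro h
        exact hc1 _ (Finset.mem_image_of_mem _ (Finset.mem_filter.2
          ⟨Finset.mem_powerset.2 hJ, h⟩))
      · intro h
        by_contra hn
        exact hc2 _ (Finset.mem_image_of_mem _ (Finset.mem_filter.2
          ⟨Finset.mem_powerset.2 hJ, hn⟩)) h)
      ⟨Fin.tail y, (hr φ b _).2 (by
        show ASat φ U (Sum.elim a (Fin.cons (y 0) (Fin.tail y)))
        rw [Fin.cons_self_tail]
        exact hy), fun ψ hψ => by
        obtain ⟨ψ', hψ', rfl⟩ := Finset.mem_image.1 hψ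
        rw [hr]
        show ¬ ASat ψ' U (Sum.elim a (Fin.cons (y 0) (Fin.tail y)))
        rw [Fin.cons_self_tail]
        exact hys ψ' hψ'⟩
    obtain ⟨w, hw0, hw1, hw2⟩ := ih (ι ⊕ Fin 1) (Sum.elim a c) (by
      rintro (i | i)
      · exact ha i
      · have h1 : i = 0 := Subsingleton.elim _ _
        rw [h1]
        exact hc0) φ' s' ⟨z, hz1, hz2⟩
    refine ⟨Fin.cons (c 0) w, ?_, (hr φ c w).1 hw1, fun ψ hψ => ?_⟩
    · refine Fin.cases ?_ (fun i => ?_)
      · exact hc0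
      · exact hw0 i
    · rw [← hr]
      exact hw2 _ (Finset.mem_image_of_mem _ hψ)

/-- **the Tarski-Vaught test for tuples** -/
theorem El.tv {U : Ad R} {M : Submodule R U} (hM : El U M) [Finite ι] [Finite κ] (a : ι → U)
    (ha : ∀ i, a i ∈ M) (φ : PP R (ι ⊕ κ)) (s : Finset (PP R (ι ⊕ κ)))
    (h : ∃ y : κ → U, ASat φ U (Sum.elim a y) ∧ ∀ ψ ∈ s, ¬ ASat ψ U (Sum.elim a y)) :
    ∃ y : κ → U, (∀ i, y i ∈ M) ∧ ASat φ U (Sum.elim a y) ∧
      ∀ ψ ∈ s, ¬ ASat ψ U (Sum.elim a y) := by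
  classical
  obtain ⟨n, ⟨e⟩⟩ := Finite.exists_equiv_fin κ
  have hr : ∀ (ρ : PP R (ι ⊕ κ)) (y : Fin n → U),
      ASat (ren (Sum.map id e) ρ) U (Sum.elim a y) ↔ ASat ρ U (Sum.elim a (y ∘ e)) := by
    intro ρ y
    rw [asat_ren]
    have h1 : (Sum.elim a y : ι ⊕ Fin n → U) ∘ Sum.map id e = Sum.elim a (y ∘ e) := by
      funext i
      cases i <;> rfl
    rw [h1]
  have he : ∀ y : κ → U, (y ∘ e.symm) ∘ e = y := by
    intro y
    funext i
    simp
  obtain ⟨y, hy, hys⟩ := h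
  obtain ⟨z, hz0, hz1, hz2⟩ := hM.tvn n ι a ha (ren (Sum.map id e) φ)
    (s.image (ren (Sum.map id e))) ⟨y ∘ e.symm, (hr φ _).2 (by rw [he]; exact hy), fun ψ hψ => by
      obtain ⟨ρ, hρ, rfl⟩ := Finset.mem_image.1 hψ
      rw [hr, he]
      exact hys ρ hρ⟩
  refine ⟨z ∘ e, fun i => hz0 _, (hr φ z).1 hz1, fun ψ hψ => ?_⟩
  rw [← hr]
  exact hz2 _ (Finset.mem_image_of_mem _ hψ)

/-- one formula -/
theorem El.tvp {U : Ad R} {M : Submodule R U} (hM : El U M) [Finite ι] [Finite κ] (a : ι → U)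
    (ha : ∀ i, a i ∈ M) (φ : PP R (ι ⊕ κ)) (h : ∃ y : κ → U, ASat φ U (Sum.elim a y)) :
    ∃ y : κ → U, (∀ i, y i ∈ M) ∧ ASat φ U (Sum.elim a y) := by
  obtain ⟨y, hy⟩ := h
  obtain ⟨z, h1, h2, -⟩ := hM.tv a ha φ ∅ ⟨y, hy, fun ψ hψ => absurd hψ (Finset.notMem_empty ψ)⟩
  exact ⟨z, h1, h2⟩

/-- atomic formulas in a submodule with the induced sets -/
theorem ahold_submodule {U : Ad R} (M : Submodule R U) (e : Atm R κ) (w : κ → M) :
    AHold e M w ↔ AHold e U (fun i => (w i : U)) := by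
  have key : ∀ t : κ →₀ R, ((Finsupp.linearCombination R w t : M) : U) =
      Finsupp.linearCombination R (fun i => (w i : U)) t := by
    intro t
    have h1 := lc_hm (Hm.subtype M) w t
    exact h1.symm
  rcases e with t | ⟨i, b, t⟩
  · show Finsupp.linearCombination R w t = 0 ↔
      Finsupp.linearCombination R (fun i => (w i : U)) t = 0
    rw [← key]
    exact (Submodule.coe_eq_zero (x := Finsupp.linearCombination R w t)).symm
  · have h1 : (fun j => ((Finsupp.linearCombination R w (t j) : M) : U)) =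
        fun j => Finsupp.linearCombination R (fun i => (w i : U)) (t j) := by
      funext j
      exact key (t j)
    cases b
    · show (fun j => ((Finsupp.linearCombination R w (t j) : M) : U)) ∈
        MoS.P (R := R) (M := U) i ↔ _
      rw [h1]
      exact Iff.rfl
    · show (fun j => ((Finsupp.linearCombination R w (t j) : M) : U)) ∈
        AfS.Q (R := R) (M := U) i ↔ _
      rw [h1]
      exact Iff.rfl

/-- affine formulas have the same meaning in an elementary submodule and in `U` -/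
theorem El.asat {U : Ad R} {M : Submodule R U} (hM : El U M) (φ : PP R κ) (x : κ → M) :
    ASat φ M x ↔ ASat φ U (fun i => (x i : U)) := by
  classical
  constructor
  · rintro ⟨y, hy⟩
    refine ⟨fun n => (y n : U), fun e he => ?_⟩
    have h1 := (ahold_submodule M e _).1 (hy e he)
    have h2 : (fun i => ((Sum.elim x y i : M) : U)) =
        Sum.elim (fun i => (x i : U)) fun n => (y n : U) := by
      funext i
      cases i <;> rfl
    rwa [h2] at h1
  · rintro ⟨y, hy⟩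
    obtain ⟨B, hB⟩ := pp_bd φ
    let F : Finset κ := (φ.toFinset.biUnion asup).preimage Sum.inl (Sum.inl_injective.injOn)
    have hF : ∀ e ∈ φ, ∀ i, Sum.inl i ∈ asup e → i ∈ F := by
      intro e he i hi
      exact Finset.mem_preimage.2 (Finset.mem_biUnion.2 ⟨e, List.mem_toFinset.2 he, hi⟩)
    let f : κ ⊕ ℕ → (F ⊕ Fin B) ⊕ ℕ := Sum.elim
      (fun i => if h : i ∈ F then Sum.inl (Sum.inl ⟨i, h⟩) else Sum.inr 0)
      (fun n => if h : n < B then Sum.inl (Sum.inr ⟨n, h⟩) else Sum.inr 0)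
    let Φ : PP R (F ⊕ Fin B) := φ.map (amap f)
    -- the values on the occurring variables
    have hf : ∀ e ∈ φ, ∀ (z : κ → U) (b : Fin B → U) (w y' : ℕ → U), (∀ n : Fin B, y' n = b n) →
        (AHold (amap f e) U (Sum.elim (Sum.elim (fun i : F => z i) b) w) ↔
          AHold e U (Sum.elim z y')) := by
      intro e he z b w y' hy'
      rw [ahold_amap]
      refine ahold_congr fun s hs => ?_
      rcases s with i | n
      · have h1 : i ∈ F := hF e he i hs
        simp [f, h1]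
      · have h1 : n < B := hB e he n hs
        simp only [Function.comp_apply, f, Sum.elim_inr, dif_pos h1, Sum.elim_inl]
        exact (hy' ⟨n, h1⟩).symm
    obtain ⟨b, hb0, w, hw⟩ := hM.tvp (fun i : F => ((x i : M) : U)) (fun i => (x i).2) Φ
      ⟨fun n : Fin B => y n, 0, fun e' he' => by
        obtain ⟨e, he, rfl⟩ := List.mem_map.1 he'
        exact (hf e he (fun i => (x i : U)) _ _ y fun n => rfl).2 (hy e he)⟩
    refine ⟨fun n => if h : n < B then ⟨b ⟨n, h⟩, hb0 _⟩ else 0, fun e he => ?_⟩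
    rw [ahold_submodule]
    have h1 := (hf e he (fun i => (x i : U)) b w
      (fun n => if h : n < B then b ⟨n, h⟩ else 0) (fun n => by simp)).1
      (hw _ (List.mem_map_of_mem he))
    refine (iff_of_eq (congrArg (AHold e U) ?_)).1 h1
    funext i
    rcases i with i | n
    · rfl
    · show (if h : n < B then b ⟨n, h⟩ else 0) =
        ((if h : n < B then (⟨b ⟨n, h⟩, hb0 _⟩ : M) else 0 : M) : U)
      by_cases h : n < B
      · rw [dif_pos h, dif_pos h]
      · rw [dif_neg h, dif_neg h]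
        rfl

/-- homogeneous formulas have the same meaning in an elementary submodule and in `U` -/
theorem El.sat {U : Ad R} {M : Submodule R U} (hM : El U M) (φ : PP R κ) (x : κ → M) :
    Sat φ M x ↔ Sat φ U (fun i => (x i : U)) := by
  rw [← asat_hom, hM.asat, asat_hom]

theorem El.app {U : Ad R} {M : Submodule R U} (hM : El U M) (x : κ → M) :
    app (R := R) M x = app (R := R) U (fun i => (x i : U)) :=
  Set.ext fun φ => hM.asat φ x

theorem El.pp {U : Ad R} {M : Submodule R U} (hM : El U M) (x : κ → M) :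
    pp (R := R) M x = pp (R := R) U (fun i => (x i : U)) :=
  Set.ext fun φ => hM.sat φ x

end

end Pool.Agent.AVF
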