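import Pool.Agent.AVF.StF
import Pool.Agent.AVF.SHR
import Pool.Agent.AVF.TVT

/-!
# AVF: cosets of finite index have points in each model (`St_COS`)
-/

set_option autoImplicit false
set_option linter.unusedSectionVars false
set_option linter.unusedVariables false

namespace Pool.Agent.AVF

open Set Pool.Agent.AVC Pool.Agent.AVC.Ax

/-- representatives of the cosets -/
theorem COS_reps {G : Type} [AddCommGroup G] {K H : AddSubgroup G} (h : K.relIndex H ≠ 0) :
    ∃ y : Fin (K.relIndex H) → G, (∀ a, y a ∈ H) ∧ ∀ a b, a ≠ b → y a - y b ∉ K := by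
  have h0 : Nat.card (H ⧸ K.addSubgroupOf H) = K.relIndex H := rfl
  have e : (H ⧸ K.addSubgroupOf H) ≃ Fin (Nat.card (H ⧸ K.addSubgroupOf H)) :=
    Nat.equivFinOfCardPos (by rw [h0]; exact h)
  rw [h0] at e
  choose y hy using fun a => QuotientAddGroup.mk_surjective (e.symm a)
  refine ⟨fun a => y a, fun a => (y a).2, fun a b hab hK => hab (e.symm.injective ?_)⟩
  rw [← hy a, ← hy b]
  symm
  rw [QuotientAddGroup.eq, AddSubgroup.mem_addSubgroupOf]
  show -(y b : G) + (y a : G) ∈ K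
  rwa [neg_add_eq_sub]

theorem mem_grp_single {R : Type} [RSig R] {U : Type} [AddCommGroup U] [MoS R U] {κ : Type}
    (χ : PP R κ) (x : κ → U) : x ∈ grp U ({χ} : Set (PP R κ)) ↔ Sat χ U x := by
  constructor
  · intro h
    exact h χ rfl
  · rintro h _ rfl
    exact h

/-- `m` inequivalent tuples in an elementary submodule -/
theorem El.reps {R : Type} [RSig R] {U : Ad R} {M : Submodule R U} (hM : El U M) {κ : Type}
    [Finite κ] (χ ψ : PP R κ) (m : ℕ) (h : ∃ y : Fin m → κ → U, (∀ i, Sat χ U (y i)) ∧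
      ∀ i j, i ≠ j → ¬ Sat ψ U (y i - y j)) :
    ∃ y : Fin m → κ → U, (∀ i k, y i k ∈ M) ∧ (∀ i, Sat χ U (y i)) ∧
      ∀ i j, i ≠ j → ¬ Sat ψ U (y i - y j) := by
  classical
  obtain ⟨y, hy1, hy2⟩ := h
  -- the positive formula
  obtain ⟨Φ, hΦ⟩ := isPP_finset (R := R)
    (Finset.univ.image fun i : Fin m => ren (fun k : κ => (i, k)) χ)
  choose d hd using fun p : Fin m × Fin m => exists_diff (R := R) ψ p.1 p.2
  let r : Fin m × κ → Empty ⊕ (Fin m × κ) := Sum.inr
  have hr : ∀ (ρ : PP R (Fin m × κ)) (b : Empty → U) (z : Fin m × κ → U),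
      ASat (ren r (hom ρ)) U (Sum.elim b z) ↔ Sat ρ U z := by
    intro ρ b z
    rw [asat_ren]
    show ASat (hom ρ) U z ↔ _
    rw [asat_hom]
  obtain ⟨z, hz0, hz1, hz2⟩ := hM.tv (fun i : Empty => i.elim) (fun i => i.elim)
    (ren r (hom Φ)) ((Finset.univ.filter fun p : Fin m × Fin m => p.1 ≠ p.2).image
      fun p => ren r (hom (d p))) ⟨fun p => y p.1 p.2, by
      rw [hr, ← hΦ]
      intro φ hφ
      obtain ⟨i, -, rfl⟩ := Finset.mem_image.1 hφ
      rw [sat_ren]
      exact hy1 i, by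
      intro φ hφ
      obtain ⟨p, hp, rfl⟩ := Finset.mem_image.1 hφ
      rw [hr, hd]
      exact hy2 _ _ (Finset.mem_filter.1 hp).2⟩
  refine ⟨fun i k => z (i, k), fun i k => hz0 _, fun i => ?_, fun i j hij h => ?_⟩
  · rw [hr, ← hΦ] at hz1
    have h1 := hz1 _ (Finset.mem_image_of_mem _ (Finset.mem_univ i))
    rw [sat_ren] at h1
    exact h1
  · refine hz2 _ (Finset.mem_image_of_mem _ (Finset.mem_filter.2
      ⟨Finset.mem_univ (i, j), hij⟩)) ?_
    rw [hr, hd]
    exact h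

theorem thm_COS : St_COS := by
  classical
  intro R _ U M hM ι κ _ _ a φ ψ t ha hφ hfi
  set m := (grp U ({ψ} : Set (PP R κ))).relIndex (grp U {zer φ}) with hm
  obtain ⟨y, hy1, hy2⟩ := COS_reps hfi
  obtain ⟨z, hz0, hz1, hz2⟩ := hM.reps (zer φ) ψ m ⟨y, fun i => (mem_grp_single _ _).1 (hy1 i),
    fun i j hij h => hy2 i j hij ((mem_grp_single _ _).2 h)⟩
  obtain ⟨y0, hy0, hy0'⟩ := hM.tvp a ha φ ⟨t, hφ⟩
  have hcos : ∀ u v : κ → U, ASat φ U (Sum.elim a u) →
      (ASat φ U (Sum.elim a v) ↔ Sat (zer φ) U (v - u)) := asat_sub_iff φ a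
  obtain ⟨b, c, hbc, h5⟩ := relIndex_many hfi
    (Fin.snoc (α := fun _ => κ → U) z (t - y0)) (by
      intro b
      refine Fin.lastCases ?_ (fun i => ?_) b
      · rw [Fin.snoc_last]
        exact (mem_grp_single _ _).2 ((hcos y0 t hy0').1 hφ)
      · rw [Fin.snoc_castSucc]
        exact (mem_grp_single _ _).2 (hz1 i))
  have key : ∀ i : Fin m, Sat ψ U ((t - y0) - z i) →
      ∃ y : κ → U, (∀ i, y i ∈ M) ∧ ASat φ U (Sum.elim a y) ∧ Sat ψ U (y - t) := by
    intro i hi
    refine ⟨y0 + z i, fun k => M.add_mem (hy0 k) (hz0 i k), ?_, ?_⟩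
    · rw [hcos y0 _ hy0', add_sub_cancel_left]
      exact hz1 i
    · have h6 := hi.neg
      have h7 : -((t - y0) - z i) = y0 + z i - t := by abel
      rwa [h7] at h6
  rw [mem_grp_single] at h5
  revert h5 hbc
  refine Fin.lastCases ?_ (fun i => ?_) b <;> refine Fin.lastCases ?_ (fun j => ?_) c
  · intro h
    exact absurd rfl h
  · intro _ h
    rw [Fin.snoc_last, Fin.snoc_castSucc] at h
    exact key j h
  · intro _ h
    rw [Fin.snoc_last, Fin.snoc_castSucc] at h
    refine key i ?_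
    have h6 := h.neg
    rwa [neg_sub] at h6
  · intro hij h
    rw [Fin.snoc_castSucc, Fin.snoc_castSucc] at h
    exact absurd h (hz2 i j fun h7 => hij (by rw [h7]))

end Pool.Agent.AVF
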