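import Pool.Agent.AVF.StF
import Pool.Agent.AVF.SHR

/-!
# AVF: finite index is seen by a finite part, inclusions are entailments (`St_FIC`, `St_ENU`), `St_SAP`

(helper91, helper44, helper68)
-/

set_option autoImplicit false
set_option linter.unusedSectionVars false
set_option linter.unusedVariables false

namespace Pool.Agent.AVF

open Set Pool.Agent.AVC Pool.Agent.AVC.Ax

/-- a saturated structure is saturated for finite tuples without parameters -/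
theorem MonM.satu {R : Type} [RSig R] {U : Md R} (hU : MonM R U) : SATU R U := by
  classical
  intro ι _ A B h
  have hr : ∀ (φ : PP R ι) (b : Empty → U) (x : ι → U),
      Sat (ren (Sum.inr : ι → Empty ⊕ ι) φ) U (Sum.elim b x) ↔ Sat φ U x := by
    intro φ b x
    rw [sat_ren]
    exact Iff.rfl
  obtain ⟨x, h1, h2⟩ := hU.sat Empty ι (fun i => i.elim) (ren Sum.inr '' A) (ren Sum.inr '' B) (by
    intro s t hs ht
    rw [Finset.subset_set_image_iff] at hs ht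
    obtain ⟨s', hs', rfl⟩ := hs
    obtain ⟨t', ht', rfl⟩ := ht
    obtain ⟨x, h1, h2⟩ := h s' t' hs' ht'
    refine ⟨x, fun φ hφ => ?_, fun ψ hψ => ?_⟩
    · obtain ⟨φ', hφ', rfl⟩ := Finset.mem_image.1 hφ
      rw [hr]
      exact h1 φ' hφ'
    · obtain ⟨ψ', hψ', rfl⟩ := Finset.mem_image.1 hψ
      rw [hr]
      exact h2 ψ' hψ')
  refine ⟨x, fun φ hφ => ?_, fun ψ hψ => ?_⟩
  · exact (hr φ _ x).1 (h1 _ ⟨φ, hφ, rfl⟩)
  · rw [← hr ψ (fun i => i.elim) x]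
    exact h2 _ ⟨ψ, hψ, rfl⟩

theorem thm_FIC : St_FIC := by
  classical
  intro R _ _ U hU κ _ S ψ hψ
  have hS : SATU R U := hU.satu
  by_contra hn
  push Not at hn
  set N := (grp U ({ψ} : Set (PP R κ))).relIndex (grp U S) with hN
  have hbig : ∀ s : Finset (PP R κ), ↑s ⊆ S → ∃ y : Fin (N + 1) → κ → U,
      (∀ a, ∀ φ ∈ s, Sat φ U (y a)) ∧ ∀ a b, a ≠ b → ¬ Sat ψ U (y a - y b) := by
    intro s hs
    have h1 := hn s hs
    unfold FIn at h1
    rw [not_not] at h1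
    obtain ⟨y, hy1, hy2⟩ := many_of_relIndex h1 (N + 1)
    refine ⟨y, fun a φ hφ => hy1 a φ hφ, fun a b hab hs => hy2 a b hab ?_⟩
    intro φ hφ
    rw [mem_singleton_iff] at hφ
    subst hφ
    exact hs
  choose d hd using fun p : Fin (N + 1) × Fin (N + 1) => exists_diff (R := R) ψ p.1 p.2
  obtain ⟨x, hx1, hx2⟩ := hS (Fin (N + 1) × κ)
    {φ | ∃ (a : Fin (N + 1)) (ρ : PP R κ), ρ ∈ S ∧ φ = ren (fun i => (a, i)) ρ}
    {φ | ∃ a b : Fin (N + 1), a ≠ b ∧ φ = d (a, b)} (by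
      intro s t hs ht
      have hs' : ∀ φ ∈ s, ∃ (a : Fin (N + 1)) (ρ : PP R κ), ρ ∈ S ∧
        φ = ren (fun i => (a, i)) ρ := fun φ hφ => hs hφ
      choose! A Ψ hΨ1 hΨ2 using hs'
      obtain ⟨y, hy1, hy2⟩ := hbig (s.image Ψ) (by
        intro ρ hρ
        rw [Finset.mem_coe, Finset.mem_image] at hρ
        obtain ⟨φ, hφ, rfl⟩ := hρ
        exact hΨ1 φ hφ)
      refine ⟨fun p => y p.1 p.2, fun φ hφ => ?_, fun ρ hρ => ?_⟩
      · rw [hΨ2 φ hφ, sat_ren]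
        exact hy1 (A φ) (Ψ φ) (Finset.mem_image_of_mem _ hφ)
      · obtain ⟨a, b, hab, rfl⟩ := ht hρ
        rw [hd]
        exact hy2 a b hab)
  obtain ⟨a, b, hab, h1⟩ := relIndex_many hψ (fun a i => x (a, i)) (fun a φ hφ => by
    have h2 := hx1 _ ⟨a, φ, hφ, rfl⟩
    rw [sat_ren] at h2
    exact h2)
  refine hx2 _ ⟨a, b, hab, rfl⟩ ?_
  rw [hd]
  exact h1 ψ rfl

/-- [ENU] -/
theorem thm_ENU : St_ENU := by
  classical
  intro R _ _ U hU κ _ S ψ h
  obtain ⟨s, hs, h1⟩ : ∃ s : Finset (PP R κ), ↑s ⊆ S ∧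
      ∀ x : κ → U, (∀ φ ∈ s, Sat φ U x) → Sat ψ U x := by
    by_contra hn
    push Not at hn
    obtain ⟨x, hx1, hx2⟩ := hU.satu κ S {ψ} (by
      intro s t hs ht
      obtain ⟨x, hx, hx'⟩ := hn s hs
      refine ⟨x, hx, fun ρ hρ => ?_⟩
      rw [mem_singleton_iff.1 (ht hρ)]
      exact hx')
    exact hx2 ψ rfl (h x hx1)
  obtain ⟨n, ⟨e⟩⟩ := Finite.exists_equiv_fin κ
  have hre : ∀ (M : Type) [AddCommGroup M] [MoS R M] (φ : PP R κ) (x : κ → M),
      Sat (ren e φ) M (x ∘ e.symm) ↔ Sat φ M x := by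
    intro M _ _ φ x
    rw [sat_ren]
    have h4 : (x ∘ e.symm) ∘ e = x := by
      funext i
      simp
    rw [h4]
  obtain ⟨χ, hχ⟩ := isPP_finset (R := R) (s.image (ren e))
  have hχ' : ∀ (M : Type) [AddCommGroup M] [MoS R M] (x : κ → M),
      Sat χ M (x ∘ e.symm) ↔ ∀ φ ∈ s, Sat φ M x := by
    intro M _ _ x
    rw [← hχ M]
    constructor
    · intro h2 φ hφ
      rw [← hre]
      exact h2 _ (Finset.mem_image_of_mem _ hφ)
    · intro h2 φ hφ
      obtain ⟨φ', hφ', rfl⟩ := Finset.mem_image.1 hφ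
      rw [hre]
      exact h2 φ' hφ'
  refine ⟨s, hs, ?_⟩
  intro M _ _ hM x hx
  have h2 : (⟨n, χ, ren e ψ⟩ : (n : ℕ) × (PP R (Fin n) × PP R (Fin n))) ∈ Own R U := by
    intro z hz
    have h5 : (z ∘ e) ∘ e.symm = z := by
      funext i
      simp
    rw [← h5] at hz ⊢
    exact (hre U ψ _).2 (h1 _ ((hχ' U _).1 hz))
  exact (hre M ψ x).1 (hM _ h2 (x ∘ e.symm) ((hχ' M x).2 hx))

/-- [SAP] the positive form of saturation -/
theorem thm_SAP : St_SAP := by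
  intro R _ _ U hU ι κ _ _ a V h
  obtain ⟨c, hc, -⟩ := hU.sat ι κ a V ∅ (by
    intro s t hs ht
    obtain ⟨c, hc⟩ := h s hs
    refine ⟨c, hc, fun ψ hψ => ?_⟩
    exact absurd (ht hψ) (Set.notMem_empty ψ))
  exact ⟨c, hc⟩

end Pool.Agent.AVF
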