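import Pool.Agent.AVF.StF

/-!
# VMF, module RFF: retracts of full types are full (helper30)
-/

set_option autoImplicit false
set_option linter.unusedVariables false

namespace Pool.Agent.AVF

open Set Pool.Agent.AVC Pool.Agent.AVC.Ax

theorem thm_RFF (hS : St_FUS) (h0 : St_EX0) (hE : St_ENU) : St_RFF := by
  intro R _ _ U hU κ l _ _ S S' N N' g g' hF hN hN' hR
  obtain ⟨α, β, hαβ⟩ := hR
  have hUin : (Own R U).In U := fun b hb => hb
  obtain ⟨n, ⟨e⟩⟩ := Finite.exists_equiv_fin l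
  -- the formula of the null map
  obtain ⟨χ₀, hχ₀, hχ₁⟩ := hαβ n (g' ∘ e.symm)
  set u : Hm R N' N' := Hm.comp β α - Hm.id with hu
  have hχg : Sat (ren e.symm χ₀) N' (u ∘ g') := by
    rw [sat_ren]
    exact hχ₁
  have hχS : ∀ ψ ∈ S', (Own R U).Le (ren e.symm χ₀) ψ := by
    intro ψ hψ M _ _ hM x hx
    rw [sat_ren] at hx
    have h1 : Sat (ren e ψ) N' (g' ∘ e.symm) := by
      rw [sat_ren]
      have h2 : (g' ∘ e.symm) ∘ e = g' := by
        funext i
        exact congrArg g' (e.symm_apply_apply i)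
      rw [h2]
      exact hN'.sat ψ hψ
    have h3 := hχ₀ (ren e ψ) h1 M hM _ hx
    rw [sat_ren] at h3
    have h4 : (x ∘ e.symm) ∘ e = x := by
      funext i
      exact congrArg x (e.symm_apply_apply i)
    rw [h4] at h3
    exact h3
  -- the formula which generates the type of `α g'` over `g`
  obtain ⟨θ₀, hθ₀, hθ₁⟩ := hN.gen n (α ∘ g' ∘ e.symm)
  have hmap : ∀ {M : Type} (x : κ → M) (y : l → M),
      Sum.elim x y ∘ Sum.map id e.symm = Sum.elim x (y ∘ e.symm) := by
    intro M x y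
    funext i
    cases i <;> rfl
  have hθg : Sat (ren (Sum.map id e.symm) θ₀) N (Sum.elim g (α ∘ g')) := by
    rw [sat_ren, hmap]
    exact hθ₀
  refine hS R U hU κ l S S' (ren (Sum.map id e.symm) θ₀) (ren e.symm χ₀) hF ?_ ?_ ?_ ?_
  · intro a ha
    obtain ⟨f, hf⟩ := h0 R (Own R U) κ S N U g a hN hUin ha
    refine ⟨f ∘ α ∘ g', ?_⟩
    have h1 := hθg.map f
    rw [Sum.comp_elim] at h1
    have h2 : f ∘ g = a := funext hf
    rw [h2] at h1
    exact h1
  · intro a y ha hy ψ hψ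
    rw [sat_ren, hmap] at hy
    have h1 : Sat ψ N (α ∘ g') := (hN'.sat ψ hψ).map α
    have h2 : Sat (ren (Sum.inr ∘ e) ψ : PP R (κ ⊕ Fin n)) N
        (Sum.elim g (α ∘ g' ∘ e.symm)) := by
      rw [sat_ren]
      have h3 : Sum.elim g (α ∘ g' ∘ e.symm) ∘ (Sum.inr ∘ e) = α ∘ g' := by
        funext i
        show α (g' (e.symm (e i))) = α (g' i)
        rw [e.symm_apply_apply]
      rw [h3]
      exact h1
    obtain ⟨s, hs, hs'⟩ := hθ₁ _ h2
    have h4 := hs' U hUin a (y ∘ e.symm) (fun φ hφ => ha φ (hs hφ)) hy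
    rw [sat_ren] at h4
    have h5 : Sum.elim a (y ∘ e.symm) ∘ (Sum.inr ∘ e) = y := by
      funext i
      show y (e.symm (e i)) = y i
      rw [e.symm_apply_apply]
    rw [h5] at h4
    exact h4
  · intro y hy ψ hψ
    exact hχS ψ hψ U hUin y hy
  · intro y hy
    obtain ⟨f, hf⟩ := h0 R (Own R U) l S' N' U g' y hN' hUin hy
    refine ⟨f ∘ β ∘ g, -(f ∘ u ∘ g'), ?_, (hχg.map f).neg, ?_⟩
    · intro φ hφ
      exact ((hN.sat φ hφ).map β).map f
    · have h1 := (hθg.map β).map f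
      rw [Sum.comp_elim, Sum.comp_elim] at h1
      have h2 : y - -(f ∘ u ∘ g') = f ∘ β ∘ α ∘ g' := by
        funext i
        show y i - -(f (u (g' i))) = f (β (α (g' i)))
        rw [hu, Hm.sub_apply, Hm.id_apply, Hm.comp_apply, map_sub, hf]
        abel
      rw [h2]
      exact h1

end Pool.Agent.AVF
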