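import Pool.Agent.AVF.StF
import Pool.Agent.AVF.SHR

/-!
# AVF, block Q, module TF6: cosets of finite index in full types have points in the models
(helper60, helper68)
-/

set_option autoImplicit false

namespace Pool.Agent.AVF

open Set Pool.Agent.AVC Pool.Agent.AVC.Ax

theorem thm_TF6 (hQ : St_FUQ) (hF : St_FIF) (hC : St_COS) : St_TF6 := by
  intro R _ _ U hU M hM κ _ S S' x hfull hfin hx
  obtain ⟨χ, h1, h2⟩ := hQ R U.md hU.md κ S S' hfull hfin
  obtain ⟨s, hs, h3⟩ := hF R U.md κ S S' hfin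
  obtain ⟨ψ, hψ⟩ := isPP_finset (R := R) s
  obtain ⟨c, w, hxc, hc, hw, hw'⟩ := h2 x hx
  -- the formula `χ` in the variables of `κ`
  have hz0 : ∀ y : κ → U, ASat (ren (Sum.inr : κ → Empty ⊕ κ) (hom χ)) U
      (Sum.elim (fun i => i.elim) y) ↔ Sat χ U y := by
    intro y
    rw [asat_ren, Sum.elim_comp_inr, asat_hom]
  have hzer : ∀ y : κ → U, Re ({zer (ren (Sum.inr : κ → Empty ⊕ κ) (hom χ))} : Set (PP R κ)) U y →
      Sat χ U y := by
    intro y hy
    have h4 := hy _ (mem_singleton _)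
    rw [sat_zer, sat_ren, Sum.elim_comp_inr, sat_hom] at h4
    exact h4
  have hfi : FIn (R := R) U {zer (ren (Sum.inr : κ → Empty ⊕ κ) (hom χ))} {ψ} := by
    refine (hfin.of_ge (S' := {zer (ren (Sum.inr : κ → Empty ⊕ κ) (hom χ))}) ?_).of_le ?_
    · intro y hy
      exact h1 y (hzer y hy)
    · intro y hy φ hφ
      rw [mem_singleton_iff] at hφ
      subst hφ
      exact (hψ U y).1 fun φ hφ => hy φ (hs hφ)
  obtain ⟨y, hyM, hy, hy'⟩ := hC R U M hM Empty κ (fun i => i.elim) _ ψ c (fun i => i.elim)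
    ((hz0 c).2 hc) hfi
  rw [hz0] at hy
  refine ⟨y, hyM, h1 _ hy, ?_⟩
  have h5 : Re S' U (y - c) := by
    exact h3 _ ((h1 _ hy).sub (h1 _ hc)) ((hψ U _).2 hy')
  have h6 : y - x = (y - c) - w := by
    rw [hxc]; abel
  rw [h6]
  exact h5.sub hw'

end Pool.Agent.AVF
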