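import Pool.Agent.AVF.TLI
import Pool.Agent.AVF.ISD
import Pool.Agent.AVF.ISG
import Pool.Agent.AVF.CLA

/-!
# AVF, block T: all statements of StT.lean without hypotheses (helper21)
-/

set_option autoImplicit false
set_option linter.unusedSectionVars false
set_option linter.unusedVariables false

namespace Pool.Agent.AVF

open Set Pool.Agent.AVC Pool.Agent.AVC.Ax

theorem hom_T : St_HOMP := fun R _ _ U hU ι _ a b h => homA_of hU ι a b h

theorem isd_T : St_ISD := thm_ISD

theorem isg_T : St_ISG := thm_ISG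

theorem dic_T : St_DIC := thm_DIC

theorem agh_T : St_AGH := thm_AGH

theorem tly_T : St_TLY := thm_TLY hom_T isd_T isg_T

theorem tlx_T : St_TLX := thm_TLX tly_T

theorem tli_T : St_TLI := thm_TLI tlx_T

theorem tlq_T : St_TLQ := fun R _ _ U hU ι _ P Q hQ hP hc => tlq tlx_T R U hU ι P Q hQ hP hc

theorem prm_T : St_PRM := thm_PRM tly_T

theorem els_T : St_ELS := fun R _ U N h ι φ x => el_asat h φ x

theorem tla_T : St_TLA := by
  intro R _ _ U hU ι _ P Q hQ hP hc
  obtain ⟨N, c, h1, h2, h3⟩ := tlq_T R U hU ι P Q hQ hP hc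
  refine ⟨N, c, h1, h2, fun l _ b A₀ => ?_⟩
  obtain ⟨A, hA, hQA, θ, h4, h5⟩ := h3 l b A₀
  refine ⟨A, hA, hQA, θ, h4, fun x y hx hy ψ hψ => ?_⟩
  obtain ⟨s, hs, h6, -⟩ := h5 ψ hψ
  exact h6 x y (fun φ hφ => hx (hs hφ)) hy

/-- CLAIM A for the homogeneous reduct -/
theorem cla_T : St_CLA := thm_CLA els_T tla_T

end Pool.Agent.AVF
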