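import Pool.Agent.AVF.TBU
import Pool.Agent.AVF.QBU
import Pool.Agent.AVF.TLA

/-!
# AVF, block C: `TB U` without hypotheses (helper58)
-/

set_option autoImplicit false
set_option linter.unusedSectionVars false
set_option linter.unusedVariables false

namespace Pool.Agent.AVF

open Set Pool.Agent.AVC Pool.Agent.AVC.Ax

theorem tb_U (R : Type) [RSig R] [Countable R] (U : Ad R) (hU : MonA R U) : TB U :=
  thm_TBU prm_T tli_T hU

end Pool.Agent.AVF
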