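import Pool.Agent.AVF.GNT
import Pool.Agent.AVF.TBQ
import Pool.Agent.AVF.DCT
import Pool.Agent.AVF.DCH
import Pool.Agent.AVF.DCF
import Pool.Agent.AVF.HPF
import Pool.Agent.AVF.FNT
import Pool.Agent.AVF.GSQ
import Pool.Agent.AVF.GFI
import Pool.Agent.AVF.MDZ
import Pool.Agent.AVF.FT1
import Pool.Agent.AVF.FT2
import Pool.Agent.AVF.PFF
import Pool.Agent.AVF.GIS
import Pool.Agent.AVF.GNP
import Pool.Agent.AVF.FTU

/-!
# AVF, block C without hypotheses (helper58)
-/

set_option autoImplicit false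
set_option linter.unusedSectionVars false
set_option linter.unusedVariables false

namespace Pool.Agent.AVF

open Set Pool.Agent.AVC Pool.Agent.AVC.Ax

theorem all_DCT : St_DCT := thm_DCT thm_DCH thm_DCF

theorem all_GNT : St_GNT :=
  thm_GNT (thm_DQT all_DCT) thm_HPF
    (thm_FNT thm_GSQ thm_GFI thm_MDZ (thm_FT1 thm_PFF) thm_FT2 (thm_GIS thm_PFF)) thm_GNP

/-- 4.1, 4.2: one full module -/
theorem all_FTU : St_FTU := thm_FTU all_GNT tb_U qb_U

end Pool.Agent.AVF
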