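import Pool.Agent.AVF.StD
import Pool.Agent.AVF.BRI

/-!
# AVF, block U: models in `AM U a` (AMP), cosets of finite index in models (COM), compactness (ENA)
-/

set_option autoImplicit false
set_option linter.unusedSectionVars false
set_option linter.unusedVariables false

namespace Pool.Agent.AVF

open Set Pool.Agent.AVC Pool.Agent.AVC.Ax

theorem thm_AMP : St_AMP := by
  intro R _ _ U hU ι a p
  have hK := emb_inK p.2.1
  exact ⟨in_own_of_inK hK, inK_ctbl hU hK, p.2.1.inj, fun κ _ φ x => (p.2.1.sat φ x).symm,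
    fun κ _ φ x => (p.2.1.asat φ x).symm⟩

/-- cosets of finite index have points in each model -/
theorem thm_COM (h : St_COS) : St_COM := by
  intro R _ _ U hU ι κ _ _ a p φ ψ t hφ hF
  obtain ⟨y, hy0, hy1, hy2⟩ := h R U (LinearMap.range p.1.2.toLinearMap) p.2.1.2 ι κ a φ ψ t
    (fun i => by
      obtain ⟨m, hm⟩ := p.2.2 i
      exact ⟨m, hm⟩) hφ hF
  choose z hz using hy0
  have e : y = fun i => p.1.2 (z i) := by
    funext i
    exact (hz i).symm
  rw [e] at hy1 hy2
  exact ⟨z, hy1, hy2⟩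

/-- compactness for affine types -/
theorem thm_ENA : St_ENA := by
  classical
  intro R _ _ U hU κ _ S ψ h
  by_contra hn
  have hn' : ∀ s : Finset (PP R κ), ↑s ⊆ S → ∃ x : κ → U, (∀ φ ∈ s, ASat φ U x) ∧
      ¬ ASat ψ U x := by
    intro s hs
    by_contra h1
    push Not at h1
    exact hn ⟨s, hs, h1⟩
  have key : ∀ (φ : PP R κ) (c : κ → U), ASat (ren (Sum.inr : κ → Fin 0 ⊕ κ) φ) U
      (Sum.elim Fin.elim0 c) ↔ ASat φ U c := by
    intro φ c
    rw [asat_ren]
    rfl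
  obtain ⟨c, h1, h2⟩ := hU.sat (Fin 0) κ Fin.elim0 (ren Sum.inr '' S) {ren Sum.inr ψ} (by
    intro s t hs ht
    choose! f hf1 hf2 using fun χ (hχ : χ ∈ s) => hs hχ
    obtain ⟨x, hx1, hx2⟩ := hn' (s.image f) (by
      intro φ hφ
      obtain ⟨χ, hχ, rfl⟩ := Finset.mem_image.1 (Finset.mem_coe.1 hφ)
      exact hf1 χ hχ)
    refine ⟨x, fun χ hχ => ?_, fun χ hχ => ?_⟩
    · rw [← hf2 χ hχ, key]
      exact hx1 _ (Finset.mem_image_of_mem f hχ)
    · rw [mem_singleton_iff.1 (ht hχ), key]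
      exact hx2)
  refine h2 _ rfl ((key ψ c).2 (h c fun φ hφ => ?_))
  exact (key φ c).1 (h1 _ (mem_image_of_mem _ hφ))

end Pool.Agent.AVF
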