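import Pool.Agent.AVF.StD

/-!
# VMF, block D, module DLX: existence, uniqueness and vanishing of the value of a fact (helper57)
-/

set_option autoImplicit false
set_option linter.unusedSectionVars false
set_option linter.unusedVariables false

namespace Pool.Agent.AVF

open Set Pool.Agent.AVC Pool.Agent.AVC.Ax

section

variable {R : Type} [RSig R]

/-- the sequences of a fact -/
private def DLX_sq (U : Ad R) {ι κ : Type} (a : ι → U) (V : Set (PP R (ι ⊕ κ))) (ψ : PP R κ)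
    (t : κ → U) (p : AM U a) (s : κ → ℕ → p.1.1) : Prop :=
  (∀ φ ∈ V, ∃ m₀, ∀ m ≥ m₀, ASat φ U (Sum.elim a (fun i => p.1.2 (s i m)))) ∧
    ∃ m₀, ∀ m ≥ m₀, Sat ψ U ((fun i => p.1.2 (s i m)) - t)

private theorem DLX_dif {U : Ad R} {A B : Type} {φ : PP R (A ⊕ B)} {a : A → U} {x y : B → U}
    (hx : ASat φ U (Sum.elim a x)) (hy : ASat φ U (Sum.elim a y)) :
    Sat (zer φ) U (x - y) := by
  rw [sat_zer]
  have h1 := hx.sub hy
  rw [← elim_sub, sub_self] at h1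
  exact h1

private theorem DLX_add {U : Ad R} {A B : Type} {φ : PP R (A ⊕ B)} {a : A → U} {x y : B → U}
    (hx : ASat φ U (Sum.elim a x)) (hy : Sat (zer φ) U (x - y)) :
    ASat φ U (Sum.elim a y) := by
  rw [sat_zer] at hy
  have h1 := hx.subh hy
  rw [← elim_sub, sub_zero, sub_sub_cancel] at h1
  exact h1

variable {U : Ad R} {ι κ : Type} [Finite ι] [Finite κ] {a : ι → U} {V : Set (PP R (ι ⊕ κ))}
  {ψ : PP R κ} {t : κ → U} {p : AM U a}

private theorem DLX_shift {s : κ → ℕ → p.1.1} (h : DLX_sq U a V ψ t p s) :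
    DLX_sq U a V ψ t p (fun i m => s i (m + 1)) := by
  obtain ⟨h1, m₀, h2⟩ := h
  refine ⟨fun φ hφ => ?_, m₀, fun m hm => h2 (m + 1) (le_trans hm (Nat.le_succ m))⟩
  obtain ⟨m₁, h3⟩ := h1 φ hφ
  exact ⟨m₁, fun m hm => h3 (m + 1) (le_trans hm (Nat.le_succ m))⟩

private theorem DLX_re (h4 : St_MIS) (hpure : ∀ (κ : Type) [Finite κ] (φ : PP R κ)
    (x : κ → p.1.1), Sat φ U (fun i => p.1.2 (x i)) ↔ Sat φ p.1.1 x) {s s' : κ → ℕ → p.1.1}
    (h : DLX_sq U a V ψ t p s) (h' : DLX_sq U a V ψ t p s') :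
    Re (zer '' V ∪ {ψ}) (MI p.1.1.md) (fun i => MI.mk p.1.1.md (s i) - MI.mk p.1.1.md (s' i)) := by
  have e : (fun i => MI.mk p.1.1.md (s i) - MI.mk p.1.1.md (s' i)) =
      fun i => MI.mk p.1.1.md (s i - s' i) := by
    funext i
    rw [map_sub]
  have e2 : ∀ m : ℕ, (fun i => p.1.2 ((s i - s' i) m)) =
      (fun i => p.1.2 (s i m)) - (fun i => p.1.2 (s' i m)) := by
    intro m
    funext i
    rw [Pi.sub_apply, Pi.sub_apply, map_sub]
  rw [e]
  rintro χ (⟨φ, hφ, rfl⟩ | hχ)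
  · refine ((h4 R p.1.1.md).1 κ (zer φ) (fun i => s i - s' i)).2 ?_
    obtain ⟨m₁, h1⟩ := h.1 φ hφ
    obtain ⟨m₂, h2⟩ := h'.1 φ hφ
    refine ⟨max m₁ m₂, fun m hm => ?_⟩
    rw [← hpure κ, e2]
    exact DLX_dif (h1 m (le_trans (le_max_left _ _) hm)) (h2 m (le_trans (le_max_right _ _) hm))
  · rw [mem_singleton_iff] at hχ
    subst hχ
    refine ((h4 R p.1.1.md).1 κ χ (fun i => s i - s' i)).2 ?_
    obtain ⟨m₁, h1⟩ := h.2
    obtain ⟨m₂, h2⟩ := h'.2
    refine ⟨max m₁ m₂, fun m hm => ?_⟩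
    rw [← hpure κ, e2]
    have h3 := (h1 m (le_trans (le_max_left _ _) hm)).sub (h2 m (le_trans (le_max_right _ _) hm))
    rw [sub_sub_sub_cancel_right] at h3
    exact h3

end

/-- [DLX] -/
theorem thm_DLX (h1 : St_SEQ) (h2 : St_EXG) (h3 : St_AMP) (h4 : AVC.St_MIS) (h5 : AVC.St_MIK)
    (h6 : AVC.St_EX0) : St_DLX := by
  intro R _ _ U hU ι κ _ _ a V ψ t N g p hRe hFin hN
  obtain ⟨hM, hMc, hinj, hpure, -⟩ := h3 R U hU ι a p
  have hMI : (Own R U).In (MI p.1.1.md) := (h4 R p.1.1.md).2 _ hM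
  refine ⟨?_, ?_, ?_⟩
  · obtain ⟨s, hs⟩ := h1 R U hU ι κ a V ψ t p hRe hFin
    have hs' : DLX_sq U a V ψ t p s := hs
    obtain ⟨f, hf⟩ := h6 R (Own R U) κ (zer '' V ∪ {ψ}) N (MI p.1.1.md) g
      (fun i => MI.mk p.1.1.md (fun m => s i (m + 1)) - MI.mk p.1.1.md (s i)) hN hMI
      (DLX_re h4 hpure (DLX_shift hs') hs')
    exact ⟨(Own R U).exMk N p.1.1.md f, s, f, hs.1, hs.2, hf, rfl⟩
  · rintro e e' ⟨s, f, hs1, hs2, hf, rfl⟩ ⟨s', f', hs1', hs2', hf', rfl⟩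
    rw [← sub_eq_zero, ← map_sub]
    refine (h2 R (Own R U) κ (zer '' V ∪ {ψ}) N p.1.1.md g (f - f') hN hM).2
      ⟨_, DLX_re h4 hpure (t := t) ⟨hs1, hs2⟩ ⟨hs1', hs2'⟩, fun i => ?_⟩
    rw [Hm.sub_apply, hf i, hf' i, map_sub, MI.sh_mk, MI.sh_mk]
    abel
  · rintro e ⟨s, f, hs1, hs2, hf, rfl⟩
    rw [h2 R (Own R U) κ (zer '' V ∪ {ψ}) N p.1.1.md g f hN hM]
    constructor
    · rintro ⟨y, hy, hfy⟩
      have h7 : ∀ i, ∃ m : p.1.1, MI.mk p.1.1.md (s i) - y i = MI.cst p.1.1.md m := by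
        intro i
        refine ((h5 R p.1.1.md).2 (MI.mk p.1.1.md (s i) - y i)).1 ?_
        have h8 := hf i
        rw [hfy i] at h8
        rw [map_sub, MI.sh_mk]
        have h9 : MI.mk p.1.1.md (fun n => s i (n + 1)) = MI.sh p.1.1.md (y i) - y i +
            MI.mk p.1.1.md (s i) := by
          rw [h8]
          abel
        rw [h9]
        abel
      choose c hc using h7
      have hyc : y = fun i => MI.mk p.1.1.md (s i - (fun _ : ℕ => c i)) := by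
        funext i
        have h8 : y i = MI.mk p.1.1.md (s i) - MI.cst p.1.1.md (c i) := by
          rw [← hc i]
          abel
        rw [h8, map_sub]
        rfl
      have e2 : ∀ m : ℕ, (fun i => p.1.2 ((s i - (fun _ : ℕ => c i)) m)) =
          (fun i => p.1.2 (s i m)) - (fun i => p.1.2 (c i)) := by
        intro m
        funext i
        rw [Pi.sub_apply, Pi.sub_apply, map_sub]
      refine ⟨c, ?_, ?_⟩
      · intro φ hφ
        have h8 := hy (zer φ) (Or.inl ⟨φ, hφ, rfl⟩)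
        rw [hyc] at h8
        obtain ⟨m₁, h9⟩ := ((h4 R p.1.1.md).1 κ (zer φ) (fun i => s i - (fun _ : ℕ => c i))).1 h8
        obtain ⟨m₂, h10⟩ := hs1 φ hφ
        have h11 := h9 (max m₁ m₂) (le_max_left _ _)
        rw [← hpure κ, e2] at h11
        exact DLX_add (h10 (max m₁ m₂) (le_max_right _ _)) h11
      · have h8 := hy ψ (Or.inr rfl)
        rw [hyc] at h8
        obtain ⟨m₁, h9⟩ := ((h4 R p.1.1.md).1 κ ψ (fun i => s i - (fun _ : ℕ => c i))).1 h8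
        obtain ⟨m₂, h10⟩ := hs2
        have h11 := h9 (max m₁ m₂) (le_max_left _ _)
        rw [← hpure κ, e2] at h11
        have h12 := (h10 (max m₁ m₂) (le_max_right _ _)).sub h11
        rw [sub_sub_sub_cancel_left] at h12
        exact h12
    · rintro ⟨y, hy1, hy2⟩
      refine ⟨_, DLX_re h4 hpure (t := t) (s' := fun i _ => y i) ⟨hs1, hs2⟩
        ⟨fun φ hφ => ⟨0, fun m _ => hy1 φ hφ⟩, 0, fun m _ => hy2⟩, fun i => ?_⟩
      rw [hf i, map_sub, MI.sh_mk, MI.sh_mk]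
      abel

end Pool.Agent.AVF
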