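import Pool.Agent.AVF.StD

/-!
# AVF [DRS]: restriction of decorated facts (5.2 (i)) (helper71)
-/

set_option autoImplicit false

namespace Pool.Agent.AVF

open Set Pool.Agent.AVC Pool.Agent.AVC.Ax

private theorem DRS_fin {α : Type} (s : Finset α) (P : α → ℕ → Prop)
    (h : ∀ x ∈ s, ∃ m₀, ∀ m ≥ m₀, P x m) : ∃ m₀, ∀ m ≥ m₀, ∀ x ∈ s, P x m := by
  have h1 : ∀ᶠ m in Filter.atTop, ∀ x ∈ s, P x m :=
    (Filter.eventually_all_finset s).2 fun x hx => Filter.eventually_atTop.2 (h x hx)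
  exact Filter.eventually_atTop.1 h1

private theorem DRS_sat {R : Type} [RSig R] {ι κ κ' : Type} (f : κ → κ') (φ : PP R (ι ⊕ κ))
    (M : Type) [AddCommGroup M] [MoS R M] (a : ι → M) (T : κ' → M) :
    Sat (ren (Sum.map id f) φ) M (Sum.elim a T) ↔ Sat φ M (Sum.elim a (T ∘ f)) := by
  rw [sat_ren]
  have h2 : Sum.elim a T ∘ Sum.map id f = Sum.elim a (T ∘ f) := by
    funext i
    rcases i with i | i <;> rfl
  rw [h2]

private theorem DRS_asat {R : Type} [RSig R] {ι κ κ' : Type} (f : κ → κ') (φ : PP R (ι ⊕ κ))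
    (M : Type) [AddCommGroup M] [AfS R M] (a : ι → M) (T : κ' → M) :
    ASat (ren (Sum.map id f) φ) M (Sum.elim a T) ↔ ASat φ M (Sum.elim a (T ∘ f)) := by
  rw [asat_ren]
  have h2 : Sum.elim a T ∘ Sum.map id f = Sum.elim a (T ∘ f) := by
    funext i
    rcases i with i | i <;> rfl
  rw [h2]

/-- the homogeneous form of an affine entailment with a realised left hand side -/
theorem AEnt.sat {R : Type} [RSig R] {U : Ad R} {κ : Type} [Finite κ] {S : Set (PP R κ)}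
    {ψ : PP R κ} (hD : St_DIC) (h : AEnt U S ψ) {x₀ : κ → U} (hx₀ : ARe S U x₀) {N : Type}
    [AddCommGroup N] [MoS R N] (hN : (Own R U).In N) {x : κ → N} (hx : Re S N x) :
    Sat ψ N x := by
  obtain ⟨s, hs, h1⟩ := h
  refine (hD R U.md κ).2 s ψ (fun y hy => ?_) N hN x fun φ hφ => hx φ (hs hφ)
  have h2 : ASat ψ U x₀ := h1 x₀ fun φ hφ => hx₀ φ (hs hφ)
  have h3 : ASat ψ U (x₀ + y) := h1 _ fun φ hφ => (hx₀ φ (hs hφ)).add (hy φ hφ)
  have h4 := h3.sub h2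
  rwa [add_sub_cancel_left] at h4

theorem thm_DRS (h2 : AVC.St_EX0) (hD : St_DIC) : St_DRS := by
  intro R _ _ U _ ι κ κ' _ _ _ a V V' ψ ψ' t' N N' g g' f hN hN' ht hV hψ
  -- the map
  have h3 : Re V' N' (Sum.elim 0 g') :=
    (re_zer V' g').1 (hN'.sat.mono subset_union_left)
  have h4 : Re (zer '' V ∪ {ψ}) N' (g' ∘ f) := by
    rintro χ (⟨φ, hφ, rfl⟩ | hχ)
    · rw [sat_zer, ← DRS_sat]
      exact (hV φ hφ).sat hD ht hN'.mem h3
    · rw [mem_singleton_iff.1 hχ, ← sat_ren]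
      exact hψ.sat hN'.mem hN'.sat
  obtain ⟨ρ, hρ⟩ := h2 R (Own R U) κ (zer '' V ∪ {ψ}) N N' g (g' ∘ f) hN hN'.mem h4
  refine ⟨ρ, hρ, ?_⟩
  rintro p e' ⟨s, F, hs1, hs2, hF, rfl⟩
  have hU : (Own R U).In U := fun b hb => hb
  refine ⟨fun i => s (f i), Hm.comp F ρ, ?_, ?_, ?_, ?_⟩
  · intro φ hφ
    obtain ⟨S, hS, hE⟩ := hV φ hφ
    obtain ⟨m₀, hm₀⟩ := DRS_fin S
      (fun χ m => ASat χ U (Sum.elim a (fun i => p.1.2 (s i m)))) fun χ hχ => hs1 χ (hS hχ)
    refine ⟨m₀, fun m hm => ?_⟩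
    have h5 := hE _ (hm₀ m hm)
    rw [DRS_asat] at h5
    exact h5
  · obtain ⟨S, hS, hE⟩ := hψ
    obtain ⟨m₀, hm₀⟩ := DRS_fin S
      (fun χ m => Sat χ U ((fun i => p.1.2 (s i m)) - t')) fun χ hχ => by
        rcases hS hχ with ⟨φ, hφ, rfl⟩ | hχ'
        · obtain ⟨m₁, hm₁⟩ := hs1 φ hφ
          refine ⟨m₁, fun m hm => ?_⟩
          rw [sat_zer]
          have h6 := (hm₁ m hm).sub (ht φ hφ)
          have h7 : Sum.elim a (fun i => p.1.2 (s i m)) - Sum.elim a t' =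
              Sum.elim (0 : ι → U) ((fun i => p.1.2 (s i m)) - t') := by
            funext i
            rcases i with i | i
            · exact sub_self _
            · rfl
          rw [h7] at h6
          exact h6
        · rw [mem_singleton_iff.1 hχ']
          exact hs2
    refine ⟨m₀, fun m hm => ?_⟩
    have h5 := hE U hU _ (hm₀ m hm)
    rw [sat_ren] at h5
    exact h5
  · intro i
    show F (ρ (g i)) = _
    rw [hρ i]
    exact hF (f i)
  · exact exMap_mk (Own R U) ρ p.1.1.md F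

end Pool.Agent.AVF
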