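import Pool.Agent.AVF.StD
import Pool.Agent.AVC.Grp

/-!
# AVF, block D: a generic tuple of facts (EXB)
-/

set_option autoImplicit false
set_option linter.unusedSectionVars false
set_option linter.unusedVariables false

namespace Pool.Agent.AVF

open Set Pool.Agent.AVC Pool.Agent.AVC.Ax

section

variable {R : Type} [RSig R]

/-- the conjunction of finitely many formulas in separate variables -/
private theorem EXB_conj {J : Type} [Finite J] {κ : J → Type} (ψ : ∀ j, PP R (κ j)) :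
    ∃ ψW : PP R ((j : J) × κ j), ∀ (M : Type) [AddCommGroup M] [MoS R M]
      (x : ((j : J) × κ j) → M), Sat ψW M x ↔ ∀ j, Sat (ψ j) M (fun i => x ⟨j, i⟩) := by
  classical
  have := Fintype.ofFinite J
  obtain ⟨χ, hχ⟩ := isPP_finset (R := R) (Finset.univ.image fun j : J => ren (Sigma.mk j) (ψ j))
  refine ⟨χ, fun M _ _ x => (hχ M x).symm.trans ?_⟩
  constructor
  · intro h j
    exact (sat_ren _ _ _).mp (h _ (Finset.mem_image_of_mem _ (Finset.mem_univ j)))
  · intro h φ hφ
    obtain ⟨j, -, rfl⟩ := Finset.mem_image.mp hφ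
    exact (sat_ren _ _ _).mpr (h j)

/-- the projection to the block `j` -/
private def EXB_pr (U : Type) [AddCommGroup U] {J : Type} (κ : J → Type) (j : J) :
    (((j : J) × κ j) → U) →+ (κ j → U) where
  toFun := fun x i => x ⟨j, i⟩
  map_zero' := rfl
  map_add' := fun x y => rfl

/-- the type of a tuple contains the types of the blocks -/
private theorem EXB_blk (U : Ad R) {ι J : Type} {κ : J → Type} (a : ι → U)
    (V : ∀ j, Set (PP R (ι ⊕ κ j))) (t : ((j : J) × κ j) → U)
    (hV : ∀ j, ARe (V j) U (Sum.elim a (fun i => t ⟨j, i⟩))) (j : J) (φ : PP R (ι ⊕ κ j))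
    (hφ : φ ∈ V j) : ren (Sum.map id (Sigma.mk j)) φ ∈ app (R := R) U (Sum.elim a t) := by
  show ASat _ U _
  rw [asat_ren]
  refine (iff_of_eq ?_).mp (hV j φ hφ)
  congr 1
  funext i
  rcases i with i | i <;> rfl

private theorem EXB_zer (U : Ad R) {ι J : Type} {κ : J → Type} (a : ι → U)
    (V : ∀ j, Set (PP R (ι ⊕ κ j))) (t : ((j : J) × κ j) → U)
    (hV : ∀ j, ARe (V j) U (Sum.elim a (fun i => t ⟨j, i⟩))) (x : ((j : J) × κ j) → U)
    (hx : Re (zer '' app (R := R) U (Sum.elim a t)) U x) (j : J) :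
    Re (zer '' V j) U (fun i => x ⟨j, i⟩) := by
  rw [re_zer]
  intro φ hφ
  have h1 := hx _ (mem_image_of_mem zer (EXB_blk U a V t hV j φ hφ))
  rw [sat_zer, sat_ren] at h1
  refine (iff_of_eq ?_).mp h1
  congr 1
  funext i
  rcases i with i | i <;> rfl

/-- finite index of a conjunction in separate variables -/
private theorem EXB_fin (U : Ad R) {J : Type} [Finite J] {κ : J → Type}
    (S : ∀ j, Set (PP R (κ j))) (ψ : ∀ j, PP R (κ j)) (hS : ∀ j, FIn U (S j) {ψ j})
    (Z : Set (PP R ((j : J) × κ j))) (hZ : ∀ x : ((j : J) × κ j) → U, Re Z U x →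
      ∀ j, Re (S j) U (fun i => x ⟨j, i⟩)) (ψW : PP R ((j : J) × κ j))
    (hW : ∀ x : ((j : J) × κ j) → U, Sat ψW U x ↔ ∀ j, Sat (ψ j) U (fun i => x ⟨j, i⟩)) :
    FIn U Z {ψW} := by
  have h1 : ∀ j, ((grp U {ψ j}).comap (EXB_pr U κ j)).relIndex (grp U Z) ≠ 0 := by
    intro j
    rw [AddSubgroup.relIndex_comap]
    intro h2
    refine hS j (AddSubgroup.relIndex_eq_zero_of_le_right ?_ h2)
    rintro _ ⟨x, hx, rfl⟩
    exact hZ x hx j
  have h2 := AddSubgroup.relIndex_iInf_ne_zero h1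
  have h3 : (grp U {ψW}) = ⨅ j, (grp U {ψ j}).comap (EXB_pr U κ j) := by
    ext x
    rw [AddSubgroup.mem_iInf, mem_grp]
    constructor
    · intro h j
      rw [AddSubgroup.mem_comap, mem_grp]
      intro φ hφ
      rw [mem_singleton_iff] at hφ
      subst hφ
      exact (hW x).mp (h ψW rfl) j
    · intro h φ hφ
      rw [mem_singleton_iff] at hφ
      subst hφ
      refine (hW x).mpr fun j => ?_
      exact h j (ψ j) rfl
  unfold FIn
  rw [h3]
  exact h2

end

theorem thm_EXB (h1 : St_FUP) (h2 : St_FUI) (h3 : St_QIS) (h4 : St_DRS) (h5 : St_DLX)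
    (h6 : St_HDS) : St_EXB := by
  classical
  intro R _ _ U hU ι _ a m κ _ V ψ t N g hF hN hC
  obtain ⟨ψW, hψ⟩ := EXB_conj ψ
  have hV : ∀ j, ARe (V j) U (Sum.elim a (fun i => t ⟨j, i⟩)) := fun j => (hF j).re
  have hz := EXB_zer U a V t hV
  -- finite index
  have hfi : FIn U (zer '' app (R := R) U (Sum.elim a t)) {ψW} :=
    EXB_fin U (fun j => zer '' V j) ψ (fun j => (hF j).fi) _ hz ψW (hψ U)
  -- the type of the fact implies the product
  have hle : ∀ x : ((j : Fin m) × κ j) → U,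
      Re (zer '' app (R := R) U (Sum.elim a t) ∪ {ψW}) U x →
      Re (cup fun j => zer '' V j ∪ {ψ j}) U x := by
    intro x hx
    rw [re_union] at hx
    rw [re_cup]
    intro j
    rw [re_union]
    refine ⟨hz x hx.1 j, fun φ hφ => ?_⟩
    rw [mem_singleton_iff] at hφ
    subst hφ
    exact (hψ U x).mp (hx.2 ψW rfl) j
  have hfi2 : FIn U (cup fun j => zer '' V j ∪ {ψ j})
      (zer '' app (R := R) U (Sum.elim a t) ∪ {ψW}) := by
    have e1 : grp (R := R) U (zer '' app (R := R) U (Sum.elim a t) ∪ {ψW}) =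
        grp U (zer '' app (R := R) U (Sum.elim a t)) ⊓ grp U {ψW} := by
      ext x
      rw [AddSubgroup.mem_inf, mem_grp, mem_grp, mem_grp, re_union]
    unfold FIn
    rw [e1]
    refine AddSubgroup.relIndex_inf_ne_zero hC ?_
    rw [AddSubgroup.relIndex_eq_one.mpr]
    · exact one_ne_zero
    · intro x hx φ hφ
      rw [mem_singleton_iff] at hφ
      subst hφ
      rw [mem_grp, re_cup] at hx
      refine (hψ U x).mpr fun j => ?_
      exact hx j (ψ j) (Or.inr rfl)
  have hfull : Full U (cup fun j => zer '' V j ∪ {ψ j}) :=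
    h1 R U.md hU.md (Fin m) κ (fun j => zer '' V j ∪ {ψ j}) (fun j => (hF j).full)
  refine ⟨ψW, ⟨fun φ hφ => hφ, hfi, h2 R U.md hU.md _ _ _ hfull hfi2 hle⟩, ?_⟩
  intro NW gW hNW
  -- the maps of the components
  have h7 := fun j : Fin m => h4 R U hU ι (κ j) ((j : Fin m) × κ j) a (V j)
    (app (R := R) U (Sum.elim a t)) (ψ j) ψW t (N j) NW (g j) gW (Sigma.mk j) (hN j) hNW
    (fun φ hφ => hφ) (fun φ hφ => ⟨{_}, by
      intro χ hχ
      rw [Finset.mem_coe, Finset.mem_singleton] at hχ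
      subst hχ
      exact EXB_blk U a V t hV j φ hφ, fun x hx => hx _ (Finset.mem_singleton_self _)⟩)
    ⟨{ψW}, by
      rw [Finset.coe_singleton]
      exact subset_union_right, fun M _ _ _ x hx => by
      rw [sat_ren]
      exact (hψ M x).mp (hx ψW (Finset.mem_singleton_self _)) j⟩
  choose ρ hρ hρ2 using h7
  let D : Md R := ⟨Π₀ j, N j⟩
  let G : ((j : Fin m) × κ j) → D := fun p => DFinsupp.single p.1 (g p.1 p.2)
  have hD : (Own R U).Honest (cup fun j => zer '' V j ∪ {ψ j}) D G :=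
    h6 R (Own R U) (Fin m) κ (fun j => zer '' V j ∪ {ψ j}) N g hN
  let P : Hm R D NW := Hm.dsum ρ
  have hP : ∀ p, P (G p) = gW p := by
    rintro ⟨j, i⟩
    exact (Hm.dsum_single ρ j (g j i)).trans (hρ j i)
  obtain ⟨q, -, hq⟩ := h3 R U.md hU.md _ _ _ D NW G gW hfull hfi2 hle hD hNW P hP
  let pr : ∀ j, Hm R D (N j) := fun j => Hm.dproj j
  have hPs : P = ∑ j, Hm.comp (ρ j) (pr j) := by
    have h12 : P.toLinearMap = ∑ j, (ρ j).toLinearMap ∘ₗ (DFinsupp.lapply j) := by
      refine DFinsupp.lhom_ext fun j x => ?_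
      rw [LinearMap.sum_apply, Finset.sum_eq_single j]
      · show Hm.dsum ρ (DFinsupp.single j x) = ρ j ((DFinsupp.single j x : Π₀ j, N j) j)
        rw [DFinsupp.single_eq_same, Hm.dsum_single]
      · intro k _ hk
        show ρ k ((DFinsupp.single j x : Π₀ j, N j) k) = 0
        rw [DFinsupp.single_eq_of_ne hk, map_zero]
      · intro hj
        exact absurd (Finset.mem_univ j) hj
    refine Hm.ext fun x => ?_
    rw [Hm.sum_apply]
    have h13 := LinearMap.congr_fun h12 x
    rw [LinearMap.sum_apply] at h13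
    exact h13
  refine ⟨fun j => Hm.comp (pr j) q, fun p e ee he hee => ?_⟩
  have h8 : ∀ j, (Own R U).exMap (ρ j) p.1.1.md e = ee j := fun j =>
    (h5 R U hU ι (κ j) a (V j) (ψ j) (fun i => t ⟨j, i⟩) (N j) (g j) p (hV j) (hF j).fi
      (hN j)).2.1 _ _ (hρ2 j p e he) (hee j)
  have h9 : (Own R U).exMap (Hm.comp P q) p.1.1.md e = e := by
    rw [exMap_eqv _ hq]
    exact exMap_id _ _ _ e
  have h10 : Hm.comp P q = ∑ j, Hm.comp (ρ j) (Hm.comp (pr j) q) := by
    rw [hPs]
    refine Hm.ext fun x => ?_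
    rw [Hm.comp_apply, Hm.sum_apply, Hm.sum_apply]
    rfl
  have h11 : ∀ (s : Finset (Fin m)),
      (Own R U).exMap (∑ j ∈ s, Hm.comp (ρ j) (Hm.comp (pr j) q)) p.1.1.md e =
      ∑ j ∈ s, (Own R U).exMap (Hm.comp (ρ j) (Hm.comp (pr j) q)) p.1.1.md e := by
    intro s
    induction s using Finset.induction_on with
    | empty =>
      rw [Finset.sum_empty, Finset.sum_empty]
      exact exMap_zero _ _ _
    | insert j s hj ih =>
      rw [Finset.sum_insert hj, Finset.sum_insert hj, exMap_add, ih]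
  rw [h10, h11] at h9
  refine h9.symm.trans (Finset.sum_congr rfl fun j _ => ?_)
  rw [← exMap_comp, h8 j]

end Pool.Agent.AVF
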