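import Pool.Agent.AVF.StD
import Pool.Agent.AVC.MI
import Pool.Agent.AVC.NULM
import Pool.Agent.AVC.EXT

/-!
# VMF, 5.1: when a map represents zero in `e_q(M)`, arbitrary finite index types
-/

set_option autoImplicit false
set_option linter.unusedSectionVars false
set_option linter.unusedVariables false

namespace Pool.Agent.AVF

open Set Pool.Agent.AVC Pool.Agent.AVC.Ax

/-- a tuple of the reduced power which satisfies a formula is a difference `sh y - y`, where `y`
satisfies the formula -/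
private theorem EXG_diff {R : Type} [RSig R] (M : Md R) {k : ℕ}
    (χ : PP R (Fin k)) (z : Fin k → MI M) (hz : Sat χ (MI M) z) :
    ∃ y : Fin k → MI M, Sat χ (MI M) y ∧ ∀ i, MI.sh M (y i) - y i = z i := by
  choose s hs using fun i => MI.mk_surj M (z i)
  have hzs : z = fun i => MI.mk M (s i) := by
    funext i
    exact (hs i).symm
  rw [hzs] at hz
  obtain ⟨n, hn⟩ := ((thm_MIS R M).1 (Fin k) χ s).mp hz
  refine ⟨fun i => MI.mk M (fun m => ∑ l ∈ Finset.Ico n m, s i l), ?_, fun i => ?_⟩
  · refine ((thm_MIS R M).1 (Fin k) χ _).mpr ⟨n, fun m hm => ?_⟩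
    induction m, hm using Nat.le_induction with
    | base =>
      have h2 : (fun i => ∑ l ∈ Finset.Ico n n, s i l) = (0 : Fin k → M) := by
        funext i
        simp
      rw [h2]
      exact Sat.zero χ
    | succ m hm ih =>
      have h2 : (fun i => ∑ l ∈ Finset.Ico n (m + 1), s i l) =
          (fun i => ∑ l ∈ Finset.Ico n m, s i l) + (fun i => s i m) := by
        funext i
        rw [Finset.sum_Ico_succ_top hm]
        rfl
      rw [h2]
      exact ih.add (hn m hm)
  · rw [MI.sh_mk, ← map_sub, ← hs i, MI.mk_eq]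
    refine ⟨n, fun m hm => ?_⟩
    rw [Pi.sub_apply]
    show (∑ l ∈ Finset.Ico n (m + 1), s i l) - (∑ l ∈ Finset.Ico n m, s i l) = s i m
    rw [Finset.sum_Ico_succ_top hm, add_sub_cancel_left]

theorem thm_EXG : St_EXG := by
  intro R _ _ X κ _ S N M g f hN hM
  have hMI : X.In (MI M) := (thm_MIS R M).2 X hM
  rw [exMk_eq_zero]
  constructor
  · rintro ⟨h, u, hu, rfl⟩
    obtain ⟨n, ⟨e⟩⟩ := Finite.exists_equiv_fin κ
    obtain ⟨χ, hχ1, hχ2⟩ := hu n (g ∘ e.symm)
    obtain ⟨y, hy1, hy2⟩ := EXG_diff M χ (u ∘ (g ∘ e.symm)) hχ2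
    have hge : (g ∘ e.symm) ∘ e = g := by
      funext i
      show g (e.symm (e i)) = g i
      rw [e.symm_apply_apply]
    refine ⟨h ∘ g + y ∘ e, (hN.sat.map h).add fun φ hφ => ?_, fun i => ?_⟩
    · have h6 : ren e φ ∈ pp N (g ∘ e.symm) := by
        show Sat (ren e φ) N (g ∘ e.symm)
        rw [sat_ren, hge]
        exact hN.sat φ hφ
      have h7 := hχ1 _ h6 (MI M) hMI y hy1
      rw [sat_ren] at h7
      exact h7
    · have h5 : u (g i) = MI.sh M (y (e i)) - y (e i) := by
        rw [hy2 (e i)]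
        show u (g i) = u (g (e.symm (e i)))
        rw [e.symm_apply_apply]
      show MI.sh M (h (g i)) - h (g i) + u (g i) =
        MI.sh M (h (g i) + y (e i)) - (h (g i) + y (e i))
      rw [h5, map_add]
      abel
  · rintro ⟨y, hy1, hy2⟩
    obtain ⟨h, hh⟩ := thm_EX0 R X κ S N (MI M) g y hN hMI hy1
    refine ⟨h, f - (Hm.comp (MI.sh M) h - h), ?_, by abel⟩
    refine thm_NUZ R X κ S N (MI M) g _ hN fun i => ?_
    show f (g i) - (MI.sh M (h (g i)) - h (g i)) = 0
    rw [hh, hy2, sub_self]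

end Pool.Agent.AVF
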