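import Pool.Agent.AVF.TLA
import Pool.Agent.AVF.WG4
import Pool.Agent.AVF.COS
import Pool.Agent.AVF.SHR
import Pool.Agent.AVF.FIC
import Pool.Agent.AVF.StD

/-!
# AVF, block D: the models generated by a generic sequence of facts (MDL; VMF: helper97, affine: helper8)

Affine form of `VMF/MDL.lean`. The types of tuples are affine types; their groups (differences) are given
by the homogeneous reading `zer`, and extend along homogeneous solutions (`MDL_ext`).
-/

set_option autoImplicit false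
set_option linter.unusedSectionVars false
set_option linter.unusedVariables false

namespace Pool.Agent.AVF

open Set Pool.Agent.AVC Pool.Agent.AVC.Ax

/-! ### Groups -/

/-- a subgroup whose image and whose kernel have finite index has finite index -/
theorem relIndex_ext {A B : Type} [AddCommGroup A] [AddCommGroup B] (π : A →+ B)
    (X H : AddSubgroup A) (h1 : (AddSubgroup.map π (H ⊓ X)).relIndex (AddSubgroup.map π X) ≠ 0)
    (h2 : H.relIndex (X ⊓ π.ker) ≠ 0) : H.relIndex X ≠ 0 := by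
  have e1 : (AddSubgroup.comap π (AddSubgroup.map π (H ⊓ X)) ⊓ X).relIndex X ≠ 0 := by
    rw [AddSubgroup.inf_relIndex_right, AddSubgroup.relIndex_comap]
    exact h1
  have e0 : AddSubgroup.comap π (AddSubgroup.map π (H ⊓ X)) ⊓ X = (X ⊓ π.ker) ⊔ (H ⊓ X) := by
    ext x
    rw [AddSubgroup.mem_inf, AddSubgroup.mem_comap, AddSubgroup.mem_sup]
    constructor
    · rintro ⟨⟨y, hy, hxy⟩, hx⟩
      refine ⟨x - y, ⟨X.sub_mem hx hy.2, ?_⟩, y, hy, by abel⟩
      show π (x - y) = 0
      rw [map_sub, hxy, sub_self]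
    · rintro ⟨y, hy, z, hz, rfl⟩
      refine ⟨⟨z, hz, ?_⟩, X.add_mem hy.1 hz.2⟩
      have h3 : π y = 0 := hy.2
      rw [map_add, h3, zero_add]
  have e2 : (H ⊓ X).relIndex (AddSubgroup.comap π (AddSubgroup.map π (H ⊓ X)) ⊓ X) ≠ 0 := by
    rw [e0, AddSubgroup.relIndex_sup_right]
    have h4 : H ⊓ (X ⊓ π.ker) ≤ (H ⊓ X) ⊓ (X ⊓ π.ker) := fun x hx => ⟨⟨hx.1, hx.2.1⟩, hx.2⟩
    intro h5
    refine h2 ?_
    rw [← AddSubgroup.inf_relIndex_right]
    rw [← AddSubgroup.inf_relIndex_right] at h5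
    exact AddSubgroup.relIndex_eq_zero_of_le_left h4 h5
  have e3 := AddSubgroup.relIndex_ne_zero_trans e2 e1
  rwa [AddSubgroup.inf_relIndex_right] at e3

/-- dependent sequences -/
theorem exists_dep_seq {X : ℕ → Type} (P : ∀ j, (∀ i, i < j → X i) → X j → Prop)
    (h : ∀ j f, ∃ z, P j f z) : ∃ F : ∀ j, X j, ∀ j, P j (fun i _ => F i) (F j) := by
  choose z hz using h
  let F : ∀ j, X j := fun j => Nat.strongRecOn (motive := X) j fun j ih => z j ih
  refine ⟨F, fun j => ?_⟩
  have h1 : F j = z j (fun i _ => F i) := by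
    show Nat.strongRecOn (motive := X) j (fun j ih => z j ih) = _
    rw [Nat.strongRecOn_eq]
  rw [h1]
  exact hz j _

section

variable {R : Type} [RSig R] [Countable R] {U : Ad R}

/-- extension of realisations of types of tuples -/
theorem MDL_ext (hU : MonA R U) {α β : Type} [Finite α] [Finite β] (c : α → U) (d : β → U)
    (x : α → U) (hx : Re (app (R := R) U c) U x) :
    ∃ y : β → U, Re (app (R := R) U (Sum.elim c d)) U (Sum.elim x y) := by
  refine thm_SAP R U.md hU.md α β x _ fun s hs => ?_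
  obtain ⟨χ, hχ, hχ'⟩ := (isAP_finset s).ex
  exact (hχ' U x).mpr (hx χ ((hχ U c).mp ⟨d, fun φ hφ => hs hφ⟩))

end

/-! ### Blocks -/

section

variable {κ : ℕ → Type}

/-- the first blocks -/
abbrev Kb (κ : ℕ → Type) (m : ℕ) : Type := (j : Fin m) × κ j

/-- the inclusion of the first `m` blocks in the first `m + 1` -/
def iKb (κ : ℕ → Type) (m : ℕ) : Kb κ m → Kb κ (m + 1) := fun q => ⟨q.1.castSucc, q.2⟩

/-- the inclusion of the last block -/
def lKb (κ : ℕ → Type) (m : ℕ) : κ m → Kb κ (m + 1) := fun i => ⟨Fin.last m, i⟩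

theorem kb_cases {m : ℕ} (p : Kb κ (m + 1)) : (∃ q, iKb κ m q = p) ∨ ∃ i, lKb κ m i = p := by
  obtain ⟨j, k⟩ := p
  induction j using Fin.lastCases with
  | last => exact Or.inr ⟨k, rfl⟩
  | cast j => exact Or.inl ⟨⟨j, k⟩, rfl⟩

/-- restriction to the first `m` blocks -/
def rKb (U : Type) [AddCommGroup U] (κ : ℕ → Type) (m : ℕ) :
    (Kb κ (m + 1) → U) →+ (Kb κ m → U) where
  toFun := fun x => x ∘ iKb κ m
  map_zero' := rfl
  map_add' := fun x y => rfl

/-- restriction to the last block -/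
def eKb (U : Type) [AddCommGroup U] (κ : ℕ → Type) (m : ℕ) :
    (Kb κ (m + 1) → U) →+ (κ m → U) where
  toFun := fun x => x ∘ lKb κ m
  map_zero' := rfl
  map_add' := fun x y => rfl

/-- the variables of the first `m` blocks and of the last one -/
def jKb (ι : Type) (κ : ℕ → Type) (m : ℕ) : (ι ⊕ Kb κ m) ⊕ κ m → ι ⊕ Kb κ (m + 1) :=
  Sum.elim (Sum.map id (iKb κ m)) (fun i => Sum.inr (lKb κ m i))

theorem jKb_surj (ι : Type) (κ : ℕ → Type) (m : ℕ) : Function.Surjective (jKb ι κ m) := by
  rintro (i | p)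
  · exact ⟨Sum.inl (Sum.inl i), rfl⟩
  · rcases kb_cases p with ⟨q, rfl⟩ | ⟨i, rfl⟩
    · exact ⟨Sum.inl (Sum.inr q), rfl⟩
    · exact ⟨Sum.inr i, rfl⟩

theorem jKb_comp (ι : Type) (κ : ℕ → Type) (m : ℕ) {M : Type} (u : ι → M) (x : Kb κ (m + 1) → M) :
    Sum.elim u x ∘ jKb ι κ m =
      Sum.elim (Sum.elim u (x ∘ iKb κ m)) (x ∘ lKb κ m) := by
  funext p
  rcases p with (i | q) | i <;> rfl

end

section

variable {R : Type} [RSig R] [Countable R] {U : Ad R} {ι : Type} {κ : ℕ → Type}

/-- a type of a tuple is determined by the renamed type along a surjection -/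
theorem re_app_surj {α β : Type} (f : α → β) (hf : Function.Surjective f) (c x : β → U) :
    Re (app (R := R) U c) U x ↔ Re (app (R := R) U (c ∘ f)) U (x ∘ f) := by
  constructor
  · intro h φ hφ
    have h1 : ren f φ ∈ app (R := R) U c := (asat_ren f φ c).mpr hφ
    exact (sat_ren f φ x).mp (h _ h1)
  · intro h φ hφ
    have e1 : ∀ y : β → U, (y ∘ f) ∘ Function.surjInv hf = y := by
      intro y
      funext i
      exact congrArg y (Function.surjInv_eq hf i)
    have h1 : ren (Function.surjInv hf) φ ∈ app (R := R) U (c ∘ f) := by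
      show ASat _ U _
      rw [asat_ren, e1]
      exact hφ
    have h2 := h _ h1
    rwa [sat_ren, e1] at h2

/-- the type of the first `m + 1` blocks over `a` -/
theorem re_app_succ (a u : ι → U) (m : ℕ) (t x : Kb κ (m + 1) → U) :
    Re (app (R := R) U (Sum.elim a t)) U (Sum.elim u x) ↔
    Re (app (R := R) U (Sum.elim (Sum.elim a (t ∘ iKb κ m)) (t ∘ lKb κ m))) U
      (Sum.elim (Sum.elim u (x ∘ iKb κ m)) (x ∘ lKb κ m)) := by
  rw [re_app_surj (jKb ι κ m) (jKb_surj ι κ m), jKb_comp, jKb_comp]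

theorem MDL_fin (hU : MonA R U) [Finite ι] [∀ j, Finite (κ j)] (a : ι → U)
    (W S : ∀ j, Set (PP R (κ j))) (t : ∀ j, κ j → U)
    (hSW : ∀ j, FIn U (W j) (S j)) (hle : ∀ j (x : κ j → U), Re (S j) U x → Re (W j) U x)
    (hW : ∀ j, ∀ φ ∈ W j, ∃ φ' : PP R (ι ⊕ κ j), ASat φ' U (Sum.elim a (t j)) ∧ zer φ' = φ)
    (hfib : ∀ j, FIn U (S j)
      (afib (R := R) U (Sum.elim a (fun q : Kb κ j => t q.1 q.2)) (t j))) (m : ℕ) :
    FIn U (cup fun j : Fin m => S j)
      (zer '' app (R := R) U (Sum.elim a (fun q : Kb κ m => t q.1 q.2))) := by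
  induction m with
  | zero =>
    have h1 : grp U (cup fun j : Fin 0 => S j) ≤
        grp (R := R) U (zer '' app (R := R) U (Sum.elim a (fun q : Kb κ 0 => t q.1 q.2))) := by
      intro x _
      have h2 : x = 0 := by
        funext q
        exact q.1.elim0
      rw [h2]
      exact AddSubgroup.zero_mem _
    unfold FIn
    rw [AddSubgroup.relIndex_eq_one.mpr h1]
    exact one_ne_zero
  | succ m ih =>
    let T : Kb κ (m + 1) → U := fun q => t q.1 q.2
    have hT1 : T ∘ iKb κ m = fun q : Kb κ m => t q.1 q.2 := rfl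
    have hT2 : T ∘ lKb κ m = t m := rfl
    let π := rKb U κ m
    let lam := eKb U κ m
    let Pm := grp U (cup fun j : Fin m => S j)
    let X : AddSubgroup (Kb κ (m + 1) → U) := Pm.comap π ⊓ (grp U (W m)).comap lam
    let H : AddSubgroup (Kb κ (m + 1) → U) := grp U (zer '' app (R := R) U (Sum.elim a T))
    have hH : ∀ x : Kb κ (m + 1) → U, x ∈ H ↔
        Re (app (R := R) U (Sum.elim (Sum.elim a (T ∘ iKb κ m)) (T ∘ lKb κ m))) U
          (Sum.elim (Sum.elim 0 (x ∘ iKb κ m)) (x ∘ lKb κ m)) := by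
      intro x
      rw [mem_grp, re_zer, re_app_succ]
    have hX : grp U (cup fun j : Fin (m + 1) => S j) ≤ X := by
      intro x hx
      rw [mem_grp, re_cup] at hx
      refine ⟨?_, hle m _ (hx (Fin.last m))⟩
      show Re _ U (x ∘ iKb κ m)
      rw [re_cup]
      exact fun j => hx j.castSucc
    have hmain : H.relIndex X ≠ 0 := by
      refine relIndex_ext π X H ?_ ?_
      · have h1 : (grp (R := R) U (zer '' app (R := R) U
            (Sum.elim a (fun q : Kb κ m => t q.1 q.2))) ⊓ Pm).relIndex Pm ≠ 0 := by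
          rw [AddSubgroup.inf_relIndex_right]
          exact ih
        have h2 : grp (R := R) U (zer '' app (R := R) U
            (Sum.elim a (fun q : Kb κ m => t q.1 q.2))) ⊓ Pm ≤ AddSubgroup.map π (H ⊓ X) := by
          rintro x ⟨hx1, hx2⟩
          have h3 : Re (app (R := R) U (Sum.elim a (fun q : Kb κ m => t q.1 q.2))) U
              (Sum.elim 0 x) := by
            rw [← re_zer]
            exact hx1
          obtain ⟨y, hy⟩ := MDL_ext hU _ (t m) _ h3
          classical
          have h4 : ∃ z : Kb κ (m + 1) → U, z ∘ iKb κ m = x ∧ z ∘ lKb κ m = y := by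
            refine ⟨fun p => Fin.lastCases (motive := fun j : Fin (m + 1) => κ j → U) y
              (fun j i => x ⟨j, i⟩) p.1 p.2, ?_, ?_⟩
            · funext q
              show Fin.lastCases (motive := fun j : Fin (m + 1) => κ j → U) y
                (fun j i => x ⟨j, i⟩) (q.1.castSucc) q.2 = x q
              rw [Fin.lastCases_castSucc]
            · funext i
              show Fin.lastCases (motive := fun j : Fin (m + 1) => κ j → U) y
                (fun j i => x ⟨j, i⟩) (Fin.last m) i = y i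
              rw [Fin.lastCases_last]
          obtain ⟨z, hz1, hz2⟩ := h4
          refine ⟨z, ⟨?_, ?_, ?_⟩, hz1⟩
          · refine (hH z).mpr ?_
            rw [hz1, hz2, hT1, hT2]
            exact hy
          · show z ∘ iKb κ m ∈ Pm
            rw [hz1]
            exact hx2
          · show Re (W m) U (z ∘ lKb κ m)
            rw [hz2]
            intro φ hφ
            obtain ⟨φ', h5, rfl⟩ := hW m φ hφ
            rw [sat_zer]
            have h6 : ren (Sum.map Sum.inl id) φ' ∈ app (R := R) U (Sum.elim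
                (Sum.elim a (fun q : Kb κ m => t q.1 q.2)) (t m)) := by
              show ASat _ U _
              rw [asat_ren]
              refine (iff_of_eq ?_).mp h5
              congr 1
              funext i
              rcases i with i | i <;> rfl
            have h7 := hy _ h6
            rw [sat_ren] at h7
            refine (iff_of_eq ?_).mp h7
            congr 1
            funext i
            rcases i with i | i <;> rfl
        intro h8
        refine h1 (AddSubgroup.relIndex_eq_zero_of_le_left h2 ?_)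
        refine AddSubgroup.relIndex_eq_zero_of_le_right ?_ h8
        rintro _ ⟨x, hx, rfl⟩
        exact hx.1
      · have h1 : (grp U (afib (R := R) U (Sum.elim a (fun q : Kb κ m => t q.1 q.2))
            (t m))).relIndex (grp U (W m)) ≠ 0 :=
          AddSubgroup.relIndex_ne_zero_trans (hfib m) (hSW m)
        have h2 : ((grp U (afib (R := R) U (Sum.elim a (fun q : Kb κ m => t q.1 q.2))
            (t m))).comap lam).relIndex (X ⊓ π.ker) ≠ 0 := by
          rw [AddSubgroup.relIndex_comap]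
          intro h8
          refine h1 (AddSubgroup.relIndex_eq_zero_of_le_right ?_ h8)
          rintro _ ⟨x, hx, rfl⟩
          exact hx.1.2
        intro h8
        rw [← AddSubgroup.inf_relIndex_right] at h2
        refine h2 (AddSubgroup.relIndex_eq_zero_of_le_left ?_ h8)
        rintro x ⟨hx1, -, hx2⟩
        have h3 : x ∘ iKb κ m = 0 := hx2
        rw [hH, h3, hT1, hT2]
        have h4 : Re (afib (R := R) U (Sum.elim a (fun q : Kb κ m => t q.1 q.2)) (t m)) U
            (x ∘ lKb κ m) := hx1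
        unfold afib at h4
        rw [re_zer] at h4
        have h5 : (Sum.elim 0 0 : ι ⊕ Kb κ m → U) = 0 := by
          funext i
          rcases i with i | i <;> rfl
        rw [h5]
        exact h4
    intro h
    exact hmain (AddSubgroup.relIndex_eq_zero_of_le_right hX h)

end

/-! ### The model -/

section

variable {R : Type} [RSig R] [Countable R] {U : Ad R} {ι : Type} {κ : ℕ → Type}

/-- the generic sequence of facts -/
theorem MDL_gen (hU : MonA R U) [Finite ι] [∀ j, Finite (κ j)] (a : ι → U)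
    (S : ∀ j, Set (PP R (κ j))) (t0 : ∀ j, κ j → U) :
    ∃ t : ∀ j, κ j → U, ∀ j, Re (S j) U (t j - t0 j) ∧ FIn U (S j)
      (afib (R := R) U (Sum.elim a (fun q : Kb κ j => t q.1 q.2)) (t j)) :=
  exists_dep_seq (X := fun j => κ j → U) (fun j f z => Re (S j) U (z - t0 j) ∧ FIn U (S j)
    (afib (R := R) U (Sum.elim a (fun q : Kb κ j => f q.1 q.1.2 q.2)) z))
    fun j f => thm_WG4A hU (Sum.elim a (fun q : Kb κ j => f q.1 q.1.2 q.2)) (S j) (t0 j)

/-- the variables of the first `m` blocks among all variables -/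
def eKI (ι : Type) (κ : ℕ → Type) (m : ℕ) : ι ⊕ Kb κ m → ι ⊕ ((j : ℕ) × κ j) :=
  Sum.map id (fun q => ⟨q.1, q.2⟩)

theorem eKI_inj (ι : Type) (κ : ℕ → Type) (m : ℕ) : Function.Injective (eKI ι κ m) := by
  refine Function.Injective.sumMap Function.injective_id ?_
  rintro ⟨⟨j, h⟩, i⟩ ⟨⟨j', h'⟩, i'⟩ h2
  obtain rfl : j = j' := congrArg Sigma.fst h2
  obtain rfl : i = i' := by
    have h3 : (⟨j, i⟩ : (j : ℕ) × κ j) = ⟨j, i'⟩ := h2
    exact eq_of_heq (Sigma.mk.inj h3).2
  rfl

end

/-- 5.5 the models generated by a generic sequence of facts -/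
theorem thm_MDL : St_MDL := by
  classical
  intro R _ _ U hU _ ι _ a κ _ V ψ t0 hF
  let S : ∀ j, Set (PP R (κ j)) := fun j => zer '' V j ∪ {ψ j}
  obtain ⟨t, ht⟩ := MDL_gen hU a S t0
  -- the type `V j` holds at `t j`
  have hV : ∀ j, ARe (V j) U (Sum.elim a (t j)) := by
    intro j φ hφ
    have h1 : ASat φ U (Sum.elim a (t0 j)) := (hF j).re φ hφ
    have h2 : Sat φ U (Sum.elim (0 : ι → U) (t j - t0 j)) := by
      rw [← sat_zer]
      exact (ht j).1 _ (Or.inl (mem_image_of_mem zer hφ))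
    have h3 := h1.add h2
    have h4 : (Sum.elim a (t0 j) + Sum.elim (0 : ι → U) (t j - t0 j) : ι ⊕ κ j → U) =
        Sum.elim a (t j) := by
      funext i
      rcases i with i | i
      · show a i + 0 = a i
        rw [add_zero]
      · show t0 j i + (t j i - t0 j i) = t j i
        abel
    rwa [h4] at h3
  have hfin := MDL_fin hU a (fun j => zer '' V j) S t (fun j => (hF j).fi.union)
    (fun j x hx => fun φ hφ => hx φ (Or.inl hφ))
    (fun j φ hφ => by
      obtain ⟨φ', h1, rfl⟩ := hφ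
      exact ⟨φ', hV j φ' h1, rfl⟩) (fun j => (ht j).2)
  -- the model
  let I : Type := ι ⊕ ((j : ℕ) × κ j)
  let e : I → U := Sum.elim a (fun q => t q.1 q.2)
  let A : ℕ → Finset I := fun m => (Set.finite_range (eKI ι κ m)).toFinset
  have hA : ∀ m i, i ∈ A m ↔ ∃ p, eKI ι κ m p = i := by
    intro m i
    rw [Set.Finite.mem_toFinset]
    rfl
  have hmono : Monotone A := by
    intro m m' h i hi
    rw [hA] at hi ⊢
    obtain ⟨p, rfl⟩ := hi
    rcases p with p | ⟨⟨j, hj⟩, k⟩
    · exact ⟨Sum.inl p, rfl⟩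
    · exact ⟨Sum.inr ⟨⟨j, lt_of_lt_of_le hj h⟩, k⟩, rfl⟩
  have hexh : ∀ i, ∃ k, i ∈ A k := by
    rintro (i | ⟨j, k⟩)
    · exact ⟨0, (hA _ _).mpr ⟨Sum.inl i, rfl⟩⟩
    · exact ⟨j + 1, (hA _ _).mpr ⟨Sum.inr ⟨⟨j, Nat.lt_succ_self j⟩, k⟩, rfl⟩⟩
  obtain ⟨N, c, hc0, hN, hpp, hgen⟩ := tly_T R U hU I
    (fun B => app (R := R) U (fun i : B => e i)) A hmono hexh (fun B => ⟨fun i => e i, rfl⟩)
    (fun B C h φ => by
      show ASat φ U _ ↔ ASat _ U _
      rw [asat_ren]
      exact Iff.rfl) e rfl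
  have hca : ∀ i : ι, (c (Sum.inl i) : U) = a i := fun i =>
    hc0 (Sum.inl i) ((hA _ _).mpr ⟨Sum.inl i, rfl⟩)
  let p : AM U a := ⟨⟨⟨N⟩, Hm.subtype N⟩, emb_subtype hN, fun i => ⟨c (Sum.inl i), hca i⟩⟩
  let t' : ∀ j, κ j → U := fun j i => (c (Sum.inr ⟨j, i⟩) : U)
  have hc : ∀ m, (fun i => (c (eKI ι κ m i) : U)) =
      Sum.elim a (fun q : Kb κ m => t' q.1 q.2) := by
    intro m
    funext i
    rcases i with i | q
    · exact hca i
    · rfl
  have he : ∀ m, (fun i => e (eKI ι κ m i)) =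
      Sum.elim a (fun q : Kb κ m => t q.1 q.2) := by
    intro m
    funext i
    rcases i with i | q <;> rfl
  have hu : ∀ m, ∃ u : (ι ⊕ Kb κ m) ≃ A m, ∀ i, (u i : I) = eKI ι κ m i := by
    intro m
    refine ⟨Equiv.ofBijective (fun i => ⟨eKI ι κ m i, (hA _ _).mpr ⟨i, rfl⟩⟩) ⟨?_, ?_⟩,
      fun i => rfl⟩
    · intro i j h
      exact eKI_inj ι κ m (congrArg Subtype.val h)
    · rintro ⟨i, hi⟩
      obtain ⟨q, rfl⟩ := (hA _ _).mp hi
      exact ⟨q, rfl⟩
  -- types of initial segments
  have hty : ∀ m, app (R := R) U (Sum.elim a (fun q : Kb κ m => t' q.1 q.2)) =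
      app (R := R) U (Sum.elim a (fun q : Kb κ m => t q.1 q.2)) := by
    intro m
    obtain ⟨u, hu⟩ := hu m
    have h1 := hpp (A m)
    rw [el_app hN] at h1
    rw [← hc m, ← he m]
    ext φ
    have h2 : ren u φ ∈ app (R := R) U (fun i : A m => (c i : U)) ↔
        ren u φ ∈ app (R := R) U (fun i : A m => e i) := by rw [h1]
    have h3 : ∀ d : I → U, ren u φ ∈ app (R := R) U (fun i : A m => d i) ↔
        φ ∈ app (R := R) U (fun i => d (eKI ι κ m i)) := by
      intro d
      show ASat _ U _ ↔ ASat _ U _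
      rw [asat_ren]
      refine iff_of_eq (congrArg _ ?_)
      funext i
      exact congrArg d (hu i)
    rw [← h3 e, ← h2]
    exact (h3 (fun i => (c i : U))).symm
  refine ⟨p, t', fun j i => ⟨c (Sum.inr ⟨j, i⟩), rfl⟩, fun m => ?_, fun m => ?_, fun l _ b => ?_⟩
  · obtain ⟨γ, hγ⟩ := hom_T R U hU (ι ⊕ Kb κ m) _ _ (hty m).symm
    refine ⟨Gm.mk γ fun i => hγ (Sum.inl i), fun j hj => ?_⟩
    have h2 : ∀ i, γ (t j i) = t' j i := fun i => hγ (Sum.inr ⟨⟨j, hj⟩, i⟩)
    have h1 : (fun i => t' j i - (Gm.mk γ fun i => hγ (Sum.inl i)).1 (t0 j i)) =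
        γ.hm ∘ (t j - t0 j) := by
      funext i
      have h3 : (Gm.mk γ fun i => hγ (Sum.inl i)).1 (t j i - t0 j i) =
          (Gm.mk γ fun i => hγ (Sum.inl i)).1 (t j i) -
            (Gm.mk γ fun i => hγ (Sum.inl i)).1 (t0 j i) := map_sub _ _ _
      rw [Gm.mk_apply γ _ (t j i), h2 i] at h3
      exact h3.symm
    have h5 : Re (S j) U (fun i => t' j i - (Gm.mk γ fun i => hγ (Sum.inl i)).1 (t0 j i)) := by
      rw [h1]
      intro φ hφ
      exact ((ht j).1 φ hφ).map _
    exact h5
  · have h1 := hfin m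
    rw [← hty m] at h1
    exact h1
  · obtain ⟨m, hm⟩ := hgen l b
    obtain ⟨θ, hθ⟩ := hm m le_rfl
    obtain ⟨u, hu⟩ := hu m
    have h0 : ∀ i, (Sum.elim a (fun q : Kb κ m => t' q.1 q.2) : ι ⊕ Kb κ m → U) i =
        (c (u i) : U) := by
      intro i
      rw [hu, ← hc m]
    have h1 : (Sum.elim a (fun q : Kb κ m => t' q.1 q.2) : ι ⊕ Kb κ m → U) ∘ u.symm =
        fun i : A m => (c i : U) := by
      funext i
      show (Sum.elim a (fun q : Kb κ m => t' q.1 q.2) : ι ⊕ Kb κ m → U) (u.symm i) = _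
      rw [h0, u.apply_symm_apply]
    have h3 : HGen (R := R) U (app (R := R) U (fun i : A m => e i)) U
        (fun i : A m => (c i : U)) (fun i => (b i : U)) θ :=
      HGen.of_app (by
        rw [el_app hN]
        congr 1
        funext i
        rcases i with i | i <;> rfl) hθ
    have h4 := hpp (A m)
    rw [el_app hN] at h4
    rw [← h4, ← h1] at h3
    exact ⟨m, _, HGen.base u.symm h3⟩

end Pool.Agent.AVF
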