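import Pool.Agent.AVF.StD

/-!
# AVF, module ORF: finite orbits (helper66)
-/

set_option autoImplicit false

namespace Pool.Agent.AVF

open Set Pool.Agent.AVC Pool.Agent.AVC.Ax

section

variable {R : Type} [RSig R]

/-- the difference of two realisations of `V(a, ·)` -/
private theorem ORF_diff {U : Ad R} {ι κ : Type} {a : ι → U} {V : Set (PP R (ι ⊕ κ))}
    {x y : κ → U} (hx : ARe V U (Sum.elim a x)) (hy : ARe V U (Sum.elim a y)) :
    x - y ∈ grp U (zer '' V) := by
  rw [mem_grp, re_zer]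
  have h := ARe.sub hx hy
  have e : Sum.elim a x - Sum.elim a y = Sum.elim (0 : ι → U) (x - y) := by
    funext i
    cases i with
    | inl i => exact sub_self (a i)
    | inr i => rfl
  rw [e] at h
  exact h

end

/-- **ORF** -/
theorem thm_ORF (h1 : St_TTS) (h2 : St_ACF) (h3 : St_CSF) (h4 : St_DLX) : St_ORF := by
  intro R _ _ U hU ι _ a Y d hd
  obtain ⟨κ, _, V, ψ, t, N, g, v, hF, hH, hv⟩ := h1 R U hU ι a Y d hd
  have hf : ∀ γ : Gm U a, Fact U a V ψ (fun i => γ.1 (t i)) := fun γ =>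
    (h2 R U ι κ a V ψ t N Y g v d γ).1 hF
  have hg : ∀ γ : Gm U a, IsVal U a V ψ (fun i => γ.1 (t i)) N g v (actE U a Y γ d) := fun γ =>
    (h2 R U ι κ a V ψ t N Y g v d γ).2.1 hv
  have hfin : Finite (grp U (zer '' V) ⧸
      (grp U ({ψ} : Set (PP R κ))).addSubgroupOf (grp U (zer '' V))) :=
    AddSubgroup.index_ne_zero_iff_finite.1 hF.fi
  let cl : Gm U a → grp U (zer '' V) ⧸
      (grp U ({ψ} : Set (PP R κ))).addSubgroupOf (grp U (zer '' V)) := fun γ =>
    QuotientAddGroup.mk ⟨(fun i => γ.1 (t i)) - t, ORF_diff (hf γ).re hF.re⟩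
  have key : Function.FactorsThrough (fun γ : Gm U a => actE U a Y γ d) cl := by
    intro γ γ' h
    have hA : (fun i => γ'.1 (t i)) - (fun i => γ.1 (t i)) ∈ grp U (zer '' V) :=
      ORF_diff (hf γ').re (hf γ).re
    have hB : (fun i => γ'.1 (t i)) - (fun i => γ.1 (t i)) ∈ grp U ({ψ} : Set (PP R κ)) := by
      have h5 := QuotientAddGroup.eq.1 h
      rw [AddSubgroup.mem_addSubgroupOf] at h5
      have e : (fun i => γ'.1 (t i)) - (fun i => γ.1 (t i)) =
          -((fun i => γ.1 (t i)) - t) + ((fun i => γ'.1 (t i)) - t) := by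
        abel
      rw [e]
      exact h5
    have hr : Re (zer '' V ∪ {ψ}) U ((fun i => γ'.1 (t i)) - (fun i => γ.1 (t i))) := by
      intro φ hφ
      rcases hφ with hφ | hφ
      · exact hA φ hφ
      · exact hB φ hφ
    have hc := (h3 R U ι κ a V ψ (fun i => γ.1 (t i)) (fun i => γ'.1 (t i)) N Y g v
      (actE U a Y γ d) hr).2 (hg γ)
    funext p
    obtain ⟨⟨e, he⟩, -⟩ := h4 R U hU ι κ a V ψ (fun i => γ'.1 (t i)) N g p (hf γ').re hF.fi hH
    show actE U a Y γ d p = actE U a Y γ' d p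
    rw [hc p e he, hg γ' p e he]
  refine (Set.finite_range (Function.extend cl (fun γ : Gm U a => actE U a Y γ d)
    (fun _ => 0))).subset ?_
  rintro d' ⟨γ, rfl⟩
  exact ⟨cl γ, key.extend_apply _ γ⟩

end Pool.Agent.AVF
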