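import Pool.Agent.AVF.StD

/-!
# AVF, PRD: the sum of the values of two facts is the value of one fact (helper1)
-/

set_option autoImplicit false
set_option linter.unusedSectionVars false
set_option linter.unusedVariables false

namespace Pool.Agent.AVF

open Set Pool.Agent.AVC Pool.Agent.AVC.Ax

section

variable {R : Type} [RSig R]

/-- fullness depends on the group only -/
private theorem PRD_full {U : Type} [AddCommGroup U] [MoS R U] {κ : Type}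
    {S S' : Set (PP R κ)} (h : ∀ x : κ → U, Re S U x ↔ Re S' U x) (hS : Full U S) :
    Full U S' := by
  have hg : grp (R := R) U S = grp U S' := by
    ext x
    exact h x
  intro x hx ψ hψ
  refine hS x ((h x).2 hx) ψ ⟨?_, ?_⟩
  · have h1 := hψ.1
    unfold FIn at h1 ⊢
    rw [hg]
    exact h1
  · intro χ hχ
    exact hψ.2 χ fun y hy => (h y).1 (hχ y hy)

/-- the joint type -/
private def PRD_V {ι κ₁ κ₂ : Type} (V₁ : Set (PP R (ι ⊕ κ₁))) (V₂ : Set (PP R (ι ⊕ κ₂))) :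
    Set (PP R (ι ⊕ (κ₁ ⊕ κ₂))) :=
  ren (Sum.map id Sum.inl) '' V₁ ∪ ren (Sum.map id Sum.inr) '' V₂

private theorem PRD_l {ι κ₁ κ₂ M : Type} (a : ι → M) (T : κ₁ ⊕ κ₂ → M) :
    Sum.elim a T ∘ Sum.map id Sum.inl = Sum.elim a (T ∘ Sum.inl) := by
  funext i
  rcases i with i | i <;> rfl

private theorem PRD_r {ι κ₁ κ₂ M : Type} (a : ι → M) (T : κ₁ ⊕ κ₂ → M) :
    Sum.elim a T ∘ Sum.map id Sum.inr = Sum.elim a (T ∘ Sum.inr) := by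
  funext i
  rcases i with i | i <;> rfl

private theorem PRD_satl {ι κ₁ κ₂ : Type} (φ : PP R (ι ⊕ κ₁))
    (M : Type) [AddCommGroup M] [MoS R M] (a : ι → M) (T : κ₁ ⊕ κ₂ → M) :
    Sat (ren (Sum.map id Sum.inl) φ : PP R (ι ⊕ (κ₁ ⊕ κ₂))) M (Sum.elim a T) ↔
      Sat φ M (Sum.elim a (T ∘ Sum.inl)) := by
  rw [sat_ren, PRD_l]

private theorem PRD_satr {ι κ₁ κ₂ : Type} (φ : PP R (ι ⊕ κ₂))
    (M : Type) [AddCommGroup M] [MoS R M] (a : ι → M) (T : κ₁ ⊕ κ₂ → M) :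
    Sat (ren (Sum.map id Sum.inr) φ : PP R (ι ⊕ (κ₁ ⊕ κ₂))) M (Sum.elim a T) ↔
      Sat φ M (Sum.elim a (T ∘ Sum.inr)) := by
  rw [sat_ren, PRD_r]

private theorem PRD_asatl {ι κ₁ κ₂ : Type} (φ : PP R (ι ⊕ κ₁))
    (M : Type) [AddCommGroup M] [AfS R M] (a : ι → M) (T : κ₁ ⊕ κ₂ → M) :
    ASat (ren (Sum.map id Sum.inl) φ : PP R (ι ⊕ (κ₁ ⊕ κ₂))) M (Sum.elim a T) ↔
      ASat φ M (Sum.elim a (T ∘ Sum.inl)) := by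
  rw [asat_ren, PRD_l]

private theorem PRD_asatr {ι κ₁ κ₂ : Type} (φ : PP R (ι ⊕ κ₂))
    (M : Type) [AddCommGroup M] [AfS R M] (a : ι → M) (T : κ₁ ⊕ κ₂ → M) :
    ASat (ren (Sum.map id Sum.inr) φ : PP R (ι ⊕ (κ₁ ⊕ κ₂))) M (Sum.elim a T) ↔
      ASat φ M (Sum.elim a (T ∘ Sum.inr)) := by
  rw [asat_ren, PRD_r]

private theorem PRD_are {ι κ₁ κ₂ : Type} (V₁ : Set (PP R (ι ⊕ κ₁))) (V₂ : Set (PP R (ι ⊕ κ₂)))
    (M : Type) [AddCommGroup M] [AfS R M] (a : ι → M) (T : κ₁ ⊕ κ₂ → M) :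
    ARe (PRD_V V₁ V₂) M (Sum.elim a T) ↔
      ARe V₁ M (Sum.elim a (T ∘ Sum.inl)) ∧ ARe V₂ M (Sum.elim a (T ∘ Sum.inr)) := by
  constructor
  · intro h
    refine ⟨fun φ hφ => ?_, fun φ hφ => ?_⟩
    · exact (PRD_asatl φ M a T).1 (h _ (Or.inl ⟨φ, hφ, rfl⟩))
    · exact (PRD_asatr φ M a T).1 (h _ (Or.inr ⟨φ, hφ, rfl⟩))
  · rintro ⟨h1, h2⟩ χ (⟨φ, hφ, rfl⟩ | ⟨φ, hφ, rfl⟩)
    · exact (PRD_asatl φ M a T).2 (h1 φ hφ)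
    · exact (PRD_asatr φ M a T).2 (h2 φ hφ)

private theorem PRD_re {ι κ₁ κ₂ : Type} (V₁ : Set (PP R (ι ⊕ κ₁))) (V₂ : Set (PP R (ι ⊕ κ₂)))
    (M : Type) [AddCommGroup M] [MoS R M] (a : ι → M) (T : κ₁ ⊕ κ₂ → M) :
    Re (PRD_V V₁ V₂) M (Sum.elim a T) ↔
      Re V₁ M (Sum.elim a (T ∘ Sum.inl)) ∧ Re V₂ M (Sum.elim a (T ∘ Sum.inr)) := by
  constructor
  · intro h
    refine ⟨fun φ hφ => ?_, fun φ hφ => ?_⟩
    · exact (PRD_satl φ M a T).1 (h _ (Or.inl ⟨φ, hφ, rfl⟩))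
    · exact (PRD_satr φ M a T).1 (h _ (Or.inr ⟨φ, hφ, rfl⟩))
  · rintro ⟨h1, h2⟩ χ (⟨φ, hφ, rfl⟩ | ⟨φ, hφ, rfl⟩)
    · exact (PRD_satl φ M a T).2 (h1 φ hφ)
    · exact (PRD_satr φ M a T).2 (h2 φ hφ)

private theorem PRD_rez {ι κ₁ κ₂ : Type} (V₁ : Set (PP R (ι ⊕ κ₁))) (V₂ : Set (PP R (ι ⊕ κ₂)))
    (M : Type) [AddCommGroup M] [MoS R M] (T : κ₁ ⊕ κ₂ → M) :
    Re (zer '' PRD_V V₁ V₂) M T ↔
      Re (zer '' V₁) M (T ∘ Sum.inl) ∧ Re (zer '' V₂) M (T ∘ Sum.inr) := by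
  rw [re_zer, PRD_re, re_zer, re_zer]

private theorem PRD_pair {ι : Type} (X : Ax R) (S : Set (PP R ι)) (φ₁ φ₂ ψ : PP R ι)
    (h1 : φ₁ ∈ S) (h2 : φ₂ ∈ S) (h : ∀ (M : Type) [AddCommGroup M] [MoS R M] (x : ι → M),
      Sat φ₁ M x → Sat φ₂ M x → Sat ψ M x) : X.Ent S ψ := by
  classical
  refine ⟨{φ₁, φ₂}, ?_, fun M _ _ hM x hx => h M x (hx _ ?_) (hx _ ?_)⟩
  · intro χ hχ
    rw [Finset.mem_coe, Finset.mem_insert, Finset.mem_singleton] at hχ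
    rcases hχ with rfl | rfl
    · exact h1
    · exact h2
  · exact Finset.mem_insert_self _ _
  · exact Finset.mem_insert_of_mem (Finset.mem_singleton_self _)

/-- projections to a factor keep the index finite -/
private theorem PRD_ind {A B : Type} [AddGroup A] [AddGroup B] (f : A →+ B) (H : AddSubgroup A)
    (K L : AddSubgroup B) (h : K.relIndex L ≠ 0) (hf : ∀ x ∈ H, f x ∈ L) :
    (K.comap f).relIndex H ≠ 0 := by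
  rw [AddSubgroup.relIndex_comap]
  refine mt (AddSubgroup.relIndex_eq_zero_of_le_right ?_) h
  rintro _ ⟨x, hx, rfl⟩
  exact hf x hx

end

theorem thm_PRD (h1 : St_FU2) (h2 : AVC.St_HPR) (h3 : St_HCG) : St_PRD := by
  intro R _ _ U hU ι κ₁ κ₂ _ _ _ a V₁ V₂ ψ₁ ψ₂ t₁ t₂ N₁ N₂ Y g₁ g₂ v₁ v₂ d₁ d₂ hF₁ hF₂ hN₁ hN₂
    hv₁ hv₂
  obtain ⟨ψ, hψ⟩ := (isPP_sat (ren (Sum.inl : κ₁ → κ₁ ⊕ κ₂) ψ₁)).and
    (isPP_sat (ren (Sum.inr : κ₂ → κ₁ ⊕ κ₂) ψ₂))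
  have hψ' : ∀ (M : Type) [AddCommGroup M] [MoS R M] (T : κ₁ ⊕ κ₂ → M),
      Sat ψ M T ↔ Sat ψ₁ M (T ∘ Sum.inl) ∧ Sat ψ₂ M (T ∘ Sum.inr) := by
    intro M _ _ T
    rw [← hψ M T]
    exact and_congr (sat_ren _ _ T) (sat_ren _ _ T)
  have hS : ∀ (M : Type) [AddCommGroup M] [MoS R M] (T : κ₁ ⊕ κ₂ → M),
      Re (ren Sum.inl '' (zer '' V₁ ∪ {ψ₁}) ∪ ren Sum.inr '' (zer '' V₂ ∪ {ψ₂})) M T ↔
        Re (zer '' PRD_V V₁ V₂ ∪ {ψ}) M T := by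
    intro M _ _ T
    rw [re_union, re_ren, re_ren, re_union, re_union, re_union, PRD_rez]
    constructor
    · rintro ⟨⟨p1, p2⟩, p3, p4⟩
      refine ⟨⟨p1, p3⟩, fun χ hχ => ?_⟩
      rw [mem_singleton_iff.1 hχ, hψ']
      exact ⟨p2 _ rfl, p4 _ rfl⟩
    · rintro ⟨⟨p1, p3⟩, p⟩
      have p' := (hψ' M T).1 (p _ rfl)
      refine ⟨⟨p1, fun χ hχ => ?_⟩, p3, fun χ hχ => ?_⟩
      · rw [mem_singleton_iff.1 hχ]
        exact p'.1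
      · rw [mem_singleton_iff.1 hχ]
        exact p'.2
  have hfact : Fact U a (PRD_V V₁ V₂) ψ (Sum.elim t₁ t₂) := by
    refine ⟨(PRD_are V₁ V₂ U a _).2 ⟨hF₁.re, hF₂.re⟩, ?_, ?_⟩
    · have e : grp (R := R) U {ψ} =
          (grp (R := R) U {ψ₁}).comap (AddMonoidHom.pi fun i : κ₁ => Pi.evalAddMonoidHom _ (Sum.inl i)) ⊓
          (grp (R := R) U {ψ₂}).comap (AddMonoidHom.pi fun i : κ₂ => Pi.evalAddMonoidHom _ (Sum.inr i)) := by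
        ext T
        constructor
        · intro hT
          have hT' := (hψ' U T).1 (hT ψ rfl)
          refine ⟨fun χ hχ => ?_, fun χ hχ => ?_⟩
          · rw [mem_singleton_iff.1 hχ]
            exact hT'.1
          · rw [mem_singleton_iff.1 hχ]
            exact hT'.2
        · rintro ⟨hT1, hT2⟩ χ hχ
          rw [mem_singleton_iff.1 hχ, hψ']
          exact ⟨hT1 ψ₁ rfl, hT2 ψ₂ rfl⟩
      unfold FIn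
      rw [e]
      refine AddSubgroup.relIndex_inf_ne_zero ?_ ?_
      · exact PRD_ind _ _ _ (grp (R := R) U (zer '' V₁)) hF₁.fi
          fun T hT => ((PRD_rez V₁ V₂ U T).1 hT).1
      · exact PRD_ind _ _ _ (grp (R := R) U (zer '' V₂)) hF₂.fi
          fun T hT => ((PRD_rez V₁ V₂ U T).1 hT).2
    · exact PRD_full (fun x => hS U x) (h1 R U.md hU.md κ₁ κ₂ _ _ hF₁.full hF₂.full)
  have hhon : (Own R U).Honest (zer '' PRD_V V₁ V₂ ∪ {ψ}) (N₁ × N₂)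
      (Sum.elim (fun i => (g₁ i, 0)) (fun j => (0, g₂ j))) := by
    refine h3 R (Own R U) (κ₁ ⊕ κ₂) (ren Sum.inl '' (zer '' V₁ ∪ {ψ₁}) ∪
      ren Sum.inr '' (zer '' V₂ ∪ {ψ₂})) _ ⟨N₁ × N₂⟩ _ ?_ ?_
      (h2 R (Own R U) κ₁ κ₂ _ _ N₁ N₂ g₁ g₂ hN₁ hN₂)
    · rintro χ (⟨φ', (⟨φ, hφ, rfl⟩ | ⟨φ, hφ, rfl⟩), rfl⟩ | hχ)
      · have hm : ren Sum.inl (zer φ) ∈ ren (Sum.inl : κ₁ → κ₁ ⊕ κ₂) '' (zer '' V₁ ∪ {ψ₁}) ∪
            ren (Sum.inr : κ₂ → κ₁ ⊕ κ₂) '' (zer '' V₂ ∪ {ψ₂}) :=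
          Or.inl ⟨zer φ, Or.inl ⟨φ, hφ, rfl⟩, rfl⟩
        refine PRD_pair _ _ _ _ _ hm hm fun M _ _ x hx _ => ?_
        rw [sat_zer, PRD_satl, ← sat_zer]
        exact (sat_ren _ _ x).1 hx
      · have hm : ren Sum.inr (zer φ) ∈ ren (Sum.inl : κ₁ → κ₁ ⊕ κ₂) '' (zer '' V₁ ∪ {ψ₁}) ∪
            ren (Sum.inr : κ₂ → κ₁ ⊕ κ₂) '' (zer '' V₂ ∪ {ψ₂}) :=
          Or.inr ⟨zer φ, Or.inl ⟨φ, hφ, rfl⟩, rfl⟩
        refine PRD_pair _ _ _ _ _ hm hm fun M _ _ x hx _ => ?_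
        rw [sat_zer, PRD_satr, ← sat_zer]
        exact (sat_ren _ _ x).1 hx
      · rw [mem_singleton_iff.1 hχ]
        have hm₁ : ren Sum.inl ψ₁ ∈ ren (Sum.inl : κ₁ → κ₁ ⊕ κ₂) '' (zer '' V₁ ∪ {ψ₁}) ∪
            ren (Sum.inr : κ₂ → κ₁ ⊕ κ₂) '' (zer '' V₂ ∪ {ψ₂}) :=
          Or.inl ⟨ψ₁, Or.inr rfl, rfl⟩
        have hm₂ : ren Sum.inr ψ₂ ∈ ren (Sum.inl : κ₁ → κ₁ ⊕ κ₂) '' (zer '' V₁ ∪ {ψ₁}) ∪
            ren (Sum.inr : κ₂ → κ₁ ⊕ κ₂) '' (zer '' V₂ ∪ {ψ₂}) :=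
          Or.inr ⟨ψ₂, Or.inr rfl, rfl⟩
        refine PRD_pair _ _ _ _ _ hm₁ hm₂ fun M _ _ x hx hx' => ?_
        exact (hψ M x).1 ⟨hx, hx'⟩
    · rintro χ (⟨φ', (⟨φ, hφ, rfl⟩ | hφ'), rfl⟩ | ⟨φ', (⟨φ, hφ, rfl⟩ | hφ'), rfl⟩)
      · have hm : zer (ren (Sum.map id Sum.inl) φ) ∈ zer '' PRD_V V₁ V₂ ∪ {ψ} :=
          Or.inl ⟨_, Or.inl ⟨φ, hφ, rfl⟩, rfl⟩
        refine PRD_pair _ _ _ _ _ hm hm fun M _ _ x hx _ => ?_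
        rw [sat_zer, PRD_satl, ← sat_zer] at hx
        exact (sat_ren _ _ x).2 hx
      · rw [mem_singleton_iff.1 hφ']
        have hm : ψ ∈ zer '' PRD_V V₁ V₂ ∪ {ψ} := Or.inr rfl
        refine PRD_pair _ _ _ _ _ hm hm fun M _ _ x hx _ => ?_
        exact ((hψ M x).2 hx).1
      · have hm : zer (ren (Sum.map id Sum.inr) φ) ∈ zer '' PRD_V V₁ V₂ ∪ {ψ} :=
          Or.inl ⟨_, Or.inr ⟨φ, hφ, rfl⟩, rfl⟩
        refine PRD_pair _ _ _ _ _ hm hm fun M _ _ x hx _ => ?_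
        rw [sat_zer, PRD_satr, ← sat_zer] at hx
        exact (sat_ren _ _ x).2 hx
      · rw [mem_singleton_iff.1 hφ']
        have hm : ψ ∈ zer '' PRD_V V₁ V₂ ∪ {ψ} := Or.inr rfl
        refine PRD_pair _ _ _ _ _ hm hm fun M _ _ x hx _ => ?_
        exact ((hψ M x).2 hx).2
  refine ⟨κ₁ ⊕ κ₂, inferInstance, PRD_V V₁ V₂, ψ, Sum.elim t₁ t₂, ⟨N₁ × N₂⟩,
    Sum.elim (fun i => (g₁ i, 0)) (fun j => (0, g₂ j)), v₁.prod v₂, hfact, hhon, ?_⟩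
  rintro p e ⟨s, f, hs1, hs2, hf, rfl⟩
  have q₁ : IsDelF U a V₁ ψ₁ t₁ N₁ g₁ p
      ((Own R U).exMk N₁ p.1.1.md (Hm.comp f (Hm.inl R N₁ N₂))) := by
    refine ⟨fun i => s (Sum.inl i), Hm.comp f (Hm.inl R N₁ N₂), ?_, ?_, ?_, rfl⟩
    · intro φ hφ
      obtain ⟨m₀, hm₀⟩ := hs1 _ (Or.inl ⟨φ, hφ, rfl⟩)
      refine ⟨m₀, fun m hm => ?_⟩
      exact (PRD_asatl φ U a _).1 (hm₀ m hm)
    · obtain ⟨m₀, hm₀⟩ := hs2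
      refine ⟨m₀, fun m hm => ?_⟩
      exact ((hψ' U _).1 (hm₀ m hm)).1
    · intro i
      exact hf (Sum.inl i)
  have q₂ : IsDelF U a V₂ ψ₂ t₂ N₂ g₂ p
      ((Own R U).exMk N₂ p.1.1.md (Hm.comp f (Hm.inr R N₁ N₂))) := by
    refine ⟨fun i => s (Sum.inr i), Hm.comp f (Hm.inr R N₁ N₂), ?_, ?_, ?_, rfl⟩
    · intro φ hφ
      obtain ⟨m₀, hm₀⟩ := hs1 _ (Or.inr ⟨φ, hφ, rfl⟩)
      refine ⟨m₀, fun m hm => ?_⟩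
      exact (PRD_asatr φ U a _).1 (hm₀ m hm)
    · obtain ⟨m₀, hm₀⟩ := hs2
      refine ⟨m₀, fun m hm => ?_⟩
      exact ((hψ' U _).1 (hm₀ m hm)).2
    · intro i
      exact hf (Sum.inr i)
  show d₁ p + d₂ p = _
  rw [hv₁ p _ q₁, hv₂ p _ q₂, exMap_mk, exMap_mk, exMap_mk, ← map_add]
  congr 1
  ext y
  show f (v₁ y, 0) + f (0, v₂ y) = f (v₁ y, v₂ y)
  rw [← map_add, Prod.mk_add_mk, add_zero, zero_add]

end Pool.Agent.AVF
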