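import Pool.Agent.AVF.StD

/-!
# AVF, block D: sequences of approximate realisations in a model (SEQ)
-/

set_option autoImplicit false

namespace Pool.Agent.AVF

open Set Pool.Agent.AVC Pool.Agent.AVC.Ax

/-- 5.1 the sequences -/
theorem thm_SEQ (h1 : St_COM) (h2 : St_FIC) : St_SEQ := by
  classical
  intro R _ _ U hU ι κ _ _ a V ψ t p hV hF
  obtain ⟨s, hsV, hsF⟩ := h2 R U.md hU.md κ (zer '' V) ψ hF
  -- a finite part of `V` which gives `s`
  have hs : ∀ χ ∈ s, ∃ φ ∈ V, zer φ = χ := fun χ hχ => hsV hχ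
  choose! f hfV hf using hs
  obtain ⟨g, hg⟩ := exists_surjective_nat (PP R (ι ⊕ κ))
  let w : ℕ → Finset (PP R (ι ⊕ κ)) := fun n =>
    s.image f ∪ ((Finset.range n).image g).filter (· ∈ V)
  have hwV : ∀ n, ∀ φ ∈ w n, φ ∈ V := by
    intro n φ hφ
    rcases Finset.mem_union.mp hφ with h | h
    · obtain ⟨χ, hχ, rfl⟩ := Finset.mem_image.mp h
      exact hfV χ hχ
    · exact (Finset.mem_filter.mp h).2
  choose φ hφ hφ' using fun n => isAP_finset (R := R) (w n)
  have hA : ∀ n, ASat (φ n) U (Sum.elim a t) := by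
    intro n
    rw [← hφ]
    exact fun χ hχ => hV χ (hwV n χ hχ)
  have hB : ∀ n, FIn U {zer (φ n)} {ψ} := by
    intro n h0
    refine hsF (AddSubgroup.relIndex_eq_zero_of_le_right ?_ h0)
    intro x hx χ hχ
    have h3 : Sat (zer (φ n)) U x := hx _ (mem_singleton _)
    rw [sat_zer, ← hφ'] at h3
    have h4 := h3 (f χ) (Finset.mem_union_left _ (Finset.mem_image_of_mem f hχ))
    rw [← hf χ hχ, sat_zer]
    exact h4
  choose y hy1 hy2 using fun n => h1 R U hU ι κ a p (φ n) ψ t (hA n) (hB n)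
  refine ⟨fun i m => y m i, fun χ hχ => ?_, 0, fun m _ => hy2 m⟩
  obtain ⟨k, rfl⟩ := hg χ
  refine ⟨k + 1, fun m hm => ?_⟩
  have h3 := hy1 m
  rw [← hφ] at h3
  exact h3 _ (Finset.mem_union_right _ (Finset.mem_filter.mpr
    ⟨Finset.mem_image.mpr ⟨k, Finset.mem_range.mpr hm, rfl⟩, hχ⟩))

end Pool.Agent.AVF
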