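import Pool.Agent.AVF.CSF
import Pool.Agent.AVF.ACF
import Pool.Agent.AVF.EXG
import Pool.Agent.AVF.EXP
import Pool.Agent.AVF.AMP
import Pool.Agent.AVF.DRS
import Pool.Agent.AVF.DLX
import Pool.Agent.AVF.SEQ
import Pool.Agent.AVF.TTS
import Pool.Agent.AVF.ORF
import Pool.Agent.AVF.RPF
import Pool.Agent.AVF.PRE
import Pool.Agent.AVF.EXA
import Pool.Agent.AVF.EXB
import Pool.Agent.AVF.SPN
import Pool.Agent.AVF.AGF
import Pool.Agent.AVF.NTH
import Pool.Agent.AVF.FEX
import Pool.Agent.AVF.UMT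
import Pool.Agent.AVF.PRD
import Pool.Agent.AVF.MDL
import Pool.Agent.AVF.AllQ
import Pool.Agent.AVF.TLA
import Pool.Agent.AVC.HEX
import Pool.Agent.AVC.EXT
import Pool.Agent.AVC.NULM
import Pool.Agent.AVC.MI
import Pool.Agent.AVC.HDS
import Pool.Agent.AVC.HPR

/-!
# AVF, block U (sections 5 and 6): assembly (helper8)
-/

set_option autoImplicit false
set_option linter.unusedSectionVars false
set_option linter.unusedVariables false

namespace Pool.Agent.AVF

open Set Pool.Agent.AVC Pool.Agent.AVC.Ax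

/-- every tuple of a model is exact, from the chain condition and one full module -/
theorem thm_UALL (hMDL : St_MDL) : St_UMT := by
  have hCOM : St_COM := thm_COM all_COS
  have hCSF : St_CSF := thm_CSF
  have hACF : St_ACF := thm_ACF
  have hPRD : St_PRD := thm_PRD all_FU2 thm_HPR all_HCG
  have hDLX : St_DLX := thm_DLX (thm_SEQ hCOM all_FIC) thm_EXG thm_AMP thm_MIS thm_MIK thm_EX0
  have hDRS : St_DRS := thm_DRS thm_EX0 dic_T
  have hTTS : St_TTS := thm_TTS hPRD thm_HEX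
  have hORF : St_ORF := thm_ORF hTTS hACF hCSF hDLX
  have hRPF : St_RPF := thm_RPF thm_AMP all_FIC thm_HEX thm_EX0 thm_NUP thm_MIS
  have hPRE : St_PRE := thm_PRE thm_FEX hDRS all_QIS thm_HEX all_ENU
  have hEXA : St_EXA := thm_EXA all_KIL all_ENU thm_AMP hDLX thm_EXP thm_EX0 thm_MIS
  have hEXB : St_EXB := thm_EXB all_FUP all_FUI all_QIS hDRS hDLX thm_HDS
  have hSPN : St_SPN := thm_SPN hTTS hRPF hMDL hDLX hCSF hACF hPRE hEXA hEXB thm_HEX
  have hAGF : St_AGF := thm_AGF hTTS hRPF hDLX hCSF hACF hom_T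
  have hNTH : St_NTH := thm_NTH hSPN hAGF hORF hACF
  exact thm_UMT hTTS hRPF hDLX hCSF hNTH thm_FEX thm_HEX prm_T

/-- **block U, without hypotheses** -/
theorem all_UMT : St_UMT := thm_UALL thm_MDL

end Pool.Agent.AVF
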