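import Pool.Agent.AVF.Defs

/-!
# AVF, block Q: full types (statements, helper68)

All statements are about the homogeneous reduct of `U`, except `St_COS` and `St_TF6`.
-/

set_option autoImplicit false
set_option linter.unusedSectionVars false
set_option linter.unusedVariables false

namespace Pool.Agent.AVF

open Set Pool.Agent.AVC Pool.Agent.AVC.Ax

/-- the union of the types `S j` in separate variables -/
def cup {R : Type} [RSig R] {J : Type} {κ : J → Type} (S : ∀ j, Set (PP R (κ j))) : Set (PP R ((j : J) × κ j)) :=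
  ⋃ j, ren (Sigma.mk j) '' S j

theorem re_cup {R : Type} [RSig R] {J : Type} {κ : J → Type} (S : ∀ j, Set (PP R (κ j))) {M : Type}
    [AddCommGroup M] [MoS R M] (x : ((j : J) × κ j) → M) :
    Re (cup S) M x ↔ ∀ j, Re (S j) M (fun i => x ⟨j, i⟩) := by
  constructor
  · intro h j
    have h1 : Re (ren (Sigma.mk j) '' S j) M x := h.mono (subset_iUnion_of_subset j (Subset.refl _))
    rw [re_ren] at h1
    exact h1
  · intro h φ hφ
    obtain ⟨j, hj⟩ := mem_iUnion.mp hφ
    have h1 : Re (ren (Sigma.mk j) '' S j) M x := by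
      rw [re_ren]
      exact h j
    exact h1 φ hj

/-- (SAT) saturation for sets of positive primitive formulas over a finite tuple (block T) -/
def St_SAP : Prop := ∀ (R : Type) [RSig R] [Countable R] (U : Md R), MonM R U →
  ∀ (ι κ : Type) [Finite ι] [Finite κ] (a : ι → U) (V : Set (PP R (ι ⊕ κ))),
  (∀ s : Finset (PP R (ι ⊕ κ)), ↑s ⊆ V → ∃ t : κ → U, ∀ φ ∈ s, Sat φ U (Sum.elim a t)) →
  ∃ t : κ → U, Re V U (Sum.elim a t)

/-- [FIF] A subtype of finite index is given by finitely many of its formulas. (Choose a finite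
`s ⊆ S'` with the largest index `[grp S : grp S ∩ grp s]`, which is at most `[grp S : grp S ∩ grp S']`.
No saturation is needed.) -/
def St_FIF : Prop := ∀ (R : Type) [RSig R] (U : Md R) (κ : Type) (S S' : Set (PP R κ)), FIn U S S' →
  ∃ s : Finset (PP R κ), ↑s ⊆ S' ∧ ∀ x : κ → U, Re S U x → (∀ φ ∈ s, Sat φ U x) → Re S' U x

/-- [FUQ] `S` full, `S'` of finite index: `S = χ + (S ∧ S')` for one formula `χ ≤ S`.
Proof. The groups `χ(U) + grp (S ∪ S')`, `χ ≤ S` a formula, are between `grp (S ∪ S')` and `grp S`, a directed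
family (`χ + χ' ≤ S` is a formula), so there is a largest one, `H`. By [FIF] let `s ⊆ S'` be finite
with `S ∧ s ≤ S'`. For finite `s₀ ⊆ S` the formula `ρ(x) := ∃ c, χ(c) ∧ (s₀ ∧ s)(x - c)` contains `H`, so it has
finite index in `S` and contains all formulas `χ' ≤ S` (`χ'(U) ≤ H`): `ρ ∈ one U S`. `S` is full: every
`x` in `S` satisfies all `ρ`; `St_SAP` gives `c` with `χ(c)`, `(S ∧ s)(x - c)`. -/
def St_FUQ : Prop := ∀ (R : Type) [RSig R] [Countable R] (U : Md R), MonM R U →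
  ∀ (κ : Type) [Finite κ] (S S' : Set (PP R κ)), Full U S → FIn U S S' →
  ∃ χ : PP R κ, (∀ x : κ → U, Sat χ U x → Re S U x) ∧
    ∀ x : κ → U, Re S U x → ∃ c w : κ → U, x = c + w ∧ Sat χ U c ∧ Re S U w ∧ Re S' U w

/-- [FUR] criterion for fullness (converse of [FUQ]); formulas are full. -/
theorem full_of {R : Type} [RSig R] {U : Type} [AddCommGroup U] [MoS R U] {κ : Type} {S : Set (PP R κ)}
    (h : ∀ ψ : PP R κ, FIn U S {ψ} → ∃ χ : PP R κ, (∀ x : κ → U, Sat χ U x → Re S U x) ∧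
      ∀ x : κ → U, Re S U x → ∃ c w : κ → U, x = c + w ∧ Sat χ U c ∧ Sat ψ U w) : Full U S := by
  rintro x hx ψ ⟨h1, h2⟩
  obtain ⟨χ, h3, h4⟩ := h ψ h1
  obtain ⟨c, w, rfl, hc, hw⟩ := h4 x hx
  exact (h2 χ h3 c hc ψ rfl).add hw

/-- formulas are full -/
theorem full_formula {R : Type} [RSig R] {U : Type} [AddCommGroup U] [MoS R U] {κ : Type} {S : Set (PP R κ)} (χ : PP R κ)
    (h : ∀ x : κ → U, Sat χ U x ↔ Re S U x) : Full U S := by
  rintro x hx ψ ⟨-, h2⟩
  exact h2 χ (fun y hy => (h y).1 hy) x ((h x).2 hx) ψ rfl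

/-- fullness depends only on the group -/
theorem full_congr {R : Type} [RSig R] {U : Type} [AddCommGroup U] [MoS R U] {κ : Type} {S S' : Set (PP R κ)}
    (h : ∀ x : κ → U, Re S U x ↔ Re S' U x) (hS : Full U S) : Full U S' := by
  have hg : grp U S = grp U S' := AddSubgroup.ext h
  rintro x hx ψ ⟨h1, h2⟩
  refine hS x ((h x).2 hx) ψ ⟨?_, fun χ hχ y hy => h2 χ (fun z hz => (h z).1 (hχ z hz)) y hy⟩
  unfold FIn at h1 ⊢
  rw [hg]
  exact h1

/-- compactness (a): an inclusion of a type in a formula is an entailment in the class -/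
def St_ENU : Prop := ∀ (R : Type) [RSig R] [Countable R] (U : Md R), MonM R U →
  ∀ (κ : Type) [Finite κ] (S : Set (PP R κ)) (ψ : PP R κ), (∀ x : κ → U, Re S U x → Sat ψ U x) →
  (Own R U).Ent S ψ

/-- compactness (b): finite index is seen by a finite part -/
def St_FIC : Prop := ∀ (R : Type) [RSig R] [Countable R] (U : Md R), MonM R U →
  ∀ (κ : Type) [Finite κ] (S : Set (PP R κ)) (ψ : PP R κ), FIn U S {ψ} →
  ∃ s : Finset (PP R κ), ↑s ⊆ S ∧ FIn U ↑s {ψ}

/-- 0.2 (QISO) full types of finite index in each other have isomorphic honest modules -/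
def St_QIS : Prop := ∀ (R : Type) [RSig R] [Countable R] (U : Md R), MonM R U →
  ∀ (κ : Type) [Finite κ] (S S' : Set (PP R κ)) (N N' : Md R) (g : κ → N) (g' : κ → N'),
  Full U S → FIn U S S' → (∀ x : κ → U, Re S' U x → Re S U x) →
  (Own R U).Honest S N g → (Own R U).Honest S' N' g' →
  ∀ ρ : Hm R N N', (∀ i, ρ (g i) = g' i) →
  ∃ j : Hm R N' N, (Own R U).Eqv (Hm.comp j ρ) Hm.id ∧ (Own R U).Eqv (Hm.comp ρ j) Hm.id

/-- 0.3 (KILL) -/
def St_KIL : Prop := ∀ (R : Type) [RSig R] [Countable R] (U : Md R), MonM R U →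
  ∀ (κ l : Type) [Finite κ] [Finite l] (S : Set (PP R κ)) (θ : PP R (κ ⊕ l)) (W : Set (PP R l))
  (ψ : PP R l), Full U S → FIn U W {ψ} → PIn U W {ψ} →
  (∀ u : κ → U, Re S U u → ∃ y : l → U, Sat θ U (Sum.elim u y)) →
  (∀ (u : κ → U) (y : l → U), Re S U u → Sat θ U (Sum.elim u y) → Re W U y) →
  ∀ (u : κ → U) (y : l → U), Re S U u → Sat θ U (Sum.elim u y) → Sat ψ U y

/-- 0.1 finite index subtypes of full types are full; fullness depends on the group only -/
def St_FUI : Prop := ∀ (R : Type) [RSig R] [Countable R] (U : Md R), MonM R U →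
  ∀ (κ : Type) [Finite κ] (S S' : Set (PP R κ)), Full U S → FIn U S S' →
  (∀ x : κ → U, Re S' U x → Re S U x) → Full U S'

/-- 0.1 finite products of full types are full -/
def St_FUP : Prop := ∀ (R : Type) [RSig R] [Countable R] (U : Md R), MonM R U →
  ∀ (J : Type) [Finite J] (κ : J → Type) [∀ j, Finite (κ j)] (S : ∀ j, Set (PP R (κ j))),
  (∀ j, Full U (S j)) → Full U (cup S)

/-- 0.1 products of two full types (from `St_FUP` with `J = Bool` and re-indexing, or with `St_KIL`) -/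
def St_FU2 : Prop := ∀ (R : Type) [RSig R] [Countable R] (U : Md R), MonM R U →
  ∀ (κ₁ κ₂ : Type) [Finite κ₁] [Finite κ₂] (S₁ : Set (PP R κ₁)) (S₂ : Set (PP R κ₂)),
  Full U S₁ → Full U S₂ → Full U (ren Sum.inl '' S₁ ∪ ren Sum.inr '' S₂)

/-- 0.1 images of full types and of formulas: `{(x, y) : q(x) ∧ θ(x, y)}` is full -/
def St_FUT : Prop := ∀ (R : Type) [RSig R] [Countable R] (U : Md R), MonM R U →
  ∀ (κ l : Type) [Finite κ] [Finite l] (S : Set (PP R κ)) (θ : PP R (κ ⊕ l)), Full U S →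
  (∀ u : κ → U, Re S U u → ∃ y : l → U, Sat θ U (Sum.elim u y)) →
  Full U (ren Sum.inl '' S ∪ {θ})

/-- honest modules for equivalent types -/
def St_HCG : Prop := ∀ (R : Type) [RSig R] [Countable R] (X : Ax R) (ι : Type) (S S' : Set (PP R ι))
  (N : Md R) (g : ι → N), (∀ ψ ∈ S', X.Ent S ψ) → (∀ ψ ∈ S, X.Ent S' ψ) → X.Honest S N g →
  X.Honest S' N g

/-- [FUS] images of full types, enlarged by a formula. With `χ := []` false (`x = 0` is the list of
`x_i`) it is the image. Proof. Let `ψ ∈ one U T`. By `St_KIL` (`W := T`): `Re S u`, `θ(u, y)` imply `ψ(y)`.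
For `y` in `T`: `y = c + (y - c)`, `ψ(c)` (`PIn`, `χ ≤ T`), `ψ(y - c)`. -/
def St_FUS : Prop := ∀ (R : Type) [RSig R] [Countable R] (U : Md R), MonM R U →
  ∀ (κ l : Type) [Finite κ] [Finite l] (S : Set (PP R κ)) (T : Set (PP R l)) (θ : PP R (κ ⊕ l))
  (χ : PP R l), Full U S →
  (∀ u : κ → U, Re S U u → ∃ y : l → U, Sat θ U (Sum.elim u y)) →
  (∀ (u : κ → U) (y : l → U), Re S U u → Sat θ U (Sum.elim u y) → Re T U y) →
  (∀ y : l → U, Sat χ U y → Re T U y) →
  (∀ y : l → U, Re T U y → ∃ (u : κ → U) (c : l → U), Re S U u ∧ Sat χ U c ∧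
    Sat θ U (Sum.elim u (y - c))) →
  Full U T

/-- [RFF] Retracts of full types are full (so all summands of `Q(X)` of full types are full).
Proof. `α : N' → N`, `β : N → N'`, `u := βα - 1` null: `u(g')` satisfies a formula `χ` which implies all of
`pp N' g'`, so `χ ≤ S'`. `θ` with `Gen S N g (α g') θ` (`Honest.gen`, re-indexed from `Fin k`). [FUS]:
`Re S u`, `θ(u, y)` imply `S'(y)`: in `U ∈ X`, as `S'(α g')` holds in `N`; a `y` in `S'(U)` is `f(g')` with
`f : N' → U` (`St_EX0`), `y = f(β α g') - f(u g')`, `θ(f β g, f β α g')`, `χ(f (u g'))`. -/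
def St_RFF : Prop := ∀ (R : Type) [RSig R] [Countable R] (U : Md R), MonM R U →
  ∀ (κ l : Type) [Finite κ] [Finite l] (S : Set (PP R κ)) (S' : Set (PP R l)) (N N' : Md R)
  (g : κ → N) (g' : l → N'), Full U S → (Own R U).Honest S N g → (Own R U).Honest S' N' g' →
  (Own R U).Retr N' N → Full U S'

/-- (TF5) cosets of finite index have points in each model: `φ` affine, `ψ` homogeneous. Proof.
`m := [φ(0,U) : φ(0,U) ∧ ψ(U)]`; `El.tv` gives `m` inequivalent tuples `z_i` of `M` in `φ(0, U)` and one point `y₀`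
of `M` with `φ(a, y₀)`; `t - y₀` is equivalent to one `z_i`; `y := y₀ + z_i`. -/
def St_COS : Prop := ∀ (R : Type) [RSig R] (U : Ad R) (M : Submodule R U), El U M →
  ∀ (ι κ : Type) [Finite ι] [Finite κ] (a : ι → U) (φ : PP R (ι ⊕ κ)) (ψ : PP R κ) (t : κ → U),
  (∀ i, a i ∈ M) → ASat φ U (Sum.elim a t) → FIn (R := R) U {zer φ} {ψ} →
  ∃ y : κ → U, (∀ i, y i ∈ M) ∧ ASat φ U (Sum.elim a y) ∧ Sat ψ U (y - t)

/-- (TF6) `S` full, `S'` of finite index in `S`: every coset of `S ∧ S'` in `S` has a point in each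
model. Proof. [FUQ], [FIF] (`S'` in `S` is given by a finite `s`, one formula `ψ`); `x = c + w`, `St_COS` for
`φ := χ` (in the variables of `κ`), `ψ`, `c`. -/
def St_TF6 : Prop := ∀ (R : Type) [RSig R] [Countable R] (U : Ad R), MonA R U →
  ∀ (M : Submodule R U), El U M → ∀ (κ : Type) [Finite κ] (S S' : Set (PP R κ))
  (x : κ → U), Full (R := R) U S → FIn (R := R) U S S' → Re S U x →
  ∃ y : κ → U, (∀ i, y i ∈ M) ∧ Re S U y ∧ Re S' U (y - x)

end Pool.Agent.AVF
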