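import Pool.Agent.AVF.Asm
import Pool.Agent.AVF.AllC
import Pool.Agent.AVF.AllU
import Pool.Agent.AVF.TLA
import Pool.Agent.AVF.W.WALL
import Pool.Agent.AFT.Fin
import Pool.Agent.AFT.PAR
import Pool.Agent.AFT.WND

/-!
# The affine form: everything except the homogeneity theorem for `K` (helper23)
-/

set_option autoImplicit false
set_option linter.unusedSectionVars false
set_option linter.unusedVariables false

namespace Pool.Agent.AVF

open Set Pool.Agent.AVC Pool.Agent.AVC.Ax

/-- no infinite coindependent sequences -/
theorem all_T1U : St_T1U := thm_T1U cla_T BW.thm_WALL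

/-- every tuple is exact for a level-one formula -/
theorem all_UMLU : St_UMLU := thm_UMLU cla_T all_FTU all_UMT

/-- the theorem for the countable saturated affine structure -/
theorem cua_of_iso (hI : St_ISOU) : St_CUA := thm_CUA all_T1U all_UMLU hI

/-- the theorem for weakly normal groups -/
theorem wn_of_iso (hI : St_ISOU) : AFT.St_WN :=
  AFT.wn_of_par (AFT.par_of_fin (AFT.thm_FIN (cua_of_iso hI)))

end Pool.Agent.AVF
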