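import Pool.Agent.AVF.Defs
import Pool.Agent.AVF.COV

/-!
# AVF, block W: no infinite coindependent sequence of level-one groups over `K_E` (statements, helper79)

The affine form of `VMF/StW.lean` (helper22).  `U : Ad R` is the countable saturated affine structure, models are
elementary submodules `M` of `U` (`El U M`).  `E` is a set of affine formulas in finitely many variables
(the matrix of an affine level-one formula), `KE U E M`: the model `M` contains a solution of `E`.  The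
groups `V`, `W i` are homogeneous (`Re`, `Sat1`), the types of tuples are affine (`app`), their
directions are the same sets of formulas read homogeneously (`Re (app U c)`, `afib U c z`).  Every
`def St_X : Prop` is one module `AVF/W/X.lean`, theorem `thm_X`, in the namespace `Pool.Agent.AVF.BW`; the file to
port is `VMF/X.lean`.
-/

set_option autoImplicit false
set_option linter.unusedSectionVars false
set_option linter.unusedVariables false

namespace Pool.Agent.AVF.BW

open Set Pool.Agent.AVC Pool.Agent.AVC.Ax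

section

variable {R : Type} [RSig R] {α ι κ : Type}

/-- the affine type of `(c, b)` is generated by the affine type of `c` and the formula `θ` -/
def GenBy (U : Type) [AddCommGroup U] [AfS R U] (c : κ → U) (b : ι → U) (θ : PP R (κ ⊕ ι)) :
    Prop :=
  ASat θ U (Sum.elim c b) ∧ ∀ (x : κ → U) (y : ι → U), ARe (app (R := R) U c) U x →
    ASat θ U (Sum.elim x y) → ARe (app (R := R) U (Sum.elim c b)) U (Sum.elim x y)

/-- the homogeneous reading -/
theorem GenBy.re {U : Type} [AddCommGroup U] [AfS R U] {c : κ → U} {b : ι → U}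
    {θ : PP R (κ ⊕ ι)} (h : GenBy U c b θ) {x : κ → U} {y : ι → U}
    (hx : Re (app (R := R) U c) U x) (hy : Sat θ U (Sum.elim x y)) :
    Re (app (R := R) U (Sum.elim c b)) U (Sum.elim x y) := by
  have h1 := h.2 (c + x) (b + y) ((app_re c).add hx) (by
    rw [elim_add]
    exact h.1.add hy)
  rw [elim_add] at h1
  have h2 := h1.sub (app_re (Sum.elim c b))
  rwa [add_sub_cancel_left] at h2

/-- `N` contains the finite tuple `b`, and the affine type of each finite tuple of `N` over `b` is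
generated by one formula -/
def AtOv (U : Ad R) (b : κ → U) (N : Submodule R U) : Prop :=
  (∀ i, b i ∈ N) ∧ ∀ (l : ℕ) (c : Fin l → N), ∃ θ : PP R (κ ⊕ Fin l),
    GenBy U b (fun j => (c j : U)) θ

/-- the elementary submodules which contain a solution of `E` -/
def KE (U : Ad R) (E : Set (PP R α)) (M : Submodule R U) : Prop :=
  El U M ∧ ∃ e : α → M, ARe E U (fun i => (e i : U))

/-- A coindependent sequence of level-one groups, properly contained in the type `V`, on the models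
in `K_E`. -/
def Coi (U : Ad R) (E : Set (PP R α)) (V : Set (PP R ι)) (W : ℕ → L1 R ι) : Prop :=
  (∀ i, ∀ M : Submodule R U, KE U E M → ∀ x : ι → M, Sat1 (W i) M x → Re V M x) ∧
  (∀ i, ∃ M : Submodule R U, KE U E M ∧ ∃ x : ι → M, Re V M x ∧ ¬ Sat1 (W i) M x) ∧
  ∀ M : Submodule R U, KE U E M → ∀ (A : Finset ℕ) (c : ℕ → ι → M), (∀ i, Re V M (c i)) →
    ∃ x : ι → M, Re V M x ∧ ∀ i ∈ A, Sat1 (W i) M (x - c i)

/-- The class of `t` modulo `q^1` (`q = S`) is realised in `M`. -/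
def Rz (U : Ad R) (S : Set (PP R ι)) (M : Submodule R U) (t : ι → U) : Prop :=
  ∃ y : ι → M, Re (one U S) U ((fun i => (y i : U)) - t)

/-- `W` contains `V ∧ ψ`, of finite index in `V`, on all models -/
def Fi1 (U : Ad R) (V : Set (PP R ι)) (W : L1 R ι) (ψ : PP R ι) : Prop :=
  FIn U V {ψ} ∧ ∀ M : Submodule R U, El U M → ∀ x : ι → M, Re V M x → Sat ψ M x → Sat1 W M x

/-- the types `S`, `T` in separate blocks of variables -/
def jn (S : Set (PP R κ)) (T : Set (PP R ι)) : Set (PP R (κ ⊕ ι)) :=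
  ren Sum.inl '' S ∪ ren Sum.inr '' T

theorem re_jn (S : Set (PP R κ)) (T : Set (PP R ι)) {M : Type} [AddCommGroup M] [MoS R M]
    (x : κ ⊕ ι → M) : Re (jn S T) M x ↔ Re S M (x ∘ Sum.inl) ∧ Re T M (x ∘ Sum.inr) := by
  unfold jn
  rw [re_union, re_ren, re_ren]

/-- the type `V` in `m` separate blocks of variables -/
def pw (V : Set (PP R ι)) (m : ℕ) : Set (PP R (Fin m × ι)) :=
  ⋃ j : Fin m, ren (fun i => (j, i)) '' V

theorem re_pw (V : Set (PP R ι)) (m : ℕ) {M : Type} [AddCommGroup M] [MoS R M]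
    (x : Fin m × ι → M) : Re (pw V m) M x ↔ ∀ j, Re V M (fun i => x (j, i)) := by
  constructor
  · intro h j
    have h1 : Re (ren (fun i => (j, i)) '' V) M x :=
      h.mono (subset_iUnion_of_subset j (Subset.refl _))
    rw [re_ren] at h1
    exact h1
  · intro h φ hφ
    obtain ⟨j, hj⟩ := mem_iUnion.mp hφ
    have h1 : Re (ren (fun i => (j, i)) '' V) M x := by
      rw [re_ren]
      exact h j
    exact h1 φ hj

/-- the variables `y` and `z_i`, `i ∈ A` -/
abbrev YZ (ι : Type) (W : ℕ → L1 R ι) (A : Finset ℕ) : Type := ι ⊕ ((i : A) × Fin (W i.1).1)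

/-- the type `V(y) ∧ ⋀_{i ∈ A} V_i(y, z_i)`, where `W i = ∃ z_i V_i(y, z_i)` -/
def yz (V : Set (PP R ι)) (W : ℕ → L1 R ι) (A : Finset ℕ) : Set (PP R (YZ ι W A)) :=
  ren Sum.inl '' V ∪ ⋃ i : A,
    ren (Sum.elim Sum.inl (fun j => Sum.inr ⟨i, j⟩) : ι ⊕ Fin (W i.1).1 → YZ ι W A) '' (W i.1).2

/-- the tuple `(y, z_A)` -/
def yzt {U : Type} {W : ℕ → L1 R ι} (A : Finset ℕ) (y : ι → U) (z : ∀ i, Fin (W i).1 → U) :
    YZ ι W A → U := Sum.elim y (fun p => z p.1.1 p.2)

theorem re_yz (V : Set (PP R ι)) (W : ℕ → L1 R ι) (A : Finset ℕ) {M : Type} [AddCommGroup M]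
    [MoS R M] (x : YZ ι W A → M) : Re (yz V W A) M x ↔ Re V M (x ∘ Sum.inl) ∧
      ∀ i : A, Re (W i.1).2 M (Sum.elim (x ∘ Sum.inl) (fun j => x (Sum.inr ⟨i, j⟩))) := by
  have key : ∀ i : A, (x ∘ (Sum.elim Sum.inl (fun j => Sum.inr ⟨i, j⟩) :
      ι ⊕ Fin (W i.1).1 → YZ ι W A)) =
      Sum.elim (x ∘ Sum.inl) (fun j => x (Sum.inr ⟨i, j⟩)) := by
    intro i
    funext j
    cases j <;> rfl
  unfold yz
  rw [re_union, re_ren]
  refine and_congr Iff.rfl ?_
  constructor
  · intro h i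
    rw [← key, ← re_ren]
    exact fun φ hφ => h φ (mem_iUnion.2 ⟨i, hφ⟩)
  · intro h φ hφ
    obtain ⟨i, hi⟩ := mem_iUnion.1 hφ
    have h1 := h i
    rw [← key, ← re_ren] at h1
    exact h1 φ hi

/-! ### Affine and homogeneous readings of types -/

/-- a homogeneous formula satisfied by a tuple is satisfied by the direction of its type -/
theorem re_app_sat {U : Type} [AddCommGroup U] [AfS R U] {c x : κ → U} {φ : PP R κ}
    (hx : Re (app (R := R) U c) U x) (hφ : Sat φ U c) : Sat φ U x := by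
  have h1 := hx (hom φ) ((asat_hom φ c).2 hφ)
  rwa [sat_hom] at h1

theorem re_app_re {U : Type} [AddCommGroup U] [AfS R U] {c x : κ → U} {S : Set (PP R κ)}
    (hx : Re (app (R := R) U c) U x) (hS : Re S U c) : Re S U x :=
  fun φ hφ => re_app_sat hx (hS φ hφ)

theorem re_app_are {U : Type} [AddCommGroup U] [AfS R U] {c x : κ → U} {S : Set (PP R κ)}
    (hx : Re (app (R := R) U c) U x) (hS : ARe S U c) : Re S U x :=
  fun φ hφ => hx φ (hS φ hφ)

/-- renaming -/
theorem re_app_comp {U : Type} [AddCommGroup U] [AfS R U] {c x : κ → U} (f : ι → κ)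
    (hx : Re (app (R := R) U c) U x) : Re (app (R := R) U (c ∘ f)) U (x ∘ f) := by
  intro φ hφ
  have h1 : ren f φ ∈ app (R := R) U c := (asat_ren f φ c).2 hφ
  have h2 := hx _ h1
  rwa [sat_ren] at h2

theorem are_app_comp {U : Type} [AddCommGroup U] [AfS R U] {c x : κ → U} (f : ι → κ)
    (hx : ARe (app (R := R) U c) U x) : ARe (app (R := R) U (c ∘ f)) U (x ∘ f) := by
  intro φ hφ
  have h1 : ren f φ ∈ app (R := R) U c := (asat_ren f φ c).2 hφ
  have h2 := hx _ h1
  rwa [asat_ren] at h2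

/-- a tuple which differs from `c` by an element of the direction satisfies the type of `c` -/
theorem are_app_iff {U : Type} [AddCommGroup U] [AfS R U] {c x : κ → U} :
    ARe (app (R := R) U c) U x ↔ Re (app (R := R) U c) U (x - c) := (app_re c).iff

theorem re_afib {U : Type} [AddCommGroup U] [AfS R U] {c : κ → U} {z x : ι → U} :
    Re (afib (R := R) U c z) U x ↔ Re (app (R := R) U (Sum.elim c z)) U (Sum.elim 0 x) := by
  constructor
  · intro h φ hφ
    have h1 := h (zer φ) ⟨φ, hφ, rfl⟩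
    rwa [sat_zer] at h1
  · rintro h _ ⟨φ, hφ, rfl⟩
    rw [sat_zer]
    exact h φ hφ

end

/-! ### Facts from the blocks T and Q -/

/-- elementary submodules are pure, in both readings -/
def St_WPU : Prop := ∀ (R : Type) [RSig R] [Countable R] (U : Ad R), MonA R U →
  ∀ M : Submodule R U, El U M → ∀ (ι : Type) [Finite ι] (φ : PP R ι) (x : ι → M),
    (ASat φ M x ↔ ASat φ U (fun i => (x i : U))) ∧ (Sat φ M x ↔ Sat φ U (fun i => (x i : U)))

/-- homogeneity -/
def St_WHO : Prop := ∀ (R : Type) [RSig R] [Countable R] (U : Ad R), MonA R U →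
  ∀ (ι : Type) [Finite ι] (a b : ι → U), app (R := R) U a = app (R := R) U b →
    ∃ γ : AIe R U U, ∀ i, γ (a i) = b i

/-- (TF4) generic elements of a coset of a type over a finite tuple: `AVF/WG4.lean` -/
def St_WG4 : Prop := ∀ (R : Type) [RSig R] [Countable R] (U : Ad R), MonA R U →
  ∀ (κ ι : Type) [Finite κ] [Finite ι] (c : κ → U) (S : Set (PP R ι)) (z₀ : ι → U),
  ∃ z : ι → U, Re S U (z - z₀) ∧ FIn U S (afib (R := R) U c z)

/-- (TF3) prime models -/
def St_WPR : Prop := ∀ (R : Type) [RSig R] [Countable R] (U : Ad R), MonA R U →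
  ∀ (κ : Type) [Finite κ] (b : κ → U), ∃ N : Submodule R U, El U N ∧ AtOv U b N

/-- (TL) the limits of prime models over a countable family -/
def St_WTL : Prop := ∀ (R : Type) [RSig R] [Countable R] (U : Ad R), MonA R U →
  ∀ (I : Type) [Countable I] (c : I → U), ∃ M : Submodule R U, El U M ∧ ∃ c' : I → M,
    (∀ F : Finset I, app (R := R) U (fun i : F => (c' i : U)) = app (R := R) U (fun i : F => c i)) ∧
    ∀ (l : ℕ) (b : Fin l → M) (F₀ : Finset I), ∃ F : Finset I, F₀ ⊆ F ∧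
      ∃ θ : PP R (F ⊕ Fin l), GenBy U (fun i : F => (c' i : U)) (fun j => (b j : U)) θ

/-- (TF5) classes of a formula modulo a formula of finite index have points in each model -/
def St_WC5 : Prop := ∀ (R : Type) [RSig R] [Countable R] (U : Ad R), MonA R U →
  ∀ M : Submodule R U, El U M → ∀ (ι : Type) [Finite ι] (χ ψ : PP R ι) (t : ι → U),
  Sat χ U t → FIn U {χ} {ψ} → ∃ y : ι → M, Sat χ U (fun i => (y i : U)) ∧
    Sat ψ U ((fun i => (y i : U)) - t)

/-- (TF6) classes of a full type modulo a formula of finite index have points in each model -/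
def St_WC6 : Prop := ∀ (R : Type) [RSig R] [Countable R] (U : Ad R), MonA R U →
  ∀ M : Submodule R U, El U M → ∀ (ι : Type) [Finite ι] (S : Set (PP R ι)) (ψ : PP R ι)
  (t : ι → U), Full U S → Re S U t → FIn U S {ψ} → ∃ y : ι → M, Re S U (fun i => (y i : U)) ∧
    Sat ψ U ((fun i => (y i : U)) - t)

/-- (Claim A, 0.1) `q^1` is a full subtype of finite index -/
def St_WON : Prop := ∀ (R : Type) [RSig R] [Countable R] (U : Md R), MonM R U → ClaimA U →
  ∀ (ι : Type) [Finite ι] (S : Set (PP R ι)), Full U (one U S) ∧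
    ∀ x : ι → U, Re (one U S) U x → Re S U x

/-- 0.3 (KILL) -/
def St_WKI : Prop := ∀ (R : Type) [RSig R] [Countable R] (U : Md R), MonM R U →
  ∀ (κ ι : Type) [Finite κ] [Finite ι] (S : Set (PP R κ)) (θ : PP R (κ ⊕ ι)) (W : Set (PP R ι)),
  Full U S → (∀ u : κ → U, Re S U u → ∃ y : ι → U, Sat θ U (Sum.elim u y)) →
  (∀ (u : κ → U) (y : ι → U), Re S U u → Sat θ U (Sum.elim u y) → Re W U y) →
  ∀ (u : κ → U) (y : ι → U), Re S U u → Sat θ U (Sum.elim u y) → Re (one U W) U y

/-! ### Small tools -/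

/-- [WCR] Chinese remainders; unchanged. -/
def St_WCR : Prop := ∀ (G : Type) [AddCommGroup G] (H : ℕ → AddSubgroup G),
  (∀ i x, ∃ w ∈ H i, ∀ l < i, x - w ∈ H l) → ∀ (A : Finset ℕ) (c : ℕ → G),
    ∃ x, ∀ i ∈ A, x - c i ∈ H i

/-- **No infinite coindependent sequence** of homogeneous level-one formulas on the members of `K` in
which the affine level-one formula `E` has a solution (`AFH.Lg.T1` for the level-one formulas). -/
def T1A {R : Type} [RSig R] (U : Ad R) : Prop :=
  ∀ (α ι : Type) [Finite α] [Finite ι] (E : L1 R α) (D : L1 R ι) (W : ℕ → L1 R ι),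
  (∀ i, ∀ M : Ad R, InK U M → (∃ e : α → M, ASat1 E M e) → ∀ x : ι → M, Sat1 (W i) M x →
    Sat1 D M x) →
  (∀ i, ∃ M : Ad R, InK U M ∧ (∃ e : α → M, ASat1 E M e) ∧ ∃ x : ι → M, Sat1 D M x ∧
    ¬ Sat1 (W i) M x) →
  ¬ ∀ i, ∀ M : Ad R, InK U M → (∃ e : α → M, ASat1 E M e) → ∀ x : ι → M, Sat1 D M x →
    ∃ y : ι → M, Sat1 (W i) M (x - y) ∧ Sat1 D M y ∧ ∀ l < i, Sat1 (W l) M y

/-- [WRD] Reduction of `T1A U` to a type `V`.  As VMF/WRD; `ι ⊕ Fin D.1 ≃ Fin n`
(`Finite.exists_equiv_fin`), `α' = α ⊕ Fin E.1`, `E' = E.2` (an isomorphism `AIe R M N` with `N` elementary moves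
the solution of `E`: `ASat1.map`, `ARe` in `N` and in `U` are the same by WPU).  Third clause: `w = x - y`. -/
def St_WRD : Prop := ∀ (R : Type) [RSig R] [Countable R] (U : Ad R), MonA R U →
  (∀ (α : Type) [Finite α] (E : Set (PP R α)) (n : ℕ) (V : Set (PP R (Fin n)))
    (W : ℕ → L1 R (Fin n)), ¬ Coi U E V W) → T1A U

/-- [WSB] Subsequences; unchanged. -/
def St_WSB : Prop := ∀ (R : Type) [RSig R] (U : Ad R) (α ι : Type) (E : Set (PP R α))
  (V : Set (PP R ι)) (W : ℕ → L1 R ι) (f : ℕ → ℕ), Function.Injective f → Coi U E V W →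
  Coi U E V (fun i => W (f i))

/-- [WFC] Compactness: a subtype of finite index is given by one formula; unchanged (homogeneous). -/
def St_WFC : Prop := ∀ (R : Type) [RSig R] (U : Md R) (ι : Type) (S S' : Set (PP R ι)),
  FIn U S S' → ∃ ψ : PP R ι, FIn U S {ψ} ∧ (∀ x : ι → U, Re S' U x → Sat ψ U x) ∧
    ∀ x : ι → U, Re S U x → Sat ψ U x → Re S' U x

/-- [WPJ] Projections of types of tuples.  Affine: `MonA.sat` with the tuple `x` as parameter (for finitely
many `φ_j ∈ app(c, d)` the formula `∃ y ⋀ φ_j(x, y)` is in `app(c)`).  Homogeneous: the affine one for `c + x` gives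
`y'`, take `y = y' - d`. -/
def St_WPJ : Prop := ∀ (R : Type) [RSig R] [Countable R] (U : Ad R), MonA R U →
  ∀ (κ ι : Type) [Finite κ] [Finite ι] (c : κ → U) (d : ι → U) (x : κ → U),
  (ARe (app (R := R) U c) U x → ∃ y : ι → U,
    ARe (app (R := R) U (Sum.elim c d)) U (Sum.elim x y)) ∧
  (Re (app (R := R) U c) U x → ∃ y : ι → U,
    Re (app (R := R) U (Sum.elim c d)) U (Sum.elim x y))

/-- [WJN] Index of the type of a pair: the projection of `grp U (app U (b, c))` (homogeneous reading) to the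
first block is `grp U (app U b)` (WPJ), the kernel is `grp U (afib U b c)` (`re_afib`). -/
def St_WJN : Prop := ∀ (R : Type) [RSig R] [Countable R] (U : Ad R), MonA R U →
  ∀ (κ ι : Type) [Finite κ] [Finite ι] (b : κ → U) (c : ι → U) (S : Set (PP R κ))
  (T : Set (PP R ι)), FIn U S (app (R := R) U b) → FIn U T (afib (R := R) U b c) →
  (∀ x : κ ⊕ ι → U, Re (app (R := R) U (Sum.elim b c)) U x → Re (jn S T) U x) →
  FIn U (jn S T) (app (R := R) U (Sum.elim b c))

/-- [WGV] Generic tuples over the finite tuple `e`.  As VMF/WGV with `afib U e (..)` instead of `pp U (..)`: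
induction on `m`, `c` = the tuple `(e, g 0, .., g (m - 1))`, `g m` from `St_WG4` for `V^1` and `z m`. -/
def St_WGV : Prop := ∀ (R : Type) [RSig R] [Countable R] (U : Ad R), MonA R U → ClaimA U.md →
  ∀ (α ι : Type) [Finite α] [Finite ι] (e : α → U) (V : Set (PP R ι)) (m : ℕ)
  (z : Fin m → ι → U), (∀ j, Re V U (z j)) →
  ∃ g : Fin m → ι → U, (∀ j, Re V U (g j)) ∧ (∀ j, Re (one U V) U (g j - z j)) ∧
    FIn U (pw V m) (afib (R := R) U e (fun p : Fin m × ι => g p.1 p.2))

/-! ### Case 0 -/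

/-- [WC0] Case 0.  As VMF/WC0; `KE U E ⊤`: a solution of `E` in some `M` is one in `U`; `El U ⊤` is trivial. -/
def St_WC0 : Prop := ∀ (R : Type) [RSig R] [Countable R] (U : Ad R), MonA R U →
  ∀ (α ι : Type) [Finite α] [Finite ι] (E : Set (PP R α)) (V : Set (PP R ι)) (W : ℕ → L1 R ι),
  Coi U E V W → {k | ∃ x : ι → U, Re V U x ∧ ¬ Sat1 (W k) U x}.Finite

/-! ### Lemma B and case 1 -/

/-- [WLB] Lemma B.  `e` in `U` with `ARe E U e` (from the first hypothesis), `g 0, .., g N` from `St_WGV` over `e`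
(`z = 0`), `b = (e, g)`, a model `M` with `AtOv U b M` (`St_WPR`): `M` is in `K_E`.  Some `g j - g l` satisfies `W` in
`M` (`j ≠ l`), witness `t` in `M`, `θ` for `t` over `b`.  Let `V' := {x ∈ V : (0, x at the place j and 0
elsewhere) satisfies app U b homogeneously}`, a type of finite index in `V`; `ψ` from `St_WFC`.  If `M'` is a
model, `x ∈ V(M')`, `ψ(x)`, then `x̂ := (0, x at j)` satisfies `Re (app U b)` in `U`, so `∃ t' θ(x̂, t')` (homogeneous
reading; the formula is in `app U b`), `t'` in `M'` (`St_WPU`), and `(x̂, t')` satisfies `Re (app U (b, t))`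
(`GenBy.re`), which contains `(W).2 (y_j - y_l, t)`: `W(x)`. -/
def St_WLB : Prop := ∀ (R : Type) [RSig R] [Countable R] (U : Ad R), MonA R U → ClaimA U.md →
  ∀ (α ι : Type) [Finite α] [Finite ι] (E : Set (PP R α)), (∃ M : Submodule R U, KE U E M) →
  ∀ (V : Set (PP R ι)) (W : L1 R ι) (N : ℕ),
  (∀ M : Submodule R U, KE U E M → ∀ g : Fin (N + 1) → ι → M, (∀ j, Re V M (g j)) →
    ∃ j l, j ≠ l ∧ Sat1 W M (g j - g l)) → ∃ ψ : PP R ι, Fi1 U V W ψ

/-- [WGS] The generic sequence of case 1, over the finite tuple `e`.  As VMF/WGS with `afib U e (..)` instead of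
`pp U (..)`. -/
def St_WGS : Prop := ∀ (R : Type) [RSig R] [Countable R] (U : Ad R), MonA R U →
  ∀ (α ι : Type) [Finite α] [Finite ι] (e : α → U) (V : Set (PP R ι)) (W : ℕ → L1 R ι),
  (∀ i, ∀ x : ι → U, Re V U x → Sat1 (W i) U x) →
  ∃ (y : ι → U) (z : ∀ i, Fin (W i).1 → U), Re V U y ∧
    (∀ i, Re (W i).2 U (Sum.elim y (z i))) ∧
    ∀ A : Finset ℕ, FIn U (yz V W A) (afib (R := R) U e (yzt (R := R) A y z))

/-- [WIX] `k ∉ A`, and `W k` contains the projection of a type `P` of finite index in `yz V W A`: then the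
indices of `W k(M)` in `V(M)` are bounded, `M` in `K_E`.  As VMF/WIX. -/
def St_WIX : Prop := ∀ (R : Type) [RSig R] [Countable R] (U : Ad R), MonA R U →
  ∀ (α ι : Type) [Finite α] [Finite ι] (E : Set (PP R α)) (V : Set (PP R ι)) (W : ℕ → L1 R ι),
  Coi U E V W → ∀ (A : Finset ℕ) (k : ℕ), k ∉ A → ∀ P : Set (PP R (YZ ι W A)),
  FIn U (yz V W A) P →
  (∀ M : Submodule R U, KE U E M → ∀ v : YZ ι W A → M, Re P U (fun i => (v i : U)) →
    Sat1 (W k) M (v ∘ Sum.inl)) →
  ∃ N : ℕ, ∀ M : Submodule R U, KE U E M → ∀ g : Fin (N + 1) → ι → M, (∀ j, Re V M (g j)) →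
    ∃ j l, j ≠ l ∧ Sat1 (W k) M (g j - g l)

/-- [WC1] Case 1.  As VMF/WC1 over a solution `e` of `E` in `U`: `y`, `z` from `St_WGS` over `e`, for `S : Set ℕ` let
`I = (α ⊕ ι) ⊕ (i : S) × Fin (W i).1`, `c = (e, y, z_i)`, `M_S`, `c'` from `St_WTL`; `M_S` is in `K_E`.  `W_k(y')` in `M_S` iff
`k ∈ S`.  For `k ∉ S`, `t` in `M_S` with `(W k).2 (y', t)`; `F ⊇` all of `α ⊕ ι`, `θ` from `St_WTL`; `A` := the indices which occur in
`F`, `P := afib U e (yzt A y z)`.  For a model `M` and `v` in `M` with `P(v)` the tuple `(0, v)` restricted to `F`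
satisfies `Re (app U (c'|F))` (equal to the type of `c|F`; `re_afib`, `re_app_comp`), so there is `t'` in `M` with
`Sat θ ((0, v)|F, t')` and `(W k).2 (v ∘ inl, t')` (`GenBy.re`).  `St_WIX` and `St_WLB` contradict the last hypothesis.
`few1` for the set `atp1 M_S y'` (`asat1_hom1`: `Sat1 (W k)` is `ASat1 (hom1 (W k))`). -/
def St_WC1 : Prop := ∀ (R : Type) [RSig R] [Countable R] (U : Ad R), MonA R U → ClaimA U.md →
  FewT R U → ∀ (α ι : Type) [Finite α] [Finite ι] (E : Set (PP R α)) (V : Set (PP R ι))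
  (W : ℕ → L1 R ι), Coi U E V W →
  (∀ i, ∀ x : ι → U, Re V U x → Sat1 (W i) U x) → (∀ i, ∀ ψ : PP R ι, ¬ Fi1 U V (W i) ψ) → False

/-! ### Case 2 -/

/-- [WRR] (R).  As VMF/WRR: `b''` satisfies `ARe (app U b)` (`are_app_iff`), so there is `y` in `M` with
`ASat θ (b'', y)`, and `(b'', y)` satisfies the affine type of `(b, c)`; `(b'' - b, y - c)` satisfies `Sat θ`; `St_WKI`
for `one U (app U b)`, `θ` and `S`. -/
def St_WRR : Prop := ∀ (R : Type) [RSig R] [Countable R] (U : Ad R), MonA R U → ClaimA U.md →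
  ∀ (κ : Type) [Finite κ] (b : κ → U) (N M : Submodule R U), El U N → El U M → AtOv U b N →
  ∀ b'' : κ → M, Re (one U (app (R := R) U b)) U ((fun i => (b'' i : U)) - b) →
  ∀ (ι : Type) [Finite ι] (S : Set (PP R ι)) (c : ι → N), Re S U (fun i => (c i : U)) →
    Rz U S M (fun i => (c i : U))

/-- [WOP] If `S' ≤ S` has finite index then `S' ∧ S^1 ≤ S'^1`; unchanged (homogeneous). -/
def St_WOP : Prop := ∀ (R : Type) [RSig R] [Countable R] (U : Md R), MonM R U →
  ∀ (ι : Type) [Finite ι] (S S' : Set (PP R ι)), FIn U S S' →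
  (∀ x : ι → U, Re S' U x → Re S U x) →
  ∀ x : ι → U, Re S' U x → Re (one U S) U x → Re (one U S') U x

/-- [WPP] `(V^1)^m` is contained in `(V^m)^1` (`V^m = pw V m`); unchanged (homogeneous). -/
def St_WPP : Prop := ∀ (R : Type) [RSig R] [Countable R] (U : Md R), MonM R U →
  ∀ (ι : Type) [Finite ι] (V : Set (PP R ι)) (m : ℕ) (x : Fin m × ι → U),
  (∀ j, Re (one U V) U (fun i => x (j, i))) → Re (one U (pw V m)) U x

/-- [WPD] `S^1 × T^1` is contained in `(S × T)^1`.  As VMF/WPP with two blocks. -/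
def St_WPD : Prop := ∀ (R : Type) [RSig R] [Countable R] (U : Md R), MonM R U →
  ∀ (κ ι : Type) [Finite κ] [Finite ι] (S : Set (PP R κ)) (T : Set (PP R ι)) (x : κ ⊕ ι → U),
  Re (one U S) U (x ∘ Sum.inl) → Re (one U T) U (x ∘ Sum.inr) → Re (one U (jn S T)) U x

/-- [WRV] Variant of (R) for a base tuple `b`, the type of which has finite index in `S`: if `b'` in `M` is
congruent to `b` modulo `S^1` then there is `b''` in `M` congruent to `b` modulo `(app U b)^1`.  `ψ` from `St_WFC` for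
`app U b` in `S`; `d := b' - b ∈ S^1`, a full type (`St_WON`); `St_WC6`: `u` in `M` with `one U S (u)`, `ψ(u - d)`;
`b'' := b' - u`; `b'' - b = d - u` satisfies `ψ` and `one U S`, so `Re (app U b)`, and `St_WOP`. -/
def St_WRV : Prop := ∀ (R : Type) [RSig R] [Countable R] (U : Ad R), MonA R U → ClaimA U.md →
  ∀ (κ : Type) [Finite κ] (b : κ → U) (S : Set (PP R κ)), FIn U S (app (R := R) U b) →
  (∀ x : κ → U, Re (app (R := R) U b) U x → Re S U x) →
  ∀ M : Submodule R U, El U M → ∀ b' : κ → M, Re (one U S) U ((fun i => (b' i : U)) - b) →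
  ∃ b'' : κ → M, Re (one U (app (R := R) U b)) U ((fun i => (b'' i : U)) - b)

/-- [WIM] Images modulo `V ∧ ψ`; unchanged. -/
def St_WIM : Prop := ∀ (R : Type) [RSig R] [Countable R] (U : Ad R), MonA R U → ClaimA U.md →
  ∀ (n : ℕ) (V : Set (PP R (Fin n))) (W : L1 R (Fin n)) (ψ : PP R (Fin n)) (N M : Submodule R U),
  El U N → El U M → Fi1 U V W ψ →
  (∀ x : Fin n → M, Re V M x → Rz U V N (fun i => (x i : U))) →
  (∀ c : Fin n ⊕ Fin W.1 → N, Re (ren Sum.inl '' V ∪ W.2) U (fun i => (c i : U)) →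
    Rz U (ren Sum.inl '' V ∪ W.2) M (fun i => (c i : U))) →
  (∀ x : Fin n → N, Re V N x → Sat1 W N x) → ∀ x : Fin n → M, Re V M x → Sat1 W M x

/-- [W2A] One model.  For each `k` a model `M_k` in `K_E` with `W_k(M_k) ≠ V(M_k)`, `e_k` in `M_k` with `ARe E e_k`.
`Φ(M) := {x + V^1(U) : x ∈ V(M)}`, a subset of a finite set (`ClaimA`); the classes of the `e_k` modulo `(E)^1 = one U E`
(homogeneous reading of `E`; all `e_k - e_l` are in `Re E`, `FIn U E (one U E)`) are finitely many: for an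
infinite set `J` of `k` both are the same.  `e₀ = e_k` for one `k ∈ J`; `e` from `St_WG4` with `κ = Empty`, `S = one U E`,
`z₀ = e₀`: `ARe E U e`, `FIn U E (app U e)` (the affine fibre type of `e` over the empty tuple is `app U e` up to
renaming).  `z_0, .., z_(m-1)` in `V(U)` represent `Φ'`, `g` from `St_WGV` over `e`, `b = (e, g)`, `N` from `St_WPR`: `N` is in
`K_E`.  `St_WJN`: `FIn U (jn E (pw V m)) (app U b)`.  For `k ∈ J`: `e_k - e ∈ E^1`, `y_j` in `V(M_k)` congruent to `g_j` modulo `V^1`, so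
`St_WPP`, `St_WPD`, `St_WRV`, `St_WRR`: each class of a tuple of `N` in a (homogeneous) type `S` is realised in `M_k`.
The rest as in VMF/W2A. -/
def St_W2A : Prop := ∀ (R : Type) [RSig R] [Countable R] (U : Ad R), MonA R U → ClaimA U.md →
  ∀ (α : Type) [Finite α] (E : Set (PP R α)) (n : ℕ) (V : Set (PP R (Fin n)))
  (W : ℕ → L1 R (Fin n)), Coi U E V W → (∀ i, ∃ ψ : PP R (Fin n), Fi1 U V (W i) ψ) →
  ∃ (κ : Type) (_ : Finite κ) (b : κ → U) (N : Submodule R U), KE U E N ∧ AtOv U b N ∧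
    {k | ∃ x : Fin n → N, Re V N x ∧ ¬ Sat1 (W k) N x}.Infinite

/-- [WIN] Invariance.  As VMF/WIN with `γ : AIe R U U`: `(b, γ c)` and `(b, c)` satisfy `ASat θ`, so `(0, γ c - c)`
satisfies `Sat θ`; the rest is homogeneous. -/
def St_WIN : Prop := ∀ (R : Type) [RSig R] [Countable R] (U : Ad R), MonA R U →
  ∀ (κ : Type) [Finite κ] (b : κ → U) (N : Submodule R U), El U N → AtOv U b N →
  ∀ (n : ℕ) (V : Set (PP R (Fin n))) (W : L1 R (Fin n)) (ψ : PP R (Fin n)),
  (∀ x : Fin n → N, Sat1 W N x → Re V N x) → Fi1 U V W ψ →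
  ∀ γ : AIe R U U, (∀ i, γ (b i) = b i) → ∀ (x : Fin n → U) (w : Fin n → N), Sat1 W N w →
    Re V U (x - fun i => (w i : U)) → Sat ψ U (x - fun i => (w i : U)) →
    ∃ w' : Fin n → N, Sat1 W N w' ∧ Re V U ((fun i => γ (x i)) - fun i => (w' i : U)) ∧
      Sat ψ U ((fun i => γ (x i)) - fun i => (w' i : U))

/-- [WIS] Saturation for invariant clopen sets.  As VMF/WIS with affine types over `b` (`app U (b, x)`,
`MonA.sat`). -/
def St_WIS : Prop := ∀ (R : Type) [RSig R] [Countable R] (U : Ad R), MonA R U →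
  ∀ (κ ι : Type) [Finite κ] [Finite ι] (b : κ → U) (V : Set (PP R ι)) (ψ : ℕ → PP R ι)
  (Z : ℕ → Set (ι → U)), (∀ m, FIn U V {ψ m}) → (∀ m, (Z m).Nonempty) →
  (∀ m, Z (m + 1) ⊆ Z m) → (∀ m, ∀ x ∈ Z m, Re V U x) →
  (∀ m, ∀ x ∈ Z m, ∀ x' : ι → U, Re V U (x' - x) → Sat (ψ m) U (x' - x) → x' ∈ Z m) →
  (∀ m, ∀ x ∈ Z m, ∀ γ : AIe R U U, (∀ i, γ (b i) = b i) → (fun i => γ (x i)) ∈ Z m) →
  ∃ x : ι → U, ∀ m, x ∈ Z m

/-- [W2B] Case 2b.  As VMF/W2B (`Coi` for the model `N` in `K_E`). -/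
def St_W2B : Prop := ∀ (R : Type) [RSig R] [Countable R] (U : Ad R), MonA R U →
  ∀ (κ : Type) [Finite κ] (b : κ → U) (N : Submodule R U) (α : Type) [Finite α]
  (E : Set (PP R α)), KE U E N → AtOv U b N →
  ∀ (n : ℕ) (V : Set (PP R (Fin n))) (W : ℕ → L1 R (Fin n)), Coi U E V W →
  (∀ i, ∃ ψ : PP R (Fin n), Fi1 U V (W i) ψ) →
  {k | ∃ x : Fin n → N, Re V N x ∧ ¬ Sat1 (W k) N x}.Infinite → False

/-- [WAS] Assembly: no coindependent sequence over `K_E`. -/
def St_WAS : Prop := ∀ (R : Type) [RSig R] [Countable R] (U : Ad R), MonA R U → ClaimA U.md →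
  FewT R U → T1A U

end Pool.Agent.AVF.BW
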