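import Pool.Agent.AVF.StD
import Pool.Agent.AVF.StW
import Pool.Agent.AVF.CLA
import Pool.Agent.AVF.FTU

/-!
# The assembly of St_CUA (helper23)

The two inputs of the homogeneity theorem for the class `K` of the elementary substructures of the countable
saturated affine structure `U` (no infinite coindependent sequences, minimal level-one formulas), the
homogeneity theorem itself, and the count of the isomorphism classes.
-/

set_option autoImplicit false
set_option linter.unusedSectionVars false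
set_option linter.unusedVariables false

namespace Pool.Agent.AVF

open Set Pool.Agent.AVC Pool.Agent.AVC.Ax

/-- minimal level-one formulas: every tuple of a member of `K` is exact for an affine level-one formula -/
def UMLA {R : Type} [RSig R] (U : Ad R) : Prop :=
  ∀ (M : Ad R), InK U M → ∀ (n : ℕ) (a : Fin n → M),
    ∃ V : L1 R (Fin n), ASat1 V M a ∧ ∀ W : L1 R (Fin n), ASat1 W M a →
      ∀ (M' : Ad R), InK U M' → ∀ x : Fin n → M', ASat1 V M' x → ASat1 W M' x

/-- (T1) for `K` -/
def St_T1U : Prop := ∀ (R : Type) [RSig R] [Countable R] (U : Ad R), MonA R U → FewT R U →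
  BW.T1A U

/-- (UML) for `K` -/
def St_UMLU : Prop := ∀ (R : Type) [RSig R] [Countable R] (U : Ad R), MonA R U → FewT R U →
  UMLA U

/-- the homogeneity theorem for `K` -/
def St_ISOU : Prop := ∀ (R : Type) [RSig R] [Countable R] (U : Ad R), MonA R U → BW.T1A U →
  UMLA U → ∀ M N : Ad R, InK U M → InK U N → areal1 (R := R) M = areal1 (R := R) N →
    Nonempty (AIe R M N)

theorem thm_CUA (hT : St_T1U) (hU : St_UMLU) (hI : St_ISOU) : St_CUA := by
  intro R _ _ U hM hf
  have h1 := hI R U hM (hT R U hM hf) (hU R U hM hf)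
  have hc := hf.few2
  let I := {Θ : Set ((n : ℕ) × Set (L1 R (Fin n))) // ∃ M : Ad R, InK U M ∧
    areal1 (R := R) M = Θ}
  have hI' : Countable I := hc.to_subtype
  by_cases hne : Nonempty I
  · choose g hg1 hg2 using fun i : I => i.2
    obtain ⟨q, hq⟩ := exists_surjective_nat I
    refine ⟨fun n => g (q n), fun N hN => ?_⟩
    obtain ⟨n, hn⟩ := hq ⟨areal1 (R := R) N, N, hN, rfl⟩
    refine ⟨n, h1 N (g (q n)) hN (hg1 _) ?_⟩
    rw [hg2, hn]
  · exact ⟨fun _ => U, fun N hN => absurd ⟨⟨areal1 (R := R) N, N, hN, rfl⟩⟩ hne⟩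

/-- few ages (AgeC) -/
theorem ageC_of_few {R : Type} [RSig R] {U : Ad R} (hf : FewT R U) : AgeC U := by
  intro n
  refine (hf.few3 (Fin n)).mono ?_
  rintro A ⟨M, x, hK, rfl⟩
  refine ⟨M, hK, x, ?_⟩
  ext q
  exact ⟨fun ⟨c, hc⟩ => ⟨c, hc.symm⟩, fun ⟨c, hc⟩ => ⟨c, hc.symm⟩⟩

theorem thm_UMLU (hA : St_CLA) (hG : St_FTU) (hU : St_UMT) : St_UMLU := by
  intro R _ _ U hM hf
  have hA := hA R U hM hf
  exact hU R U hM hA (ageC_of_few hf) (hG R U hM hf hA)

theorem thm_T1U (hA : St_CLA) (hW : BW.St_WAS) : St_T1U := fun R _ _ U hM hf =>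
  hW R U hM (hA R U hM hf) hf

end Pool.Agent.AVF
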