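import Mathlib

/-!
# Back and forth on a countable set
-/

set_option autoImplicit false
set_option linter.unusedVariables false

namespace Pool.Agent.AVF

open Set

section

variable {U : Type} {ty : ∀ n : ℕ, (Fin n → U) → (Fin n → U) → Prop}

/-- relations which preserve the types -/
private def BE (ty : ∀ n : ℕ, (Fin n → U) → (Fin n → U) → Prop) (R : Set (U × U)) : Prop :=
  ∀ (n : ℕ) (p : Fin n → U × U), (∀ i, p i ∈ R) → ty n (fun i => (p i).1) (fun i => (p i).2)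

private theorem BE_mono {R R' : Set (U × U)} (h : R ⊆ R') (hE : BE ty R') : BE ty R :=
  fun n p hp => hE n p fun i => h (hp i)

private theorem BE_swap (hs : ∀ (n : ℕ) (a b : Fin n → U), ty n a b → ty n b a) {R : Set (U × U)}
    (hE : BE ty R) : BE ty (Prod.swap ⁻¹' R) :=
  fun n p hp => hs n _ _ (hE n (fun i => (p i).swap) hp)

private theorem BE_forth
    (hc : ∀ (n m : ℕ) (a b : Fin n → U) (σ : Fin m → Fin n), ty n a b → ty m (a ∘ σ) (b ∘ σ))
    (hst : ∀ (n : ℕ) (a b : Fin n → U), ty n a b → ∀ c : U, ∃ d : U,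
      ty (n + 1) (Fin.snoc a c : Fin (n + 1) → U) (Fin.snoc b d : Fin (n + 1) → U))
    {R : Set (U × U)} (hR : R.Finite) (hE : BE ty R) (c : U) :
    ∃ d : U, BE ty (insert (c, d) R) := by
  obtain ⟨n, f, hf⟩ := hR.fin_embedding
  have h := hE n f (fun i => by rw [← hf]; exact mem_range_self i)
  obtain ⟨d, hd⟩ := hst n _ _ h c
  refine ⟨d, fun m q hq => ?_⟩
  have hσ : ∀ j, ∃ i : Fin (n + 1), q j =
      (Fin.snoc (α := fun _ => U × U) f (c, d) : Fin (n + 1) → U × U) i := by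
    intro j
    rcases hq j with h | h
    · exact ⟨Fin.last n, by rw [Fin.snoc_last]; exact h⟩
    · rw [← hf] at h
      obtain ⟨i, hi⟩ := h
      exact ⟨i.castSucc, by rw [Fin.snoc_castSucc]; exact hi.symm⟩
  choose σ hσ using hσ
  have e1 : (fun j => (q j).1) = (Fin.snoc (fun i => (f i).1) c : Fin (n + 1) → U) ∘ σ := by
    funext j
    show (q j).1 = (Fin.snoc (fun i => (f i).1) c : Fin (n + 1) → U) (σ j)
    rw [hσ j]
    generalize σ j = i
    refine Fin.lastCases ?_ (fun i => ?_) i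
    · rw [Fin.snoc_last, Fin.snoc_last]
    · rw [Fin.snoc_castSucc, Fin.snoc_castSucc]
  have e2 : (fun j => (q j).2) = (Fin.snoc (fun i => (f i).2) d : Fin (n + 1) → U) ∘ σ := by
    funext j
    show (q j).2 = (Fin.snoc (fun i => (f i).2) d : Fin (n + 1) → U) (σ j)
    rw [hσ j]
    generalize σ j = i
    refine Fin.lastCases ?_ (fun i => ?_) i
    · rw [Fin.snoc_last, Fin.snoc_last]
    · rw [Fin.snoc_castSucc, Fin.snoc_castSucc]
  rw [e1, e2]
  exact hc _ _ _ _ σ hd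

private theorem BE_back
    (hs : ∀ (n : ℕ) (a b : Fin n → U), ty n a b → ty n b a)
    (hc : ∀ (n m : ℕ) (a b : Fin n → U) (σ : Fin m → Fin n), ty n a b → ty m (a ∘ σ) (b ∘ σ))
    (hst : ∀ (n : ℕ) (a b : Fin n → U), ty n a b → ∀ c : U, ∃ d : U,
      ty (n + 1) (Fin.snoc a c : Fin (n + 1) → U) (Fin.snoc b d : Fin (n + 1) → U))
    {R : Set (U × U)} (hR : R.Finite) (hE : BE ty R) (d : U) :
    ∃ c : U, BE ty (insert (c, d) R) := by
  obtain ⟨c, hc⟩ := BE_forth hc hst (hR.preimage (Prod.swap_injective.injOn)) (BE_swap hs hE) d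
  refine ⟨c, BE_mono ?_ (BE_swap hs hc)⟩
  intro p hp
  rcases hp with h | h
  · left
    rw [h]
    rfl
  · right
    show p.swap.swap ∈ R
    rw [Prod.swap_swap]
    exact h

private theorem BE_inj (hi : ∀ a b : Fin 2 → U, ty 2 a b → (a 0 = a 1 ↔ b 0 = b 1))
    {R : Set (U × U)} (hE : BE ty R) {x y x' y' : U} (h : (x, y) ∈ R)
    (h' : (x', y') ∈ R) : x = x' ↔ y = y' :=
  hi _ _ (hE 2 ![(x, y), (x', y')] (by
    intro i
    refine Fin.cases h (fun i => ?_) i
    refine Fin.cases h' (fun i => ?_) i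
    exact i.elim0))

/-- **Back and forth.** -/
theorem bnf (hct : Countable U)
    (hs : ∀ (n : ℕ) (a b : Fin n → U), ty n a b → ty n b a)
    (hc : ∀ (n m : ℕ) (a b : Fin n → U) (σ : Fin m → Fin n), ty n a b → ty m (a ∘ σ) (b ∘ σ))
    (hst : ∀ (n : ℕ) (a b : Fin n → U), ty n a b → ∀ c : U, ∃ d : U,
      ty (n + 1) (Fin.snoc a c : Fin (n + 1) → U) (Fin.snoc b d : Fin (n + 1) → U))
    (hi : ∀ a b : Fin 2 → U, ty 2 a b → (a 0 = a 1 ↔ b 0 = b 1))
    {n : ℕ} (a b : Fin n → U) (hab : ty n a b) :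
    ∃ g : U ≃ U, (∀ i, g (a i) = b i) ∧ ∀ (m : ℕ) (x : Fin m → U), ty m x (g ∘ x) := by
  let R0 : Set (U × U) := range fun i => (a i, b i)
  have hR0 : BE ty R0 := by
    intro m q hq
    choose σ hσ using hq
    have e1 : (fun j => (q j).1) = a ∘ σ := by
      funext j
      show (q j).1 = a (σ j)
      rw [← hσ j]
    have e2 : (fun j => (q j).2) = b ∘ σ := by
      funext j
      show (q j).2 = b (σ j)
      rw [← hσ j]
    rw [e1, e2]
    exact hc _ _ _ _ σ hab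
  rcases isEmpty_or_nonempty U with hU | hU
  · refine ⟨Equiv.refl U, fun i => hU.elim (a i), fun m x => ?_⟩
    rcases m with _ | m
    · have h1 := hR0 0 Fin.elim0 (fun i => i.elim0)
      refine (iff_of_eq ?_).mp h1
      congr 1
      · exact Subsingleton.elim _ _
      · exact Subsingleton.elim _ _
    · exact hU.elim (x 0)
  obtain ⟨e, he⟩ := exists_surjective_nat U
  have step : ∀ (k : ℕ) (R : Set (U × U)), ∃ R' : Set (U × U), R.Finite → BE ty R →
      R'.Finite ∧ BE ty R' ∧ R ⊆ R' ∧ (∃ y, (e k, y) ∈ R') ∧ ∃ x, (x, e k) ∈ R' := by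
    intro k R
    by_cases hR : R.Finite ∧ BE ty R
    · obtain ⟨hf, hE⟩ := hR
      obtain ⟨d, hd⟩ := BE_forth hc hst hf hE (e k)
      have hf' := hf.insert (e k, d)
      obtain ⟨c, hc⟩ := BE_back hs hc hst hf' hd (e k)
      refine ⟨insert (c, e k) (insert (e k, d) R), fun _ _ => ⟨hf'.insert _, hc, ?_, ?_, ?_⟩⟩
      · exact (subset_insert _ _).trans (subset_insert _ _)
      · exact ⟨d, Or.inr (Or.inl rfl)⟩
      · exact ⟨c, Or.inl rfl⟩
    · exact ⟨R, fun h h' => absurd ⟨h, h'⟩ hR⟩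
  choose F hF using step
  let Rk : ℕ → Set (U × U) := fun k => Nat.rec R0 F k
  have hRk : ∀ k, (Rk k).Finite ∧ BE ty (Rk k) := by
    intro k
    induction k with
    | zero => exact ⟨finite_range _, hR0⟩
    | succ k ih =>
      have := hF k (Rk k) ih.1 ih.2
      exact ⟨this.1, this.2.1⟩
  have hmono : Monotone Rk := monotone_nat_of_le_succ fun k =>
    (hF k (Rk k) (hRk k).1 (hRk k).2).2.2.1
  have hE : BE ty (⋃ k, Rk k) := by
    intro m q hq
    have h2 : ∀ j, ∃ k, q j ∈ Rk k := fun j => mem_iUnion.1 (hq j)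
    choose κ hκ using h2
    exact (hRk (Finset.univ.sup κ)).2 m q fun j =>
      hmono (Finset.le_sup (f := κ) (Finset.mem_univ j)) (hκ j)
  have hdom : ∀ x : U, ∃ y, (x, y) ∈ ⋃ k, Rk k := by
    intro x
    obtain ⟨k, rfl⟩ := he x
    obtain ⟨y, hy⟩ := (hF k (Rk k) (hRk k).1 (hRk k).2).2.2.2.1
    exact ⟨y, mem_iUnion.2 ⟨k + 1, hy⟩⟩
  have hcod : ∀ y : U, ∃ x, (x, y) ∈ ⋃ k, Rk k := by
    intro y
    obtain ⟨k, rfl⟩ := he y
    obtain ⟨x, hx⟩ := (hF k (Rk k) (hRk k).1 (hRk k).2).2.2.2.2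
    exact ⟨x, mem_iUnion.2 ⟨k + 1, hx⟩⟩
  choose g hg using hdom
  choose g' hg' using hcod
  refine ⟨{ toFun := g
            invFun := g'
            left_inv := fun x => (BE_inj hi hE (hg' (g x)) (hg x)).2 rfl
            right_inv := fun y => (BE_inj hi hE (hg (g' y)) (hg' y)).1 rfl }, fun i => ?_,
    fun m x => ?_⟩
  · show g (a i) = b i
    have h2 : (a i, b i) ∈ ⋃ k, Rk k := mem_iUnion.2 ⟨0, ⟨i, rfl⟩⟩
    exact (BE_inj hi hE (hg (a i)) h2).1 rfl
  · exact hE m (fun i => (x i, g (x i))) (fun i => hg _)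

end

end Pool.Agent.AVF
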