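import Pool.Agent.AVF.ABA
import Pool.Agent.VMA.AFR

/-!
# AVF: Claim A for a saturated affine structure with few types (helper73)

General form: `E` are the elementary submodules of `U`.
-/

set_option autoImplicit false
set_option linter.unusedSectionVars false
set_option linter.unusedVariables false

namespace Pool.Agent.AVF

open Set Pool.Agent.AVC Pool.Agent.AVC.Ax

section

variable {R : Type} [RSig R]

/-- homogeneity for affine types -/
def HomA (U : Ad R) : Prop := ∀ (ι : Type) [Finite ι] (a b : ι → U),
  app (R := R) U a = app (R := R) U b → ∃ γ : AIe R U U, ∀ i, γ (a i) = b i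

/-- the affine types which are realised in `N` -/
def areal (R : Type) [RSig R] (N : Type) [AddCommGroup N] [AfS R N] :
    Set ((n : ℕ) × Set (PP R (Fin n))) :=
  {τ | ∃ x : Fin τ.1 → N, app (R := R) N x = τ.2}

/-- (TLI) for affine types with a cofinal family `Q` of finite sets -/
def TLQA (U : Ad R) (E : Submodule R U → Prop) : Prop :=
  ∀ (ι : Type) [Countable ι] (P : ∀ A : Finset ι, Set (PP R A)) (Q : Finset ι → Prop),
  (∀ A, ∃ B, A ⊆ B ∧ Q B) →
  (∀ A : Finset ι, ∃ c : A → U, app (R := R) U c = P A) →
  (∀ (A B : Finset ι) (h : A ⊆ B) (φ : PP R A), φ ∈ P A ↔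
    ren (fun i : A => (⟨i.1, h i.2⟩ : B)) φ ∈ P B) →
  ∃ (N : Submodule R U) (c : ι → N), E N ∧ (∀ A : Finset ι,
    app (R := R) N (fun i : A => c i) = P A) ∧
    ∀ (l : Type) [Finite l] (b : l → N) (A₀ : Finset ι), ∃ A : Finset ι, A₀ ⊆ A ∧ Q A ∧
      ∃ θ : PP R (A ⊕ l), ASat θ N (Sum.elim (fun i : A => c i) b) ∧
        ∀ (x : A → U) (y : l → U), P A ⊆ app (R := R) U x → ASat θ U (Sum.elim x y) →
          app (R := R) N (Sum.elim (fun i : A => c i) b) ⊆ app (R := R) U (Sum.elim x y)

/-- the realised affine types determine the realised affine types of all finite tuples -/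
theorem app_of_areal {M M' : Type} [AddCommGroup M] [AfS R M] [AddCommGroup M'] [AfS R M']
    (h : areal R M = areal R M') {ι : Type} [Finite ι] (x : ι → M) :
    ∃ x' : ι → M', app (R := R) M' x' = app (R := R) M x := by
  obtain ⟨n, ⟨e⟩⟩ := Finite.exists_equiv_fin ι
  have h1 : (⟨n, app (R := R) M (x ∘ e.symm)⟩ : (n : ℕ) × Set (PP R (Fin n))) ∈ areal R M :=
    ⟨x ∘ e.symm, rfl⟩
  rw [h] at h1
  obtain ⟨y, hy⟩ := h1
  have hy' : app (R := R) M' y = app (R := R) M (x ∘ e.symm) := hy
  refine ⟨y ∘ e, ?_⟩
  ext φ
  have h6 : ren e φ ∈ app (R := R) M' y ↔ ren e φ ∈ app (R := R) M (x ∘ e.symm) := by rw [hy']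
  have h7 : ren e φ ∈ app (R := R) M' y ↔ φ ∈ app (R := R) M' (y ∘ e) := asat_ren e φ y
  have h8 : ren e φ ∈ app (R := R) M (x ∘ e.symm) ↔ φ ∈ app (R := R) M x := by
    refine (asat_ren e φ (x ∘ e.symm)).trans ?_
    have : (x ∘ e.symm) ∘ e = x := by
      funext i
      simp
    rw [this]
    exact Iff.rfl
  exact h7.symm.trans (h6.trans h8)

/-- CLAIM A -/
theorem claim_gen (U : Ad R) (hR : Countable R) (hc : Countable U) (hh : HomU U.md) (hs : SatA U)
    (hA : HomA U) (E : Submodule R U → Prop)
    (hE : ∀ N : Submodule R U, E N → ∀ (ι : Type) (φ : PP R ι) (x : ι → N),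
      ASat φ N x ↔ ASat φ U (fun i => (x i : U)))
    (hT : TLQA U E)
    (hf : {Θ : Set ((n : ℕ) × Set (PP R (Fin n))) | ∃ N : Submodule R U, E N ∧
      areal R N = Θ}.Countable) (ι : Type) [Finite ι] (r : AddSubgroup (ι → U))
    (hr : (absU U.md hR hc hh hs.satU).IsT r) :
    (absU U.md hR hc hh hs.satU).FI ((absU U.md hR hc hh hs.satU).q1 r) r := by
  classical
  let A := absU U.md hR hc hh hs.satU
  let T := affU U hR hc hh hs
  rcases VMA.all_ClaimAff U A T.aff ι r hr with h1 | ⟨a, O, hO1, hO2, hO3⟩
  · exact h1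
  exfalso
  have := Fintype.ofFinite ι
  have happ : ∀ x y : ι → U, app (R := R) U x = app (R := R) U y → A.pp x = A.pp y := by
    have key : ∀ x y : ι → U, app (R := R) U x = app (R := R) U y → A.pp x ≤ A.pp y := by
      intro x y h z hz
      rw [A.mem_pp_iff] at hz ⊢
      rintro _ ⟨ψ, rfl⟩ hψ
      refine hz _ ⟨ψ, rfl⟩ ?_
      have h2 : hom ψ ∈ app (R := R) U x := by
        rw [h]
        exact (asat_hom ψ y).2 hψ
      exact (asat_hom ψ x).1 h2
    exact fun x y h => le_antisymm (key x y h) (key y x h.symm)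
  -- the models
  have hmod : ∀ X : Set ℕ, ∃ N : Submodule R U, E N ∧
      ∀ k, k ∈ X ↔ ∃ x : ι → N, (fun i => (x i : U)) ∈ O k := by
    intro X
    let P : ∀ B : Finset (X × ι), Set (PP R B) := fun B =>
      app (R := R) U (fun i : B => a i.1.1 i.1.2)
    let Q : Finset (X × ι) → Prop := fun B => ∃ F : Finset X, B = F ×ˢ Finset.univ
    obtain ⟨N, c, hN, hcP, hgen⟩ := hT (X × ι) P Q
      (fun B => ⟨(B.image Prod.fst) ×ˢ Finset.univ, fun p hp => Finset.mem_product.2
        ⟨Finset.mem_image_of_mem _ hp, Finset.mem_univ _⟩, _, rfl⟩)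
      (fun B => ⟨_, rfl⟩)
      (fun B B' h φ => by
        show ASat φ U _ ↔ ASat (ren _ φ) U _
        rw [asat_ren]
        exact Iff.rfl)
    refine ⟨N, hN, fun k => ⟨fun hk => ?_, ?_⟩⟩
    · refine ⟨fun i => c (⟨k, hk⟩, i), hO2 k (a k) _ ?_ (hO1 k)⟩
      -- same type
      let B : Finset (X × ι) := ({⟨k, hk⟩} : Finset X) ×ˢ Finset.univ
      have hB := hcP B
      have h4 : app (R := R) U (fun i : ι => ((c (⟨k, hk⟩, i) : N) : U)) =
          app (R := R) U (a k) := by
        ext φ
        let s : ι → B := fun i => ⟨(⟨k, hk⟩, i), Finset.mem_product.2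
          ⟨Finset.mem_singleton_self _, Finset.mem_univ _⟩⟩
        have h5 : ren s φ ∈ app (R := R) N (fun i : B => c i) ↔ ren s φ ∈ P B := by rw [hB]
        have h6 : ren s φ ∈ app (R := R) N (fun i : B => c i) ↔
            ASat φ N (fun i : ι => c (⟨k, hk⟩, i)) := asat_ren s φ _
        have h7 : ren s φ ∈ P B ↔ ASat φ U (a k) := asat_ren s φ _
        exact ((hE N hN _ φ _).symm.trans h6.symm).trans (h5.trans h7)
      exact happ _ _ h4.symm
    · rintro ⟨b, hb⟩
      by_contra hk
      obtain ⟨B, -, ⟨F, rfl⟩, θ, hθ, hgen'⟩ := hgen ι b ∅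
      -- move to `a`
      have hpp : app (R := R) U (fun i : (F ×ˢ (Finset.univ : Finset ι) : Finset (X × ι)) =>
          ((c i : N) : U)) = app (R := R) U (fun i => a i.1.1 i.1.2) := by
        have h8 : app (R := R) N (fun i : (F ×ˢ (Finset.univ : Finset ι) : Finset (X × ι)) =>
            c i) = app (R := R) U (fun i : (F ×ˢ (Finset.univ : Finset ι) : Finset (X × ι)) =>
            ((c i : N) : U)) := by
          ext φ
          exact hE N hN _ φ _
        rw [← h8]
        exact hcP _
      obtain ⟨γ, hγ⟩ := hA _ _ _ hpp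
      let α : Type := {e : X // e ∈ F}
      let f : α → ℕ := fun e => (e.1 : ℕ)
      let e : (F ×ˢ (Finset.univ : Finset ι) : Finset (X × ι)) ≃ α × ι :=
        { toFun := fun p => (⟨p.1.1, (Finset.mem_product.1 p.2).1⟩, p.1.2)
          invFun := fun p => ⟨(p.1.1, p.2), Finset.mem_product.2 ⟨p.1.2, Finset.mem_univ _⟩⟩
          left_inv := fun p => rfl
          right_inv := fun p => rfl }
      let d : ι → U := fun i => γ (b i)
      have hdO : d ∈ O k := by
        refine hO2 k _ _ ?_ hb
        refine happ _ _ ?_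
        exact (app_iso γ (fun i => ((b i : N) : U))).symm
      refine hO3 α f (fun x y hxy => Subtype.ext (Subtype.ext hxy)) k (fun i hi => hk ?_) d ?_ hdO
      · rw [← hi]
        exact i.1.2
      · -- isolated
        have hfix : ∀ p, γ ((c (e.symm p).1 : N) : U) = VMA.tup a f p := fun p => hγ (e.symm p)
        -- type of (a, d) = type of (c, b)
        have htr : ∀ ψ : PP R ((α × ι) ⊕ ι), ASat ψ U (Sum.elim (VMA.tup a f) d) ↔
            ASat (ren (Sum.map e.symm id) ψ) N (Sum.elim (fun i => c i) b) := by
          intro ψ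
          rw [asat_ren, hE N hN]
          have h9 : (Sum.elim (VMA.tup a f) d : (α × ι) ⊕ ι → U) = ⇑γ ∘ (fun i =>
              (((Sum.elim (fun i : (F ×ˢ (Finset.univ : Finset ι) : Finset (X × ι)) => c i) b ∘
                Sum.map e.symm id) i : N) : U)) := by
            funext i
            rcases i with i | i
            · exact (hfix i).symm
            · rfl
          rw [h9]
          exact asat_iso γ
        refine affU_iso (θ := ren (Sum.map e id) θ) ?_ ?_
        · rw [htr, asat_ren, asat_ren]
          have h10 : ((Sum.elim (fun i : (F ×ˢ (Finset.univ : Finset ι) : Finset (X × ι)) => c i)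
              b ∘ Sum.map e.symm id) ∘ Sum.map e id) =
              Sum.elim (fun i : (F ×ˢ (Finset.univ : Finset ι) : Finset (X × ι)) => c i) b := by
            funext i
            rcases i with i | i
            · simp
            · rfl
          rw [h10]
          exact hθ
        · intro x y hx hxy ψ hψ
          have hψ' : ASat ψ U (Sum.elim (VMA.tup a f) d) := hψ
          rw [htr] at hψ'
          have h11 := hgen' (x ∘ e) y (fun φ hφ => by
            have h12 : ASat (ren e φ) U (VMA.tup a f) := by
              rw [asat_ren]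
              exact hφ
            have h13 : ASat (ren e φ) U x := hx h12
            rw [asat_ren] at h13
            exact h13) (by
            rw [asat_ren] at hxy
            refine Eq.mp ?_ hxy
            congr 1
            funext i
            rcases i with i | i <;> rfl) hψ'
          have h14 : ASat (ren (Sum.map e.symm id) ψ) U (Sum.elim (x ∘ e) y) := h11
          rw [asat_ren] at h14
          show ASat ψ U (Sum.elim x y)
          refine Eq.mp ?_ h14
          congr 1
          funext i
          rcases i with i | i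
          · show x (e (e.symm i)) = x i
            rw [e.apply_symm_apply]
          · rfl
  choose N hN hEk using hmod
  have hinj : Function.Injective fun X : Set ℕ => areal R (N X) := by
    intro X X' h
    have h' : areal R (N X) = areal R (N X') := h
    have key : ∀ X X' : Set ℕ, areal R (N X) = areal R (N X') → X ⊆ X' := by
      intro X X' h k hk
      obtain ⟨x, hx⟩ := (hEk X k).1 hk
      obtain ⟨x', hx'⟩ := app_of_areal h x
      refine (hEk X' k).2 ⟨x', hO2 k _ _ ?_ hx⟩
      refine happ _ _ ?_
      ext φ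
      have h15 : ASat φ (N X') x' ↔ ASat φ (N X) x := by
        have h16 : φ ∈ app (R := R) (N X') x' ↔ φ ∈ app (R := R) (N X) x := by rw [hx']
        exact h16
      exact ((hE (N X) (hN X) _ φ x).symm.trans h15.symm).trans (hE (N X') (hN X') _ φ x')
    exact Subset.antisymm (key X X' h') (key X' X h'.symm)
  have hcount : (Set.range fun X : Set ℕ => areal R (N X)).Countable := by
    refine hf.mono ?_
    rintro _ ⟨X, rfl⟩
    exact ⟨N X, hN X, rfl⟩
  have h16 : Countable (Set ℕ) := by
    have := hcount.to_subtype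
    exact Function.Injective.countable
      (f := fun X : Set ℕ => (⟨_, X, rfl⟩ : Set.range fun X : Set ℕ => areal R (N X)))
      fun X X' h => hinj (Subtype.ext_iff.1 h)
  exact (Function.cantor_surjective (fun n : ℕ => (exists_surjective_nat (Set ℕ)).choose n))
    (exists_surjective_nat (Set ℕ)).choose_spec

end

end Pool.Agent.AVF
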