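import Pool.Agent.AVF.StD

/-!
# AVF, CSF: the value of a fact depends only on the coset
-/

set_option autoImplicit false
set_option linter.unusedSectionVars false
set_option linter.unusedVariables false

namespace Pool.Agent.AVF

open Set Pool.Agent.AVC Pool.Agent.AVC.Ax

theorem thm_CSF : St_CSF := by
  intro R _ U ι κ a V ψ t t' N Y g v d h
  rw [re_union, re_zer] at h
  obtain ⟨h1, h2⟩ := h
  have h2' : Sat ψ U (t' - t) := h2 ψ rfl
  refine ⟨fun hF => ⟨?_, hF.fi, hF.full⟩, fun hv p e he => ?_⟩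
  · have h3 := hF.re.add h1
    have h4 : Sum.elim a t + Sum.elim (0 : ι → U) (t' - t) = Sum.elim a t' := by
      funext i
      rcases i with i | i
      · exact add_zero _
      · exact add_sub_cancel (t i) (t' i)
    rwa [h4] at h3
  · refine hv p e ?_
    obtain ⟨s, f, hs1, ⟨m₀, hs2⟩, hs3, hs4⟩ := he
    refine ⟨s, f, hs1, ⟨m₀, fun m hm => ?_⟩, hs3, hs4⟩
    have h3 := (hs2 m hm).add h2'
    have h4 : ((fun i => p.1.2 (s i m)) - t') + (t' - t) = (fun i => p.1.2 (s i m)) - t :=
      sub_add_sub_cancel _ _ _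
    rwa [h4] at h3

end Pool.Agent.AVF
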