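import Pool.Agent.AVF.StT

/-!
# AVF, block T: implications of `U` hold in the class (helper47)
-/

set_option autoImplicit false
set_option linter.unusedSectionVars false
set_option linter.unusedVariables false

namespace Pool.Agent.AVF

open Set Pool.Agent.AVC Pool.Agent.AVC.Ax

theorem thm_DIC : St_DIC := by
  intro R _ U ι _
  have key : ∀ (s : Finset (PP R ι)) (ψ : PP R ι),
      (∀ x : ι → U, (∀ φ ∈ s, Sat φ U x) → Sat ψ U x) →
      ∀ (M : Type) [AddCommGroup M] [MoS R M], (Own R U).In M → ∀ x : ι → M,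
        (∀ φ ∈ s, Sat φ M x) → Sat ψ M x := by
    intro s ψ h M _ _ hM x hx
    obtain ⟨n, ⟨e⟩⟩ := Finite.exists_equiv_fin ι
    obtain ⟨χ, hχ⟩ := isPP_finset s
    have h2 : (⟨n, ren e χ, ren e ψ⟩ : (n : ℕ) × (PP R (Fin n) × PP R (Fin n))) ∈ Own R U := by
      intro z hz
      have h3 : Sat (ren e χ) U z := hz
      show Sat (ren e ψ) U z
      rw [sat_ren] at h3 ⊢
      exact h _ ((hχ U _).2 h3)
    have h4 : (x ∘ e.symm) ∘ e = x := by
      funext i
      simp
    have h5 : Sat (ren e ψ) M (x ∘ e.symm) := hM _ h2 (x ∘ e.symm) (by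
      show Sat (ren e χ) M (x ∘ e.symm)
      rw [sat_ren, h4]
      exact (hχ M x).1 hx)
    rw [sat_ren, h4] at h5
    exact h5
  refine ⟨fun φ ψ h => ?_, key⟩
  intro M _ _ hM x hx
  refine key {φ} ψ (fun z hz => h z (hz φ (Finset.mem_singleton_self φ))) M hM x (fun φ' hφ' => ?_)
  rw [Finset.mem_singleton] at hφ'
  rw [hφ']
  exact hx

end Pool.Agent.AVF
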