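import Pool.Agent.AVF.StF
import Pool.Agent.AVF.SHR

/-!
# VMF: full types: `St_FIF`, `St_FUQ`, `St_KIL`
-/

set_option autoImplicit false
set_option linter.unusedSectionVars false
set_option linter.unusedVariables false

namespace Pool.Agent.AVF

open Set Pool.Agent.AVC Pool.Agent.AVC.Ax

section

variable {G : Type} [AddCommGroup G]

theorem relIndex_le_of_le {H K L : AddSubgroup G} (h : H ≤ K) (h0 : H.relIndex L ≠ 0) :
    K.relIndex L ≤ H.relIndex L := by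
  have h1 : K.relIndex L ∣ H.relIndex L := AddSubgroup.relIndex_dvd_of_le_left L h
  exact Nat.le_of_dvd (Nat.pos_of_ne_zero h0) h1

theorem inf_le_of_relIndex_eq {H K L : AddSubgroup G} (h : H ≤ K) (h0 : H.relIndex L ≠ 0)
    (he : H.relIndex L ≤ K.relIndex L) : K ⊓ L ≤ H := by
  have h1 : (H ⊓ L).relIndex (K ⊓ L) * (K ⊓ L).relIndex L = (H ⊓ L).relIndex L :=
    AddSubgroup.relIndex_mul_relIndex _ _ _ (inf_le_inf_right L h) inf_le_right
  rw [AddSubgroup.inf_relIndex_right, AddSubgroup.inf_relIndex_right] at h1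
  have h2 : K.relIndex L = H.relIndex L := le_antisymm (relIndex_le_of_le h h0) he
  rw [h2] at h1
  have h3 : (H ⊓ L).relIndex (K ⊓ L) = 1 :=
    Nat.eq_of_mul_eq_mul_right (Nat.pos_of_ne_zero h0) (by rw [h1, one_mul])
  exact (AddSubgroup.relIndex_eq_one.1 h3).trans inf_le_left

/-- a bounded function has a maximum -/
theorem exists_max_nat {α : Type} (a0 : α) (f : α → ℕ) (B : ℕ) (hB : ∀ a, f a ≤ B) :
    ∃ a, ∀ b, f b ≤ f a := by
  classical
  have h1 : ∃ n, ∃ a, B - f a = n := ⟨_, a0, rfl⟩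
  obtain ⟨a, ha⟩ := Nat.find_spec h1
  refine ⟨a, fun b => ?_⟩
  have h2 := Nat.find_min' h1 ⟨b, rfl⟩
  rw [← ha] at h2
  have h3 := hB a
  have h4 := hB b
  omega

end

theorem thm_FIF : St_FIF := by
  intro R _ U κ S S' h
  classical
  have hle : ∀ s : {s : Finset (PP R κ) // ↑s ⊆ S'}, grp U S' ≤ grp U (s.1 : Set (PP R κ)) :=
    fun s => grp_anti s.2
  obtain ⟨s, hs⟩ := exists_max_nat (α := {s : Finset (PP R κ) // ↑s ⊆ S'}) ⟨∅, by simp⟩
    (fun s => (grp U (s.1 : Set (PP R κ))).relIndex (grp U S)) ((grp U S').relIndex (grp U S))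
    (fun s => relIndex_le_of_le (hle s) h)
  refine ⟨s.1, s.2, fun x hx hxs φ hφ => ?_⟩
  have h1 : grp U ((insert φ s.1 : Finset (PP R κ)) : Set (PP R κ)) ≤ grp U (s.1 : Set (PP R κ)) :=
    grp_anti (by simp)
  have h2 : ((insert φ s.1 : Finset (PP R κ)) : Set (PP R κ)) ⊆ S' := by
    rw [Finset.coe_insert]
    exact Set.insert_subset hφ s.2
  have h3 : (grp U ((insert φ s.1 : Finset (PP R κ)) : Set (PP R κ))).relIndex (grp U S) ≠ 0 :=
    fun h0 => h (AddSubgroup.relIndex_eq_zero_of_le_left (grp_anti h2) h0)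
  have h4 := inf_le_of_relIndex_eq h1 h3 (hs ⟨_, h2⟩)
  have h5 : x ∈ grp U ((insert φ s.1 : Finset (PP R κ)) : Set (PP R κ)) := h4 ⟨hxs, hx⟩
  exact h5 φ (by simp)

/-- the sum of a formula and a group -/
theorem thm_FUQ (hP : St_SAP) : St_FUQ := by
  intro R _ _ U hU κ _ S S' hS hF
  classical
  set K : AddSubgroup (κ → U) := grp U S ⊓ grp U S' with hK
  have hKi : K.relIndex (grp U S) ≠ 0 := by
    rw [hK, AddSubgroup.inf_relIndex_left]
    exact hF
  obtain ⟨z, hz⟩ := isPP_zero (R := R) (ι := κ)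
  have hz' : ∀ x : κ → U, Sat z U x → Re S U x := fun x hx => by
    rw [(hz U x).2 hx]
    exact Re.zero S
  -- a largest group `χ(U) + K`
  obtain ⟨χ, hχ⟩ := exists_max_nat (α := {χ : PP R κ // ∀ x : κ → U, Sat χ U x → Re S U x})
    ⟨z, hz'⟩ (fun χ => (K.relIndex (satGroup χ.1 U ⊔ K))) (K.relIndex (grp U S)) (fun χ => by
      have h1 : satGroup χ.1 U ⊔ K ≤ grp U S := sup_le (fun x hx => χ.2 x hx) inf_le_left
      have h2 := AddSubgroup.relIndex_mul_relIndex K _ _ (le_sup_right) h1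
      exact Nat.le_of_dvd (Nat.pos_of_ne_zero hKi) ⟨_, h2.symm⟩)
  have hmax : ∀ χ' : PP R κ, (∀ x : κ → U, Sat χ' U x → Re S U x) →
      satGroup χ' U ≤ satGroup χ.1 U ⊔ K := by
    intro χ' hχ'
    obtain ⟨σ, hσ⟩ := (isPP_sat χ.1).sum (isPP_sat χ')
    have hσS : ∀ x : κ → U, Sat σ U x → Re S U x := by
      intro x hx
      obtain ⟨y, hy1, hy2⟩ := (hσ U x).2 hx
      have := (χ.2 y hy1).add (hχ' _ hy2)
      rwa [add_sub_cancel] at this
    have h1 : satGroup χ.1 U ≤ satGroup σ U := fun x hx => (hσ U x).1 ⟨x, hx, by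
      rw [sub_self]
      exact Sat.zero _⟩
    have h2 : satGroup χ' U ≤ satGroup σ U := fun x hx => (hσ U x).1 ⟨0, Sat.zero _, by
      rw [sub_zero]
      exact hx⟩
    have h3 : satGroup χ.1 U ⊔ K ≤ satGroup σ U ⊔ K := sup_le_sup_right h1 K
    have h4 : satGroup σ U ⊔ K ≤ grp U S := sup_le (fun x hx => hσS x hx) inf_le_left
    have h5 := AddSubgroup.relIndex_mul_relIndex K _ _ le_sup_right h3
    have h6 : K.relIndex (satGroup σ U ⊔ K) ≤ K.relIndex (satGroup χ.1 U ⊔ K) := hχ ⟨σ, hσS⟩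
    have h7 : K.relIndex (satGroup χ.1 U ⊔ K) ≠ 0 := fun h0 =>
      hKi (by
        have h8 := AddSubgroup.relIndex_mul_relIndex K _ _ le_sup_right (h3.trans h4)
        rw [← h8, h0, zero_mul])
    have h8 : (satGroup χ.1 U ⊔ K).relIndex (satGroup σ U ⊔ K) = 1 := by
      by_contra hne
      have h9 : (satGroup χ.1 U ⊔ K).relIndex (satGroup σ U ⊔ K) ≠ 0 := by
        intro h0
        rw [h0, mul_zero] at h5
        refine hKi ?_
        have h10 := AddSubgroup.relIndex_mul_relIndex K _ _ le_sup_right h4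
        rw [← h10, ← h5, zero_mul]
      have h11 : 2 ≤ (satGroup χ.1 U ⊔ K).relIndex (satGroup σ U ⊔ K) := by omega
      rw [← h5] at h6
      have h12 : K.relIndex (satGroup χ.1 U ⊔ K) * 2 ≤ K.relIndex (satGroup χ.1 U ⊔ K) :=
        (Nat.mul_le_mul_left _ h11).trans h6
      omega
    exact (h2.trans le_sup_left).trans (AddSubgroup.relIndex_eq_one.1 h8)
  obtain ⟨s, hsS, hs⟩ := thm_FIF R U κ S S' hF
  refine ⟨χ.1, χ.2, fun x hx => ?_⟩
  -- the formulas `φ(x - c)`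
  have hD : ∀ φ : PP R κ, ∃ D : PP R (κ ⊕ κ), ∀ (a b : κ → U), Sat D U (Sum.elim a b) ↔
      Sat φ U (a - b) := by
    intro φ
    obtain ⟨D, hD⟩ := (isPP_sat φ).subst (ι := κ ⊕ κ) (fun i : κ =>
      Finsupp.single (Sum.inl i) (1 : R) - Finsupp.single (Sum.inr i) 1)
    refine ⟨D, fun a b => (hD U _).symm.trans (iff_of_eq ?_)⟩
    show Sat φ U (fun i => Finsupp.linearCombination R (Sum.elim a b)
      (Finsupp.single (Sum.inl i) (1 : R) - Finsupp.single (Sum.inr i) 1)) = _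
    congr 1
    funext i
    simp [map_sub]
  choose D hD using hD
  obtain ⟨c, hc⟩ := hP R U hU κ κ x ({ren Sum.inr χ.1} ∪ D '' (S ∪ (s : Set (PP R κ)))) (by
    intro t ht
    -- the formulas of `S` which are used
    have h1 : ∃ s₁ : Finset (PP R κ), (s₁ : Set (PP R κ)) ⊆ S ∪ (s : Set (PP R κ)) ∧
        ∀ φ ∈ t, φ = ren Sum.inr χ.1 ∨ ∃ ψ ∈ s₁, φ = D ψ := by
      have h2 : ∀ φ ∈ t, ∃ ψ : PP R κ, ψ ∈ S ∪ (s : Set (PP R κ)) ∨ ψ = [] := fun φ _ =>
        ⟨[], Or.inr rfl⟩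
      have h3 : ∀ φ : PP R (κ ⊕ κ), ∃ ψ : PP R κ, φ ∈ D '' (S ∪ (s : Set (PP R κ))) →
          ψ ∈ S ∪ (s : Set (PP R κ)) ∧ D ψ = φ := by
        intro φ
        by_cases h : φ ∈ D '' (S ∪ (s : Set (PP R κ)))
        · obtain ⟨ψ, h4, h5⟩ := h
          exact ⟨ψ, fun _ => ⟨h4, h5⟩⟩
        · exact ⟨[], fun h' => absurd h' h⟩
      choose E hE using h3
      refine ⟨(t.filter (fun φ => φ ∈ D '' (S ∪ (s : Set (PP R κ))))).image E, ?_, ?_⟩
      · intro ψ hψ
        rw [Finset.coe_image] at hψ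
        obtain ⟨φ, h4, rfl⟩ := hψ
        rw [Finset.mem_coe, Finset.mem_filter] at h4
        exact (hE φ h4.2).1
      · intro φ hφ
        rcases ht hφ with h4 | h4
        · exact Or.inl h4
        · refine Or.inr ⟨E φ, ?_, (hE φ h4).2.symm⟩
          rw [Finset.mem_image]
          exact ⟨φ, Finset.mem_filter.2 ⟨hφ, h4⟩, rfl⟩
    obtain ⟨s₁, hs₁, ht₁⟩ := h1
    obtain ⟨ρ, hρ⟩ := (isPP_sat χ.1).sum (isPP_finset s₁)
    have hKρ : ∀ y ∈ K, ∀ φ ∈ s₁, Sat φ U y := by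
      rintro y ⟨hy1, hy2⟩ φ hφ
      rcases hs₁ hφ with h4 | h4
      · exact hy1 φ h4
      · exact hy2 φ (hsS h4)
    have hHρ : ∀ y ∈ satGroup χ.1 U ⊔ K, Sat ρ U y := by
      intro y hy
      obtain ⟨a, ha, b, hb, rfl⟩ := AddSubgroup.mem_sup.1 hy
      refine (hρ U _).1 ⟨a, ha, ?_⟩
      rw [add_sub_cancel_left]
      exact hKρ b hb
    have hone : ρ ∈ one U S := by
      constructor
      · have h5 : FIn U S S' := hF
        unfold FIn
        intro h0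
        refine hKi (AddSubgroup.relIndex_eq_zero_of_le_left (K := grp U {ρ}) ?_ h0)
        rintro y hy φ hφ
        rw [mem_singleton_iff] at hφ
        subst hφ
        exact hHρ y (AddSubgroup.mem_sup_right hy)
      · intro χ' hχ' y hy φ hφ
        rw [mem_singleton_iff] at hφ
        subst hφ
        exact hHρ y (hmax χ' hχ' hy)
    obtain ⟨c, hc1, hc2⟩ := (hρ U x).2 (hS x hx ρ hone)
    refine ⟨c, fun φ hφ => ?_⟩
    rcases ht₁ φ hφ with rfl | ⟨ψ, hψ, rfl⟩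
    · rw [sat_ren]
      exact hc1
    · rw [hD]
      exact hc2 ψ hψ)
  have hcχ : Sat χ.1 U c := by
    have h1 := hc _ (Or.inl rfl)
    rw [sat_ren] at h1
    exact h1
  have hcS : ∀ φ ∈ S ∪ (s : Set (PP R κ)), Sat φ U (x - c) := fun φ hφ => by
    have h1 := hc _ (Or.inr ⟨φ, hφ, rfl⟩)
    rwa [hD] at h1
  have hw : Re S U (x - c) := fun φ hφ => hcS φ (Or.inl hφ)
  exact ⟨c, x - c, (add_sub_cancel c x).symm, hcχ, hw, hs _ hw fun φ hφ => hcS φ (Or.inr hφ)⟩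

/-- 0.3 -/
theorem thm_KIL : St_KIL := by
  intro R _ _ U hU κ l _ _ S θ W ψ hS hF hP h1 h2
  classical
  obtain ⟨B, hB⟩ := ((isPP_sat θ).and ((isPP_sat ψ).comap (ι := κ ⊕ l) Sum.inr)).ex
  have hB' : ∀ u : κ → U, Sat B U u ↔ ∃ y : l → U, Sat θ U (Sum.elim u y) ∧ Sat ψ U y := by
    intro u
    exact (hB U u).symm
  have h0 : ∀ y : l → U, Sat θ U (Sum.elim 0 y) → Sat ψ U y := by
    intro y hy
    obtain ⟨η, hη⟩ := (isPP_zero (R := R) (ι := κ)).image (isPP_sat θ)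
    refine hP η (fun z hz => ?_) y ((hη U y).1 ⟨0, rfl, hy⟩) ψ rfl
    obtain ⟨u, rfl, hu⟩ := (hη U z).2 hz
    exact h2 0 z (Re.zero S) hu
  have hone : B ∈ one U S := by
    constructor
    · unfold FIn
      intro hz
      obtain ⟨y, hy1, hy2⟩ := many_of_relIndex hz ((grp U ({ψ} : Set (PP R l))).relIndex (grp U W) + 1)
      choose t ht using fun a => h1 (y a) (hy1 a)
      obtain ⟨a, b, hab, h3⟩ := relIndex_many hF t (fun a => h2 _ _ (hy1 a) (ht a))
      refine hy2 a b hab ?_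
      rintro φ hφ
      rw [mem_singleton_iff] at hφ
      subst hφ
      refine (hB' _).2 ⟨t a - t b, ?_, h3 ψ rfl⟩
      rw [elim_sub]
      exact (ht a).sub (ht b)
    · intro χ hχ x hx φ hφ
      rw [mem_singleton_iff] at hφ
      subst hφ
      obtain ⟨t, ht⟩ := h1 x (hχ x hx)
      refine (hB' _).2 ⟨t, ht, ?_⟩
      obtain ⟨η, hη⟩ := (isPP_sat χ).image (isPP_sat θ)
      refine hP η (fun z hz => ?_) t ((hη U t).1 ⟨x, hx, ht⟩) ψ rfl
      obtain ⟨u, hu1, hu2⟩ := (hη U z).2 hz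
      exact h2 u z (hχ u hu1) hu2
  intro u y hu hy
  obtain ⟨t, ht1, ht2⟩ := (hB' u).1 (hS u hu B hone)
  have h3 : Sat θ U (Sum.elim 0 (y - t)) := by
    have h4 := hy.sub ht1
    rw [← elim_sub, sub_self] at h4
    exact h4
  have h5 := (h0 _ h3).add ht2
  rwa [sub_add_cancel] at h5

end Pool.Agent.AVF
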