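import Pool.Agent.AVF.StC
import Pool.Agent.AVC.SPL
import Pool.Agent.AVC.DEC
import Pool.Agent.AVC.RID
import Pool.Agent.AVC.RSS
import Pool.Agent.AVC.RTN
import Pool.Agent.AVC.HEX
import Pool.Agent.AVC.EXT
import Pool.Agent.AVC.NULM

/-!
# AVF (port of VMF), block C: assembly of the chain condition and one full generator (helper58)
-/

set_option autoImplicit false
set_option linter.unusedSectionVars false
set_option linter.unusedVariables false

namespace Pool.Agent.AVF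

open Set Pool.Agent.AVC Pool.Agent.AVC.Ax

theorem thm_GNT (hDQT : St_DQT) (hHPF : St_HPF) (hFNT : St_FNT) (hGNP : St_GNP) : St_GNT := by
  intro R _ _ U hT hQ hF
  refine ⟨hDQT R U hT hQ hF, ?_⟩
  refine hGNP R (Own R U) (fun C => Full U C.S) (hHPF R U hT hQ) (hFNT R U hT hQ hF) ?_
  intro C hC
  obtain ⟨m, A, ρ, ι, h1, h2, h3⟩ := thm_DEC (thm_SPL thm_HEX thm_EX0 thm_NUZ thm_NUP)
    (thm_RID thm_RTN thm_RSS) R (Own R U) C (hDQT R U hT hQ hF C hC)
  exact ⟨m, A, ρ, ι, fun i => hQ.rff (Fin C.n) (Fin (A i).n) C.S (A i).S C.N (A i).N C.g (A i).g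
    hC C.hon (A i).hon ⟨ι i, ρ i, h2 i⟩, h1, h2, h3⟩

end Pool.Agent.AVF
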