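import Pool.Agent.AVF.TLA

/-!
# AVF, block T: maps out of structures which are generated over a finite tuple (helper21)

`thm_PRH`: homogeneous maps into members of the homogeneous class; `thm_PRA`: affine maps into members of
`K`. `thm_PRU`: all for the honest model of a finite tuple of `U`.
-/

set_option autoImplicit false
set_option linter.unusedSectionVars false
set_option linter.unusedVariables false

namespace Pool.Agent.AVF

open Set Pool.Agent.AVC Pool.Agent.AVC.Ax

section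

private theorem PRH_seq {M : Type} [Nonempty M] (P : ℕ → (ℕ → M) → Prop)
    (hloc : ∀ n w w', (∀ i < n, w i = w' i) → P n w → P n w') (n₀ : ℕ) (w₀ : ℕ → M)
    (h0 : P n₀ w₀) (hs : ∀ n w, P n w → ∃ v, P (n + 1) (Function.update w n v)) :
    ∃ W : ℕ → M, (∀ i < n₀, W i = w₀ i) ∧ ∀ n, P (n₀ + n) W := by
  choose! v hv using hs
  let q : ℕ → ℕ → M := fun m => Nat.rec w₀ (fun m w => Function.update w (n₀ + m) (v (n₀ + m) w)) m
  have q0 : q 0 = w₀ := rfl
  have qs : ∀ m, q (m + 1) = Function.update (q m) (n₀ + m) (v (n₀ + m) (q m)) := fun m => rfl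
  have hP : ∀ m, P (n₀ + m) (q m) := by
    intro m
    induction m with
    | zero => exact h0
    | succ m ih =>
      rw [qs]
      exact hv (n₀ + m) (q m) ih
  have hq : ∀ m l i, i < n₀ + m → q (m + l) i = q m i := by
    intro m l
    induction l with
    | zero => intro i _; rfl
    | succ l ih =>
      intro i hi
      rw [← ih i hi, ← add_assoc, qs, Function.update_of_ne (by omega)]
  refine ⟨fun i => q (i + 1) i, fun i hi => ?_, fun n => ?_⟩
  · show q (i + 1) i = w₀ i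
    have h1 := hq 0 (i + 1) i (by omega)
    rwa [Nat.zero_add, q0] at h1
  · refine hloc _ _ _ (fun i hi => ?_) (hP n)
    show q n i = q (i + 1) i
    have h1 := hq n (i + 1) i (by omega)
    have h2 := hq (i + 1) n i (by omega)
    rw [← h1, ← h2, add_comm]

variable {R : Type} [RSig R] {κ : Type}

/-- the construction of the images: `F` is a reading of the formulas in `M` -/
private theorem PRH_aux {N : Type} [AddCommGroup N] [AfS R N] [Countable N] {c : κ → N}
    {M : Type} [Nonempty M] (F : ∀ (α : Type), PP R α → (α → M) → Prop)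
    (hren : ∀ (α β : Type) (f : α → β) (φ : PP R α) (x : β → M), F β (ren f φ) x ↔ F α φ (x ∘ f))
    (hex : ∀ (α : Type) (φ : PP R (α ⊕ Unit)), ∃ ψ : PP R α,
      (∀ x : α → N, (∃ y : Unit → N, ASat φ N (Sum.elim x y)) ↔ ASat ψ N x) ∧
      ∀ x : α → M, (∃ y : Unit → M, F (α ⊕ Unit) φ (Sum.elim x y)) ↔ F α ψ x)
    {x : κ → M} (G : ∀ n : ℕ, (Fin n → N) → PP R (κ ⊕ Fin n) → Prop)
    (hG : ∀ (n : ℕ) (d : Fin n → N), ∃ θ, G n d θ)
    (hG1 : ∀ (n : ℕ) (d : Fin n → N) (θ : PP R (κ ⊕ Fin n)), G n d θ →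
      ASat θ N (Sum.elim c d))
    (hG2 : ∀ (n : ℕ) (d : Fin n → N) (θ : PP R (κ ⊕ Fin n)), G n d θ → ∀ y : Fin n → M,
      F _ θ (Sum.elim x y) → ∀ ψ : PP R (κ ⊕ Fin n), ASat ψ N (Sum.elim c d) →
      F _ ψ (Sum.elim x y))
    {k : ℕ} (d : Fin k → N) (θ : PP R (κ ⊕ Fin k)) (hθ : G k d θ) (y : Fin k → M)
    (hy : F _ θ (Sum.elim x y)) :
    ∃ (z : ℕ → N) (W : ℕ → M), Function.Surjective z ∧ (∀ j : Fin k, z j = d j) ∧
      (∀ j : Fin k, W j = y j) ∧ ∀ (m : ℕ) (g : Fin m → ℕ) (ψ : PP R (κ ⊕ Fin m)),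
        ASat ψ N (Sum.elim c (z ∘ g)) → F _ ψ (Sum.elim x (W ∘ g)) := by
  obtain ⟨e, he⟩ := exists_surjective_nat N
  obtain ⟨z, hz⟩ : ∃ z : ℕ → N, z = fun j => if h : j < k then d ⟨j, h⟩ else e (j - k) := ⟨_, rfl⟩
  have hzb : ∀ j : Fin k, z j = d j := by
    intro j
    rw [hz]
    simp
  have hzs : Function.Surjective z := by
    intro x
    obtain ⟨i, rfl⟩ := he x
    refine ⟨k + i, ?_⟩
    rw [hz]
    simp
  let P : ℕ → (ℕ → M) → Prop := fun n w => ∃ θ : PP R (κ ⊕ Fin n),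
    G n (fun i : Fin n => z i) θ ∧ F _ θ (Sum.elim x (fun i : Fin n => w i))
  obtain ⟨w₀, hw₀⟩ : ∃ w₀ : ℕ → M, w₀ = fun j => if h : j < k then y ⟨j, h⟩ else
    Classical.arbitrary M := ⟨_, rfl⟩
  have hwc : ∀ j : Fin k, w₀ j = y j := by
    intro j
    rw [hw₀]
    simp
  obtain ⟨W, hW0, hW⟩ := PRH_seq P
    (by
      rintro n w w' h ⟨θ, h1, h2⟩
      refine ⟨θ, h1, ?_⟩
      have h3 : (fun i : Fin n => w' i) = fun i : Fin n => w i := funext fun i => (h i i.2).symm
      rw [h3]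
      exact h2) k w₀
    (by
      refine ⟨θ, ?_, ?_⟩
      · rw [show (fun i : Fin k => z i) = d from funext hzb]
        exact hθ
      · rw [show (fun i : Fin k => w₀ i) = y from funext hwc]
        exact hy)
    (by
      rintro n w ⟨θ₁, h1, h2⟩
      obtain ⟨θ', h3⟩ := hG (n + 1) (fun i : Fin (n + 1) => z i)
      let r : κ ⊕ Fin (n + 1) → (κ ⊕ Fin n) ⊕ Unit :=
        Sum.elim (fun i => Sum.inl (Sum.inl i))
          (fun j => if h : (j : ℕ) < n then Sum.inl (Sum.inr ⟨j, h⟩) else Sum.inr ())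
      have hr : ∀ (K : Type) (x : κ → K) (u : ℕ → K) (y : Unit → K),
          Sum.elim (Sum.elim x (fun i : Fin n => u i)) y ∘ r =
            Sum.elim x (fun i : Fin (n + 1) => Function.update u n (y ()) i) := by
        intro K x u y
        funext i
        rcases i with i | j
        · rfl
        · by_cases h : (j : ℕ) < n
          · simp only [r, Function.comp, Sum.elim_inr, dif_pos h, Sum.elim_inl]
            rw [Function.update_of_ne (by omega)]
          · have hj : (j : ℕ) = n := by omega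
            simp only [r, Function.comp, Sum.elim_inr, dif_neg h]
            rw [hj, Function.update_self]
      obtain ⟨ψ, hψ1, hψ2⟩ := hex _ (ren r θ')
      have h5 : ASat ψ N (Sum.elim c (fun i : Fin n => z i)) := by
        rw [← hψ1]
        refine ⟨fun _ => z n, ?_⟩
        rw [asat_ren, hr, Function.update_eq_self]
        exact hG1 _ _ _ h3
      have h6 := hG2 _ _ _ h1 (fun i : Fin n => w i) h2 ψ h5
      rw [← hψ2] at h6
      obtain ⟨y, hy⟩ := h6
      rw [hren, hr] at hy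
      exact ⟨y (), θ', h3, hy⟩)
  refine ⟨z, W, hzs, hzb, fun j => (hW0 j j.2).trans (hwc j), fun m g ψ hψ => ?_⟩
  obtain ⟨n, hn⟩ : ∃ n, n = k + (Finset.univ.sup g + 1) := ⟨_, rfl⟩
  have hgn : ∀ j, g j < n := fun j => by
    have := Finset.le_sup (f := g) (Finset.mem_univ j)
    omega
  have hPn : P n W := hn ▸ hW (Finset.univ.sup g + 1)
  obtain ⟨θ', h1, h2⟩ := hPn
  have h3 := hG2 _ _ _ h1 _ h2 (ren (Sum.map id (fun j => (⟨g j, hgn j⟩ : Fin n))) ψ) (by
    rw [asat_ren]
    have h4 : Sum.elim c (fun i : Fin n => z i) ∘ Sum.map id (fun j => (⟨g j, hgn j⟩ : Fin n)) =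
        Sum.elim c (z ∘ g) := by
      funext i
      cases i <;> rfl
    rw [h4]
    exact hψ)
  rw [hren] at h3
  have h4 : Sum.elim x (fun i : Fin n => W i) ∘ Sum.map id (fun j => (⟨g j, hgn j⟩ : Fin n)) =
      Sum.elim x (W ∘ g) := by
    funext i
    cases i <;> rfl
  rwa [h4] at h3

/-- the map given by two sequences -/
private theorem PRH_map {N : Type} [AddCommGroup N] [AfS R N] {c : κ → N}
    {M : Type} [AddCommGroup M] [MoS R M] (F : ∀ (α : Type), PP R α → (α → M) → Prop)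
    (hhom : ∀ (α : Type) (φ : PP R α) (x : α → M), F α (hom φ) x → Sat φ M x)
    {x : κ → M} (z : ℕ → N) (W : ℕ → M) (hz : Function.Surjective z)
    (hW : ∀ (m : ℕ) (g : Fin m → ℕ) (ψ : PP R (κ ⊕ Fin m)),
        ASat ψ N (Sum.elim c (z ∘ g)) → F _ ψ (Sum.elim x (W ∘ g))) :
    ∃ f : Hm R N M, (∀ j, f (z j) = W j) ∧ (∀ i, f (c i) = x i) ∧
      ∀ (m : ℕ) (e : Fin m → N) (ψ : PP R (κ ⊕ Fin m)), ASat ψ N (Sum.elim c e) →
        F _ ψ (Sum.elim x (f ∘ e)) := by
  -- homogeneous formulas are preserved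
  have hS : ∀ (m : ℕ) (g : Fin m → ℕ) (ψ : PP R (κ ⊕ Fin m)),
      Sat ψ N (Sum.elim c (z ∘ g)) → Sat ψ M (Sum.elim x (W ∘ g)) := fun m g ψ h =>
    hhom _ _ _ (hW m g (hom ψ) ((asat_hom ψ _).2 h))
  -- linear relations are preserved
  have hL : ∀ (m : ℕ) (g : Fin m → ℕ) (e : (κ ⊕ Fin m) →₀ R),
      Finsupp.linearCombination R (Sum.elim c (z ∘ g)) e = 0 →
      Finsupp.linearCombination R (Sum.elim x (W ∘ g)) e = 0 := by
    intro m g e h
    obtain ⟨φ, hφ⟩ := isPP_lin e
    exact (hφ M _).2 (hS m g φ ((hφ N _).1 h))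
  choose ix hix using hz
  have hwd : ∀ j, W (ix (z j)) = W j := by
    intro j
    have h1 := hL 2 ![ix (z j), j] (Finsupp.single (Sum.inr 0) 1 - Finsupp.single (Sum.inr 1) 1) (by
      simp [map_sub, hix])
    simpa [map_sub, sub_eq_zero] using h1
  have hcx : ∀ i, W (ix (c i)) = x i := by
    intro i
    have h1 := hL 1 ![ix (c i)] (Finsupp.single (Sum.inr 0) 1 - Finsupp.single (Sum.inl i) 1) (by
      simp [map_sub, hix])
    simpa [map_sub, sub_eq_zero] using h1
  refine ⟨⟨{ toFun := fun u => W (ix u), map_add' := fun u v => ?_, map_smul' := fun r u => ?_ },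
    fun i u h => ?_⟩, fun j => hwd j, fun i => hcx i, fun m e ψ hψ => ?_⟩
  · have h1 := hL 3 ![ix (u + v), ix u, ix v] (Finsupp.single (Sum.inr 0) 1 -
      Finsupp.single (Sum.inr 1) 1 - Finsupp.single (Sum.inr 2) 1) (by
      simp [map_sub, hix])
    simpa [map_sub, sub_eq_zero, sub_sub] using h1
  · have h1 := hL 2 ![ix (r • u), ix u] (Finsupp.single (Sum.inr 0) 1 -
      Finsupp.single (Sum.inr 1) r) (by
      simp [map_sub, hix])
    simpa [map_sub, sub_eq_zero] using h1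
  · obtain ⟨φ, hφ⟩ := isPP_hold (R := R) (ι := κ ⊕ Fin (RSig.ar i))
      (Sum.inr ⟨i, false, fun j => Finsupp.single (Sum.inr j) 1⟩)
    have h1 : ∀ (K : Type) [AddCommGroup K] [MoS R K] (x : κ → K) (u : Fin (RSig.ar i) → K),
        Sat φ K (Sum.elim x u) ↔ u ∈ MoS.P (R := R) (M := K) i := by
      intro K _ _ x u
      refine (hφ K _).symm.trans ?_
      show (fun j => Finsupp.linearCombination R (Sum.elim x u)
        (Finsupp.single (Sum.inr j) 1)) ∈ MoS.P (R := R) (M := K) i ↔ _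
      have h2 : (fun j => Finsupp.linearCombination R (Sum.elim x u)
          (Finsupp.single (Sum.inr j) (1 : R))) = u := by
        funext j
        rw [Finsupp.linearCombination_single, one_smul]
        rfl
      rw [h2]
    have h3 := hS _ (fun j => ix (u j)) φ (by
      rw [h1]
      have h4 : z ∘ (fun j => ix (u j)) = u := funext fun j => hix (u j)
      rw [h4]
      exact h)
    rw [h1] at h3
    exact h3
  · have h1 := hW m (fun j => ix (e j)) ψ (by
      have h4 : z ∘ (fun j => ix (e j)) = e := funext fun j => hix (e j)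
      rw [h4]
      exact hψ)
    exact h1

/-- homogeneous maps into members of the homogeneous class: `N` is generated over `c` with the set `S`,
`x` satisfies `S` in the homogeneous reading; the map is given on `c` and on a tuple `d`. All affine formulas
which hold in `N` hold for the images in the homogeneous reading. -/
theorem thm_PRH {U : Ad R} {S : Set (PP R κ)} {N : Type} [AddCommGroup N] [AfS R N] [Countable N]
    {c : κ → N} (hG : ∀ (n : ℕ) (d : Fin n → N), ∃ θ, HGen (R := R) U S N c d θ)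
    {M : Type} [AddCommGroup M] [MoS R M] (hM : (Own R U).In M) {x : κ → M} (hx : Re S M x)
    {k : ℕ} (d : Fin k → N) (θ : PP R (κ ⊕ Fin k)) (hθ : HGen (R := R) U S N c d θ)
    (y : Fin k → M) (hy : Sat θ M (Sum.elim x y)) :
    ∃ f : Hm R N M, (∀ i, f (c i) = x i) ∧ (∀ j, f (d j) = y j) ∧
      ∀ (m : ℕ) (e : Fin m → N) (ψ : PP R (κ ⊕ Fin m)), ASat ψ N (Sum.elim c e) →
        Sat ψ M (Sum.elim x (f ∘ e)) := by
  obtain ⟨z, W, h1, h2, h3, h4⟩ := PRH_aux (R := R) (fun α φ x => Sat φ M x)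
    (fun α β f φ x => sat_ren f φ x) (fun α φ => by
      obtain ⟨ψ, hψ1, hψ2⟩ := (isAP_sat φ).ex
      exact ⟨ψ, fun x => hψ1 N x, fun x => hψ2 M x⟩) (x := x)
    (fun n d θ => HGen (R := R) U S N c d θ) hG (fun n d θ h => h.1)
    (fun n d θ h y hy ψ hψ => by
      obtain ⟨s, hs, -, h5⟩ := h.2 ψ hψ
      exact h5 M hM x y (fun φ hφ => hx φ (hs hφ)) hy) d θ hθ y hy
  obtain ⟨f, h5, h6, h7⟩ := PRH_map (R := R) (fun α φ x => Sat φ M x)
    (fun α φ x h => (sat_hom φ M x).1 h) z W h1 h4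
  exact ⟨f, h6, fun j => by rw [← h2, h5, h3], h7⟩

/-- affine maps into members of `K` -/
theorem thm_PRA {U : Ad R} {S : Set (PP R κ)} [Finite κ] {N : Type} [AddCommGroup N] [AfS R N]
    [Countable N] {c : κ → N}
    (hG : ∀ (n : ℕ) (d : Fin n → N), ∃ θ, AGen (R := R) U S N c d θ)
    {M : Type} [AddCommGroup M] [AfS R M] (hM : InK U M) {x : κ → M} (hx : ARe S M x)
    {k : ℕ} (d : Fin k → N) (θ : PP R (κ ⊕ Fin k)) (hθ : AGen (R := R) U S N c d θ)
    (y : Fin k → M) (hy : ASat θ M (Sum.elim x y)) :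
    ∃ f : Hm R N M, f.PrQ ∧ (∀ i, f (c i) = x i) ∧ (∀ j, f (d j) = y j) ∧
      ∀ (m : ℕ) (e : Fin m → N) (ψ : PP R (κ ⊕ Fin m)), ASat ψ N (Sum.elim c e) →
        ASat ψ M (Sum.elim x (f ∘ e)) := by
  classical
  obtain ⟨z, W, h1, h2, h3, h4⟩ := PRH_aux (R := R) (fun α φ x => ASat φ M x)
    (fun α β f φ x => asat_ren f φ x) (fun α φ => by
      obtain ⟨ψ, hψ1, hψ2⟩ := (isAP_sat φ).ex
      exact ⟨ψ, fun x => hψ1 N x, fun x => hψ1 M x⟩) (x := x)
    (fun n d θ => AGen (R := R) U S N c d θ) hG (fun n d θ h => h.1)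
    (fun n d θ h y hy ψ hψ => by
      obtain ⟨s, hs, h5⟩ := h.2 ψ hψ
      refine inK_imp hM (insert θ (s.image (ren Sum.inl))) ψ
        (agen_imp h5 _ (Finset.mem_insert_self _ _) fun φ hφ =>
          Finset.mem_insert_of_mem (Finset.mem_image_of_mem _ hφ)) _ ?_
      intro φ hφ
      rcases Finset.mem_insert.mp hφ with rfl | hφ
      · exact hy
      · obtain ⟨φ', hφ', rfl⟩ := Finset.mem_image.mp hφ
        rw [asat_ren]
        exact hx φ' (hs hφ')) d θ hθ y hy
  obtain ⟨f, h5, h6, h7⟩ := PRH_map (R := R) (fun α φ x => ASat φ M x)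
    (fun α φ x h => (asat_hom φ x).1 h) z W h1 h4
  refine ⟨f, ?_, h6, fun j => by rw [← h2, h5, h3], h7⟩
  intro i u hu
  obtain ⟨φ, hφ, -⟩ := isAP_hold (R := R) (ι := κ ⊕ Fin (RSig.ar i))
    (Sum.inr ⟨i, true, fun j => Finsupp.single (Sum.inr j) 1⟩)
  have h8 : ∀ (K : Type) [AddCommGroup K] [AfS R K] (x : κ → K) (u : Fin (RSig.ar i) → K),
      ASat φ K (Sum.elim x u) ↔ u ∈ AfS.Q (R := R) (M := K) i := by
    intro K _ _ x u
    refine (hφ K _).symm.trans ?_
    show (fun j => Finsupp.linearCombination R (Sum.elim x u)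
      (Finsupp.single (Sum.inr j) 1)) ∈ AfS.Q (R := R) (M := K) i ↔ _
    have h2 : (fun j => Finsupp.linearCombination R (Sum.elim x u)
        (Finsupp.single (Sum.inr j) (1 : R))) = u := by
      funext j
      rw [Finsupp.linearCombination_single, one_smul]
      rfl
    rw [h2]
  have h9 := h7 _ u φ ((h8 N _ _).2 hu)
  rw [h8] at h9
  exact h9

/-- homogeneous maps into members of the homogeneous class, without extra tuple; the named cosets are
mapped into the subgroups -/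
theorem thm_PRH0 {U : Ad R} {S : Set (PP R κ)} [Finite κ] {N : Type} [AddCommGroup N] [AfS R N]
    [Countable N] {c : κ → N} (hc : app (R := R) N c ⊆ S)
    (hG : ∀ (n : ℕ) (d : Fin n → N), ∃ θ, HGen (R := R) U S N c d θ)
    {M : Type} [AddCommGroup M] [MoS R M] (hM : (Own R U).In M) {x : κ → M} (hx : Re S M x) :
    ∃ f : Hm R N M, (∀ i, f (c i) = x i) ∧
      (∀ (i : RSig.Ix R) (u : Fin (RSig.ar i) → N), u ∈ AfS.Q (R := R) (M := N) i →
        (fun j => f (u j)) ∈ MoS.P (R := R) (M := M) i) ∧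
      ∀ (m : ℕ) (e : Fin m → N) (ψ : PP R (κ ⊕ Fin m)), ASat ψ N (Sum.elim c e) →
        Sat ψ M (Sum.elim x (f ∘ e)) := by
  obtain ⟨θ, hθ⟩ := hG 0 Fin.elim0
  have h0 : ∀ (K : Type) (x : κ → K), x ∘ (Sum.elim id Fin.elim0 : κ ⊕ Fin 0 → κ) =
      Sum.elim x (Fin.elim0 : Fin 0 → K) := by
    intro K x
    funext i
    rcases i with i | i
    · rfl
    · exact i.elim0
  have h1 : Sat θ M (Sum.elim x (Fin.elim0 : Fin 0 → M)) := by
    have h2 : ren (Sum.elim id Fin.elim0 : κ ⊕ Fin 0 → κ) θ ∈ S := hc (by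
      show ASat _ N c
      rw [asat_ren, h0]
      exact hθ.1)
    have h3 := hx _ h2
    rw [sat_ren, h0] at h3
    exact h3
  obtain ⟨f, h2, -, h3⟩ := thm_PRH hG hM hx Fin.elim0 θ hθ Fin.elim0 h1
  refine ⟨f, h2, fun i u hu => ?_, h3⟩
  obtain ⟨φ, hφ, hφ'⟩ := isAP_hold (R := R) (ι := κ ⊕ Fin (RSig.ar i))
    (Sum.inr ⟨i, true, fun j => Finsupp.single (Sum.inr j) 1⟩)
  have h4 : ASat φ N (Sum.elim c u) := by
    rw [← hφ]
    show (fun j => Finsupp.linearCombination R (Sum.elim c u)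
      (Finsupp.single (Sum.inr j) 1)) ∈ AfS.Q (R := R) (M := N) i
    have h2 : (fun j => Finsupp.linearCombination R (Sum.elim c u)
        (Finsupp.single (Sum.inr j) (1 : R))) = u := by
      funext j
      rw [Finsupp.linearCombination_single, one_smul]
      rfl
    rw [h2]
    exact hu
  have h5 := h3 _ u φ h4
  rw [← hφ'] at h5
  have h6 : (fun j => Finsupp.linearCombination R (Sum.elim x (f ∘ u))
      (Finsupp.single (Sum.inr j) (1 : R))) ∈ MoS.P (R := R) (M := M) i := h5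
  have h7 : (fun j => Finsupp.linearCombination R (Sum.elim x (f ∘ u))
      (Finsupp.single (Sum.inr j) (1 : R))) = fun j => f (u j) := by
    funext j
    rw [Finsupp.linearCombination_single, one_smul]
    rfl
  rwa [h7] at h6

end

end Pool.Agent.AVF
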