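import Pool.Agent.AVF.Defs
import Pool.Agent.AVF.StT
import Pool.Agent.AVC.ACol
import Pool.Agent.AVC.AffL
import Pool.Agent.AVC.St
import Pool.Agent.AVC.St2
import Pool.Agent.AVC.St5
import Pool.Agent.AVC.H31_St2

/-!
# AVF, block C: the descending chain condition, finite type, one generator (statements, helper58)

Affine form of `VMF/StC.lean`. `U : Ad R` is the countable saturated affine structure, `U.md` its
homogeneous reduct, `X := Own R U`. Honest modules, null maps, full types, `QB` are homogeneous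
(reading `Sat`); types of tuples of models are affine (`app`, `ASat`).
-/

set_option autoImplicit false
set_option linter.unusedSectionVars false
set_option linter.unusedVariables false

namespace Pool.Agent.AVF

open Set Pool.Agent.AVC Pool.Agent.AVC.Ax

/-- the facts about the saturated structure `U` which are used in this block (block T) -/
structure TB {R : Type} [RSig R] (U : Ad R) : Prop where
  /-- `U` is countable -/
  ctbl : Countable U
  /-- countable saturation for affine formulas and their negations over a finite tuple -/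
  sat : ∀ (κ ι : Type) [Finite κ] [Finite ι] (a : κ → U) (A B : Set (PP R (κ ⊕ ι))),
    (∀ s t : Finset (PP R (κ ⊕ ι)), ↑s ⊆ A → ↑t ⊆ B → ∃ x : ι → U,
      (∀ φ ∈ s, ASat φ U (Sum.elim a x)) ∧ ∀ ψ ∈ t, ¬ ASat ψ U (Sum.elim a x)) →
    ∃ x : ι → U, (∀ φ ∈ A, ASat φ U (Sum.elim a x)) ∧ ∀ ψ ∈ B, ¬ ASat ψ U (Sum.elim a x)
  /-- inclusions of homogeneous types are entailments -/
  ent : ∀ (ι : Type) [Finite ι] (S : Set (PP R ι)) (ψ : PP R ι),
    (∀ x : ι → U, Re S U x → Sat ψ U x) → (Own R U).Ent S ψ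
  /-- elementary submodules are pure, for affine formulas (so also for homogeneous ones, `asat_hom`) -/
  pur : ∀ M : Submodule R U, El U M → ∀ (ι : Type) [Finite ι] (φ : PP R ι) (x : ι → M),
    ASat φ M x ↔ ASat φ U (fun i => (x i : U))
  /-- members of the class `K` of models: countable, homogeneous and affine implications of `U` -/
  kct : ∀ M : Ad R, InK U M → Countable M
  mem : ∀ M : Ad R, InK U M → (Own R U).In M
  aow : ∀ M : Ad R, InK U M → (AOwn U).AIn M
  /-- elementary submodules are in `K` -/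
  elk : ∀ M : Submodule R U, El U M → InK U M
  /-- (TF3) elementary submodules which are affinely generated by finite tuples -/
  prb : ∀ (κ : Type) [Finite κ] (b : κ → U), ∃ (M : Submodule R U) (b' : κ → M), El U M ∧
    (∀ i, (b' i : U) = b i) ∧ ∀ (l : Type) [Finite l] (t : l → M), ∃ θ : PP R (κ ⊕ l),
      HGen (R := R) U (app (R := R) U b) M b' t θ
  /-- (TF4) generic elements of cosets of types (`afib`: direction of the affine type) -/
  gen4 : ∀ (κ ι : Type) [Finite κ] [Finite ι] (c : κ → U) (z : ι → U) (S : Set (PP R ι)),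
    ∃ z' : ι → U, Re S U (z' - z) ∧ FIn U S (afib (R := R) U c z')
  /-- (TF6) elementary submodules have points in each class of a full type modulo a subtype of finite
  index -/
  tf6 : ∀ (M : Submodule R U), El U M → ∀ (ι : Type) [Finite ι] (S S' : Set (PP R ι)), Full U S →
    FIn U S S' → (∀ x : ι → U, Re S' U x → Re S U x) → ∀ y : ι → U, Re S U y →
    ∃ v : ι → M, Re S M v ∧ Re S' U (fun i => (v i : U) - y i)
  /-- (TLI) models generated by a countable family: `e` is a countable family of elements of any affine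
  structure, all of whose finite parts have affine types which are realised in `U` -/
  tl : ∀ (ι : Type) [Countable ι] (L : Type) [AddCommGroup L] [AfS R L] (e : ι → L),
    (∀ A : Finset ι, ∃ x : A → U, app (R := R) U x = app (R := R) L (fun i : A => e i)) →
    ∃ (M : Ad R) (c : ι → M), InK U M ∧
      (∀ (κ : Type) [Finite κ] (f : κ → ι), app (R := R) M (c ∘ f) = app L (e ∘ f)) ∧
      ∀ (l : Type) [Finite l] (b : l → M) (A₀ : Finset ι), ∃ A : Finset ι, A₀ ⊆ A ∧
        ∃ θ : PP R (A ⊕ l),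
          HGen (R := R) U (app (R := R) M (fun i : A => c i)) M (fun i : A => c i) b θ

/-- the facts about full types which are used in this block (block Q) -/
structure QB {R : Type} [RSig R] (U : Md R) : Prop where
  /-- formulas are full -/
  fuf : ∀ (κ : Type) [Finite κ] (χ : PP R κ), Full (R := R) U {χ}
  /-- subtypes of finite index are full -/
  fui : ∀ (κ : Type) [Finite κ] (S S' : Set (PP R κ)), Full U S → FIn U S S' →
    (∀ x : κ → U, Re S' U x → Re S U x) → Full U S'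
  /-- products are full -/
  fup : ∀ (κ ι : Type) [Finite κ] [Finite ι] (S : Set (PP R κ)) (S' : Set (PP R ι)), Full U S →
    Full U S' → Full U (ren Sum.inl '' S ∪ ren Sum.inr '' S')
  /-- retracts (modulo null maps) are full -/
  rff : ∀ (κ ι : Type) [Finite κ] [Finite ι] (S : Set (PP R κ)) (S' : Set (PP R ι)) (N N' : Md R)
    (g : κ → N) (g' : ι → N'), Full U S → (Own R U).Honest S N g → (Own R U).Honest S' N' g' →
    (Own R U).Retr N' N → Full U S'
  /-- images are full -/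
  fut : ∀ (κ ι : Type) [Finite κ] [Finite ι] (S : Set (PP R κ)) (θ : PP R (κ ⊕ ι))
    (S' : Set (PP R ι)), Full U S → (∀ x : κ → U, Re S U x → ∃ y : ι → U, Sat θ U (Sum.elim x y)) →
    (∀ y : ι → U, Re S' U y ↔ ∃ x : κ → U, Re S U x ∧ Sat θ U (Sum.elim x y)) → Full U S'
  /-- full types of finite index in each other have isomorphic honest modules -/
  qis : ∀ (κ : Type) [Finite κ] (S S' : Set (PP R κ)) (N N' : Md R) (g : κ → N) (g' : κ → N'),
    Full U S → FIn U S S' → (∀ x : κ → U, Re S' U x → Re S U x) → (Own R U).Honest S N g →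
    (Own R U).Honest S' N' g' → ∀ ρ : Hm R N N', (∀ i, ρ (g i) = g' i) →
    ∃ j : Hm R N' N, (Own R U).Eqv (Hm.comp j ρ) Hm.id ∧ (Own R U).Eqv (Hm.comp ρ j) Hm.id

/-! ### Section 1: chains -/

/-- the generators of the stages `≤ k` -/
abbrev Jk (n : ℕ → ℕ) (k : ℕ) : Type := {p : Si n // p.1 ≤ k}

instance (n : ℕ → ℕ) (k : ℕ) : Finite (Jk n k) := by
  refine Finite.of_injective (β := (j : Fin (k + 1)) × Fin (n j))
    (fun p => ⟨⟨p.1.1, Nat.lt_succ_of_le p.2⟩, p.1.2⟩) ?_
  rintro ⟨⟨i, x⟩, hi⟩ ⟨⟨j, y⟩, hj⟩ h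
  simp only [Sigma.mk.injEq, Fin.mk.injEq] at h
  obtain ⟨rfl, h2⟩ := h
  rw [heq_eq_eq] at h2
  subst h2
  rfl

/-- the inclusion -/
def uJ (n : ℕ → ℕ) (k l : ℕ) (h : k ≤ l) : Jk n k → Jk n l := fun p => ⟨p.1, le_trans p.2 h⟩

/-- the inclusion of the new block -/
def nJ (n : ℕ → ℕ) (k : ℕ) : Fin (n k) → Jk n k := fun i => ⟨⟨k, i⟩, le_rfl⟩

/-- An honest module is honest for the type of each finite tuple which contains the generators.
`θ(g; ĝ, b)` from `Honest.gen` for the tuple `(ĝ, b)`; replace `g` by `ĝ ∘ f`. -/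
def St_HNX : Prop := ∀ (R : Type) [RSig R] (X : Ax R) (ι κ : Type) [Finite ι] [Finite κ]
  (S : Set (PP R ι)) (N : Md R) (g : ι → N) (g' : κ → N) (f : ι → κ), (∀ i, g' (f i) = g i) →
  X.Honest S N g → X.Honest (pp N g') N g'

/-- 1.1 normal form of a chain. `ĝ 0 := g 0`; `ĝ (k+1) ⟨⟨i, x⟩, h⟩ := if i ≤ k then a k (ĝ k ..)
else g (k+1) ..`. Honest: `St_HNX` with `f = nJ n k`. -/
def St_NFC : Prop := ∀ (R : Type) [RSig R] (X : Ax R) (n : ℕ → ℕ)
  (S : ∀ k, Set (PP R (Fin (n k)))) (N : ℕ → Md R) (g : ∀ k, Fin (n k) → N k)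
  (a : ∀ k, Hm R (N k) (N (k + 1))), (∀ k, X.Honest (S k) (N k) (g k)) →
  ∃ g' : ∀ k, Jk n k → N k, (∀ k i, g' k (nJ n k i) = g k i) ∧
    (∀ k p, a k (g' k p) = g' (k + 1) (uJ n k (k + 1) (Nat.le_succ k) p)) ∧
    ∀ k, X.Honest (pp (N k) (g' k)) (N k) (g' k)

/-- the limit type of a chain in the variables of stage `k` -/
def Gam {R : Type} [RSig R] (U : Type) [AddCommGroup U] [MoS R U] {J : ℕ → Type}
    (u : ∀ k l : ℕ, k ≤ l → J k → J l) (p : ∀ k, Set (PP R (J k))) (k : ℕ) : Set (PP R (J k)) :=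
  {ρ | ∃ (l : ℕ) (h : k ≤ l), ∀ x : J l → U, Re (p l) U x → Sat ρ U (x ∘ u k l h)}

/- 1.2 shrinking a chain to a connected one: `shrink` in SHR.lean (helper65). -/

/-! ### Section 2: coding models -/

/-- 2.1 (REAL, finite parts). A connected chain of honest modules `(Y k, g k)` for `p k`, an
elementary submodule `M`, maps `c k e : Y k → M`. Each finite part of the family of the elements of `M` and
of the generators of the stages in the coding structure `ASys.L` has an affine type which is realised in `U`.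

Proof (as `VMF/REAL.lean`). Let `k` be larger than all stages of the finite part; all its elements are
`inM w + inY σ k (g k i)`; so it is enough to realise the affine type of `(inM m, inY k (g k))` for a finite
tuple `m` of `M`. By the affine colimit lemma and `asat_prod`: `φ(inM m, inY k (g k))` holds in `ASys.L` iff
for some `j` `ASat φ M (m, w_j)` and `Sat φ (Y (k+j)) (0, g (k+j) ∘ u)`, where
`itr t k j (0, g k) = (w_j, g (k+j) ∘ u)`; the second condition says that `zer φ` (read with `Sat`) follows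
from `p (k+j)` at `x ∘ u` (`gen0`). True at `j` implies true at `j + 1`. `TB.sat` for the parameters `m`,
`A` = the true formulas, `B` = the false ones: given finite `s ⊆ A`, `t ⊆ B` take `j` such that all `φ ∈ s` are
true at `j`, and for the `ρ ∈ t` with `zer ρ ∈ Gam` also `zer ρ` follows from `p (k+j)`; then `ρ(m, w_j)` is
false in `M`, so in `U` (pure). For the other `ρ ∈ t` the group of `zer ρ` has infinite index in the group
of `Gam` (`Conn`). By Neumann's lemma some `y` in the group of `Gam` (at stage `k`) has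
`¬ ASat ρ (m, w_j + y)` for all these `ρ` (the set of these `y` in `Gam` is empty or a coset of
`Gam ∧ zer ρ`, `ASat.sub`). `x := w_j + y`; `ASat φ (m, w_j + y)` for `φ ∈ s` by `ASat.add`. -/
def St_REA : Prop := ∀ (R : Type) [RSig R] [Countable R] (U : Ad R), TB U →
  ∀ (n : ℕ → ℕ) (u : ∀ k l : ℕ, k ≤ l → Fin (n k) → Fin (n l))
  (p : ∀ k, Set (PP R (Fin (n k)))) (Y : ℕ → Md R) (g : ∀ k, Fin (n k) → Y k)
  (a : ∀ k, Hm R (Y k) (Y (k + 1))),
  (∀ k (h : k ≤ k) i, u k k h i = i) →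
  (∀ k l m (h : k ≤ l) (h' : l ≤ m) i, u l m h' (u k l h i) = u k m (h.trans h') i) →
  (∀ k, (Own R U).Honest (p k) (Y k) (g k)) →
  (∀ k i, a k (g k i) = g (k + 1) (u k (k + 1) (Nat.le_succ k) i)) → (∀ k, Conn U (Gam U u p k)) →
  ∀ (M : Submodule R U) (c : ∀ k, ℕ → (Hm R (Y k) M)) (c0 : ∀ k, c k 0 = 0), El U M →
  ∀ (Λ : (⟨⟨M⟩, Y, a, c, c0⟩ : ASys R).sys.Lim) (σ : ℕ → ℕ) (A : Finset (M ⊕ Si n)),
  ∃ x : A → U, app (R := R) U x = app (R := R) ((⟨⟨M⟩, Y, a, c, c0⟩ : ASys R).L Λ σ) (fun i : A =>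
    (Sum.elim (fun m => Λ.inM σ m) (fun q => Λ.inY σ q.1 (g q.1 q.2)) : M ⊕ Si n → Λ.L σ) i)

/-- 4.4 (DCC) with the countability hypothesis for one choice of the coding modules and of sets of
affine level-one facts; the target `Q` is an affine structure, generated by `q` in the weak sense `hgen`.
Proof: `VMF/DCF.lean`; the formula `θ` is affine, all other formulas are homogeneous. -/
def St_DCF : Prop := ∀ (R : Type) [RSig R] [Countable R] (X : Ax R)
  (n : ℕ → ℕ) (S : ∀ k, Set (PP R (Fin (n k)))) (N : ℕ → Md R) (g : ∀ k, Fin (n k) → N k)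
  (a : ∀ k, Hm R (N k) (N (k + 1))) (m : ℕ) (Q : Ad R) (q : Fin m → Q),
  (∀ k, X.Honest (S k) (N k) (g k)) → X.In Q → Countable Q →
  (∀ (k : ℕ) (t : Fin k → Q), ∃ θ : PP R (Fin m ⊕ Fin k), ASat θ Q (Sum.elim q t) ∧
    ∀ ψ : PP R (Fin k), Sat ψ Q t → X.Le (zer θ) ψ) →
  (∀ (c : ∀ k, ℕ → (Hm R (N k) Q)) (c0 : ∀ k, c k 0 = 0),
    ∃ (Λ : (⟨Q, N, a, c, c0⟩ : ASys R).sys.Lim) (F : (ℕ → ℕ) → Set (L1 R (Fin m ⊕ Fin (n 0)))),
      (range F).Countable ∧
      (∀ σ, F σ ⊆ atp1 (R := R) ((⟨Q, N, a, c, c0⟩ : ASys R).L Λ σ)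
        (Sum.elim (fun i => Λ.inM σ (q i)) (fun i => Λ.inY σ 0 (g 0 i)))) ∧
      ∀ (σ : ℕ → ℕ) (k : ℕ) (V : Set (PP R ((Fin m ⊕ Fin (n 0)) ⊕ Fin k))) (t : Fin k → Λ.L σ),
        (∀ i, (∃ u : Q, t i = Λ.inM σ u) ∨ ∃ (j : ℕ) (i' : Fin (n j)), t i = Λ.inY σ j (g j i')) →
        ARe V ((⟨Q, N, a, c, c0⟩ : ASys R).L Λ σ) (Sum.elim (Sum.elim (fun i => Λ.inM σ (q i))
          (fun i => Λ.inY σ 0 (g 0 i))) t) →
        (⟨k, V⟩ : L1 R (Fin m ⊕ Fin (n 0))) ∈ F σ) →
  ∃ j₀, ∀ j ≥ j₀, ∀ c : Hm R (N j) Q, ∃ c' : Hm R (N (j + 1)) Q,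
    X.Eqv (Hm.comp c (cmp a j)) (Hm.comp c' (cmp a (j + 1)))

/-- 2.1 and 3.2, the hypothesis of `St_DCF`. `Y k` honest for `p k` with generators indexed by `Fin (n k)`;
the chain is connected. `M` an elementary submodule, `q` a tuple of `M`.

Proof (as `VMF/DCH.lean`). `Λ` from `St_COL`. Fix `σ`. `ι := M ⊕ Si n` (countable), `e : ι → ASys.L` is `inM σ`
on `M` and `⟨k, i⟩ ↦ inY σ k (g k i)`. The affine type of each finite part of `e` is realised in `U`: `St_REA`.
`TB.tl` gives a model `N σ` and `c : ι → N σ`. `F σ := atp1 (N σ)` of the tuple `(c q, c (0, ·))`.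
(a) `FewT.few1`. (b) Let `ASat1 V (N σ) (..)` with witness `t`. There are a finite `A` which contains the
indices of `q` and of stage `0` and `θ` with `HGen U (app ..) (N σ) (c|A) t θ`. In `ASys.L` (it satisfies the
affine implications of `U`) the tuple `e|A` has the same affine type; so there is `t'` with `θ(e|A, t')`,
and `HGen` gives `ARe V (..)` (one implication between affine formulas: the conjunction of the finite set
`s` and `θ`). (c) the affine types of finite subfamilies of `e` and `c` are equal. -/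
def St_DCH : Prop := ∀ (R : Type) [RSig R] [Countable R] (U : Ad R), TB U → FewT R U →
  ∀ (n : ℕ → ℕ) (u : ∀ k l : ℕ, k ≤ l → Fin (n k) → Fin (n l))
  (p : ∀ k, Set (PP R (Fin (n k)))) (Y : ℕ → Md R) (g : ∀ k, Fin (n k) → Y k)
  (a : ∀ k, Hm R (Y k) (Y (k + 1))),
  (∀ k (h : k ≤ k) i, u k k h i = i) →
  (∀ k l m (h : k ≤ l) (h' : l ≤ m) i, u l m h' (u k l h i) = u k m (h.trans h') i) →
  (∀ k, (Own R U).Honest (p k) (Y k) (g k)) →
  (∀ k i, a k (g k i) = g (k + 1) (u k (k + 1) (Nat.le_succ k) i)) → (∀ k, Conn U (Gam U u p k)) →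
  ∀ (m : ℕ) (M : Submodule R U) (q : Fin m → M), El U M →
  ∀ (c : ∀ k, ℕ → (Hm R (Y k) M)) (c0 : ∀ k, c k 0 = 0),
    ∃ (Λ : (⟨⟨M⟩, Y, a, c, c0⟩ : ASys R).sys.Lim) (F : (ℕ → ℕ) → Set (L1 R (Fin m ⊕ Fin (n 0)))),
      (range F).Countable ∧
      (∀ σ, F σ ⊆ atp1 (R := R) ((⟨⟨M⟩, Y, a, c, c0⟩ : ASys R).L Λ σ)
        (Sum.elim (fun i => Λ.inM σ (q i)) (fun i => Λ.inY σ 0 (g 0 i)))) ∧
      ∀ (σ : ℕ → ℕ) (k : ℕ) (V : Set (PP R ((Fin m ⊕ Fin (n 0)) ⊕ Fin k))) (t : Fin k → Λ.L σ),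
        (∀ i, (∃ w : M, t i = Λ.inM σ w) ∨ ∃ (j : ℕ) (i' : Fin (n j)), t i = Λ.inY σ j (g j i')) →
        ARe V ((⟨⟨M⟩, Y, a, c, c0⟩ : ASys R).L Λ σ) (Sum.elim (Sum.elim (fun i => Λ.inM σ (q i))
          (fun i => Λ.inY σ 0 (g 0 i))) t) →
        (⟨k, V⟩ : L1 R (Fin m ⊕ Fin (n 0))) ∈ F σ

/-! ### Section 3: the descending chain condition -/

/-- (DCC) for full types.

Proof. Normal form `g'` of the chain (`St_NFC`), `p k := pp (N k) (g' k)` (full: `QB.rff`, `N k` is a retract of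
itself);
`shrink` (SHR.lean) gives `p' k`; honest modules `(Y k, y k)` for `p' k` (`MVC.St_HEX`), maps `r k : N k → Y k`,
`g' k ↦ y k` (`St_EX0`), with inverses modulo null maps (`QB.qis`), `b k : Y k → Y (k+1)`,
`y k ↦ y (k+1) ∘ u` (`St_EX0`, the entailments `Ent (p' (k+1)) (ren u φ)`, `φ ∈ p' k`, from `TB.ent`).
The squares commute modulo null maps (`St_NUZ`, generators). `Q`: `z` in `U` with `Re T U z` and
`FIn U T (fib U (empty) z)` (`TB.gen4`, `z = 0`), so the homogeneous reading of `app U z` has finite index in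
`T`; `M` from `TB.prb`. `α : Q → M`, `q ↦ z` (`St_EX0`: `z` satisfies the homogeneous type `T`);
`γ : M → Q''`, `z ↦ q''`, where `Q''` is honest for `app U z` (extension lemma: for each tuple `t` of `M` take
`θ` with `HGen`, `θ(q'', t')`; `AEX`); `QB.qis` for `Q → Q''`, `q ↦ q''`, gives `β : Q'' → Q`: `Q` is a retract
of `M` modulo null maps by `α` and `β γ`. Reindex the `J k` by `Fin (card)`. `St_DCH` and `St_DCF` give `j₀` for the
chain `Y` and `M`; transfer: for `c : N j → Q` apply it to `α ∘ c ∘ (r j)⁻¹`. -/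
def St_DCT : Prop := ∀ (R : Type) [RSig R] [Countable R] (U : Ad R), TB U → QB U.md → FewT R U →
  ∀ (n : ℕ → ℕ) (S : ∀ k, Set (PP R (Fin (n k)))) (N : ℕ → Md R) (g : ∀ k, Fin (n k) → N k)
  (a : ∀ k, Hm R (N k) (N (k + 1))) (m : ℕ) (T : Set (PP R (Fin m))) (Q : Md R) (q : Fin m → Q),
  (∀ k, Full U (S k)) → (∀ k, (Own R U).Honest (S k) (N k) (g k)) → Full U T →
  (Own R U).Honest T Q q →
  ∃ j₀, ∀ j ≥ j₀, ∀ c : Hm R (N j) Q, ∃ c' : Hm R (N (j + 1)) Q,
    (Own R U).Eqv (Hm.comp c (cmp a j)) (Hm.comp c' (cmp a (j + 1)))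

/-- the endomorphism ring modulo null maps of an honest module of a full type (text of `MVC.thm_DCQ`) -/
def St_DQT : Prop := ∀ (R : Type) [RSig R] [Countable R] (U : Ad R), TB U → QB U.md → FewT R U →
  ∀ C : Hon (Own R U), Full U C.S → DCCR (EndQ (Own R U) C.N)

/-! ### Section 4: finite type -/

/-- A sequence of generic realisations: recursion with `TB.gen4` (`z = 0`), parameters = all earlier
ones, indexed by `{p : Si n // p.1 < k}`. -/
def St_GSQ : Prop := ∀ (R : Type) [RSig R] [Countable R] (U : Ad R), TB U →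
  ∀ (n : ℕ → ℕ) (S : ∀ k, Set (PP R (Fin (n k)))), ∃ y : Si n → U,
    (∀ k, Re (S k) U (fun i => y ⟨k, i⟩)) ∧
    ∀ k, FIn U (S k) (afib (R := R) U (fun p : {p : Si n // p.1 < k} => y p.1)
      (fun i => y ⟨k, i⟩))

instance finLt (n : ℕ → ℕ) (k : ℕ) : Finite {p : Si n // p.1 < k} :=
  Finite.of_injective (β := Jk n k) (fun p => ⟨p.1, le_of_lt p.2⟩)
    (fun a b h => Subtype.ext (congrArg (fun x : Jk n k => x.1) h))

/-- the index type of the part `Z` of a sequence -/
abbrev SZ (n : ℕ → ℕ) (Z : Set ℕ) : Type := {p : Si n // p.1 ∈ Z}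

instance finMem (n : ℕ → ℕ) (F : Finset ℕ) : Finite (SZ n (F : Set ℕ)) :=
  Finite.of_injective (β := Jk n (F.sup id)) (fun p => ⟨p.1, Finset.le_sup (f := id) p.2⟩)
    (fun a b h => Subtype.ext (congrArg (fun x : Jk n (F.sup id) => x.1) h))

/-- the product of the types `S k`, `k ∈ F` -/
def prodF {R : Type} [RSig R] (n : ℕ → ℕ) (S : ∀ k, Set (PP R (Fin (n k)))) (F : Set ℕ) :
    Set (PP R (SZ n F)) :=
  {φ | ∃ (k : ℕ) (h : k ∈ F), ∃ ψ ∈ S k, φ = ren (fun i => ⟨⟨k, i⟩, h⟩) ψ}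

theorem re_prodF {R : Type} [RSig R] (n : ℕ → ℕ) (S : ∀ k, Set (PP R (Fin (n k)))) (F : Set ℕ)
    {M : Type} [AddCommGroup M] [MoS R M] (x : SZ n F → M) :
    Re (prodF n S F) M x ↔ ∀ (k : ℕ) (h : k ∈ F), Re (S k) M (fun i => x ⟨⟨k, i⟩, h⟩) := by
  constructor
  · intro hx k h ψ hψ
    have h1 := hx (ren (fun i => ⟨⟨k, i⟩, h⟩) ψ) ⟨k, h, ψ, hψ, rfl⟩
    rw [sat_ren] at h1
    exact h1
  · rintro hx φ ⟨k, h, ψ, hψ, rfl⟩
    rw [sat_ren]
    exact hx k h ψ hψ

/-- products of full types are full: induction on `F`, `QB.fup`, and `QB.fut` for the reindexing (the graph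
of a bijection of the variables is a formula); for `F = ∅` there are no variables, `QB.fuf`. -/
def St_PFF : Prop := ∀ (R : Type) [RSig R] [Countable R] (U : Ad R), TB U → QB U.md →
  ∀ (n : ℕ → ℕ) (S : ∀ k, Set (PP R (Fin (n k)))) (F : Finset ℕ), (∀ k ∈ F, Full U (S k)) →
  Full U (prodF n S (F : Set ℕ))

/-- The (homogeneous reading of the affine) type of a finite part of a generic sequence has finite index
in the product. Induction on `F` (largest element `k`, `F = F' ∪ {k}`): for a subgroup `G` of `A × B` the index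
is at most (index of the projection to `A`) × (index of `{b : (0, b) ∈ G}` in `B`). The projection to `F'` is the
group of `app U (y|F')` (`TB.sat`: if `x` is in this group then `y|F' + x` satisfies `app U (y|F')`, extend
it; differences); `{v : (0, v)}` contains the restriction of `fib` of `St_GSQ`. -/
def St_GFI : Prop := ∀ (R : Type) [RSig R] [Countable R] (U : Ad R), TB U →
  ∀ (n : ℕ → ℕ) (S : ∀ k, Set (PP R (Fin (n k)))) (y : Si n → U),
  (∀ k, Re (S k) U (fun i => y ⟨k, i⟩)) →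
  (∀ k, FIn U (S k) (afib (R := R) U (fun p : {p : Si n // p.1 < k} => y p.1)
      (fun i => y ⟨k, i⟩))) →
  ∀ F : Finset ℕ, FIn U (prodF n S (F : Set ℕ)) (app (R := R) U (fun p : SZ n (F : Set ℕ) => y p.1))

/-- The honest module for (the homogeneous reading of) `app U (y|F)` is, modulo null maps, the product of
the `N i`, `i ∈ F`. The product `∀ i : F, N i` is honest for `prodF` (`MVC.St_HPR`/`St_HDS` with reindexing);
`prodF` is full (`St_PFF`); `QB.qis`. (`Re (app U (y|F)) U x` implies `Re (prodF ..) U x`: the members of `S k`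
are, as homogeneous formulas `hom φ`, in `app U (y|F)`.) -/
def St_GIS : Prop := ∀ (R : Type) [RSig R] [Countable R] (U : Ad R), TB U → QB U.md →
  ∀ (n : ℕ → ℕ) (S : ∀ k, Set (PP R (Fin (n k)))) (N : ℕ → Md R) (g : ∀ k, Fin (n k) → N k)
  (y : Si n → U), (∀ k, Full U (S k)) → (∀ k, (Own R U).Honest (S k) (N k) (g k)) →
  ∀ F : Finset ℕ, FIn U (prodF n S (F : Set ℕ))
    (app (R := R) U (fun p : SZ n (F : Set ℕ) => y p.1)) →
  (∀ k, Re (S k) U (fun i => y ⟨k, i⟩)) →
  ∀ (P : Md R) (b : SZ n (F : Set ℕ) → P),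
    (Own R U).Honest (app (R := R) U (fun p : SZ n (F : Set ℕ) => y p.1)) P b →
    (Own R U).Retr P (∀ i : F, N i) ∧ (Own R U).Retr (∀ i : F, N i) P

/-- `(M, c)` is a model generated by the part `Z` of the sequence `y` of `U` -/
structure GZ {R : Type} [RSig R] (U : Ad R) (n : ℕ → ℕ) (y : Si n → U) (Z : Set ℕ) (M : Ad R)
    (c : SZ n Z → M) : Prop where
  ink : InK U M
  app_eq : ∀ (κ : Type) [Finite κ] (f : κ → SZ n Z),
    app (R := R) M (c ∘ f) = app U (fun i => y (f i).1)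
  gen : ∀ (l : Type) [Finite l] (b : l → M) (A₀ : Finset (SZ n Z)), ∃ A : Finset (SZ n Z),
    A₀ ⊆ A ∧ ∃ θ : PP R (A ⊕ l),
      HGen (R := R) U (app (R := R) U (fun i : A => y i.1.1)) M (fun i : A => c i) b θ

/-- The model generated by the part `Z` of a sequence in `U`: `TB.tl` for `ι = SZ n Z`, `L = U`,
`e p = y p.1`. -/
def St_MDZ : Prop := ∀ (R : Type) [RSig R] [Countable R] (U : Ad R), TB U →
  ∀ (n : ℕ → ℕ) (y : Si n → U) (Z : Set ℕ), ∃ (M : Ad R) (c : SZ n Z → M), GZ U n y Z M c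

/-- 4.1, the affine level-one type of `y k` in a model generated by a part `Z` containing `k`: it is the
one in the model `P` generated by `y k`. Proof. `⊇`: `ASat1 V P b` with witness `t`, `θ` with `HGen`;
`∃ t' θ(c_k, t')` in `M` (the affine types of `c_k` and `b` are equal), and `V(c_k, t')` by `HGen`, transferred to
`M` (`TB.mem`). `⊆`: `ASat1 V M c_k` with witness `t`; take a finite `A ⊆ SZ n Z` which contains the block `k`
and `θ` with `HGen U (app ..) M (c|A) t θ` (`GZ.gen`). `F :=` the set of the first coordinates of `A`. By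
`TB.tf6` for the full type `prodF (F \ {k})` (`St_PFF`) and the subtype `{v : (0_k, v) ∈ app U (y|F)}`
(homogeneous reading; finite index) there is `v` in `P` with `(y_k, v) - y_F` in it: so `(y_k, v)` satisfies
`app U (y|F)` (`ASat.add`) in `U`, so in `P` (pure), its part `A` satisfies `app U (y|A)`, and there is `t'` in
`P` with `θ((y_k, v)|A; t')`; `HGen` for the formulas of `V`, in `U` and then in `P` (pure). -/
def St_FT1 : Prop := ∀ (R : Type) [RSig R] [Countable R] (U : Ad R), TB U → QB U.md →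
  ∀ (n : ℕ → ℕ) (S : ∀ k, Set (PP R (Fin (n k)))) (y : Si n → U), (∀ k, Full U (S k)) →
  (∀ k, Re (S k) U (fun i => y ⟨k, i⟩)) →
  (∀ F : Finset ℕ, FIn U (prodF n S (F : Set ℕ))
    (app (R := R) U (fun p : SZ n (F : Set ℕ) => y p.1))) →
  ∀ (Z : Set ℕ) (M : Ad R) (c : SZ n Z → M), GZ U n y Z M c →
  ∀ (k : ℕ) (hk : k ∈ Z) (P : Submodule R U) (b : Fin (n k) → P), El U P →
    (∀ i, (b i : U) = y ⟨k, i⟩) →
    (∀ (l : Type) [Finite l] (t : l → P), ∃ θ : PP R (Fin (n k) ⊕ l),
      HGen (R := R) U (app (R := R) U (fun i : Fin (n k) => y ⟨k, i⟩)) P b t θ) →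
    atp1 (R := R) M (fun i => c ⟨⟨k, i⟩, hk⟩) = atp1 P b

/-- 4.1, the other half: if some tuple `x` of `M` has the affine level-one type of `y k` in the model `P`
generated by `y k`, then the honest module `Nk` for the homogeneous reading of `app U (y k)` is a retract of
the honest module `NF` for the homogeneous reading of `app U (y|F)`, for some finite `F ⊆ Z`.
Proof (helper8). `A`, `θ` with `HGen U (app U (y|A)) M (c|A) x θ` (`GZ.gen`, `A₀ = ∅`); `F :=` the set of the
first coordinates of `A`. The affine level-one formula `∃ v, (app U (y|F))(v) ∧ θ(v|A, ·)` holds at `x`, so at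
`b` in `P`: `v` in `P`; `θ₁` with `HGen U (app U (y k)) P b v θ₁`. From now on homogeneous readings (`HGen`
implies: `s` and `θ` entail `ψ` in `Own R U`, differences of points of `U`). `ξ` in `NF` with `θ(gF|A, ξ)`;
`f : Nk → NF`, `gk ↦ ξ` (`St_EX0`; `ξ` satisfies `app M x = app U (y k)`). `ν` in `Nk` with `θ₁(gk, ν)`;
`h : NF → Nk`, `gF ↦ ν` (the formulas of `app U (y|F)` hold at `v`, so they are in `app P (b, v)`). In `Nk`:
`θ(ν|A, h ξ)` and `θ(ν|A, gk)` (because `θ(v|A, b)` holds in `P`), so `θ(0, h ξ - gk)`; and `θ(0, ·)` implies all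
of `app U (y k)`: `St_NUP`. -/
def St_FT2 : Prop := ∀ (R : Type) [RSig R] [Countable R] (U : Ad R), TB U →
  ∀ (n : ℕ → ℕ) (y : Si n → U) (Z : Set ℕ) (M : Ad R) (c : SZ n Z → M), GZ U n y Z M c →
  ∀ (k : ℕ) (P : Submodule R U) (b : Fin (n k) → P), El U P → (∀ i, (b i : U) = y ⟨k, i⟩) →
    (∀ (l : Type) [Finite l] (t : l → P), ∃ θ : PP R (Fin (n k) ⊕ l),
      HGen (R := R) U (app (R := R) U (fun i : Fin (n k) => y ⟨k, i⟩)) P b t θ) →
    ∀ x : Fin (n k) → M, atp1 (R := R) M x = atp1 P b →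
    ∃ F : Finset ℕ, (F : Set ℕ) ⊆ Z ∧
      ∀ (Nk : Md R) (gk : Fin (n k) → Nk) (NF : Md R) (gF : SZ n (F : Set ℕ) → NF),
      (Own R U).Honest (app (R := R) U (fun i : Fin (n k) => y ⟨k, i⟩)) Nk gk →
      (Own R U).Honest (app (R := R) U (fun p : SZ n (F : Set ℕ) => y p.1)) NF gF →
      (Own R U).Retr Nk NF

/-- 4.1 (FT) for full types: in each sequence of full honest modules one of them is a retract, modulo
null maps, of a finite product of others.

Proof. Suppose not. `y` from `St_GSQ`, finite index from `St_GFI`. For `Z ⊆ ℕ` let `(M Z, c)` be the model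
from `St_MDZ`. `k ∈ Z` iff `(n k, atp1 (P k) (b k)) ∈ areal1 (M Z)`, `(P k, b k)` the elementary submodule
generated by `y k` (`TB.prb`): `St_FT1`; and `St_FT2`: `Nk` is a retract of `NF`, `F ⊆ Z` finite (honest modules
from `MVC.St_HEX`), `NF` a retract of `∀ i : F, N i` (`St_GIS`), and `N k` a retract of `Nk` (`QB.qis` with
`FIn U (S k) (app U (y k))`, a consequence of the finite index of the fibre type in `St_GSQ`). So
`Z ↦ areal1 (M Z)` is injective, against `FewT.few2`. -/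
def St_FNT : Prop := ∀ (R : Type) [RSig R] [Countable R] (U : Ad R), TB U → QB U.md → FewT R U →
  ∀ Z : ℕ → Hon (Own R U), (∀ k, Full U (Z k).S) →
  ∃ (k : ℕ) (F : Finset ℕ), k ∉ F ∧ (Own R U).Retr (Z k).N (∀ i : F, (Z i).N)

/-- 5.3 (c) of the MVC paper for a class of honest modules (text of `MVC.thm_GEN`; `Pr` is closed under
finite products; retracts of members are members). -/
def St_GNP : Prop := ∀ (R : Type) [RSig R] [Countable R] (X : Ax R) (Pr : Hon X → Prop),
  (∀ (r : ℕ) (A : Fin r → Hon X), (∀ i, Pr (A i)) →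
    ∃ C : Hon X, Pr C ∧ Nonempty (Ie R C.N (∀ i, (A i).N))) →
  (∀ Z : ℕ → Hon X, (∀ k, Pr (Z k)) →
    ∃ (k : ℕ) (F : Finset ℕ), k ∉ F ∧ X.Retr (Z k).N (∀ i : F, (Z i).N)) →
  (∀ C : Hon X, Pr C → ∃ (m : ℕ) (A : Fin m → Hon X) (ρ : ∀ i, Hm R C.N ((A i).N))
    (ι : ∀ i, Hm R ((A i).N) C.N), (∀ i, Pr (A i)) ∧ (∀ i, Loc (A i)) ∧
    (∀ i, X.Eqv (Hm.comp (ρ i) (ι i)) Hm.id) ∧ X.Eqv (∑ i, Hm.comp (ι i) (ρ i)) Hm.id) →
  ∃ Y : Hon X, Pr Y ∧ ∀ C : Hon X, Pr C → ∃ r : ℕ, X.Retr C.N (Fin r → Y.N)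

/-- Finite products of full honest modules have full honest presentations. Induction on `r` as in
`MVC.thm_HPI`: the product of two (`MVC.St_HPR`, type full by `QB.fup`), reindexed by `Fin` (`MVC.St_REI`), full
by `QB.rff` (it is a retract of itself); `r = 0`: the trivial module, all formulas in no variables
(`full_formula`-like, `QB.fuf` and `QB.fui`). -/
def St_HPF : Prop := ∀ (R : Type) [RSig R] [Countable R] (U : Ad R), TB U → QB U.md →
  ∀ (r : ℕ) (A : Fin r → Hon (Own R U)), (∀ i, Full U (A i).S) →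
  ∃ C : Hon (Own R U), Full U C.S ∧ Nonempty (Ie R C.N (∀ i, (A i).N))

/-- The conclusion of the block: the chain condition and one full generator `Y`.
(`St_DQT`; `St_GNP` with `Pr C := Full U C.S`: products `St_HPF`; finite type `St_FNT`; decomposition
`MVC.thm_DEC` with `QB.rff`.) -/
def St_GNT : Prop := ∀ (R : Type) [RSig R] [Countable R] (U : Ad R), TB U → QB U.md → FewT R U →
  (∀ C : Hon (Own R U), Full U C.S → DCCR (EndQ (Own R U) C.N)) ∧
  ∃ Y : Hon (Own R U), Full U Y.S ∧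
    ∀ C : Hon (Own R U), Full U C.S → ∃ r : ℕ, (Own R U).Retr C.N (Fin r → Y.N)

end Pool.Agent.AVF
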