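import Pool.Agent.AVF.StC
import Pool.Agent.AVF.BRI
import Pool.Agent.AVF.WG4
import Pool.Agent.AVF.AllQ

/-!
# AVF, block C: the structure `TB U` for the saturated affine structure (helper58)
-/

set_option autoImplicit false
set_option linter.unusedSectionVars false
set_option linter.unusedVariables false

namespace Pool.Agent.AVF

open Set Pool.Agent.AVC Pool.Agent.AVC.Ax

/-- `TB` for the saturated affine structure -/
theorem thm_TBU (hPRM : St_PRM) (hTLI : St_TLI)
    {R : Type} [RSig R] [Countable R] {U : Ad R} (hU : MonA R U) : TB U where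
  ctbl := hU.ctbl
  sat := fun κ ι _ _ a A B h => hU.sat κ ι a A B h
  ent := fun ι _ S ψ h => all_ENU R U.md hU.md ι S ψ h
  pur := fun M hM ι _ φ x => el_asat hM φ x
  kct := fun M hM => inK_ctbl hU hM
  mem := fun M hM => in_own_of_inK hM
  aow := fun M hM => inK_aown hM
  elk := fun M hM => el_inK hM
  prb := fun κ _ b => hPRM R U hU κ b
  gen4 := fun κ ι _ _ c z S => thm_WG4A hU c S z
  tf6 := by
    intro M hM ι _ S S' hS hf hle y hy
    obtain ⟨v, h4, h5, h6⟩ := all_TF6 R U hU M hM ι S S' y hS hf hy
    exact ⟨fun i => ⟨v i, h4 i⟩, (el_re hM S _).2 h5, h6⟩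
  tl := by
    intro ι _ L _ _ e hA
    have hctbl : Countable U := hU.ctbl
    obtain ⟨N, c, hN, hP, hG⟩ := hTLI R U hU ι (fun A => app (R := R) L (fun i : A => e i)) hA
      (fun A B h φ => by
        show ASat φ L (fun i : A => e i) ↔ ASat (ren _ φ) L (fun i : B => e i)
        rw [asat_ren]
        exact Iff.rfl)
    refine ⟨⟨N⟩, c, el_inK hN, ?_, ?_⟩
    · intro κ _ f
      classical
      cases nonempty_fintype κ
      let A : Finset ι := Finset.univ.image f
      let f' : κ → A := fun k => ⟨f k, Finset.mem_image_of_mem f (Finset.mem_univ k)⟩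
      have h1 := hP A
      ext φ
      have h2 : ASat (ren f' φ) N (fun i : A => c i) ↔ ASat (ren f' φ) L (fun i : A => e i) := by
        constructor
        · intro h
          have h3 : ren f' φ ∈ app (R := R) N (fun i : A => c i) := h
          rw [h1] at h3
          exact h3
        · intro h
          have h3 : ren f' φ ∈ app (R := R) L (fun i : A => e i) := h
          rw [← h1] at h3
          exact h3
      rw [asat_ren, asat_ren] at h2
      exact h2
    · intro l _ b A₀
      obtain ⟨A, hA₀, θ, hθ⟩ := hG l b A₀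
      refine ⟨A, hA₀, θ, ?_⟩
      have h1 := hP A
      rw [h1]
      exact hθ

end Pool.Agent.AVF
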