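import Pool.Agent.AVF.AGF
import Pool.Agent.AVF.AMP
import Pool.Agent.AVF.StT
import Pool.Agent.AVF.BRI
import Pool.Agent.AVC.Grp

/-!
# AVF 6.4: every tuple of a model is exact (helper8)
-/

set_option autoImplicit false
set_option linter.unusedSectionVars false
set_option linter.unusedVariables false

namespace Pool.Agent.AVF

open Set Pool.Agent.AVC Pool.Agent.AVC.Ax

private theorem UMT_sum {R : Type} [RSig R] (X : Ax R) {N N' : Md R} {r : ℕ}
    (v : Fin r → (Hm R N N')) (M : Md R) (e : X.ex N' M) (s : Finset (Fin r)) :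
    X.exMap (∑ l ∈ s, v l) M e = ∑ l ∈ s, X.exMap (v l) M e := by
  classical
  induction s using Finset.induction_on with
  | empty => rw [Finset.sum_empty, Finset.sum_empty]; exact exMap_zero X M e
  | insert a s ha ih => rw [Finset.sum_insert ha, Finset.sum_insert ha, exMap_add, ih]

/-- an element which vanishes along all components of a retraction of `Y ^ r` onto `N` is zero -/
private theorem UMT_comp {R : Type} [RSig R] (X : Ax R) {N Y : Md R} {r : ℕ}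
    (α : Hm R N (Fin r → Y)) (β : Hm R (Fin r → Y) N) (h : X.Eqv (Hm.comp β α) Hm.id)
    (M : Md R) (e : X.ex N M)
    (h0 : ∀ l : Fin r, X.exMap (N := Y)
      (Hm.comp β (Hm.psingle (R := R) (fun _ : Fin r => (Y : Type)) l)) M e = 0) : e = 0 := by
  have hsum : (Hm.comp β α : Hm R N N) =
      ∑ l : Fin r, Hm.comp (Hm.comp β (Hm.psingle (R := R) (fun _ : Fin r => (Y : Type)) l))
        (Hm.comp (Hm.proj l) α) := by
    refine Hm.ext fun x => ?_
    rw [Hm.sum_apply]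
    show β (α x) = ∑ l : Fin r, β (Pi.single l (α x l))
    rw [← map_sum, Finset.univ_sum_single]
  have h4 := exMap_eqv X h M
  have h5 : X.exMap (Hm.id : Hm R N N) M e = e := exMap_id X N M e
  rw [← h5, ← h4, hsum, UMT_sum]
  refine Finset.sum_eq_zero fun l _ => ?_
  rw [← exMap_comp X (Hm.comp (Hm.proj l) α)
    (Hm.comp β (Hm.psingle (R := R) (fun _ : Fin r => (Y : Type)) l)) M e, h0, map_zero]

theorem thm_UMT (h1 : St_TTS) (h2 : St_RPF) (h3 : St_DLX) (h4 : St_CSF) (h5 : St_NTH)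
    (h6 : St_FEX) (h7 : AVC.St_HEX) (h8 : St_PRM) : St_UMT := by
  classical
  intro R _ _ U hU hA hAge hYe M hM n a₀
  obtain ⟨Y, hY⟩ := hYe
  obtain ⟨e, he⟩ := inK_emb hM
  let a : Fin n → U := fun i => e (a₀ i)
  let p : AM U a := ⟨⟨M, e⟩, he, fun i => ⟨a₀ i, rfl⟩⟩
  have hfg : (TR U a Y p).FG := h5 R U hU hA hAge Y hY n a (TR U a Y p) (fun d hd => hd.1)
  obtain ⟨⟨l, hl, Z, y, hZ, hZY⟩, hD, hret⟩ := hY
  obtain ⟨s, hs⟩ := hfg
  have hsT : ∀ d : s, d.1 ∈ TR U a Y p := fun d => by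
    rw [← hs]
    exact Submodule.subset_span d.2
  choose κ hκ V ψ b N g i j hF hH hji hij hV using
    fun d : s => AGF_rep h1 h2 h3 h4 hU a Z Y y hZ hZY p d.1 (hsT d)
  obtain ⟨k, ⟨ε⟩⟩ := Finite.exists_equiv_fin ((d : s) × κ d)
  let t : Fin k → M := fun q => b (ε.symm q).1 (ε.symm q).2
  refine ⟨⟨k, app M (Sum.elim a₀ t)⟩, ⟨t, fun φ hφ => hφ⟩, ?_⟩
  rintro ⟨m, W⟩ ⟨t', ht'⟩ M' hM' x ⟨u, hu⟩
  -- the honest model over `(a, t)`
  obtain ⟨N₁, c, hN₁, hc, hHc⟩ := h8 R U hU (Fin n ⊕ Fin k)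
    (Sum.elim a (fun q => e (t q)))
  have hc1 : ∀ q, (c (Sum.inl q) : U) = a q := fun q => hc (Sum.inl q)
  have hc2 : ∀ q, (c (Sum.inr q) : U) = e (t q) := fun q => hc (Sum.inr q)
  let p₁ : AM U a := ⟨⟨⟨N₁⟩, Hm.subtype N₁⟩, emb_subtype hN₁,
    fun q => ⟨c (Sum.inl q), hc1 q⟩⟩
  -- all values which are realised in `p` vanish at `p₁`
  have hvan : ∀ d ∈ TR U a Y p, d p₁ = 0 := by
    intro d hd
    rw [← hs] at hd
    have h9 : Submodule.span ((Own R U).Q Y)ᵐᵒᵖ (s : Set (EF U a Y)) ≤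
        LinearMap.ker (LinearMap.proj (R := ((Own R U).Q Y)ᵐᵒᵖ)
          (φ := fun p : AM U a => (Own R U).ex Y p.1.1.md) p₁) := by
      rw [Submodule.span_le]
      intro d hd
      show d p₁ = 0
      refine AGF_van h3 hU (hF ⟨d, hd⟩) (hH ⟨d, hd⟩) (hV ⟨d, hd⟩) p₁
        (fun q => c (Sum.inr (ε ⟨⟨d, hd⟩, q⟩))) ?_
      intro q
      show (c (Sum.inr (ε ⟨⟨d, hd⟩, q⟩)) : U) = e (b ⟨d, hd⟩ q)
      rw [hc2]
      show e (b (ε.symm (ε ⟨⟨d, hd⟩, q⟩)).1 (ε.symm (ε ⟨⟨d, hd⟩, q⟩)).2) = _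
      rw [Equiv.symm_apply_apply]
    exact h9 hd
  -- the fact `app(a, t')`
  let V' : Set (PP R (Fin n ⊕ Fin m)) := app U (Sum.elim a (fun q => e (t' q)))
  have hV' : ARe V' U (Sum.elim a (fun q => e (t' q))) := fun φ hφ => hφ
  obtain ⟨ψ', hF', -⟩ := h6 R U hU hA (Fin n) (Fin m) a V' (fun q => e (t' q)) hV'
  obtain ⟨N', g', hN'⟩ := h7 R (Own R U) (Fin m) (zer '' V' ∪ {ψ'})
  obtain ⟨r, α, β, hαβ⟩ := hret (Fin m) _ N' g' hF'.full hN'
  have hD' := fun q : AM U a => h3 R U hU (Fin n) (Fin m) a V' ψ' (fun q => e (t' q)) N' g' q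
    hF'.re hF'.fi hN'
  choose E hE using fun q => (hD' q).1
  have hEu : ∀ q e', IsDelF U a V' ψ' (fun q => e (t' q)) N' g' q e' → e' = E q :=
    fun q e' he' => (hD' q).2.1 e' (E q) he' (hE q)
  have hE0 : E p = 0 := ((hD' p).2.2 (E p) (hE p)).2
    ⟨t', hV', by
      have h9 : (fun i => p.1.2 (t' i)) - (fun q => e (t' q)) = 0 := sub_self _
      rw [h9]
      exact Sat.zero ψ'⟩
  have hE1 : E p₁ = 0 := by
    refine UMT_comp (Own R U) α β hαβ p₁.1.1.md (E p₁) fun l => ?_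
    let v : Hm R Y N' := Hm.comp β (Hm.psingle (R := R) (fun _ : Fin r => (Y : Type)) l)
    let d : EF U a Y := fun q => (Own R U).exMap v q.1.1.md (E q)
    have hd : d ∈ TR U a Y p := by
      refine ⟨Submodule.subset_span ⟨Fin m, inferInstance, V', ψ', fun q => e (t' q), N', g', v,
        hF', hN', fun q e' he' => ?_⟩, ?_⟩
      · rw [hEu q e' he']
      · show (Own R U).exMap v p.1.1.md (E p) = 0
        rw [hE0, map_zero]
    exact hvan d hd
  obtain ⟨w, hw, -⟩ := ((hD' p₁).2.2 (E p₁) (hE p₁)).1 hE1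
  -- `(a, w)` satisfies `W` in `N₁`
  have hWU : ∀ φ ∈ W, ASat φ U (Sum.elim a (fun q => (w q : U))) := by
    intro φ hφ
    refine hw φ ?_
    show ASat φ U (Sum.elim a (fun q => e (t' q)))
    have h9 := (ht' φ hφ).map he.1.1
    have h10 : e ∘ Sum.elim a₀ t' = Sum.elim a (fun q => e (t' q)) := by
      funext q
      cases q <;> rfl
    rwa [h10] at h9
  have hWN : ∀ φ ∈ W, ASat φ N₁ (Sum.elim (fun q => c (Sum.inl q)) w) := by
    intro φ hφ
    rw [el_asat hN₁]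
    have h10 : (fun q => ((Sum.elim (fun q => c (Sum.inl q)) w : Fin n ⊕ Fin m → N₁) q : U)) =
        Sum.elim a (fun q => (w q : U)) := by
      funext q
      rcases q with q | q
      · exact hc1 q
      · rfl
    rw [h10]
    exact hWU φ hφ
  -- the formula
  obtain ⟨θ, hθ, hθg⟩ := hHc (Fin m) w
  obtain ⟨χ, hχ, -⟩ := (isAP_sat (R := R) θ).ex
  have hχc : χ ∈ app (R := R) U (Sum.elim a (fun q => e (t q))) := by
    have h9 : ASat χ N₁ c := (hχ N₁ c).1 ⟨w, hθ⟩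
    have h10 := h9.map (Hm.subtype_prQ N₁)
    have h11 : (Hm.subtype N₁ ∘ c) = Sum.elim a (fun q => e (t q)) := funext hc
    rwa [h11] at h10
  have hpp : app (R := R) M (Sum.elim a₀ t) = app U (Sum.elim a (fun q => e (t q))) := by
    rw [he.app]
    congr 1
    funext q
    cases q <;> rfl
  have hu' : ARe (app (R := R) U (Sum.elim a (fun q => e (t q)))) M' (Sum.elim x u) := by
    rw [← hpp]
    exact hu
  obtain ⟨z, hz⟩ := (hχ M' (Sum.elim x u)).2 (hu' χ hχc)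
  refine ⟨z, fun φ hφ => ?_⟩
  let f : Fin n ⊕ Fin m → (Fin n ⊕ Fin k) ⊕ Fin m := Sum.map Sum.inl id
  have h9 : ASat (ren f φ) N₁ (Sum.elim c w) := by
    rw [asat_ren]
    have h10 : (Sum.elim c w) ∘ f = Sum.elim (fun q => c (Sum.inl q)) w := by
      funext q
      cases q <;> rfl
    rw [h10]
    exact hWN φ hφ
  obtain ⟨s', hs', hs'', -⟩ := hθg (ren f φ) h9
  obtain ⟨ζ, hζ⟩ := inK_app hM' (Sum.elim (Sum.elim x u) z)
  have h13 : app (R := R) U (ζ ∘ Sum.inl) = app M' (Sum.elim x u) :=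
    app_cmp (f := Sum.inl) hζ
  have h14 : Sum.elim (ζ ∘ Sum.inl) (ζ ∘ Sum.inr) = ζ := Sum.elim_comp_inl_inr ζ
  have h11 := hs'' (ζ ∘ Sum.inl) (ζ ∘ Sum.inr)
    (fun φ hφ => (asat_of_app h13 φ).2 (hu' φ (hs' hφ))) (by
      rw [h14]
      exact (asat_of_app hζ θ).2 hz)
  rw [h14] at h11
  have h15 := (asat_of_app hζ _).1 h11
  rw [asat_ren] at h15
  have h12 : (Sum.elim (Sum.elim x u) z) ∘ f = Sum.elim x z := by
    funext q
    cases q <;> rfl
  rwa [h12] at h15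

end Pool.Agent.AVF
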